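import Pool.Agent.H68.ST.NDef
import Pool.Agent.H68.GM.MFamK

/-! # ST-N7: the displacement of a function along a path -/

set_option autoImplicit false

namespace Pool.Agent.H68.ST

open MeasureTheory Set Pool.Agent.H68.VD Pool.Agent.H68.GM Pool.Agent.H6.ST
open scoped ENNReal ContDiff

noncomputable section

variable {n : ℕ} {M : Type} [TopologicalSpace M] [Nonempty M] {ι : Type} [Fintype ι]
  {ch : ι → OpenPartialHomeomorph M (Eu n)}

namespace L1lowA

omit [Nonempty M] [Fintype ι] in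
/-- The curve of a point in a chart is smooth. -/
theorem curve_smooth (hA : VolAtlas ch) {φ : ℝ → M → M} (h : MFam ch φ) (x : M) {t : ℝ} {j : ι}
    (hj : φ t x ∈ (ch j).source) : ContDiffAt ℝ ∞ (fun τ => ch j (φ τ x)) t := by
  obtain ⟨k, hk⟩ := hA.cover x
  have hq : (t, ch k x) ∈ MFamA.lD ch φ k j := by
    refine ⟨(ch k).map_source hk, ?_⟩
    simp only
    rw [(ch k).left_inv hk]
    exact hj
  have h1 : ContDiffAt ℝ ∞ (fun τ : ℝ => (τ, ch k x)) t :=
    contDiffAt_id.prodMk contDiffAt_const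
  have h2 : ContDiffAt ℝ ∞ (MFamA.lr ch φ k j ∘ fun τ : ℝ => (τ, ch k x)) t :=
    ContDiffAt.comp t (MFamA.smoothAt h hq) h1
  have h3 : (MFamA.lr ch φ k j ∘ fun τ : ℝ => (τ, ch k x)) = fun τ => ch j (φ τ x) := by
    funext τ
    simp only [Function.comp, MFamA.lr]
    rw [(ch k).left_inv hk]
  rw [h3] at h2
  exact h2

omit [Nonempty M] [Fintype ι] in
theorem curve_near {φ : ℝ → M → M} (h : MFam ch φ) (x : M) {t : ℝ} {j : ι}
    (hj : φ t x ∈ (ch j).source) : ∀ᶠ τ in nhds t, φ τ x ∈ (ch j).source := by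
  have h1 : Continuous (fun τ => φ τ x) := h.cont.comp (Continuous.prodMk_left x)
  exact h1.continuousAt.eventually ((ch j).open_source.mem_nhds hj)

omit [Nonempty M] [Fintype ι] in
/-- The function along the curve, near a time. -/
theorem fun_near {φ : ℝ → M → M} (hf : MFam ch φ) (h : M → ℝ) (x : M) {t : ℝ} {j : ι}
    (hj : φ t x ∈ (ch j).source) :
    (fun τ => h (φ τ x)) =ᶠ[nhds t]
      ((fun y => h ((ch j).symm y)) ∘ fun τ => ch j (φ τ x)) := by
  filter_upwards [curve_near hf x hj] with τ hτ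
  simp only [Function.comp]
  rw [(ch j).left_inv hτ]

omit [Nonempty M] [Fintype ι] in
theorem fun_smooth (hA : VolAtlas ch) {φ : ℝ → M → M} (hf : MFam ch φ) {h : M → ℝ}
    (hh : ∀ i, ContDiffOn ℝ ∞ (fun y => h ((ch i).symm y)) (ch i).target) (x : M) :
    ContDiff ℝ ∞ (fun τ => h (φ τ x)) := by
  rw [contDiff_iff_contDiffAt]
  intro t
  obtain ⟨j, hj⟩ := hA.cover (φ t x)
  refine ContDiffAt.congr_of_eventuallyEq ?_ (fun_near hf h x hj)
  exact ContDiffAt.comp t ((hh j).contDiffAt ((ch j).open_target.mem_nhds ((ch j).map_source hj)))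
    (curve_smooth hA hf x hj)

omit [Fintype ι] in
/-- The derivative along the curve, computed in any chart. -/
theorem fun_deriv (hA : VolAtlas ch) {φ : ℝ → M → M} (hf : MFam ch φ) {h : M → ℝ}
    (hh : ∀ i, ContDiffOn ℝ ∞ (fun y => h ((ch i).symm y)) (ch i).target) (x : M) (t : ℝ) (j : ι)
    (hj : φ t x ∈ (ch j).source) :
    deriv (fun τ => h (φ τ x)) t =
      fderiv ℝ (fun y => h ((ch j).symm y)) (ch j (φ t x)) (mvel ch φ t j (ch j (φ t x))) := by
  have h1 : DifferentiableAt ℝ (fun y => h ((ch j).symm y)) (ch j (φ t x)) :=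
    ((hh j).contDiffAt ((ch j).open_target.mem_nhds ((ch j).map_source hj))).differentiableAt
      (by simp)
  have h2 := h1.hasFDerivAt.comp_hasDerivAt t (MFamA.velEq hA hf t x j hj)
  exact (h2.congr_of_eventuallyEq (fun_near hf h x hj)).deriv

omit [Nonempty M] [Fintype ι] in
/-- A bound of the differential on the support of the cut off function. -/
theorem bound {χ : Eu n → ℝ} {h : M → ℝ} {i : ι}
    (hh : ContDiffOn ℝ ∞ (fun y => h ((ch i).symm y)) (ch i).target)
    (hχ : ∃ K : Set (Eu n), IsCompact K ∧ K ⊆ (ch i).target ∧ ∀ y ∉ K, χ y = 0) :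
    ∃ C : ℝ, 0 ≤ C ∧ ∀ y, χ y ≠ 0 → ‖fderiv ℝ (fun y => h ((ch i).symm y)) y‖ ≤ C := by
  obtain ⟨K, hK, hKt, h0⟩ := hχ
  have h1 : ContinuousOn (fun y => fderiv ℝ (fun y => h ((ch i).symm y)) y) (ch i).target :=
    hh.continuousOn_fderiv_of_isOpen (ch i).open_target (by simp)
  obtain ⟨C, hC⟩ := hK.exists_bound_of_continuousOn (h1.mono hKt)
  refine ⟨max C 0, le_max_right _ _, fun y hy => ?_⟩
  have hyK : y ∈ K := by
    by_contra hn
    exact hy (h0 y hn)
  exact le_max_of_le_left (hC y hyK)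

end L1lowA

theorem l1_low (hA : VolAtlas ch) {χ : ι → Eu n → ℝ} (hχ : PartUnity ch χ) {h : M → ℝ}
    (hh : ∀ i, ContDiffOn ℝ ∞ (fun y => h ((ch i).symm y)) (ch i).target) : ∃ C : ℝ, 0 ≤ C ∧
    ∀ φ : ℝ → M → M, MFam ch φ → φ 0 = id → ∀ x, ‖h (φ 1 x) - h x‖ₑ ≤
      ENNReal.ofReal C * ∫⁻ t in Set.Icc (0 : ℝ) 1,
        evM ch (fun j y => ‖χ j y • mvel ch φ t j y‖ₑ) (φ t x) := by
  classical
  choose C hC0 hC using fun i => L1lowA.bound (hh i) (hχ.supp i)
  refine ⟨∑ i, C i, Finset.sum_nonneg fun i _ => hC0 i, ?_⟩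
  intro φ hf hφ0 x
  have hs : ContDiff ℝ ∞ (fun τ => h (φ τ x)) := L1lowA.fun_smooth hA hf hh x
  have hdc : Continuous (deriv fun τ => h (φ τ x)) := hs.continuous_deriv (by simp)
  have hfd : ∀ t, HasDerivAt (fun τ => h (φ τ x)) (deriv (fun τ => h (φ τ x)) t) t :=
    fun t => (hs.differentiable (by simp) t).hasDerivAt
  have hint : ∫ t in (0 : ℝ)..1, deriv (fun τ => h (φ τ x)) t = h (φ 1 x) - h (φ 0 x) :=
    intervalIntegral.integral_eq_sub_of_hasDerivAt (fun t _ => hfd t)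
      (hdc.intervalIntegrable 0 1)
  have hpt : ∀ t, ‖deriv (fun τ => h (φ τ x)) t‖ₑ ≤ ENNReal.ofReal (∑ i, C i) *
      evM ch (fun j y => ‖χ j y • mvel ch φ t j y‖ₑ) (φ t x) := by
    intro t
    set D := deriv (fun τ => h (φ τ x)) t with hD
    have h1 : ‖D‖ₑ = ∑ j, if φ t x ∈ (ch j).source then
        ‖χ j (ch j (φ t x))‖ₑ * ‖D‖ₑ else 0 := by
      have h2 : ∑ j, (if φ t x ∈ (ch j).source then ‖χ j (ch j (φ t x))‖ₑ else 0) = 1 := by
        have h3 := hχ.sum (φ t x)
        have h4 : ∀ j, (if φ t x ∈ (ch j).source then ‖χ j (ch j (φ t x))‖ₑ else 0) =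
            ENNReal.ofReal (if φ t x ∈ (ch j).source then χ j (ch j (φ t x)) else 0) := by
          intro j
          split_ifs
          · rw [Real.enorm_eq_ofReal (hχ.nonneg j _)]
          · simp
        rw [Finset.sum_congr rfl fun j _ => h4 j, ← ENNReal.ofReal_sum_of_nonneg]
        · have h5 : ∑ j, (if φ t x ∈ (ch j).source then χ j (ch j (φ t x)) else 0) = 1 := by
            rw [← h3]
          rw [h5, ENNReal.ofReal_one]
        · intro j _
          split_ifs
          · exact hχ.nonneg j _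
          · exact le_rfl
      calc ‖D‖ₑ = 1 * ‖D‖ₑ := (one_mul _).symm
        _ = _ := by
          rw [← h2, Finset.sum_mul]
          refine Finset.sum_congr rfl fun j _ => ?_
          split_ifs
          · rfl
          · rw [zero_mul]
    rw [h1]
    unfold evM
    rw [Finset.mul_sum]
    refine Finset.sum_le_sum fun j _ => ?_
    by_cases hj : φ t x ∈ (ch j).source
    · rw [if_pos hj]
      simp only [if_pos hj]
      by_cases hc : χ j (ch j (φ t x)) = 0
      · rw [hc, enorm_zero, zero_mul]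
        exact zero_le
      · have h6 : ‖D‖ₑ ≤ ENNReal.ofReal (∑ i, C i) * ‖mvel ch φ t j (ch j (φ t x))‖ₑ := by
          rw [hD, L1lowA.fun_deriv hA hf hh x t j hj]
          refine (ContinuousLinearMap.le_opENorm _ _).trans ?_
          gcongr
          rw [← ofReal_norm]
          apply ENNReal.ofReal_le_ofReal
          exact (hC j _ hc).trans (Finset.single_le_sum (f := C) (fun i _ => hC0 i)
            (Finset.mem_univ j))
        rw [enorm_smul]
        calc ‖χ j (ch j (φ t x))‖ₑ * ‖D‖ₑ ≤ ‖χ j (ch j (φ t x))‖ₑ *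
            (ENNReal.ofReal (∑ i, C i) * ‖mvel ch φ t j (ch j (φ t x))‖ₑ) := by gcongr
          _ = _ := by ring
    · rw [if_neg hj]
      exact zero_le
  have h0 : h (φ 0 x) = h x := by rw [hφ0]; rfl
  rw [← h0, ← hint, intervalIntegral.integral_of_le zero_le_one]
  calc ‖∫ t in Set.Ioc (0 : ℝ) 1, deriv (fun τ => h (φ τ x)) t‖ₑ
      ≤ ∫⁻ t in Set.Ioc (0 : ℝ) 1, ‖deriv (fun τ => h (φ τ x)) t‖ₑ :=
        enorm_integral_le_lintegral_enorm _
    _ ≤ ∫⁻ t in Set.Icc (0 : ℝ) 1, ‖deriv (fun τ => h (φ τ x)) t‖ₑ :=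
        lintegral_mono_set Ioc_subset_Icc_self
    _ ≤ ∫⁻ t in Set.Icc (0 : ℝ) 1, ENNReal.ofReal (∑ i, C i) *
          evM ch (fun j y => ‖χ j y • mvel ch φ t j y‖ₑ) (φ t x) :=
        lintegral_mono fun t => hpt t
    _ = _ := lintegral_const_mul' _ _ ENNReal.ofReal_ne_top

end

end Pool.Agent.H68.ST
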