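import Pool.Agent.H6.ST.St
import Pool.Agent.H68.GM.MFamK
import Pool.Agent.H68.GM.Piola
import Pool.Agent.H68.GM.PushK
import Pool.Agent.H68.GM.WMW

/-! # ST-N5: the velocity of a path in the group of `M` is jointly smooth -/

set_option autoImplicit false

namespace Pool.Agent.H68.ST

open MeasureTheory Set Pool.Agent.H68.VD Pool.Agent.H68.GM Pool.Agent.H6.ST
open scoped ENNReal ContDiff Topology

noncomputable section

variable {n : ℕ} {M : Type} [TopologicalSpace M] [Nonempty M] {ι : Type}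
  {ch : ι → OpenPartialHomeomorph M (Eu n)} {φ : ℝ → M → M}

namespace VelSA

theorem velAt (hA : VolAtlas ch) (h : MFam ch φ) (i : ι) {q : ℝ × Eu n}
    (hq : q.2 ∈ (ch i).target) :
    ContDiffAt ℝ ∞ (fun q : ℝ × Eu n => mvel ch φ q.1 i q.2) q := by
  obtain ⟨k, hk⟩ := hA.cover (Function.invFun (φ q.1) ((ch i).symm q.2))
  have hq' : q ∈ MFamA.lD ch (fun e => Function.invFun (φ e)) i k := ⟨hq, hk⟩
  have h1 := MFamA.velForm hA h (1 : ℝ) hq'
  refine h1.congr_of_eventuallyEq ?_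
  filter_upwards [MFamA.evD (MFamA.isFamInv hA h) hq'] with z hz
  exact MFamA.velF h (hasDerivAt_id z.1) hz.1 hz.2

end VelSA

theorem vel_joint (hA : VolAtlas ch) (h : MFam ch φ) (i : ι) :
    ContDiffOn ℝ ∞ (fun q : ℝ × Eu n => mvel ch φ q.1 i q.2) {q | q.2 ∈ (ch i).target} :=
  fun _ hq => (VelSA.velAt hA h i hq).contDiffWithinAt

theorem cut_joint (hA : VolAtlas ch) (h : MFam ch φ) (i : ι) {χ : Eu n → ℝ} (hχ : ContDiff ℝ ∞ χ)
    {K : Set (Eu n)} (hK : IsCompact K) (hKs : K ⊆ (ch i).target) (h0 : ∀ y ∉ K, χ y = 0) :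
    ContDiff ℝ ∞ (fun q : ℝ × Eu n => χ q.2 • mvel ch φ q.1 i q.2) := by
  rw [contDiff_iff_contDiffAt]
  intro q
  by_cases hq : q.2 ∈ (ch i).target
  · exact (hχ.contDiffAt.comp q contDiffAt_snd).smul (VelSA.velAt hA h i hq)
  · have hqK : q.2 ∉ K := fun hh => hq (hKs hh)
    have h1 : ∀ᶠ z : ℝ × Eu n in 𝓝 q, z.2 ∈ Kᶜ :=
      (hK.isClosed.isOpen_compl.preimage continuous_snd).mem_nhds hqK
    refine (contDiffAt_const (c := (0 : Eu n))).congr_of_eventuallyEq ?_
    filter_upwards [h1] with z hz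
    rw [h0 z.2 hz, zero_smul]

/-- The derivative of the differential of the path. -/
theorem w_deriv (hA : VolAtlas ch) (h : MFam ch φ) (i j : ι) (t : ℝ) {y : Eu n}
    (hy : y ∈ (ch i).target) (hj : φ t ((ch i).symm y) ∈ (ch j).source) (e : Eu n) :
    HasDerivAt (fun τ => fderiv ℝ (fun y => ch j (φ τ ((ch i).symm y))) y e)
      (fderiv ℝ (mvel ch φ t j) (ch j (φ t ((ch i).symm y)))
        (fderiv ℝ (fun y => ch j (φ t ((ch i).symm y))) y e)) t := by
  have hq : (t, y) ∈ MFamA.lD ch φ i j := ⟨hy, hj⟩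
  set G := MFamA.lr ch φ i j with hG
  have hGs : ContDiffAt ℝ ∞ G (t, y) := MFamA.smoothAt h hq
  have hD : ContDiffAt ℝ ∞ (fderiv ℝ G) (t, y) := hGs.fderiv_right (by simp)
  have hDd : HasFDerivAt (fderiv ℝ G) (fderiv ℝ (fderiv ℝ G) (t, y)) (t, y) :=
    (hD.differentiableAt (by simp)).hasFDerivAt
  have hsym : IsSymmSndFDerivAt ℝ G (t, y) := (hGs.of_le (m := 2) (by exact WithTop.coe_le_coe.2 le_top)).isSymmSndFDerivAt (by simp)
  -- the derivative in time
  have hev : ∀ᶠ z in 𝓝 (t, y), z ∈ MFamA.lD ch φ i j := MFamA.evD h hq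
  have htend : Filter.Tendsto (fun τ : ℝ => (τ, y)) (𝓝 t) (𝓝 (t, y)) :=
    (continuous_id.prodMk continuous_const).tendsto t
  have hytend : Filter.Tendsto (fun z : Eu n => (t, z)) (𝓝 y) (𝓝 (t, y)) :=
    (continuous_const.prodMk continuous_id).tendsto y
  have h1 : HasDerivAt (fun τ : ℝ => (τ, y)) ((1 : ℝ), (0 : Eu n)) t :=
    (hasDerivAt_id t).prodMk (hasDerivAt_const t _)
  have h2 : HasDerivAt (fun τ : ℝ => fderiv ℝ G (τ, y))
      (fderiv ℝ (fderiv ℝ G) (t, y) ((1 : ℝ), (0 : Eu n))) t :=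
    hDd.comp_hasDerivAt t h1
  have h3 : HasDerivAt (fun τ : ℝ => fderiv ℝ G (τ, y) ((0 : ℝ), e))
      (fderiv ℝ (fderiv ℝ G) (t, y) ((1 : ℝ), (0 : Eu n)) ((0 : ℝ), e)) t := by
    have := h2.clm_apply (hasDerivAt_const t ((0 : ℝ), e))
    simpa using this
  have h4 : HasDerivAt (fun τ => fderiv ℝ (fun y => ch j (φ τ ((ch i).symm y))) y e)
      (fderiv ℝ (fderiv ℝ G) (t, y) ((1 : ℝ), (0 : Eu n)) ((0 : ℝ), e)) t := by
    refine h3.congr_of_eventuallyEq ?_
    filter_upwards [htend.eventually hev] with τ hτ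
    rw [(MFamA.fderivX h hτ).fderiv]
    rfl
  -- the derivative in space
  have h5 : HasFDerivAt (fun z : Eu n => (t, z)) (ContinuousLinearMap.inr ℝ ℝ (Eu n)) y :=
    hasFDerivAt_prodMk_right t y
  have h6 : HasFDerivAt (fun z : Eu n => fderiv ℝ G (t, z))
      ((fderiv ℝ (fderiv ℝ G) (t, y)).comp (ContinuousLinearMap.inr ℝ ℝ (Eu n))) y :=
    hDd.comp y h5
  have h7 : HasFDerivAt (fun z : Eu n => fderiv ℝ G (t, z) ((1 : ℝ), (0 : Eu n)))
      (((fderiv ℝ (fderiv ℝ G) (t, y)).comp (ContinuousLinearMap.inr ℝ ℝ (Eu n))).flip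
        ((1 : ℝ), (0 : Eu n))) y := by
    have := h6.clm_apply (hasFDerivAt_const ((1 : ℝ), (0 : Eu n)) y)
    simpa using this
  have h8 : HasFDerivAt (fun z : Eu n => mvel ch φ t j (ch j (φ t ((ch i).symm z))))
      (((fderiv ℝ (fderiv ℝ G) (t, y)).comp (ContinuousLinearMap.inr ℝ ℝ (Eu n))).flip
        ((1 : ℝ), (0 : Eu n))) y := by
    refine h7.congr_of_eventuallyEq ?_
    filter_upwards [hytend.eventually hev] with z hz
    have a1 : φ t ((ch i).symm z) ∈ (ch j).source := hz.2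
    have a2 : (ch i).symm z ∈ (ch i).source := (ch i).map_target hz.1
    have a3 := MFamA.velEq hA h t ((ch i).symm z) j a1
    have a4 := MFamA.pathD h (hasDerivAt_id t) a2 a1
    have a5 := a3.unique a4
    rw [(ch i).right_inv hz.1] at a5
    rw [a5]
    rfl
  have h9 : HasFDerivAt (mvel ch φ t j) (fderiv ℝ (mvel ch φ t j) (ch j (φ t ((ch i).symm y))))
      (ch j (φ t ((ch i).symm y))) := by
    have b1 : ch j (φ t ((ch i).symm y)) ∈ (ch j).target := (ch j).map_source hj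
    have b2 := (MFamA.velFld hA h t).smooth j
    exact ((b2.contDiffAt ((ch j).open_target.mem_nhds b1)).differentiableAt
      (by simp)).hasFDerivAt
  have h10 := h9.comp y (MFamA.diffX h hq)
  have h11 := h8.unique h10
  have h12 := congrArg (fun A : Eu n →L[ℝ] Eu n => A e) h11
  have h13 : fderiv ℝ (fderiv ℝ G) (t, y) ((1 : ℝ), (0 : Eu n)) ((0 : ℝ), e) =
      fderiv ℝ (mvel ch φ t j) (ch j (φ t ((ch i).symm y)))
        (fderiv ℝ (fun y => ch j (φ t ((ch i).symm y))) y e) := by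
    rw [hsym.eq]
    exact h12
  rw [h13] at h4
  exact h4

end

end Pool.Agent.H68.ST
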