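import Pool.Agent.H68.ST.NDef
import Pool.Agent.H68.ST.L1low
import Pool.Agent.H68.ST.VelS

/-! # ST-N8: the logarithm of the differential of a path -/

set_option autoImplicit false

namespace Pool.Agent.H68.ST

open MeasureTheory Set Pool.Agent.H68.VD Pool.Agent.H68.GM Pool.Agent.H6.ST
open scoped ENNReal ContDiff

noncomputable section

namespace LogDA

section

variable {n : ℕ} {M : Type} [TopologicalSpace M] {ι : Type}
  {ch : ι → OpenPartialHomeomorph M (Eu n)} {φ : ℝ → M → M}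

/-- A uniform bound of the transition maps on compact sets. -/
theorem tr_bound [T2Space M] [Fintype ι] (hA : VolAtlas ch) (L : ι → Set (Eu n))
    (hL : ∀ j, IsCompact (L j)) (hLt : ∀ j, L j ⊆ (ch j).target) :
    ∃ A : ℝ, 1 ≤ A ∧ ∀ j k, ∀ z ∈ L j, z ∈ dom ch j k → tr ch j k z ∈ L k →
      ∀ v, ‖fderiv ℝ (tr ch j k) z v‖ ≤ A * ‖v‖ := by
  choose C hC0 hC using fun j k =>
    WMWA.fderiv_bound pushKit hA j (L j) (hL j) (hLt j) k (L k) (hL k) (hLt k)
  refine ⟨1 + ∑ j, ∑ k, C j k, ?_, ?_⟩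
  · have : 0 ≤ ∑ j, ∑ k, C j k := Finset.sum_nonneg fun j _ => Finset.sum_nonneg fun k _ => hC0 j k
    linarith
  · intro j k z hz hd hk v
    have h1 := hC j k (tr ch j k z) hk (WMWA.tr_maps hd) (by rw [WMWA.tr_tr hd]; exact hz) v
    rw [WMWA.tr_tr hd] at h1
    refine h1.trans (mul_le_mul_of_nonneg_right ?_ (norm_nonneg v))
    have h2 : C j k ≤ ∑ k, C j k :=
      Finset.single_le_sum (f := fun k => C j k) (fun k _ => hC0 j k) (Finset.mem_univ k)
    have h3 : ∑ k, C j k ≤ ∑ j, ∑ k, C j k :=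
      Finset.single_le_sum (f := fun j => ∑ k, C j k)
        (fun j _ => Finset.sum_nonneg fun k _ => hC0 j k) (Finset.mem_univ j)
    linarith

open Classical in
/-- A vector at the point `x`, given by its representatives in the charts, is bounded by the mean of
the norms of the representatives. -/
theorem vec_bound [Fintype ι] {χ : ι → Eu n → ℝ} (hχ : PartUnity ch χ) {L : ι → Set (Eu n)}
    (h0 : ∀ j, ∀ y ∉ L j, χ j y = 0) {A : ℝ}
    (hb : ∀ j k, ∀ z ∈ L j, z ∈ dom ch j k → tr ch j k z ∈ L k →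
      ∀ v, ‖fderiv ℝ (tr ch j k) z v‖ ≤ A * ‖v‖) (p : ℕ) (x : M) (w : ι → Eu n)
    (hw : ∀ j k, x ∈ (ch j).source → x ∈ (ch k).source →
      w k = fderiv ℝ (tr ch j k) (ch j x) (w j)) {j : ι} (hj : x ∈ (ch j).source)
    (hLj : ch j x ∈ L j) :
    ‖w j‖ ^ p ≤ A ^ p * ∑ k, (if x ∈ (ch k).source then χ k (ch k x) * ‖w k‖ ^ p else 0) := by
  have h1 : ‖w j‖ ^ p = ∑ k, (if x ∈ (ch k).source then χ k (ch k x) else 0) * ‖w j‖ ^ p := by
    rw [← Finset.sum_mul, hχ.sum x, one_mul]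
  rw [h1, Finset.mul_sum]
  refine Finset.sum_le_sum fun k _ => ?_
  by_cases hk : x ∈ (ch k).source
  · rw [if_pos hk, if_pos hk]
    by_cases hc : χ k (ch k x) = 0
    · rw [hc]
      simp
    · have hLk : ch k x ∈ L k := by
        by_contra hn
        exact hc (h0 k _ hn)
      have hd : ch k x ∈ dom ch k j := by
        refine ⟨(ch k).map_source hk, ?_⟩
        rw [(ch k).left_inv hk]
        exact hj
      have ht : tr ch k j (ch k x) = ch j x := by
        unfold tr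
        rw [(ch k).left_inv hk]
      have h2 : ‖w j‖ ≤ A * ‖w k‖ := by
        rw [hw k j hk hj]
        exact hb k j _ hLk hd (by rw [ht]; exact hLj) _
      have h3 : ‖w j‖ ^ p ≤ A ^ p * ‖w k‖ ^ p := by
        rw [← mul_pow]
        exact pow_le_pow_left₀ (norm_nonneg _) h2 p
      calc χ k (ch k x) * ‖w j‖ ^ p ≤ χ k (ch k x) * (A ^ p * ‖w k‖ ^ p) :=
            mul_le_mul_of_nonneg_left h3 (hχ.nonneg k _)
        _ = _ := by ring
  · rw [if_neg hk, if_neg hk]
    simp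

/-- The chain rule for the differential of the path. -/
theorem comp_w (hA : VolAtlas ch) (h : MFam ch φ) {i : ι} (t : ℝ) {y : Eu n}
    (hy : y ∈ (ch i).target) {j k : ι} (hj : φ t ((ch i).symm y) ∈ (ch j).source)
    (hk : φ t ((ch i).symm y) ∈ (ch k).source) (e : Eu n) :
    fderiv ℝ (fun y => ch k (φ t ((ch i).symm y))) y e =
      fderiv ℝ (tr ch j k) (ch j (φ t ((ch i).symm y)))
        (fderiv ℝ (fun y => ch j (φ t ((ch i).symm y))) y e) := by
  have hq : (t, y) ∈ MFamA.lD ch φ i j := ⟨hy, hj⟩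
  have hd : ch j (φ t ((ch i).symm y)) ∈ dom ch j k := by
    refine ⟨(ch j).map_source hj, ?_⟩
    rw [(ch j).left_inv hj]
    exact hk
  have h1 : HasFDerivAt (fun z => tr ch j k (ch j (φ t ((ch i).symm z))))
      ((fderiv ℝ (tr ch j k) (ch j (φ t ((ch i).symm y)))).comp
        (fderiv ℝ (fun y => ch j (φ t ((ch i).symm y))) y)) y :=
    HasFDerivAt.comp (g := tr ch j k) (f := fun z => ch j (φ t ((ch i).symm z))) y
      (PushKA.diff_tr hA hd).hasFDerivAt (MFamA.diffX h hq)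
  have h2 : HasFDerivAt (fun z => ch k (φ t ((ch i).symm z)))
      ((fderiv ℝ (tr ch j k) (ch j (φ t ((ch i).symm y)))).comp
        (fderiv ℝ (fun y => ch j (φ t ((ch i).symm y))) y)) y := by
    refine h1.congr_of_eventuallyEq ?_
    have h3 : Filter.Tendsto (fun z : Eu n => (t, z)) (nhds y) (nhds (t, y)) :=
      (continuous_const.prodMk continuous_id).tendsto y
    filter_upwards [h3.eventually (MFamA.evD h hq)] with z hz
    unfold tr
    rw [(ch j).left_inv hz.2]
  rw [h2.fderiv]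
  rfl

theorem w_ne (h : MFam ch φ) {i k : ι} {t : ℝ} {y : Eu n} (hy : y ∈ (ch i).target)
    (hk : φ t ((ch i).symm y) ∈ (ch k).source) {e : Eu n} (he : e ≠ 0) :
    fderiv ℝ (fun y => ch k (φ t ((ch i).symm y))) y e ≠ 0 := by
  intro h0
  have h1 := h.det t i k y hy hk
  have hd : (fderiv ℝ (fun y => ch k (φ t ((ch i).symm y))) y).det ≠ 0 := by
    intro h2
    rw [h2] at h1
    simp at h1
  have h3 : e = 0 := by
    apply (ContinuousLinearMap.toContinuousLinearEquivOfDetNeZero _ hd).injective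
    simpa using h0
  exact he h3

theorem w_smooth (h : MFam ch φ) {i k : ι} {t : ℝ} {y : Eu n} (hy : y ∈ (ch i).target)
    (hk : φ t ((ch i).symm y) ∈ (ch k).source) (e : Eu n) :
    ContDiffAt ℝ ∞ (fun τ => fderiv ℝ (fun y => ch k (φ τ ((ch i).symm y))) y e) t := by
  have hq : (t, y) ∈ MFamA.lD ch φ i k := ⟨hy, hk⟩
  have h1 : ContDiffAt ℝ ∞ (fderiv ℝ (MFamA.lr ch φ i k)) (t, y) :=
    (MFamA.smoothAt h hq).fderiv_right (by simp)
  have h2 : ContDiffAt ℝ ∞ (fun τ : ℝ => (τ, y)) t := contDiffAt_id.prodMk contDiffAt_const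
  have h3 : ContDiffAt ℝ ∞ (fun τ : ℝ => fderiv ℝ (MFamA.lr ch φ i k) (τ, y) ((0 : ℝ), e)) t :=
    (ContDiffAt.comp (f := fun τ : ℝ => (τ, y)) (g := fderiv ℝ (MFamA.lr ch φ i k)) t h1
      h2).clm_apply contDiffAt_const
  refine h3.congr_of_eventuallyEq ?_
  have h4 : Filter.Tendsto (fun τ : ℝ => (τ, y)) (nhds t) (nhds (t, y)) :=
    (continuous_id.prodMk continuous_const).tendsto t
  filter_upwards [h4.eventually (MFamA.evD h hq)] with τ hτ
  rw [(MFamA.fderivX h hτ).fderiv]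
  rfl

open Classical in
/-- The contribution of the chart `k` to the square of the length of the vector. -/
def hk (ch : ι → OpenPartialHomeomorph M (Eu n)) (χ : ι → Eu n → ℝ) (φ : ℝ → M → M) (i : ι)
    (y e : Eu n) (k : ι) (t : ℝ) : ℝ :=
  if φ t ((ch i).symm y) ∈ (ch k).source then
    χ k (ch k (φ t ((ch i).symm y))) *
      ‖fderiv ℝ (fun y => ch k (φ t ((ch i).symm y))) y e‖ ^ 2 else 0

/-- Away from the support the contribution of the chart `k` is locally zero. -/
theorem hk_zero [T2Space M] {χ : ι → Eu n → ℝ} {L : ι → Set (Eu n)} (hL : ∀ j, IsCompact (L j))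
    (hLt : ∀ j, L j ⊆ (ch j).target) (h0 : ∀ j, ∀ y ∉ L j, χ j y = 0) (h : MFam ch φ) (i : ι)
    (y e : Eu n) (k : ι) {t : ℝ}
    (hn : ¬ (φ t ((ch i).symm y) ∈ (ch k).source ∧ ch k (φ t ((ch i).symm y)) ∈ L k)) :
    hk ch χ φ i y e k =ᶠ[nhds t] fun _ => 0 := by
  have h1 : IsClosed ((ch k).symm '' L k) := PushKA.isClosed_img ch k (hL k) (hLt k)
  have h2 : φ t ((ch i).symm y) ∉ (ch k).symm '' L k := by
    rintro ⟨z, hz, hzx⟩
    apply hn
    rw [← hzx]
    refine ⟨(ch k).map_target (hLt k hz), ?_⟩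
    rw [(ch k).right_inv (hLt k hz)]
    exact hz
  have h3 : Continuous (fun τ => φ τ ((ch i).symm y)) := h.cont.comp (Continuous.prodMk_left _)
  filter_upwards [h3.continuousAt.eventually (h1.isOpen_compl.mem_nhds h2)] with τ hτ
  unfold hk
  split_ifs with hs
  · have h4 : ch k (φ τ ((ch i).symm y)) ∉ L k := by
      intro h5
      apply hτ
      exact ⟨_, h5, (ch k).left_inv hs⟩
    rw [h0 k _ h4, zero_mul]
  · rfl

theorem hk_near (h : MFam ch φ) (χ : ι → Eu n → ℝ) (i : ι) (y e : Eu n) (k : ι) {t : ℝ}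
    (hs : φ t ((ch i).symm y) ∈ (ch k).source) :
    hk ch χ φ i y e k =ᶠ[nhds t] fun τ => χ k (ch k (φ τ ((ch i).symm y))) *
      ‖fderiv ℝ (fun y => ch k (φ τ ((ch i).symm y))) y e‖ ^ 2 := by
  filter_upwards [L1lowA.curve_near h ((ch i).symm y) hs] with τ hτ
  unfold hk
  rw [if_pos hτ]

theorem hk_smooth [T2Space M] (hA : VolAtlas ch) {χ : ι → Eu n → ℝ} (hχs : ∀ j, ContDiff ℝ ∞ (χ j))
    {L : ι → Set (Eu n)} (hL : ∀ j, IsCompact (L j))
    (hLt : ∀ j, L j ⊆ (ch j).target) (h0 : ∀ j, ∀ y ∉ L j, χ j y = 0) (h : MFam ch φ) (i : ι)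
    {y : Eu n} (hy : y ∈ (ch i).target) (e : Eu n) (k : ι) :
    ContDiff ℝ ∞ (hk ch χ φ i y e k) := by
  rw [contDiff_iff_contDiffAt]
  intro t
  by_cases hn : φ t ((ch i).symm y) ∈ (ch k).source ∧ ch k (φ t ((ch i).symm y)) ∈ L k
  · refine ContDiffAt.congr_of_eventuallyEq ?_ (hk_near h χ i y e k hn.1)
    have h1 : ContDiffAt ℝ ∞ (fun τ => χ k (ch k (φ τ ((ch i).symm y)))) t :=
      ContDiffAt.comp (f := fun τ => ch k (φ τ ((ch i).symm y))) (g := χ k) t
        (hχs k).contDiffAt (L1lowA.curve_smooth hA h _ hn.1)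
    exact h1.mul ((w_smooth h hy hn.1 e).norm_sq ℝ)
  · exact contDiffAt_const.congr_of_eventuallyEq (hk_zero hL hLt h0 h i y e k hn)

end

section

variable {n : ℕ} {M : Type} [TopologicalSpace M] [Nonempty M] {ι : Type}
  {ch : ι → OpenPartialHomeomorph M (Eu n)} {φ : ℝ → M → M}

/-- The derivative of the contribution of the chart `k`. -/
theorem hk_deriv (hA : VolAtlas ch) {χ : ι → Eu n → ℝ} (hχs : ∀ j, ContDiff ℝ ∞ (χ j))
    (h : MFam ch φ) (i : ι) {y : Eu n} (hy : y ∈ (ch i).target) (e : Eu n) (k : ι) {t : ℝ}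
    (hs : φ t ((ch i).symm y) ∈ (ch k).source) :
    deriv (hk ch χ φ i y e k) t =
      fderiv ℝ (χ k) (ch k (φ t ((ch i).symm y))) (mvel ch φ t k (ch k (φ t ((ch i).symm y)))) *
        ‖fderiv ℝ (fun y => ch k (φ t ((ch i).symm y))) y e‖ ^ 2 +
      χ k (ch k (φ t ((ch i).symm y))) *
        (2 * inner ℝ (fderiv ℝ (fun y => ch k (φ t ((ch i).symm y))) y e)
          (fderiv ℝ (mvel ch φ t k) (ch k (φ t ((ch i).symm y)))
            (fderiv ℝ (fun y => ch k (φ t ((ch i).symm y))) y e))) := by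
  rw [(hk_near h χ i y e k hs).deriv_eq]
  have h1 : HasDerivAt (fun τ => χ k (ch k (φ τ ((ch i).symm y))))
      (fderiv ℝ (χ k) (ch k (φ t ((ch i).symm y))) (mvel ch φ t k (ch k (φ t ((ch i).symm y))))) t :=
    HasFDerivAt.comp_hasDerivAt (f := fun τ => ch k (φ τ ((ch i).symm y))) t
      (((hχs k).differentiable (by simp)) _).hasFDerivAt (MFamA.velEq hA h t ((ch i).symm y) k hs)
  have h2 := (w_deriv hA h i k t hy hs e).norm_sq
  exact (h1.mul h2).deriv

/-- The bound of the derivative of the contribution of the chart `k`. -/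
theorem hk_bound [Fintype ι] (hA : VolAtlas ch) {χ : ι → Eu n → ℝ} (hχ : PartUnity ch χ) {B : ℝ}
    (hB : ∀ j y, ‖fderiv ℝ (χ j) y‖ ≤ B)
    (h : MFam ch φ) (i : ι) {y : Eu n} (hy : y ∈ (ch i).target) (e : Eu n) (k : ι) {t : ℝ}
    (hs : φ t ((ch i).symm y) ∈ (ch k).source) :
    |deriv (hk ch χ φ i y e k) t| ≤
      ‖fderiv ℝ (fun y => ch k (φ t ((ch i).symm y))) y e‖ ^ 2 *
        (3 * B * ‖mvel ch φ t k (ch k (φ t ((ch i).symm y)))‖ +
          2 * ‖fderiv ℝ (fun y => χ k y • mvel ch φ t k y) (ch k (φ t ((ch i).symm y)))‖) := by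
  rw [hk_deriv hA hχ.smooth h i hy e k hs]
  set c := ch k (φ t ((ch i).symm y)) with hc
  set w := fderiv ℝ (fun y => ch k (φ t ((ch i).symm y))) y e with hw
  set X := mvel ch φ t k with hX
  have hct : c ∈ (ch k).target := (ch k).map_source hs
  have hXd : DifferentiableAt ℝ X c :=
    (((MFamA.velFld hA h t).smooth k).contDiffAt ((ch k).open_target.mem_nhds
      hct)).differentiableAt (by simp)
  have hχd : DifferentiableAt ℝ (χ k) c := ((hχ.smooth k).differentiable (by simp)) c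
  have h1 : fderiv ℝ (fun y => χ k y • X y) c = χ k c • fderiv ℝ X c +
      (fderiv ℝ (χ k) c).smulRight (X c) := by
    exact (hχd.hasFDerivAt.smul hXd.hasFDerivAt).fderiv
  have h2 : ‖χ k c • fderiv ℝ X c‖ ≤ ‖fderiv ℝ (fun y => χ k y • X y) c‖ + B * ‖X c‖ := by
    have h3 : χ k c • fderiv ℝ X c = fderiv ℝ (fun y => χ k y • X y) c -
        (fderiv ℝ (χ k) c).smulRight (X c) := by
      rw [h1]
      abel
    rw [h3]
    refine (norm_sub_le _ _).trans ?_
    rw [ContinuousLinearMap.norm_smulRight_apply]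
    have := mul_le_mul_of_nonneg_right (hB k c) (norm_nonneg (X c))
    linarith
  have h4 : |fderiv ℝ (χ k) c (X c)| ≤ B * ‖X c‖ := by
    have h5 := (fderiv ℝ (χ k) c).le_opNorm (X c)
    rw [Real.norm_eq_abs] at h5
    exact h5.trans (mul_le_mul_of_nonneg_right (hB k c) (norm_nonneg (X c)))
  have h6 : |χ k c * (2 * inner ℝ w (fderiv ℝ X c w))| ≤
      2 * (‖w‖ ^ 2 * ‖χ k c • fderiv ℝ X c‖) := by
    have h7 : χ k c * (2 * inner ℝ w (fderiv ℝ X c w)) =
        2 * inner ℝ w ((χ k c • fderiv ℝ X c) w) := by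
      have h8 : (χ k c • fderiv ℝ X c) w = χ k c • (fderiv ℝ X c w) := rfl
      rw [h8, inner_smul_right]
      ring
    rw [h7, abs_mul, abs_two]
    refine mul_le_mul_of_nonneg_left ?_ (by norm_num)
    refine (abs_real_inner_le_norm _ _).trans ?_
    have h9 := (χ k c • fderiv ℝ X c).le_opNorm w
    calc ‖w‖ * ‖(χ k c • fderiv ℝ X c) w‖ ≤ ‖w‖ * (‖χ k c • fderiv ℝ X c‖ * ‖w‖) :=
          mul_le_mul_of_nonneg_left h9 (norm_nonneg _)
      _ = _ := by ring
  refine (abs_add_le _ _).trans ?_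
  rw [abs_mul, abs_of_nonneg (sq_nonneg ‖w‖)]
  have h10 := mul_le_mul_of_nonneg_right h4 (sq_nonneg ‖w‖)
  have h11 := mul_le_mul_of_nonneg_left h2 (sq_nonneg ‖w‖)
  nlinarith [h6, h10, h11]

open Classical in
/-- The speed of the path, measured along a curve. -/
def En [Fintype ι] (ch : ι → OpenPartialHomeomorph M (Eu n)) (χ : ι → Eu n → ℝ) (φ : ℝ → M → M)
    (x : M) (t : ℝ) : ℝ :=
  ∑ k, if φ t x ∈ (ch k).source then ‖χ k (ch k (φ t x)) • mvel ch φ t k (ch k (φ t x))‖ +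
    ‖fderiv ℝ (fun y => χ k y • mvel ch φ t k y) (ch k (φ t x))‖ else 0

theorem en_eq [Fintype ι] (χ : ι → Eu n → ℝ) (x : M) (t : ℝ) :
    evM ch (fun j y => ‖χ j y • mvel ch φ t j y‖ₑ +
      ‖fderiv ℝ (fun y => χ j y • mvel ch φ t j y) y‖ₑ) (φ t x) =
      ENNReal.ofReal (En ch χ φ x t) := by
  unfold evM En
  rw [ENNReal.ofReal_sum_of_nonneg]
  · refine Finset.sum_congr rfl fun k _ => ?_
    split_ifs
    · rw [ENNReal.ofReal_add (norm_nonneg _) (norm_nonneg _), ofReal_norm, ofReal_norm]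
    · simp
  · intro k _
    split_ifs
    · positivity
    · exact le_rfl

theorem g_bound [T2Space M] [Fintype ι] (hA : VolAtlas ch) {χ : ι → Eu n → ℝ}
    (hχ : PartUnity ch χ) {L : ι → Set (Eu n)} (hL : ∀ j, IsCompact (L j))
    (hLt : ∀ j, L j ⊆ (ch j).target) (h0 : ∀ j, ∀ y ∉ L j, χ j y = 0) {A : ℝ} (hA1 : 1 ≤ A)
    (hb : ∀ j k, ∀ z ∈ L j, z ∈ dom ch j k → tr ch j k z ∈ L k →
      ∀ v, ‖fderiv ℝ (tr ch j k) z v‖ ≤ A * ‖v‖) {B : ℝ} (hB0 : 0 ≤ B)
    (hB : ∀ j y, ‖fderiv ℝ (χ j) y‖ ≤ B) (h : MFam ch φ) (i : ι) {y : Eu n}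
    (hy : y ∈ (ch i).target) (e : Eu n) (t : ℝ) :
    |deriv (fun t => ∑ k, hk ch χ φ i y e k t) t| ≤
      A ^ 2 * (3 * B * A * Fintype.card ι + 2) * (∑ k, hk ch χ φ i y e k t) *
        En ch χ φ ((ch i).symm y) t := by
  classical
  have hsm := hk_smooth hA hχ.smooth hL hLt h0 h i hy e
  have hd : deriv (fun t => ∑ k, hk ch χ φ i y e k t) t = ∑ k, deriv (hk ch χ φ i y e k) t :=
    deriv_fun_sum fun k _ => ((hsm k).differentiable (by simp)) t
  rw [hd]
  set x := (ch i).symm y with hx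
  set g := ∑ k, hk ch χ φ i y e k t with hg
  set S := ∑ k, (if φ t x ∈ (ch k).source then
    χ k (ch k (φ t x)) * ‖mvel ch φ t k (ch k (φ t x))‖ else 0) with hS
  set D : ι → ℝ := fun k => if φ t x ∈ (ch k).source then
    ‖fderiv ℝ (fun y => χ k y • mvel ch φ t k y) (ch k (φ t x))‖ else 0 with hD
  have hg0 : 0 ≤ g := by
    refine Finset.sum_nonneg fun k _ => ?_
    unfold hk
    split_ifs
    · exact mul_nonneg (hχ.nonneg _ _) (sq_nonneg _)
    · exact le_rfl
  have hS0 : 0 ≤ S := by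
    refine Finset.sum_nonneg fun k _ => ?_
    split_ifs
    · exact mul_nonneg (hχ.nonneg _ _) (norm_nonneg _)
    · exact le_rfl
  have hD0 : ∀ k, 0 ≤ D k := by
    intro k
    simp only [hD]
    split_ifs
    · exact norm_nonneg _
    · exact le_rfl
  have hEn : En ch χ φ x t = S + ∑ k, D k := by
    unfold En
    rw [hS, ← Finset.sum_add_distrib]
    refine Finset.sum_congr rfl fun k _ => ?_
    simp only [hD]
    split_ifs
    · rw [norm_smul, Real.norm_eq_abs, abs_of_nonneg (hχ.nonneg _ _)]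
    · rw [add_zero]
  have hk1 : ∀ k, |deriv (hk ch χ φ i y e k) t| ≤ A ^ 2 * g * (3 * B * (A * S) + 2 * D k) := by
    intro k
    by_cases hn : φ t x ∈ (ch k).source ∧ ch k (φ t x) ∈ L k
    · have h1 := hk_bound hA hχ hB h i hy e k hn.1
      have h2 := vec_bound hχ h0 hb 2 (φ t x)
        (fun k => fderiv ℝ (fun y => ch k (φ t ((ch i).symm y))) y e)
        (fun j k hj hk => comp_w hA h t hy hj hk e) hn.1 hn.2
      have h3 := vec_bound hχ h0 hb 1 (φ t x) (fun k => mvel ch φ t k (ch k (φ t x)))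
        (fun j k hj hk => by
          have hdm : ch j (φ t x) ∈ dom ch j k := by
            refine ⟨(ch j).map_source hj, ?_⟩
            rw [(ch j).left_inv hj]
            exact hk
          have h4 := (MFamA.velFld hA h t).compat j k (ch j (φ t x)) hdm
          unfold tr at h4
          rw [(ch j).left_inv hj] at h4
          exact h4) hn.1 hn.2
      simp only [pow_one] at h3
      have h5 : ‖fderiv ℝ (fun y => ch k (φ t ((ch i).symm y))) y e‖ ^ 2 ≤ A ^ 2 * g := h2
      have h6 : ‖mvel ch φ t k (ch k (φ t x))‖ ≤ A * S := h3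
      have h7 : D k = ‖fderiv ℝ (fun y => χ k y • mvel ch φ t k y) (ch k (φ t x))‖ := by
        simp only [hD]
        rw [if_pos hn.1]
      rw [h7]
      refine h1.trans ?_
      have h8 : 3 * B * ‖mvel ch φ t k (ch k (φ t x))‖ ≤ 3 * B * (A * S) :=
        mul_le_mul_of_nonneg_left h6 (by positivity)
      refine mul_le_mul h5 (by linarith) (by positivity) (by positivity)
    · rw [(hk_zero hL hLt h0 h i y e k hn).deriv_eq, deriv_const, abs_zero]
      have := hD0 k
      positivity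
  calc |∑ k, deriv (hk ch χ φ i y e k) t| ≤ ∑ k, |deriv (hk ch χ φ i y e k) t| :=
        Finset.abs_sum_le_sum_abs _ _
    _ ≤ ∑ k, A ^ 2 * g * (3 * B * (A * S) + 2 * D k) := Finset.sum_le_sum fun k _ => hk1 k
    _ = A ^ 2 * g * ((3 * B * A * Fintype.card ι) * S + 2 * ∑ k, D k) := by
        have h12 : ∑ k, (3 * B * (A * S) + 2 * D k) =
            Fintype.card ι * (3 * B * (A * S)) + 2 * ∑ k, D k := by
          rw [Finset.sum_add_distrib, Finset.sum_const, Finset.card_univ, nsmul_eq_mul,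
            Finset.mul_sum (s := Finset.univ) (f := D)]
        rw [← Finset.mul_sum, h12]
        ring
    _ ≤ A ^ 2 * (3 * B * A * Fintype.card ι + 2) * g * En ch χ φ x t := by
        rw [hEn]
        have h9 : 0 ≤ ∑ k, D k := Finset.sum_nonneg fun k _ => hD0 k
        have h10 : 0 ≤ 3 * B * A * Fintype.card ι := by positivity
        have h11 : (3 * B * A * Fintype.card ι) * S + 2 * ∑ k, D k ≤
            (3 * B * A * Fintype.card ι + 2) * (S + ∑ k, D k) := by nlinarith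
        calc A ^ 2 * g * ((3 * B * A * Fintype.card ι) * S + 2 * ∑ k, D k) ≤
              A ^ 2 * g * ((3 * B * A * Fintype.card ι + 2) * (S + ∑ k, D k)) :=
              mul_le_mul_of_nonneg_left h11 (by positivity)
          _ = _ := by ring

end

end LogDA

variable {n : ℕ} {M : Type} [TopologicalSpace M] [T2Space M] [CompactSpace M] [Nonempty M]
  {ι : Type} [Fintype ι] {ch : ι → OpenPartialHomeomorph M (Eu n)}

set_option linter.unusedSectionVars false in
theorem log_low (hA : VolAtlas ch) {χ : ι → Eu n → ℝ} (hχ : PartUnity ch χ) (i : ι)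
    {K : Set (Eu n)} (hK : IsCompact K) (hs : K ⊆ (ch i).target) : ∃ C : ℝ, 0 < C ∧
    ∀ φ : ℝ → M → M, MFam ch φ → φ 0 = id → ∀ e : Eu n, ‖e‖ = 1 → ∀ y ∈ K,
    φ 1 ((ch i).symm y) ∈ (ch i).source → ch i (φ 1 ((ch i).symm y)) ∈ K →
    ENNReal.ofReal (Real.log ‖fderiv ℝ (fun y => ch i (φ 1 ((ch i).symm y))) y e‖ - C) ≤
      ENNReal.ofReal C * ∫⁻ t in Set.Icc (0 : ℝ) 1, evM ch (fun j y =>
        ‖χ j y • mvel ch φ t j y‖ₑ + ‖fderiv ℝ (fun y => χ j y • mvel ch φ t j y) y‖ₑ)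
        (φ t ((ch i).symm y)) := by
  classical
  choose Q hQ hQt hQ0 using hχ.supp
  set L : ι → Set (Eu n) := fun j => Q j ∪ (if j = i then K else ∅) with hLdef
  have hL : ∀ j, IsCompact (L j) := by
    intro j
    refine (hQ j).union ?_
    split_ifs
    · exact hK
    · exact isCompact_empty
  have hLt : ∀ j, L j ⊆ (ch j).target := by
    intro j
    refine union_subset (hQt j) ?_
    split_ifs with hj
    · rw [hj]
      exact hs
    · exact empty_subset _
  have hKL : K ⊆ L i := by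
    intro z hz
    refine Or.inr ?_
    rw [if_pos rfl]
    exact hz
  have h0 : ∀ j, ∀ y ∉ L j, χ j y = 0 := fun j y hy => hQ0 j y fun hn => hy (Or.inl hn)
  obtain ⟨A, hA1, hb⟩ := LogDA.tr_bound hA L hL hLt
  have hBe : ∀ j, ∃ B : ℝ, 0 ≤ B ∧ ∀ y, ‖fderiv ℝ (χ j) y‖ ≤ B := by
    intro j
    obtain ⟨B, hB⟩ := ((hχ.smooth j).continuous_fderiv (by simp)).bounded_above_of_compact_support
      (HasCompactSupport.fderiv (𝕜 := ℝ) (HasCompactSupport.intro (hQ j) (hQ0 j)))
    exact ⟨max B 0, le_max_right _ _, fun y => (hB y).trans (le_max_left _ _)⟩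
  choose b hb0 hbb using hBe
  set B : ℝ := ∑ j, b j with hBdef
  have hB0 : 0 ≤ B := Finset.sum_nonneg fun j _ => hb0 j
  have hB : ∀ j y, ‖fderiv ℝ (χ j) y‖ ≤ B := fun j y =>
    (hbb j y).trans (Finset.single_le_sum (f := b) (fun j _ => hb0 j) (Finset.mem_univ j))
  set C₁ : ℝ := A ^ 2 * (3 * B * A * Fintype.card ι + 2) with hC₁
  have hA0 : 0 < A := by linarith
  have hC₁0 : 0 ≤ C₁ := by positivity
  have hlA : 0 ≤ Real.log A := Real.log_nonneg hA1
  refine ⟨2 * Real.log A + C₁ + 1, by linarith, ?_⟩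
  intro φ h hφ0 e he y hy hy1 hyK
  have hyt : y ∈ (ch i).target := hs hy
  have he0 : e ≠ 0 := by
    rintro rfl
    simp at he
  set x := (ch i).symm y with hx
  set g : ℝ → ℝ := fun t => ∑ k, LogDA.hk ch χ φ i y e k t with hg
  have hsm := LogDA.hk_smooth hA hχ.smooth hL hLt h0 h i hyt e
  have hgs : ContDiff ℝ ∞ g := ContDiff.sum fun k _ => hsm k
  have hk0 : ∀ k t, 0 ≤ LogDA.hk ch χ φ i y e k t := by
    intro k t
    unfold LogDA.hk
    split_ifs
    · exact mul_nonneg (hχ.nonneg _ _) (sq_nonneg _)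
    · exact le_rfl
  have hgpos : ∀ t, 0 < g t := by
    intro t
    obtain ⟨k, hk1⟩ : ∃ k, (if φ t x ∈ (ch k).source then χ k (ch k (φ t x)) else 0) ≠ 0 := by
      by_contra hn
      push Not at hn
      have h1 := hχ.sum (φ t x)
      rw [Finset.sum_eq_zero fun k _ => hn k] at h1
      exact zero_ne_one h1
    have hks : φ t x ∈ (ch k).source := by
      by_contra hn
      rw [if_neg hn] at hk1
      exact hk1 rfl
    rw [if_pos hks] at hk1
    have h2 : 0 < LogDA.hk ch χ φ i y e k t := by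
      unfold LogDA.hk
      rw [if_pos hks]
      have h3 : 0 < χ k (ch k (φ t x)) := lt_of_le_of_ne (hχ.nonneg _ _) (Ne.symm hk1)
      have h4 : 0 < ‖fderiv ℝ (fun y => ch k (φ t ((ch i).symm y))) y e‖ :=
        norm_pos_iff.mpr (LogDA.w_ne h hyt hks he0)
      positivity
    exact lt_of_lt_of_le h2 (Finset.single_le_sum
      (f := fun k => LogDA.hk ch χ φ i y e k t) (fun k _ => hk0 k t) (Finset.mem_univ k))
  -- the logarithm of the energy
  have hlog : ContDiff ℝ ∞ (fun t => Real.log (g t)) := hgs.log fun t => (hgpos t).ne'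
  have hdc : Continuous (deriv fun t => Real.log (g t)) := hlog.continuous_deriv (by simp)
  have hfd : ∀ t, HasDerivAt (fun t => Real.log (g t)) (deriv (fun t => Real.log (g t)) t) t :=
    fun t => (hlog.differentiable (by simp) t).hasDerivAt
  have hint : ∫ t in (0 : ℝ)..1, deriv (fun t => Real.log (g t)) t =
      Real.log (g 1) - Real.log (g 0) :=
    intervalIntegral.integral_eq_sub_of_hasDerivAt (fun t _ => hfd t)
      (hdc.intervalIntegrable 0 1)
  have hpt : ∀ t, ‖deriv (fun t => Real.log (g t)) t‖ₑ ≤ ENNReal.ofReal C₁ *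
      evM ch (fun j y => ‖χ j y • mvel ch φ t j y‖ₑ +
        ‖fderiv ℝ (fun y => χ j y • mvel ch φ t j y) y‖ₑ) (φ t x) := by
    intro t
    have h1 : deriv (fun t => Real.log (g t)) t = deriv g t / g t :=
      (((hgs.differentiable (by simp)) t).hasDerivAt.log (hgpos t).ne').deriv
    rw [h1, LogDA.en_eq, ← ENNReal.ofReal_mul hC₁0, ← ofReal_norm]
    apply ENNReal.ofReal_le_ofReal
    rw [Real.norm_eq_abs, abs_div, abs_of_pos (hgpos t), div_le_iff₀ (hgpos t)]
    have h2 := LogDA.g_bound hA hχ hL hLt h0 hA1 hb hB0 hB h i hyt e t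
    refine h2.trans (le_of_eq ?_)
    simp only [hC₁, hg, hx]
    ring
  -- the end point
  have hend : 2 * Real.log ‖fderiv ℝ (fun y => ch i (φ 1 ((ch i).symm y))) y e‖ ≤
      2 * Real.log A + Real.log (g 1) := by
    have h1 := LogDA.vec_bound hχ h0 hb 2 (φ 1 x)
      (fun k => fderiv ℝ (fun y => ch k (φ 1 ((ch i).symm y))) y e)
      (fun j k hj hk => LogDA.comp_w hA h 1 hyt hj hk e) hy1 (hKL hyK)
    have h2 : ‖fderiv ℝ (fun y => ch i (φ 1 ((ch i).symm y))) y e‖ ^ 2 ≤ A ^ 2 * g 1 := h1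
    have h3 : 0 < ‖fderiv ℝ (fun y => ch i (φ 1 ((ch i).symm y))) y e‖ :=
      norm_pos_iff.mpr (LogDA.w_ne h hyt hy1 he0)
    have h4 := Real.log_le_log (by positivity) h2
    rw [Real.log_pow, Real.log_mul (by positivity) (hgpos 1).ne', Real.log_pow] at h4
    push_cast at h4
    exact h4
  -- the starting point
  have hstart : Real.log (g 0) ≤ 2 * Real.log A := by
    have h1 : g 0 ≤ A ^ 2 := by
      have h2 : A ^ 2 = ∑ k, A ^ 2 * (if x ∈ (ch k).source then χ k (ch k x) else 0) := by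
        rw [← Finset.mul_sum, hχ.sum x, mul_one]
      rw [h2]
      refine Finset.sum_le_sum fun k _ => ?_
      unfold LogDA.hk
      have h3 : φ 0 ((ch i).symm y) = x := by rw [hφ0]; rfl
      rw [h3]
      by_cases hk1 : x ∈ (ch k).source
      · rw [if_pos hk1, if_pos hk1]
        by_cases hc : χ k (ch k x) = 0
        · rw [hc]
          simp
        · have hLk : ch k x ∈ L k := by
            by_contra hn
            exact hc (h0 k _ hn)
          have h4 : (fun y => ch k (φ 0 ((ch i).symm y))) = tr ch i k := by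
            rw [hφ0]
            rfl
          rw [h4]
          have h5 := hb i k y (hKL hy) ⟨hyt, hk1⟩ hLk e
          rw [he, mul_one] at h5
          have h6 : ‖fderiv ℝ (tr ch i k) y e‖ ^ 2 ≤ A ^ 2 :=
            pow_le_pow_left₀ (norm_nonneg _) h5 2
          rw [mul_comm (A ^ 2)]
          exact mul_le_mul_of_nonneg_left h6 (hχ.nonneg _ _)
      · rw [if_neg hk1, if_neg hk1, mul_zero]
    have h7 := Real.log_le_log (hgpos 0) h1
    rw [Real.log_pow] at h7
    push_cast at h7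
    exact h7
  -- the conclusion
  have hfin : Real.log ‖fderiv ℝ (fun y => ch i (φ 1 ((ch i).symm y))) y e‖ -
      (2 * Real.log A + C₁ + 1) ≤ ‖Real.log (g 1) - Real.log (g 0)‖ := by
    rw [Real.norm_eq_abs]
    have h1 := le_abs_self (Real.log (g 1) - Real.log (g 0))
    have h2 := abs_nonneg (Real.log (g 1) - Real.log (g 0))
    linarith
  calc ENNReal.ofReal (Real.log ‖fderiv ℝ (fun y => ch i (φ 1 ((ch i).symm y))) y e‖ -
        (2 * Real.log A + C₁ + 1)) ≤ ENNReal.ofReal ‖Real.log (g 1) - Real.log (g 0)‖ :=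
        ENNReal.ofReal_le_ofReal hfin
    _ = ‖∫ t in Set.Ioc (0 : ℝ) 1, deriv (fun t => Real.log (g t)) t‖ₑ := by
        rw [← hint, intervalIntegral.integral_of_le zero_le_one, ofReal_norm]
    _ ≤ ∫⁻ t in Set.Ioc (0 : ℝ) 1, ‖deriv (fun t => Real.log (g t)) t‖ₑ :=
        enorm_integral_le_lintegral_enorm _
    _ ≤ ∫⁻ t in Set.Icc (0 : ℝ) 1, ‖deriv (fun t => Real.log (g t)) t‖ₑ :=
        lintegral_mono_set Ioc_subset_Icc_self
    _ ≤ ∫⁻ t in Set.Icc (0 : ℝ) 1, ENNReal.ofReal C₁ *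
          evM ch (fun j y => ‖χ j y • mvel ch φ t j y‖ₑ +
            ‖fderiv ℝ (fun y => χ j y • mvel ch φ t j y) y‖ₑ) (φ t x) :=
        lintegral_mono fun t => hpt t
    _ = ENNReal.ofReal C₁ * ∫⁻ t in Set.Icc (0 : ℝ) 1,
          evM ch (fun j y => ‖χ j y • mvel ch φ t j y‖ₑ +
            ‖fderiv ℝ (fun y => χ j y • mvel ch φ t j y) y‖ₑ) (φ t x) :=
        lintegral_const_mul' _ _ ENNReal.ofReal_ne_top
    _ ≤ _ := by
        gcongr
        linarith

end

end Pool.Agent.H68.ST
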