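import Pool.Agent.H68.ST.CFam
import Pool.Agent.H68.VD.RotK
import Pool.Agent.H68.VD.TwistK

/-! # ST-N9: twists with a large differential -/

set_option autoImplicit false

namespace Pool.Agent.H68.ST

open MeasureTheory Set Pool.Agent.H68.VD Pool.Agent.H68.GM Pool.Agent.H6.ST
open scoped ENNReal ContDiff

noncomputable section

variable {n : ℕ}

namespace TwLA

theorem norm_rotJ_sq {i j : Fin n} (h : i ≠ j) (x : Eu n) :
    ‖rotJ i j x‖ ^ 2 = x i ^ 2 + x j ^ 2 := by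
  have h1 := RotKA.norm_sq_add h (0 : Eu n) (-x j) (x i)
  have h2 : (0 : Eu n) + (-x j) • ev i + x i • ev j = rotJ i j x := by
    rw [RotKA.rotJ_apply]
    module
  rw [h2] at h1
  rw [h1]
  simp
  ring

theorem norm_rotJ_rot {i j : Fin n} (h : i ≠ j) (θ : ℝ) (z : Eu n) :
    |z i| ≤ ‖rotJ i j (rotR i j θ z)‖ := by
  have h1 := norm_rotJ_sq h (rotR i j θ z)
  rw [RotKA.rotR_i h, RotKA.rotR_j h] at h1
  have h2 : ‖rotJ i j (rotR i j θ z)‖ ^ 2 = z i ^ 2 + z j ^ 2 := by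
    rw [h1]
    have := Real.sin_sq_add_cos_sq θ
    linear_combination (z i ^ 2 + z j ^ 2) * this
  refine abs_le_of_sq_le_sq ?_ (norm_nonneg _)
  rw [h2]
  nlinarith [sq_nonneg (z j)]

/-- a bump function of the square of the distance -/
def bt (R ρ : ℝ) : ℝ := Real.smoothTransition (1 - ρ / R ^ 2)

theorem bt_smooth (R : ℝ) : ContDiff ℝ ∞ (bt R) := by
  unfold bt
  exact Real.smoothTransition.contDiff.comp
    (contDiff_const.sub (contDiff_id.div_const _))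

theorem bt_zero (R : ℝ) : bt R 0 = 1 := by
  unfold bt
  rw [zero_div, sub_zero]
  exact Real.smoothTransition.one

theorem bt_out {R : ℝ} (hR : 0 < R) {ρ : ℝ} (h : R ^ 2 ≤ ρ) : bt R ρ = 0 := by
  unfold bt
  apply Real.smoothTransition.zero_of_nonpos
  have h1 : 0 < R ^ 2 := by positivity
  rw [sub_nonpos, le_div_iff₀ h1]
  linarith

theorem exists_pt {R : ℝ} (hR : 0 < R) : ∃ ρ, 0 < ρ ∧ ρ < R ^ 2 ∧ deriv (bt R) ρ = -(1 / R ^ 2) := by
  have h1 : (0 : ℝ) < R ^ 2 := by positivity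
  obtain ⟨ρ, hρ, h2⟩ := exists_deriv_eq_slope (bt R) h1 (bt_smooth R).continuous.continuousOn
    ((bt_smooth R).differentiable (by simp)).differentiableOn
  refine ⟨ρ, hρ.1, hρ.2, ?_⟩
  rw [h2, bt_out hR le_rfl, bt_zero, sub_zero, zero_sub, neg_div]

/-- the path of twists -/
def tw (c : Eu n) (R k : ℝ) (i j : Fin n) (t : ℝ) : Eu n → Eu n :=
  twist c (fun ρ => rotR i j (t * (k * bt R ρ)))

theorem rot_zero (i j : Fin n) : rotR i j (0 : ℝ) = ContinuousLinearMap.id ℝ (Eu n) := by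
  have := RotKA.per i j 0
  simpa using this

theorem tw_ball {c : Eu n} {R : ℝ} (hR : 0 < R) (k : ℝ) {i j : Fin n} (h : i ≠ j) :
    BallFam c R (tw c R k i j) := by
  refine twistFam n ℝ c R (fun t ρ => rotR i j (t * (k * bt R ρ))) hR ?_ ?_ ?_ ?_
  · exact (RotKA.smooth i j).comp
      (contDiff_fst.mul (contDiff_const.mul ((bt_smooth R).comp contDiff_snd)))
  · exact fun e ρ x => RotKA.iso h _ x
  · exact fun e ρ => RotKA.det h _
  · intro e ρ hρ
    show rotR i j (e * (k * bt R ρ)) = _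
    rw [bt_out hR hρ, mul_zero, mul_zero, rot_zero]

theorem tw_cf {c : Eu n} {R r : ℝ} (hR : 0 < R) (hr : R < r) (k : ℝ) {i j : Fin n} (h : i ≠ j) :
    CF (Metric.ball c r) (tw c R k i j) := by
  have hb := tw_ball (c := c) hR k h
  refine ⟨hb.smooth, hb.bij, hb.det, Metric.closedBall c R, isCompact_closedBall c R, ?_, ?_⟩
  · exact Metric.closedBall_subset_ball hr
  · intro e x hx
    rw [Metric.mem_closedBall, not_le] at hx
    exact hb.out e x hx.le

theorem tw_zero (c : Eu n) (R k : ℝ) (i j : Fin n) (x : Eu n) : tw c R k i j 0 x = x := by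
  show c + (rotR i j (0 * (k * bt R (‖x - c‖ ^ 2)))) (x - c) = x
  rw [zero_mul, rot_zero]
  simp

theorem tw_deriv (c : Eu n) (R : ℝ) (k : ℝ) {i j : Fin n} (h : i ≠ j) (y : Eu n) :
    2 * |(y - c) i| * (|k| * |deriv (bt R) (‖y - c‖ ^ 2)|) * |(y - c) i| - 1 ≤
      ‖fderiv ℝ (tw c R k i j 1) y (ev i)‖ := by
  have hA : ContDiff ℝ ∞ (fun ρ => rotR i j (1 * (k * bt R ρ))) :=
    (RotKA.smooth i j).comp (contDiff_const.mul (contDiff_const.mul (bt_smooth R)))
  obtain ⟨B, hB, hBe⟩ := TwistKA.hasFDerivAt_twist c (fun ρ => rotR i j (1 * (k * bt R ρ))) hA y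
  have e1 : fderiv ℝ (tw c R k i j 1) y = B := hB.fderiv
  rw [e1, hBe]
  set ρ := ‖y - c‖ ^ 2 with hρ
  set z := y - c with hz
  have hd : deriv (fun ρ => rotR i j (1 * (k * bt R ρ))) ρ =
      (k * deriv (bt R) ρ) • (rotJ i j ∘L rotR i j (1 * (k * bt R ρ))) := by
    have h4 : HasDerivAt (fun ρ => 1 * (k * bt R ρ)) (k * deriv (bt R) ρ) ρ := by
      have h5 : HasDerivAt (bt R) (deriv (bt R) ρ) ρ :=
        ((bt_smooth R).differentiable (by simp) ρ).hasDerivAt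
      simpa using (h5.const_mul k).const_mul 1
    exact ((RotKA.hasDeriv h (1 * (k * bt R ρ))).scomp ρ h4).deriv
  have h6 : inner ℝ z (ev i) = z i := RotKA.inner_ev z i
  have h7 : ‖rotR i j (1 * (k * bt R ρ)) (ev i)‖ = 1 := by
    rw [RotKA.iso h, RotKA.norm_ev]
  have h8 : ‖(2 * inner ℝ z (ev i)) • (deriv (fun ρ => rotR i j (1 * (k * bt R ρ))) ρ) z‖ =
      2 * |z i| * (|k| * |deriv (bt R) ρ|) * ‖rotJ i j (rotR i j (1 * (k * bt R ρ)) z)‖ := by
    rw [hd, h6, norm_smul, smul_apply, norm_smul,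
      ContinuousLinearMap.comp_apply, Real.norm_eq_abs, Real.norm_eq_abs, abs_mul, abs_mul,
      abs_two, mul_assoc, mul_assoc, mul_assoc]
    ring
  have h9 := norm_rotJ_rot h (1 * (k * bt R ρ)) z
  have h10 : 2 * |z i| * (|k| * |deriv (bt R) ρ|) * |z i| ≤
      2 * |z i| * (|k| * |deriv (bt R) ρ|) * ‖rotJ i j (rotR i j (1 * (k * bt R ρ)) z)‖ :=
    mul_le_mul_of_nonneg_left h9 (by positivity)
  have h11 := norm_sub_norm_le
    ((2 * inner ℝ z (ev i)) • (deriv (fun ρ => rotR i j (1 * (k * bt R ρ))) ρ) z)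
    (-(rotR i j (1 * (k * bt R ρ)) (ev i)))
  rw [norm_neg, h7, h8, sub_neg_eq_add] at h11
  rw [add_comm]
  linarith

end TwLA

open TwLA

theorem tw_low (hn : 2 ≤ n) (c : Eu n) {r : ℝ} (hr : 0 < r) : ∃ (e : Eu n) (W : Set (Eu n)),
    ‖e‖ = 1 ∧ IsOpen W ∧ W.Nonempty ∧ W ⊆ Metric.ball c r ∧ ∀ C : ℝ,
    ∃ T : ℝ → Eu n → Eu n, CF (Metric.ball c r) T ∧ (∀ x, T 0 x = x) ∧
      ∀ y ∈ W, C ≤ ‖fderiv ℝ (T 1) y e‖ := by
  set i : Fin n := ⟨0, by omega⟩ with hi
  set j : Fin n := ⟨1, by omega⟩ with hj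
  have hij : i ≠ j := by
    intro h
    have := congrArg Fin.val h
    simp [hi, hj] at this
  set R : ℝ := r / 2 with hR
  have hR0 : 0 < R := by positivity
  have hRr : R < r := by rw [hR]; linarith
  obtain ⟨ρ, hρ0, hρ1, hρ2⟩ := exists_pt hR0
  have hs0 : 0 < Real.sqrt ρ := Real.sqrt_pos.2 hρ0
  have hss : Real.sqrt ρ * Real.sqrt ρ = ρ := Real.mul_self_sqrt hρ0.le
  have hR2 : 0 < R ^ 2 := by positivity
  refine ⟨ev i, {y | 1 / (2 * R ^ 2) < |deriv (bt R) (‖y - c‖ ^ 2)|} ∩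
    {y | Real.sqrt ρ / 2 < (y - c) i} ∩ Metric.ball c r, RotKA.norm_ev i, ?_, ?_, ?_, ?_⟩
  · refine (IsOpen.inter ?_ ?_).inter Metric.isOpen_ball
    · have h1 : Continuous (deriv (bt R)) := (bt_smooth R).continuous_deriv (by simp)
      have h2 : Continuous fun y : Eu n => |deriv (bt R) (‖y - c‖ ^ 2)| := by fun_prop
      exact isOpen_lt continuous_const h2
    · have h2 : Continuous fun y : Eu n => (y - c) i := by fun_prop
      exact isOpen_lt continuous_const h2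
  · refine ⟨c + Real.sqrt ρ • ev i, ⟨⟨?_, ?_⟩, ?_⟩⟩
    · show 1 / (2 * R ^ 2) < |deriv (bt R) (‖c + Real.sqrt ρ • ev i - c‖ ^ 2)|
      have h1 : ‖c + Real.sqrt ρ • (ev i : Eu n) - c‖ ^ 2 = ρ := by
        rw [add_sub_cancel_left, norm_smul, RotKA.norm_ev, mul_one, Real.norm_eq_abs,
          abs_of_pos hs0, sq, hss]
      rw [h1, hρ2, abs_neg, abs_of_pos (by positivity)]
      rw [div_lt_div_iff₀ (by positivity) hR2]
      nlinarith
    · show Real.sqrt ρ / 2 < (c + Real.sqrt ρ • ev i - c : Eu n) i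
      have h1 : (c + Real.sqrt ρ • (ev i : Eu n) - c : Eu n) i = Real.sqrt ρ := by
        rw [add_sub_cancel_left]
        simp [RotKA.ev_self]
      rw [h1]
      linarith
    · rw [Metric.mem_ball, dist_eq_norm, add_sub_cancel_left, norm_smul, RotKA.norm_ev, mul_one,
        Real.norm_eq_abs, abs_of_pos hs0]
      have h1 : Real.sqrt ρ < R := by
        rw [Real.sqrt_lt' hR0]
        exact hρ1
      linarith
  · exact Set.inter_subset_right
  · intro C
    refine ⟨tw c R ((|C| + 1) * (4 * R ^ 2 / ρ)) i j, tw_cf hR0 hRr _ hij, fun x => tw_zero c R _ i j x,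
      ?_⟩
    rintro y ⟨⟨hy1, hy2⟩, _⟩
    have h1 := tw_deriv c R ((|C| + 1) * (4 * R ^ 2 / ρ)) hij y
    refine le_trans ?_ h1
    have hy1' : 1 / (2 * R ^ 2) ≤ |deriv (bt R) (‖y - c‖ ^ 2)| := le_of_lt hy1
    have hy2' : Real.sqrt ρ / 2 ≤ |(y - c) i| := (le_of_lt hy2).trans (le_abs_self _)
    have hk : 0 < (|C| + 1) * (4 * R ^ 2 / ρ) := by positivity
    have h2 : ρ / 4 ≤ |(y - c) i| * |(y - c) i| := by
      have := mul_le_mul hy2' hy2' (by positivity) (abs_nonneg _)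
      nlinarith
    have h3 : (|C| + 1) * (4 * R ^ 2 / ρ) * (1 / (2 * R ^ 2)) * (2 * (ρ / 4)) = |C| + 1 := by
      field_simp
    have h4 : (|C| + 1) * (4 * R ^ 2 / ρ) * (1 / (2 * R ^ 2)) * (2 * (ρ / 4)) ≤
        |(|C| + 1) * (4 * R ^ 2 / ρ)| * |deriv (bt R) (‖y - c‖ ^ 2)| *
          (2 * (|(y - c) i| * |(y - c) i|)) := by
      rw [abs_of_pos hk]
      refine mul_le_mul (mul_le_mul_of_nonneg_left hy1' hk.le)
        (mul_le_mul_of_nonneg_left h2 (by norm_num)) (by positivity) (by positivity)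
    have h5 := le_abs_self C
    have h6 : 2 * |(y - c) i| * (|(|C| + 1) * (4 * R ^ 2 / ρ)| * |deriv (bt R) (‖y - c‖ ^ 2)|) *
        |(y - c) i| = |(|C| + 1) * (4 * R ^ 2 / ρ)| * |deriv (bt R) (‖y - c‖ ^ 2)| *
          (2 * (|(y - c) i| * |(y - c) i|)) := by ring
    rw [h6]
    linarith

end

end Pool.Agent.H68.ST
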