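import Pool.Agent.H6.ST.St
import Pool.Agent.H68.GM.MExtK
import Pool.Agent.H68.GM.PushK
import Pool.Agent.H68.GM.MFamK

/-! # ST-X1: extension by the identity -/

set_option autoImplicit false

namespace Pool.Agent.H68.ST

open MeasureTheory Set Pool.Agent.H68.VD Pool.Agent.H68.GM Pool.Agent.H6.ST
open scoped ENNReal ContDiff

noncomputable section

namespace XKA

variable {n : ℕ} {M : Type} [TopologicalSpace M] {ι : Type}

theorem in_target {U K : Set (Eu n)} (hK : K ⊆ U) {T : Eu n → Eu n} (hi : Function.Injective T)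
    (hT : ∀ x ∉ K, T x = x) {y : Eu n} (hy : y ∈ U) : T y ∈ U := by
  by_contra h
  have h1 : T y ∉ K := fun h2 => h (hK h2)
  have h2 : T y = y := hi (hT _ h1)
  rw [h2] at h
  exact h hy

/-- The extension is the identity off the image of `K`. -/
theorem ext_off (ch : ι → OpenPartialHomeomorph M (Eu n)) {i : ι} {K : Set (Eu n)}
    {T : Eu n → Eu n} (hT : ∀ x ∉ K, T x = x) {x : M}
    (hx : x ∉ (ch i).symm '' K) : extM ch i T x = x := by
  by_cases h : x ∈ (ch i).source
  · rw [MExtKA.ext_in ch T h, hT, (ch i).left_inv h]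
    intro h2
    exact hx ⟨ch i x, h2, (ch i).left_inv h⟩
  · exact MExtKA.ext_out ch T h

theorem comp_raw (ch : ι → OpenPartialHomeomorph M (Eu n)) {i : ι} (S T : Eu n → Eu n)
    (hT : ∀ y ∈ (ch i).target, T y ∈ (ch i).target) (x : M) :
    extM ch i (fun y => S (T y)) x = extM ch i S (extM ch i T x) := by
  by_cases h : x ∈ (ch i).source
  · have h1 : T (ch i x) ∈ (ch i).target := hT _ ((ch i).map_source h)
    rw [MExtKA.ext_in ch _ h, MExtKA.ext_in ch T h, MExtKA.ext_symm ch S h1]
  · rw [MExtKA.ext_out ch _ h, MExtKA.ext_out ch T h, MExtKA.ext_out ch S h]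

theorem inv_raw (ch : ι → OpenPartialHomeomorph M (Eu n)) {i : ι} (T S : Eu n → Eu n)
    (hl : ∀ y, S (T y) = y) (hr : ∀ y, T (S y) = y)
    (hT : ∀ y ∈ (ch i).target, T y ∈ (ch i).target)
    (hS : ∀ y ∈ (ch i).target, S y ∈ (ch i).target) :
    (∀ x, extM ch i S (extM ch i T x) = x) ∧ ∀ x, extM ch i T (extM ch i S x) = x := by
  refine ⟨fun x => ?_, fun x => ?_⟩
  · rw [← comp_raw ch S T hT]
    have : (fun y => S (T y)) = fun y => y := funext fun y => hl y
    rw [this, MExtKA.ext_id]
  · rw [← comp_raw ch T S hS]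
    have : (fun y => T (S y)) = fun y => y := funext fun y => hr y
    rw [this, MExtKA.ext_id]

theorem bij_raw (ch : ι → OpenPartialHomeomorph M (Eu n)) {i : ι} {K : Set (Eu n)}
    (hK : K ⊆ (ch i).target) (T : Eu n → Eu n)
    (hb : Function.Bijective T) (hT : ∀ x ∉ K, T x = x) :
    Function.Bijective (extM ch i T) := by
  obtain ⟨S, hl, hr⟩ := Function.bijective_iff_has_inverse.1 hb
  have hS : ∀ x ∉ K, S x = x := fun x hx => by
    have := hl x
    rwa [hT x hx] at this
  have hSi : Function.Injective S := hr.injective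
  obtain ⟨h1, h2⟩ := inv_raw ch (i := i) T S hl hr (fun y hy => in_target hK hb.1 hT hy)
    (fun y hy => in_target hK hSi hS hy)
  exact Function.bijective_iff_has_inverse.2 ⟨extM ch i S, h1, h2⟩

/-! ### The local forms -/

section

variable {E : Type*} [NormedAddCommGroup E] [NormedSpace ℝ E] {ch : ι → OpenPartialHomeomorph M (Eu n)}
  {i : ι} {K : Set (Eu n)} {T : E → Eu n → Eu n}

theorem off_open [T2Space M] (hc : IsCompact K) (hK : K ⊆ (ch i).target) :
    IsOpen ((ch i).symm '' K)ᶜ := by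
  refine IsClosed.isOpen_compl (s := (ch i).symm '' K) (self := ?_)
  refine IsCompact.isClosed ?_
  refine hc.image_of_continuousOn ?_
  exact (ch i).continuousOn_symm.mono hK

theorem off_of (hK : K ⊆ (ch i).target) {x : M} (hx : x ∉ (ch i).source) :
    x ∉ (ch i).symm '' K := by
  rintro ⟨y, hy, rfl⟩
  exact hx ((ch i).map_target (hK hy))

theorem cont [T2Space M] (hc : IsCompact K) (hK : K ⊆ (ch i).target)
    (hT : CF (ch i).target T) (hTK : ∀ e, ∀ x ∉ K, T e x = x) :
    Continuous (fun q : E × M => extM ch i (T q.1) q.2) := by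
  rw [continuous_iff_continuousAt]
  rintro ⟨e, x⟩
  by_cases h : x ∈ (ch i).source
  · have h1 : ContinuousAt (fun q : E × M => (ch i).symm (T q.1 (ch i q.2))) (e, x) := by
      have h2 : T e (ch i x) ∈ (ch i).target :=
        in_target hK (hT.bij e).1 (hTK e) ((ch i).map_source h)
      have h3 : ContinuousAt (fun q : E × M => T q.1 (ch i q.2)) (e, x) := by
        have h4 : ContinuousAt (fun q : E × M => (q.1, ch i q.2)) (e, x) :=
          continuousAt_fst.prodMk (ContinuousAt.comp (x := ((e, x) : E × M)) (f := Prod.snd)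
            ((ch i).continuousAt h) continuousAt_snd)
        exact ContinuousAt.comp (x := ((e, x) : E × M)) (f := fun q : E × M => (q.1, ch i q.2))
          hT.smooth.continuous.continuousAt h4
      exact ContinuousAt.comp (x := ((e, x) : E × M)) (f := fun q : E × M => T q.1 (ch i q.2))
        ((ch i).continuousAt_symm h2) h3
    refine h1.congr ?_
    have h5 : IsOpen {q : E × M | q.2 ∈ (ch i).source} :=
      (ch i).open_source.preimage continuous_snd
    filter_upwards [h5.mem_nhds (show (e, x) ∈ {q : E × M | q.2 ∈ (ch i).source} from h)] with q hq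
    exact (MExtKA.ext_in ch _ hq).symm
  · have h1 : ContinuousAt (fun q : E × M => q.2) (e, x) := continuousAt_snd
    refine h1.congr ?_
    have h5 : IsOpen {q : E × M | q.2 ∈ ((ch i).symm '' K)ᶜ} :=
      (off_open hc hK).preimage continuous_snd
    filter_upwards [h5.mem_nhds (show (e, x) ∈ {q : E × M |
      q.2 ∈ ((ch i).symm '' K)ᶜ} from off_of hK h)] with q hq
    exact (ext_off ch (hTK q.1) hq).symm

/-- Near a point over the chart `i`. -/
theorem local_in (hK : K ⊆ (ch i).target)
    (hT : CF (ch i).target T) (hTK : ∀ e, ∀ x ∉ K, T e x = x)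
    (j k : ι) (e : E) (y : Eu n) (hy : y ∈ (ch j).target)
    (hx : (ch j).symm y ∈ (ch i).source)
    (hk : extM ch i (T e) ((ch j).symm y) ∈ (ch k).source) :
    y ∈ dom ch j i ∧ T e (tr ch j i y) ∈ dom ch i k ∧
    (fun q : E × Eu n => ch k (extM ch i (T q.1) ((ch j).symm q.2))) =ᶠ[nhds (e, y)]
      fun q => tr ch i k (T q.1 (tr ch j i q.2)) := by
  have h1 : T e (tr ch j i y) ∈ (ch i).target :=
    in_target hK (hT.bij e).1 (hTK e) ((ch i).map_source hx)
  refine ⟨⟨hy, hx⟩, ⟨h1, ?_⟩, ?_⟩
  · rw [MExtKA.ext_in ch _ hx] at hk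
    exact hk
  · have h5 : IsOpen {q : E × Eu n | q.2 ∈ dom ch j i} :=
      (MExtKA.dom_open ch j i).preimage continuous_snd
    filter_upwards [h5.mem_nhds (show (e, y) ∈ {q : E × Eu n | q.2 ∈ dom ch j i} from ⟨hy, hx⟩)]
      with q hq
    show ch k (extM ch i (T q.1) ((ch j).symm q.2)) = ch k ((ch i).symm (T q.1 (ch i ((ch j).symm q.2))))
    rw [MExtKA.ext_in ch _ hq.2]

/-- Near a point off the chart `i`. -/
theorem local_out [T2Space M] (hc : IsCompact K) (hK : K ⊆ (ch i).target)
    (hTK : ∀ e, ∀ x ∉ K, T e x = x) (j k : ι) (e : E) (y : Eu n) (hy : y ∈ (ch j).target)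
    (hx : (ch j).symm y ∉ (ch i).source)
    (hk : extM ch i (T e) ((ch j).symm y) ∈ (ch k).source) :
    y ∈ dom ch j k ∧
    (fun q : E × Eu n => ch k (extM ch i (T q.1) ((ch j).symm q.2))) =ᶠ[nhds (e, y)]
      fun q => tr ch j k q.2 := by
  rw [MExtKA.ext_out ch _ hx] at hk
  refine ⟨⟨hy, hk⟩, ?_⟩
  have h5 : IsOpen ((ch j).target ∩ (ch j).symm ⁻¹' ((ch i).symm '' K)ᶜ) :=
    (ch j).isOpen_inter_preimage_symm (off_open hc hK)
  have h6 : IsOpen {q : E × Eu n | q.2 ∈ (ch j).target ∩ (ch j).symm ⁻¹'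
      ((ch i).symm '' K)ᶜ} := h5.preimage continuous_snd
  filter_upwards [h6.mem_nhds (show (e, y) ∈ {q : E × Eu n | q.2 ∈ (ch j).target ∩
    (ch j).symm ⁻¹' ((ch i).symm '' K)ᶜ} from ⟨hy, off_of hK hx⟩)] with q hq
  show ch k (extM ch i (T q.1) ((ch j).symm q.2)) = ch k ((ch j).symm q.2)
  rw [ext_off ch (hTK q.1) hq.2]

theorem fam [T2Space M] (hA : VolAtlas ch) (hT : CF (ch i).target T) :
    MFam ch (fun e => extM ch i (T e)) := by
  obtain ⟨K, hc, hK, hTK⟩ := hT.supp
  refine ⟨cont hc hK hT hTK, ?_, fun e => bij_raw ch hK (T e) (hT.bij e) (hTK e), ?_⟩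
  · rintro j k ⟨e, y⟩ ⟨hy, hk⟩
    refine ContDiffAt.contDiffWithinAt ?_
    by_cases hx : (ch j).symm y ∈ (ch i).source
    · obtain ⟨h1, h2, h3⟩ := local_in hK hT hTK j k e y hy hx hk
      refine ContDiffAt.congr_of_eventuallyEq ?_ h3
      have a1 : ContDiffAt ℝ ∞ (tr ch j i) y :=
        (hA.smooth j i).contDiffAt ((MExtKA.dom_open ch j i).mem_nhds h1)
      have a2 : ContDiffAt ℝ ∞ (tr ch i k) (T e (tr ch j i y)) :=
        (hA.smooth i k).contDiffAt ((MExtKA.dom_open ch i k).mem_nhds h2)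
      have a3 : ContDiffAt ℝ ∞ (fun q : E × Eu n => tr ch j i q.2) (e, y) :=
        ContDiffAt.comp (e, y) (g := tr ch j i) (f := fun q : E × Eu n => q.2) a1 contDiffAt_snd
      have a4 : ContDiffAt ℝ ∞ (fun q : E × Eu n => (q.1, tr ch j i q.2)) (e, y) :=
        contDiffAt_fst.prodMk a3
      have a5 : ContDiffAt ℝ ∞ (fun q : E × Eu n => T q.1 (tr ch j i q.2)) (e, y) :=
        ContDiffAt.comp (e, y) (g := fun q : E × Eu n => T q.1 q.2)
          (f := fun q : E × Eu n => (q.1, tr ch j i q.2)) hT.smooth.contDiffAt a4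
      exact ContDiffAt.comp (e, y) (g := tr ch i k)
        (f := fun q : E × Eu n => T q.1 (tr ch j i q.2)) a2 a5
    · obtain ⟨h1, h3⟩ := local_out hc hK hTK j k e y hy hx hk
      refine ContDiffAt.congr_of_eventuallyEq ?_ h3
      have a1 : ContDiffAt ℝ ∞ (tr ch j k) y :=
        (hA.smooth j k).contDiffAt ((MExtKA.dom_open ch j k).mem_nhds h1)
      exact ContDiffAt.comp (e, y) (g := tr ch j k) (f := fun q : E × Eu n => q.2) a1
        contDiffAt_snd
  · intro e j k y hy hk
    have hp : Filter.Tendsto (fun y : Eu n => ((e, y) : E × Eu n)) (nhds y) (nhds (e, y)) :=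
      (Continuous.prodMk_right e).tendsto y
    by_cases hx : (ch j).symm y ∈ (ch i).source
    · obtain ⟨h1, h2, h3⟩ := local_in hK hT hTK j k e y hy hx hk
      have h4 : (fun y : Eu n => ch k (extM ch i (T e) ((ch j).symm y))) =ᶠ[nhds y]
          fun y => tr ch i k (T e (tr ch j i y)) := hp.eventually h3
      have a1 : HasFDerivAt (tr ch j i) (fderiv ℝ (tr ch j i) y) y :=
        (((hA.smooth j i).contDiffAt ((MExtKA.dom_open ch j i).mem_nhds h1)).differentiableAt
          (by simp)).hasFDerivAt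
      have a2 : HasFDerivAt (tr ch i k) (fderiv ℝ (tr ch i k) (T e (tr ch j i y)))
          (T e (tr ch j i y)) :=
        (((hA.smooth i k).contDiffAt ((MExtKA.dom_open ch i k).mem_nhds h2)).differentiableAt
          (by simp)).hasFDerivAt
      have hTe : ContDiff ℝ ∞ (T e) := hT.smooth.comp (contDiff_const.prodMk contDiff_id)
      have a3 : HasFDerivAt (T e) (fderiv ℝ (T e) (tr ch j i y)) (tr ch j i y) :=
        (hTe.differentiable (by simp)).differentiableAt.hasFDerivAt
      have a4 := HasFDerivAt.comp y a2 (HasFDerivAt.comp y a3 a1)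
      have a5 : fderiv ℝ (fun y => tr ch i k (T e (tr ch j i y))) y =
          (fderiv ℝ (tr ch i k) (T e (tr ch j i y))).comp
            ((fderiv ℝ (T e) (tr ch j i y)).comp (fderiv ℝ (tr ch j i) y)) := a4.fderiv
      rw [h4.fderiv_eq, a5]
      have b1 := hA.det j i y h1
      have b2 := hA.det i k _ h2
      have b3 := hT.det e (tr ch j i y)
      simp only [ContinuousLinearMap.det, ContinuousLinearMap.toLinearMap_comp,
        LinearMap.det_comp] at b1 b2 b3 ⊢
      rw [abs_mul, abs_mul, b1, b2, b3]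
      simp
    · obtain ⟨h1, h3⟩ := local_out hc hK hTK j k e y hy hx hk
      have h4 : (fun y : Eu n => ch k (extM ch i (T e) ((ch j).symm y))) =ᶠ[nhds y]
          fun y => tr ch j k y := hp.eventually h3
      rw [h4.fderiv_eq]
      exact hA.det j k y h1

end

/-! ### Velocities -/

theorem velExt [Nonempty M] (ch : ι → OpenPartialHomeomorph M (Eu n)) (hA : VolAtlas ch)
    (i : ι) (T : ℝ → Eu n → Eu n) (hT : CF (ch i).target T) (t : ℝ) (j : ι) (y : Eu n) :
    mvel ch (fun t => extM ch i (T t)) t j y = push ch i (vel T t) j y := by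
  obtain ⟨K, hc, hK, hTK⟩ := hT.supp
  have hb := bij_raw ch hK (T t) (hT.bij t) (hTK t)
  unfold mvel push
  by_cases hy : y ∈ (ch j).target
  · rw [if_pos hy]
    by_cases hx : (ch j).symm y ∈ (ch i).source
    · have hd : y ∈ dom ch j i := ⟨hy, hx⟩
      rw [if_pos hd]
      obtain ⟨z, hz⟩ := (hT.bij t).2 (tr ch j i y)
      have hw : tr ch j i y ∈ (ch i).target := (ch i).map_source hx
      have hzt : z ∈ (ch i).target := by
        by_contra h
        rw [hTK t z (fun h2 => h (hK h2))] at hz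
        rw [hz] at h
        exact h hw
      have h1 : extM ch i (T t) ((ch i).symm z) = (ch j).symm y := by
        rw [MExtKA.ext_symm ch _ hzt, hz]
        exact (ch i).left_inv hx
      rw [MExtKA.invFunM hb.1 h1]
      have h2 : (fun τ => ch j (extM ch i (T τ) ((ch i).symm z))) = fun τ => tr ch i j (T τ z) := by
        funext τ
        rw [MExtKA.ext_symm ch _ hzt]
        rfl
      rw [h2]
      have hd2 : T t z ∈ dom ch i j := by
        rw [hz]
        refine ⟨hw, ?_⟩
        show (ch i).symm (ch i ((ch j).symm y)) ∈ (ch j).source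
        rw [(ch i).left_inv hx]
        exact (ch j).map_target hy
      have a2 : HasFDerivAt (tr ch i j) (fderiv ℝ (tr ch i j) (T t z)) (T t z) :=
        (((hA.smooth i j).contDiffAt ((MExtKA.dom_open ch i j).mem_nhds hd2)).differentiableAt
          (by simp)).hasFDerivAt
      have h3 : ContDiff ℝ ∞ (fun τ => T τ z) := hT.smooth.comp (contDiff_id.prodMk contDiff_const)
      have h4 : HasDerivAt (fun τ => T τ z) (deriv (fun τ => T τ z) t) t :=
        ((h3.differentiable (by simp)) t).hasDerivAt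
      have h5 : HasDerivAt (tr ch i j ∘ fun τ => T τ z)
          (fderiv ℝ (tr ch i j) (T t z) (deriv (fun τ => T τ z) t)) t :=
        a2.comp_hasDerivAt t h4
      change deriv (tr ch i j ∘ fun τ => T τ z) t = _
      rw [h5.deriv, hz]
      unfold vel
      rw [ExtKA.invFun_eq (hT.bij t).1 hz]
    · have hd : y ∉ dom ch j i := fun h => hx h.2
      rw [if_neg hd, MExtKA.invFunM hb.1 (MExtKA.ext_out ch (T t) hx)]
      have h2 : (fun τ => ch j (extM ch i (T τ) ((ch j).symm y))) = fun _ => ch j ((ch j).symm y) := by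
        funext τ
        rw [MExtKA.ext_out ch _ hx]
      rw [h2, deriv_const]
  · have hd : y ∉ dom ch j i := fun h => hy h.1
    rw [if_neg hy, if_neg hd]

end XKA

theorem xKit : XKit where
  fam := fun _ _ _ _ _ _ hA _ _ _ _ _ hT => XKA.fam hA hT
  comp := fun _ _ _ _ ch _ S T hT x => XKA.comp_raw ch S T hT x
  inv := fun _ _ _ _ _ ch i T hb hT => by
    have hl : ∀ y, Function.invFun T (T y) = y := Function.leftInverse_invFun hb.1
    have hr : ∀ y, T (Function.invFun T y) = y := Function.rightInverse_invFun hb.2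
    obtain ⟨h1, h2⟩ := XKA.inv_raw ch (i := i) T (Function.invFun T) hl hr
      (fun y hy => (hT y).2 hy) (fun y hy => (hT _).1 (by rw [hr]; exact hy))
    funext x
    refine (MExtKA.invFunM (Function.LeftInverse.injective h1) (h2 x)).symm
  vel := fun _ _ _ _ _ _ ch hA i T hT t j y => XKA.velExt ch hA i T hT t j y

end

end Pool.Agent.H68.ST
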