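import Pool.Agent.H68.ST.FlowI
import Pool.Agent.H68.ST.L1low
import Pool.Agent.H68.ST.LogD
import Pool.Agent.H68.ST.TwL
import Pool.Agent.H68.ST.XK
import Pool.Agent.H68.GM.Tr

/-! # ST-N10: the lower bounds of the distance -/

set_option autoImplicit false

namespace Pool.Agent.H68.ST

open MeasureTheory Set Pool.Agent.H68.VD Pool.Agent.H68.GM Pool.Agent.H6.ST
open scoped ENNReal ContDiff Topology

noncomputable section

namespace NmCA

variable {n : ℕ} {M : Type} [TopologicalSpace M] {ι : Type}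

/-! ### Lower bounds of the norms -/

theorem slob_ge0 (s : ℝ) (u : Eu n → Eu n) : ∫⁻ x, ‖u x‖ₑ ≤ slobE s 1 u := by
  unfold slobE
  refine le_trans ?_ le_self_add
  have h0 : 0 ∈ Finset.range (⌊s⌋₊ + 1) := Finset.mem_range.mpr (Nat.succ_pos _)
  refine le_trans ?_ (Finset.single_le_sum (f := fun k => ∫⁻ x, dnorm k u x ^ (1 : ℝ))
    (fun _ _ => zero_le) h0)
  refine lintegral_mono fun x => ?_
  simp only [ENNReal.rpow_one]
  rw [dnorm, norm_iteratedFDeriv_zero, ofReal_norm]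

theorem slob_ge1 {s : ℝ} (hs : 1 ≤ s) {u : Eu n → Eu n} (hu : ContDiff ℝ ∞ u) :
    ∫⁻ x, (‖u x‖ₑ + ‖fderiv ℝ u x‖ₑ) ≤ slobE s 1 u := by
  rw [lintegral_add_left hu.continuous.enorm.measurable]
  unfold slobE
  refine le_trans ?_ le_self_add
  have h1 : 1 ≤ ⌊s⌋₊ := by
    rw [Nat.le_floor_iff' one_ne_zero]
    exact_mod_cast hs
  have h2 : ({0, 1} : Finset ℕ) ⊆ Finset.range (⌊s⌋₊ + 1) := by
    intro k hk
    simp only [Finset.mem_insert, Finset.mem_singleton] at hk
    rw [Finset.mem_range]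
    omega
  refine le_trans ?_ (Finset.sum_le_sum_of_subset h2)
  rw [Finset.sum_pair zero_ne_one]
  refine add_le_add (lintegral_mono fun x => ?_) (lintegral_mono fun x => ?_)
  · simp only [ENNReal.rpow_one]
    rw [dnorm, norm_iteratedFDeriv_zero, ofReal_norm]
  · simp only [ENNReal.rpow_one]
    rw [dnorm, norm_iteratedFDeriv_one, ofReal_norm]

theorem w1_ge0 [Fintype ι] (ch : ι → OpenPartialHomeomorph M (Eu n)) {χ : ι → Eu n → ℝ} {s : ℝ}
    (hs : 0 ≤ s) (X : ι → Eu n → Eu n) :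
    ∑ j, ∫⁻ z in (ch j).target, ‖χ j z • X j z‖ₑ ≤ w1Man χ s X := by
  unfold w1Man
  refine Finset.sum_le_sum fun j _ => ?_
  rw [w1E, if_pos hs]
  exact (setLIntegral_le_lintegral _ _).trans (slob_ge0 s (fun y => χ j y • X j y))

theorem w1_ge1 [Fintype ι] (ch : ι → OpenPartialHomeomorph M (Eu n)) {χ : ι → Eu n → ℝ} {s : ℝ}
    (hs : 1 ≤ s) (X : ι → Eu n → Eu n) (hX : ∀ j, ContDiff ℝ ∞ (fun y => χ j y • X j y)) :
    ∑ j, ∫⁻ z in (ch j).target, (‖χ j z • X j z‖ₑ + ‖fderiv ℝ (fun y => χ j y • X j y) z‖ₑ) ≤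
      w1Man χ s X := by
  unfold w1Man
  refine Finset.sum_le_sum fun j _ => ?_
  rw [w1E, if_pos (zero_le_one.trans hs)]
  exact (setLIntegral_le_lintegral _ _).trans (slob_ge1 hs (hX j))

/-! ### Functions on `M` which come from a chart -/

open Classical in
/-- The function `g` in the chart `i`, zero outside of the chart. -/
def hM (ch : ι → OpenPartialHomeomorph M (Eu n)) (i : ι) (g : Eu n → ℝ) (x : M) : ℝ :=
  if x ∈ (ch i).source then g (ch i x) else 0

theorem hM_symm (ch : ι → OpenPartialHomeomorph M (Eu n)) {i : ι} (g : Eu n → ℝ) {y : Eu n}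
    (hy : y ∈ (ch i).target) : hM ch i g ((ch i).symm y) = g y := by
  unfold hM
  rw [if_pos ((ch i).map_target hy), (ch i).right_inv hy]

theorem hM_smooth [T2Space M] {ch : ι → OpenPartialHomeomorph M (Eu n)} (hA : VolAtlas ch) (i : ι)
    {g : Eu n → ℝ} (hg : ContDiff ℝ ∞ g) {K : Set (Eu n)} (hK : IsCompact K)
    (hs : K ⊆ (ch i).target) (h0 : ∀ y ∉ K, g y = 0) (j : ι) :
    ContDiffOn ℝ ∞ (fun y => hM ch i g ((ch j).symm y)) (ch j).target := by
  intro y hy
  refine ContDiffAt.contDiffWithinAt ?_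
  by_cases h : (ch j).symm y ∈ (ch i).source
  · have hd : y ∈ dom ch j i := ⟨hy, h⟩
    have ho := (PushKA.isOpen_dom ch j i).mem_nhds hd
    have h1 : ContDiffAt ℝ ∞ (fun y => g (tr ch j i y)) y :=
      hg.contDiffAt.comp y ((hA.smooth j i).contDiffAt ho)
    refine h1.congr_of_eventuallyEq ?_
    filter_upwards [ho] with z hz
    unfold hM
    rw [if_pos hz.2]
    rfl
  · have hc := PushKA.isClosed_img ch i hK hs
    have hn : (ch j).symm y ∉ (ch i).symm '' K := by
      rintro ⟨z, hz, hzy⟩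
      rw [← hzy] at h
      exact h ((ch i).map_target (hs hz))
    have h1 : ∀ᶠ z in 𝓝 y, (ch j).symm z ∉ (ch i).symm '' K :=
      ((ch j).continuousAt_symm hy).eventually (hc.isOpen_compl.mem_nhds hn)
    refine (contDiffAt_const (c := (0 : ℝ))).congr_of_eventuallyEq ?_
    filter_upwards [h1] with z hz
    unfold hM
    split_ifs with h2
    · refine h0 _ fun h3 => hz ⟨_, h3, ?_⟩
      exact (ch i).left_inv h2
    · rfl

/-! ### The extension -/

theorem ext_zero (ch : ι → OpenPartialHomeomorph M (Eu n)) (i : ι) {T : Eu n → Eu n}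
    (hT : ∀ x, T x = x) : extM ch i T = id := by
  funext x
  unfold extM
  split_ifs with h
  · rw [hT, (ch i).left_inv h]
    rfl
  · rfl

/-- The set up: a ball in a chart. -/
theorem exists_ball [Nonempty M] {ch : ι → OpenPartialHomeomorph M (Eu n)} (hA : VolAtlas ch) :
    ∃ (i : ι) (c : Eu n) (r : ℝ), 0 < r ∧ Metric.closedBall c r ⊆ (ch i).target := by
  obtain ⟨x⟩ := ‹Nonempty M›
  obtain ⟨i, hi⟩ := hA.cover x
  obtain ⟨r, hr, hb⟩ := Metric.nhds_basis_closedBall.mem_iff.mp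
    ((ch i).open_target.mem_nhds ((ch i).map_source hi))
  exact ⟨i, ch i x, r, hr, hb⟩

theorem ext_mg [T2Space M] {ch : ι → OpenPartialHomeomorph M (Eu n)} (hA : VolAtlas ch) {i : ι}
    {c : Eu n} {r : ℝ} (hb : Metric.closedBall c r ⊆ (ch i).target) {T : ℝ → Eu n → Eu n}
    (hT : CF (Metric.ball c r) T) (h0 : ∀ x, T 0 x = x) : MG ch (extM ch i (T 1)) := by
  rw [TrB.mg_iff]
  exact ⟨fun t => extM ch i (T t), xKit.fam n M ι ch hA i ℝ T
    (cf_mono (Metric.ball_subset_closedBall.trans hb) hT), ext_zero ch i h0, rfl⟩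

/-- The extension in the chart. -/
theorem ext_at {ch : ι → OpenPartialHomeomorph M (Eu n)} {i : ι}
    {c : Eu n} {r : ℝ} (hb : Metric.closedBall c r ⊆ (ch i).target) {T : ℝ → Eu n → Eu n}
    (hT : CF (Metric.ball c r) T) {y : Eu n} (hy : y ∈ (ch i).target) :
    T 1 y ∈ (ch i).target ∧ extM ch i (T 1) ((ch i).symm y) = (ch i).symm (T 1 y) :=
  ⟨(cf_mem (cf_mono (Metric.ball_subset_closedBall.trans hb) hT) 1 y).mpr hy,
    MExtKA.ext_symm ch (T 1) hy⟩

/-! ### The distance -/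

theorem sdist_ge [Nonempty M] {ch : ι → OpenPartialHomeomorph M (Eu n)}
    {N : (ι → Eu n → Eu n) → ℝ≥0∞} {f g : M → M} {a : ℝ≥0∞}
    (h : ∀ φ : ℝ → M → M, MFam ch φ → φ 0 = f → φ 1 = g → a ≤ mlen ch N φ) :
    a ≤ sdist ch N f g := by
  rw [TrB.sdist_eq]
  unfold mdist
  exact le_iInf fun φ => le_iInf fun hφ => h φ hφ.1 hφ.2.1 hφ.2.2

/-- Integration over the chart. -/
theorem int_chart [Nonempty M] [Fintype ι] {ch : ι → OpenPartialHomeomorph M (Eu n)}
    (hA : VolAtlas ch) {φ : ℝ → M → M} (h : MFam ch φ) (i : ι) {G : ℝ → ι → Eu n → ℝ≥0∞}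
    (hG : ∀ j, Measurable (fun q : ℝ × Eu n => G q.1 j q.2)) {N : (ι → Eu n → Eu n) → ℝ≥0∞}
    (hN : ∀ t, ∑ j, ∫⁻ z in (ch j).target, G t j z ≤ N (mvel ch φ t)) {C : ℝ} {V : Set (Eu n)}
    (hV : MeasurableSet V) (hVt : V ⊆ (ch i).target) {q : Eu n → ℝ≥0∞}
    (hq : ∀ y ∈ V, q y ≤ ENNReal.ofReal C *
      ∫⁻ t in Set.Icc (0 : ℝ) 1, evM ch (G t) (φ t ((ch i).symm y))) :
    ∫⁻ y in V, q y ≤ ENNReal.ofReal C * mlen ch N φ := by
  refine (setLIntegral_mono' hV hq).trans ?_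
  rw [lintegral_const_mul' _ _ ENNReal.ofReal_ne_top]
  refine mul_le_mul_right ?_ _
  refine (lintegral_mono_set hVt).trans ((flow_int hA h i hG).trans ?_)
  exact lintegral_mono fun t => hN t

theorem ge_of_mul {a b c : ℝ≥0∞} (h : a ≤ c * b) : a / c ≤ b := by
  refine ENNReal.div_le_of_le_mul ?_
  rw [mul_comm]
  exact h

end NmCA

open NmCA

theorem nm3 : NM3 := by
  intro n M _ _ _ _ ι _ ch hA χ hχ hn s hs
  obtain ⟨i, c, r, hr, hb⟩ := exists_ball hA
  obtain ⟨e, W, he, hW, ⟨y1, hy1⟩, hWb, hT⟩ := tw_low hn c hr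
  obtain ⟨T, hT1, hT0, hTW⟩ := hT 2
  have hWt : W ⊆ (ch i).target := (hWb.trans Metric.ball_subset_closedBall).trans hb
  -- a point which is moved
  obtain ⟨y0, hy0, hne⟩ : ∃ y ∈ W, T 1 y ≠ y := by
    by_contra hcon
    push Not at hcon
    have h1 : T 1 =ᶠ[𝓝 y1] id := by
      filter_upwards [hW.mem_nhds hy1] with z hz
      exact hcon z hz
    have h2 := hTW y1 hy1
    rw [h1.fderiv_eq, fderiv_id, ContinuousLinearMap.id_apply, he] at h2
    norm_num at h2
  have hT1d : ContDiff ℝ ∞ (T 1) := hT1.smooth.comp (contDiff_const.prodMk contDiff_id)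
  -- the bump function
  have hy0t := hWt hy0
  have hopen : (ch i).target ∩ {T 1 y0}ᶜ ∈ 𝓝 y0 :=
    Filter.inter_mem ((ch i).open_target.mem_nhds hy0t)
      (isOpen_compl_singleton.mem_nhds (fun h => hne h.symm))
  obtain ⟨ρ, hρ, hρb⟩ := Metric.nhds_basis_closedBall.mem_iff.mp hopen
  let B : ContDiffBump y0 := ⟨ρ / 2, ρ, by positivity, by linarith⟩
  have hB0 : ∀ y ∉ Metric.closedBall y0 ρ, B y = 0 := by
    intro y hy
    refine B.zero_of_le_dist ?_
    rw [Metric.mem_closedBall, not_le] at hy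
    exact hy.le
  have hsm := hM_smooth hA i (g := fun y => B y) B.contDiff (isCompact_closedBall y0 ρ)
    (hρb.trans inter_subset_left) hB0
  obtain ⟨C, hC, hlow⟩ := l1_low hA hχ hsm
  refine ⟨extM ch i (T 1), ext_mg hA hb hT1 hT0, ?_⟩
  -- the lower bound
  have hcont : Continuous (fun y : Eu n => B (T 1 y) - B y) :=
    (B.continuous.comp hT1d.continuous).sub B.continuous
  have hval : B (T 1 y0) - B y0 = -1 := by
    have h1 : B (T 1 y0) = 0 := by
      refine hB0 _ fun h => ?_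
      exact (hρb h).2 rfl
    have h2 : B y0 = 1 := B.one_of_mem_closedBall (Metric.mem_closedBall_self (by positivity))
    rw [h1, h2, zero_sub]
  let V : Set (Eu n) := (ch i).target ∩ {y | B (T 1 y) - B y < -(1 / 2)}
  have hVo : IsOpen V := (ch i).open_target.inter (isOpen_lt hcont continuous_const)
  have hVne : V.Nonempty := ⟨y0, hy0t, by
    show B (T 1 y0) - B y0 < -(1 / 2)
    rw [hval]
    norm_num⟩
  have hVp : 0 < volume V := hVo.measure_pos volume hVne
  have hmain : ∀ φ : ℝ → M → M, MFam ch φ → φ 0 = id → φ 1 = extM ch i (T 1) →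
      ENNReal.ofReal (1 / 2) * volume V ≤ ENNReal.ofReal C * mlen ch (w1Man χ s) φ := by
    intro φ hφ h0 h1
    have hq : ∀ y ∈ V, ENNReal.ofReal (1 / 2) ≤ ENNReal.ofReal C *
        ∫⁻ t in Set.Icc (0 : ℝ) 1, evM ch (fun j y => ‖χ j y • mvel ch φ t j y‖ₑ)
          (φ t ((ch i).symm y)) := by
      intro y hy
      refine le_trans ?_ (hlow φ hφ h0 ((ch i).symm y))
      have h2 := ext_at hb hT1 hy.1
      rw [h1, h2.2, hM_symm ch _ h2.1, hM_symm ch _ hy.1, ← ofReal_norm]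
      refine ENNReal.ofReal_le_ofReal ?_
      have h3 : B (T 1 y) - B y < -(1 / 2) := hy.2
      rw [Real.norm_eq_abs]
      exact le_trans (by linarith) (neg_le_abs _)
    have h2 := int_chart hA hφ i (G := fun t j y => ‖χ j y • mvel ch φ t j y‖ₑ)
      (N := w1Man χ s) (fun j => ?_) (fun t => w1_ge0 ch hs _) hVo.measurableSet
      inter_subset_left hq
    · rwa [setLIntegral_const] at h2
    · obtain ⟨K, hK, hKs, hK0⟩ := hχ.supp j
      exact (cut_joint hA hφ j (hχ.smooth j) hK hKs hK0).continuous.enorm.measurable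
  have hpos : 0 < ENNReal.ofReal (1 / 2) * volume V / ENNReal.ofReal C := by
    have h3 : 0 < ENNReal.ofReal (1 / 2) := ENNReal.ofReal_pos.mpr (by norm_num)
    exact ENNReal.div_pos (ENNReal.mul_pos h3.ne' hVp.ne').ne' ENNReal.ofReal_ne_top
  refine lt_of_lt_of_le hpos (sdist_ge fun φ hφ h0 h1 => ?_)
  exact ge_of_mul (hmain φ hφ h0 h1)

theorem nm4 : NM4 := by
  intro n M _ _ _ _ ι _ ch hA χ hχ hn s hs C
  obtain ⟨i, c, r, hr, hb⟩ := exists_ball hA
  obtain ⟨e, W, he, hW, hWn, hWb, hT⟩ := tw_low hn c hr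
  have hWt : W ⊆ (ch i).target := (hWb.trans Metric.ball_subset_closedBall).trans hb
  obtain ⟨C1, hC1, hlow⟩ := log_low hA hχ i (isCompact_closedBall c r) hb
  have hVp : 0 < volume W := hW.measure_pos volume hWn
  have hVf : volume W ≠ ⊤ :=
    ((measure_mono hWb).trans_lt Metric.isBounded_ball.measure_lt_top).ne
  have hv : 0 < (volume W).toReal := ENNReal.toReal_pos hVp.ne' hVf
  -- the size of the differential
  let m : ℝ := |C| * C1 / (volume W).toReal
  obtain ⟨T, hT1, hT0, hTW⟩ := hT (Real.exp (C1 + m))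
  have hT1d : ContDiff ℝ ∞ (T 1) := hT1.smooth.comp (contDiff_const.prodMk contDiff_id)
  refine ⟨extM ch i (T 1), ext_mg hA hb hT1 hT0, sdist_ge fun φ hφ h0 h1 => ?_⟩
  have hq : ∀ y ∈ W, ENNReal.ofReal m ≤ ENNReal.ofReal C1 *
      ∫⁻ t in Set.Icc (0 : ℝ) 1, evM ch (fun j y => ‖χ j y • mvel ch φ t j y‖ₑ +
        ‖fderiv ℝ (fun y => χ j y • mvel ch φ t j y) y‖ₑ) (φ t ((ch i).symm y)) := by
    intro y hy
    have h2 := ext_at hb hT1 (hWt hy)
    have h3 : φ 1 ((ch i).symm y) = (ch i).symm (T 1 y) := by rw [h1, h2.2]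
    have h4 : T 1 y ∈ Metric.closedBall c r :=
      Metric.ball_subset_closedBall ((cf_mem hT1 1 y).mpr (hWb hy))
    have h5 := hlow φ hφ h0 e he y (Metric.ball_subset_closedBall (hWb hy))
      (by rw [h3]; exact (ch i).map_target h2.1) (by rw [h3, (ch i).right_inv h2.1]; exact h4)
    refine le_trans (ENNReal.ofReal_le_ofReal ?_) h5
    have h6 : (fun y => ch i (φ 1 ((ch i).symm y))) =ᶠ[𝓝 y] T 1 := by
      filter_upwards [(ch i).open_target.mem_nhds (hWt hy)] with z hz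
      have h7 := ext_at hb hT1 hz
      rw [h1, h7.2, (ch i).right_inv h7.1]
    rw [h6.fderiv_eq]
    have h8 := Real.log_le_log (Real.exp_pos _) (hTW y hy)
    rw [Real.log_exp] at h8
    linarith
  have h2 := int_chart hA hφ i (G := fun t j y => ‖χ j y • mvel ch φ t j y‖ₑ +
      ‖fderiv ℝ (fun y => χ j y • mvel ch φ t j y) y‖ₑ)
    (N := w1Man χ s) (fun j => ?_) (fun t => w1_ge1 ch hs _ fun j => ?_) hW.measurableSet hWt hq
  · rw [setLIntegral_const] at h2
    have h3 := ge_of_mul h2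
    refine le_trans ?_ h3
    have h4 : volume W = ENNReal.ofReal (volume W).toReal := (ENNReal.ofReal_toReal hVf).symm
    rw [h4, ← ENNReal.ofReal_mul (by positivity), ← ENNReal.ofReal_div_of_pos hC1]
    refine ENNReal.ofReal_le_ofReal ?_
    have h5 : m * (volume W).toReal / C1 = |C| := by
      show |C| * C1 / (volume W).toReal * (volume W).toReal / C1 = |C|
      field_simp
    rw [h5]
    exact le_abs_self C
  · obtain ⟨K, hK, hKs, hK0⟩ := hχ.supp j
    have hcd := cut_joint hA hφ j (hχ.smooth j) hK hKs hK0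
    refine hcd.continuous.enorm.measurable.add ?_
    have h3 : ContDiff ℝ 0 (fun q : ℝ × Eu n =>
        fderiv ℝ ((fun (q : ℝ × Eu n) (y : Eu n) => χ j y • mvel ch φ q.1 j y) q) q.2) := by
      refine ContDiff.fderiv (m := ∞) ?_ contDiff_snd (by simp)
      exact hcd.comp ((contDiff_fst.comp contDiff_fst).prodMk contDiff_snd)
    exact h3.continuous.enorm.measurable
  · obtain ⟨K, hK, hKs, hK0⟩ := hχ.supp j
    exact (cut_joint hA hφ j (hχ.smooth j) hK hKs hK0).comp
      ((contDiff_const (c := t)).prodMk contDiff_id)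

end

end Pool.Agent.H68.ST
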