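import Pool.Agent.H68.ST.ImgDef
import Pool.Agent.H68.GM.WMW
import Pool.Agent.H68.GM.PushK

/-! # ST-E4: fields with a small `C^1` norm -/

set_option autoImplicit false

namespace Pool.Agent.H68.ST

open MeasureTheory Set Pool.Agent.H68.VD Pool.Agent.H68.GM Pool.Agent.H6.ST
open scoped ENNReal ContDiff Topology

noncomputable section

namespace EkSA

variable {n : ℕ} {M : Type} [TopologicalSpace M] {ι : Type}

/-- The pointwise bound. -/
theorem pt [T2Space M] {ch : ι → OpenPartialHomeomorph M (Eu n)} (hA : VolAtlas ch) (i : ι)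
    (K : Set (Eu n)) (hK : IsCompact K) (hKt : K ⊆ (ch i).target) (j : ι) (K' : Set (Eu n))
    (hK' : IsCompact K') (hKt' : K' ⊆ (ch j).target) :
    ∃ C : ℝ, 0 ≤ C ∧ ∀ u : Eu n → Eu n, ContDiff ℝ ∞ u → (∀ y ∉ K, u y = 0) → ∀ b : ℝ, 0 ≤ b →
    (∀ y, ‖u y‖ ≤ b ∧ ‖fderiv ℝ u y‖ ≤ b) → ∀ y ∈ K',
    ‖push ch i u j y‖ ≤ C * b ∧ ‖fderiv ℝ (push ch i u j) y‖ ≤ C * b := by
  have hC := PushKA.isClosed_img ch i hK hKt
  have hS : IsCompact (K' ∩ (ch j).symm ⁻¹' ((ch i).symm '' K)) := by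
    have h1 : ContinuousOn (ch j).symm K' := (ch j).continuousOn_symm.mono hKt'
    exact hK'.of_isClosed_subset (h1.preimage_isClosed_of_isClosed hK'.isClosed hC)
      inter_subset_left
  have hSd : K' ∩ (ch j).symm ⁻¹' ((ch i).symm '' K) ⊆ dom ch j i := by
    rintro y ⟨hy1, w, hw, he⟩
    refine ⟨hKt' hy1, ?_⟩
    rw [← he]
    exact (ch i).map_target (hKt hw)
  have hsA := PushKA.smooth_fd hA i j
  have hAc : ContinuousOn (fun y => fderiv ℝ (tr ch i j) (tr ch j i y))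
      (K' ∩ (ch j).symm ⁻¹' ((ch i).symm '' K)) := hsA.continuousOn.mono hSd
  have hDA : ContDiffOn ℝ ∞ (fderiv ℝ (fun y => fderiv ℝ (tr ch i j) (tr ch j i y)))
      (dom ch j i) := hsA.fderiv_of_isOpen (PushKA.isOpen_dom ch j i) (by simp)
  have hDT : ContDiffOn ℝ ∞ (fderiv ℝ (tr ch j i)) (dom ch j i) :=
    (hA.smooth j i).fderiv_of_isOpen (PushKA.isOpen_dom ch j i) (by simp)
  have hDAc : ContinuousOn (fderiv ℝ (fun y => fderiv ℝ (tr ch i j) (tr ch j i y)))
      (K' ∩ (ch j).symm ⁻¹' ((ch i).symm '' K)) := hDA.continuousOn.mono hSd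
  have hTc : ContinuousOn (fderiv ℝ (tr ch j i))
      (K' ∩ (ch j).symm ⁻¹' ((ch i).symm '' K)) := hDT.continuousOn.mono hSd
  obtain ⟨CA, hCA⟩ := hS.exists_bound_of_continuousOn hAc
  have hDAn : ContinuousOn (fun y => ‖fderiv ℝ (fun y => fderiv ℝ (tr ch i j) (tr ch j i y)) y‖)
      (K' ∩ (ch j).symm ⁻¹' ((ch i).symm '' K)) :=
    (continuous_norm (E := Eu n →L[ℝ] (Eu n →L[ℝ] Eu n))).comp_continuousOn hDAc
  obtain ⟨CD, hCD'⟩ := hS.exists_bound_of_continuousOn hDAn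
  have hCD : ∀ y ∈ K' ∩ (ch j).symm ⁻¹' ((ch i).symm '' K),
      ‖fderiv ℝ (fun y => fderiv ℝ (tr ch i j) (tr ch j i y)) y‖ ≤ CD := by
    intro y hy
    exact (Real.le_norm_self _).trans (hCD' y hy)
  obtain ⟨CT, hCT⟩ := hS.exists_bound_of_continuousOn hTc
  refine ⟨|CA| + (|CA| * |CT| + |CD|), by positivity, fun u hu hu0 b hb hub y hy => ?_⟩
  by_cases hyS : y ∈ K' ∩ (ch j).symm ⁻¹' ((ch i).symm '' K)
  · have hd : y ∈ dom ch j i := hSd hyS
    have hA1 : ‖fderiv ℝ (tr ch i j) (tr ch j i y)‖ ≤ |CA| := (hCA y hyS).trans (le_abs_self _)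
    have hD1 := (hCD y hyS).trans (le_abs_self _)
    have hT1 := (hCT y hyS).trans (le_abs_self _)
    constructor
    · rw [PushKA.push_eq ch u hd]
      calc ‖fderiv ℝ (tr ch i j) (tr ch j i y) (u (tr ch j i y))‖
          ≤ ‖fderiv ℝ (tr ch i j) (tr ch j i y)‖ * ‖u (tr ch j i y)‖ :=
            ContinuousLinearMap.le_opNorm _ _
        _ ≤ |CA| * b := mul_le_mul hA1 (hub _).1 (norm_nonneg _) (abs_nonneg _)
        _ ≤ (|CA| + (|CA| * |CT| + |CD|)) * b :=
            mul_le_mul_of_nonneg_right (le_add_of_nonneg_right (by positivity)) hb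
    · have heq : push ch i u j =ᶠ[𝓝 y]
          fun y => fderiv ℝ (tr ch i j) (tr ch j i y) (u (tr ch j i y)) := by
        filter_upwards [(PushKA.isOpen_dom ch j i).mem_nhds hd] with y' hy'
        exact PushKA.push_eq ch u hy'
      have h1 : HasFDerivAt (fun y => fderiv ℝ (tr ch i j) (tr ch j i y))
          (fderiv ℝ (fun y => fderiv ℝ (tr ch i j) (tr ch j i y)) y) y :=
        ((hsA.contDiffAt ((PushKA.isOpen_dom ch j i).mem_nhds hd)).differentiableAt
          (by simp)).hasFDerivAt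
      have h2 : HasFDerivAt (tr ch j i) (fderiv ℝ (tr ch j i) y) y :=
        (PushKA.diff_tr hA hd).hasFDerivAt
      have h3 : HasFDerivAt u (fderiv ℝ u (tr ch j i y)) (tr ch j i y) :=
        (hu.differentiable (by simp) _).hasFDerivAt
      have h4 := h1.clm_apply (h3.comp y h2)
      have h5 : fderiv ℝ (push ch i u j) y = _ := (heq.fderiv_eq).trans h4.fderiv
      rw [h5]
      refine (norm_add_le _ _).trans ?_
      have h6 : ‖(fderiv ℝ (tr ch i j) (tr ch j i y)).comp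
          ((fderiv ℝ u (tr ch j i y)).comp (fderiv ℝ (tr ch j i) y))‖ ≤ |CA| * (b * |CT|) := by
        refine (ContinuousLinearMap.opNorm_comp_le _ _).trans ?_
        refine mul_le_mul hA1 ?_ (norm_nonneg _) (abs_nonneg _)
        refine (ContinuousLinearMap.opNorm_comp_le _ _).trans ?_
        exact mul_le_mul (hub _).2 hT1 (norm_nonneg _) hb
      have h7 : ‖(fderiv ℝ (fun y => fderiv ℝ (tr ch i j) (tr ch j i y)) y).flip
          (u (tr ch j i y))‖ ≤ |CD| * b := by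
        refine (ContinuousLinearMap.le_opNorm _ _).trans ?_
        rw [ContinuousLinearMap.opNorm_flip]
        exact mul_le_mul hD1 (hub _).1 (norm_nonneg _) (abs_nonneg _)
      calc _ ≤ |CA| * (b * |CT|) + |CD| * b := add_le_add h6 h7
        _ ≤ (|CA| + (|CA| * |CT| + |CD|)) * b := by
            have : 0 ≤ |CA| * b := by positivity
            nlinarith
  · have h0 : push ch i u j y = 0 := PushKA.push_zero ch hu0 (fun _ h => hyS ⟨hy, h⟩)
    have hopen : IsOpen ((ch j).target ∩ (ch j).symm ⁻¹' ((ch i).symm '' K)ᶜ) :=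
      (ch j).symm.isOpen_inter_preimage hC.isOpen_compl
    have h1 : push ch i u j =ᶠ[𝓝 y] fun _ => 0 := by
      filter_upwards [hopen.mem_nhds ⟨hKt' hy, fun h => hyS ⟨hy, h⟩⟩] with y' hy'
      exact PushKA.push_zero ch hu0 (fun _ => hy'.2)
    have hnn : 0 ≤ (|CA| + (|CA| * |CT| + |CD|)) * b := by positivity
    rw [h0, h1.fderiv_eq]
    simp only [fderiv_fun_const, Pi.zero_apply, norm_zero]
    exact ⟨hnn, hnn⟩

end EkSA

theorem ek_sup (n : ℕ) (M : Type) [TopologicalSpace M] [T2Space M] [CompactSpace M] [Nonempty M]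
    (ι : Type) [Fintype ι] (ch : ι → OpenPartialHomeomorph M (Eu n)) (hA : VolAtlas ch)
    (K : ι → Set (Eu n)) (hK : KCov ch K) (i : ι) (K' : Set (Eu n)) (hK' : IsCompact K')
    (hs : K' ⊆ (ch i).target) : ∃ C : ℝ, 0 ≤ C ∧ ∀ u : Eu n → Eu n, ContDiff ℝ ∞ u →
      (∀ y ∉ K', u y = 0) → ∀ b : ℝ, 0 ≤ b → (∀ y, ‖u y‖ ≤ b ∧ ‖fderiv ℝ u y‖ ≤ b) →
      L1M K (push ch i u) ≤ ENNReal.ofReal (C * b) ∧
      W1M K (push ch i u) ≤ ENNReal.ofReal (C * b) := by
  choose C hC hpt using fun j => EkSA.pt hA i K' hK' hs j (K j) (hK.cpt j) (hK.sub j)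
  have hv : ∀ j, volume (K j) = ENNReal.ofReal (volume (K j)).toReal := fun j =>
    (ENNReal.ofReal_toReal (hK.cpt j).measure_lt_top.ne).symm
  refine ⟨∑ j, 2 * C j * (volume (K j)).toReal,
    Finset.sum_nonneg fun j _ => mul_nonneg (mul_nonneg (by norm_num) (hC j))
      ENNReal.toReal_nonneg, fun u hu hu0 b hb hub => ?_⟩
  have h1 : ∀ j, ∀ y ∈ K j, ‖push ch i u j y‖ₑ ≤ ENNReal.ofReal (C j * b) := by
    intro j y hy
    rw [← ofReal_norm]
    exact ENNReal.ofReal_le_ofReal (hpt j u hu hu0 b hb hub y hy).1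
  have h2 : ∀ j, ∀ y ∈ K j, ‖fderiv ℝ (push ch i u j) y‖ₑ ≤ ENNReal.ofReal (C j * b) := by
    intro j y hy
    rw [← ofReal_norm]
    exact ENNReal.ofReal_le_ofReal (hpt j u hu hu0 b hb hub y hy).2
  have h3 : ∀ j, ∫⁻ y in K j, (‖push ch i u j y‖ₑ + ‖fderiv ℝ (push ch i u j) y‖ₑ) ≤
      ENNReal.ofReal (2 * C j * (volume (K j)).toReal * b) := by
    intro j
    calc ∫⁻ y in K j, (‖push ch i u j y‖ₑ + ‖fderiv ℝ (push ch i u j) y‖ₑ)
        ≤ ∫⁻ _ in K j, ENNReal.ofReal (2 * C j * b) := by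
          refine setLIntegral_mono' (hK.cpt j).isClosed.measurableSet fun y hy => ?_
          refine (add_le_add (h1 j y hy) (h2 j y hy)).trans (le_of_eq ?_)
          rw [← ENNReal.ofReal_add (mul_nonneg (hC j) hb) (mul_nonneg (hC j) hb)]
          congr 1
          ring
      _ = ENNReal.ofReal (2 * C j * b) * volume (K j) := by
          rw [setLIntegral_const]
      _ = ENNReal.ofReal (2 * C j * (volume (K j)).toReal * b) := by
          rw [hv j, ← ENNReal.ofReal_mul (mul_nonneg (mul_nonneg (by norm_num) (hC j)) hb),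
            ENNReal.toReal_ofReal ENNReal.toReal_nonneg]
          congr 1
          ring
  have hsum : ENNReal.ofReal ((∑ j, 2 * C j * (volume (K j)).toReal) * b) =
      ∑ j, ENNReal.ofReal (2 * C j * (volume (K j)).toReal * b) := by
    rw [Finset.sum_mul, ENNReal.ofReal_sum_of_nonneg]
    intro j _
    exact mul_nonneg (mul_nonneg (mul_nonneg (by norm_num) (hC j)) ENNReal.toReal_nonneg) hb
  rw [hsum]
  constructor
  · refine Finset.sum_le_sum fun j _ => le_trans ?_ (h3 j)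
    exact lintegral_mono fun y => le_self_add
  · exact Finset.sum_le_sum fun j _ => h3 j

end

end Pool.Agent.H68.ST
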