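import Pool.Agent.H68.ST.EkC
import Pool.Agent.H68.ST.EkS

/-! # ST: the calculus of the cost on `M` -/

set_option autoImplicit false

namespace Pool.Agent.H68.ST

open Pool.Agent.H6.ST

theorem eKit : EKit where
  comp := ek_comp
  inv := ek_inv
  conj := ek_conj
  path := ek_path
  sup := ek_sup

end Pool.Agent.H68.ST
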