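import Pool.Agent.H68.ST.SlI

/-! # ST-D2: the compactly supported Poincaré lemma in a box -/

set_option autoImplicit false

namespace Pool.Agent.H68.ST

open MeasureTheory Set Pool.Agent.H68.VD Pool.Agent.H68.GM Pool.Agent.H6.ST
open scoped ENNReal ContDiff

noncomputable section

variable {n : ℕ} {lo hi : Fin n → ℝ}

namespace BoxPA

open SlIA

/-! ### Iterated integrals -/

/-- The support is bounded in the first `m` directions. -/
def Bd (m : ℕ) (p q : Fin n → ℝ) (h : Eu n → ℝ) : Prop :=
  ∀ x, h x ≠ 0 → ∀ i : Fin n, (i : ℕ) < m → p i ≤ x i ∧ x i ≤ q i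

theorem slM_zero' (h : Eu n → ℝ) : slM 0 h = h := rfl

theorem slM_succ {m : ℕ} (hm : m < n) (h : Eu n → ℝ) :
    slM (m + 1) h = slM m (slI ⟨m, hm⟩ h) := by
  show (if hm : m < n then slM m (slI ⟨m, hm⟩ h) else h) = _
  rw [dif_pos hm]

theorem slI_bd {m : ℕ} (hm : m < n) {p q : Fin n → ℝ} {h : Eu n → ℝ} (hb : Bd (m + 1) p q h) :
    Bd m p q (slI ⟨m, hm⟩ h) := by
  intro x hx i hi
  by_contra h2
  apply hx
  have hik : i ≠ (⟨m, hm⟩ : Fin n) := by
    rintro rfl
    exact lt_irrefl _ hi
  unfold slI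
  have h3 : ∀ t : ℝ, h (x + (t - x ⟨m, hm⟩) • ev ⟨m, hm⟩) = 0 := by
    intro t
    by_contra h3
    have h4 := hb _ h3 i (Nat.lt_succ_of_lt hi)
    rw [ptN hik] at h4
    exact h2 h4
  simp [h3]

theorem bd_k {m : ℕ} (hm : m < n) {p q : Fin n → ℝ} {h : Eu n → ℝ} (hb : Bd (m + 1) p q h) :
    ∀ x, h x ≠ 0 → p ⟨m, hm⟩ ≤ x ⟨m, hm⟩ ∧ x ⟨m, hm⟩ ≤ q ⟨m, hm⟩ :=
  fun x hx => hb x hx ⟨m, hm⟩ (Nat.lt_succ_self m)

theorem bd_fd {m : ℕ} {p q : Fin n → ℝ} {h : Eu n → ℝ} (hb : Bd m p q h) (v : Eu n) :
    Bd m p q (fun y => fderiv ℝ h y v) := by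
  intro x hx i hi
  exact fdZ i (fun y hy => hb y hy i hi) v x hx

theorem slM_smooth {p q : Fin n → ℝ} : ∀ (m : ℕ), m ≤ n → ∀ h : Eu n → ℝ, ContDiff ℝ ∞ h →
    Bd m p q h → ContDiff ℝ ∞ (slM m h) := by
  intro m
  induction m with
  | zero => exact fun _ h hh _ => hh
  | succ m ih =>
    intro hm h hh hb
    rw [slM_succ hm]
    exact ih (Nat.le_of_succ_le hm) _ (slI_smooth _ hh (bd_k hm hb)) (slI_bd hm hb)

theorem slM_fd {p q : Fin n → ℝ} : ∀ (m : ℕ), m ≤ n → ∀ h : Eu n → ℝ, ContDiff ℝ ∞ h →
    Bd m p q h → ∀ i : Fin n, m ≤ (i : ℕ) → ∀ x,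
    fderiv ℝ (slM m h) x (ev i) = slM m (fun y => fderiv ℝ h y (ev i)) x := by
  intro m
  induction m with
  | zero => exact fun _ h _ _ i _ x => rfl
  | succ m ih =>
    intro hm h hh hb i hi x
    rw [slM_succ hm, slM_succ hm, ih (Nat.le_of_succ_le hm) _ (slI_smooth _ hh (bd_k hm hb))
      (slI_bd hm hb) i (Nat.le_of_succ_le hi) x]
    congr 1
    funext y
    refine slI_fderiv ?_ hh (bd_k hm hb) y
    rintro rfl
    exact absurd hi (Nat.not_succ_le_self m)

theorem slM_zero : ∀ (m : ℕ), m ≤ n → slM m (fun _ : Eu n => (0 : ℝ)) = fun _ => 0 := by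
  intro m
  induction m with
  | zero => exact fun _ => rfl
  | succ m ih =>
    intro hm
    rw [slM_succ hm]
    have h1 : slI (⟨m, hm⟩ : Fin n) (fun _ : Eu n => (0 : ℝ)) = fun _ => 0 := by
      funext x
      simp [slI]
    rw [h1]
    exact ih (Nat.le_of_succ_le hm)

theorem slM_self {p q : Fin n → ℝ} : ∀ (m : ℕ), m ≤ n → ∀ h : Eu n → ℝ, ContDiff ℝ ∞ h →
    Bd m p q h → ∀ i : Fin n, (i : ℕ) < m →
    slM m (fun y => fderiv ℝ h y (ev i)) = fun _ => 0 := by
  intro m
  induction m with
  | zero => exact fun _ h _ _ i hi => absurd hi (Nat.not_lt_zero _)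
  | succ m ih =>
    intro hm h hh hb i hi
    rw [slM_succ hm]
    by_cases him : i = (⟨m, hm⟩ : Fin n)
    · subst him
      have h1 : slI (⟨m, hm⟩ : Fin n) (fun y => fderiv ℝ h y (ev ⟨m, hm⟩)) = fun _ => 0 := by
        funext x
        exact slI_self _ hh (bd_k hm hb) x
      rw [h1]
      exact slM_zero m (Nat.le_of_succ_le hm)
    · have hi' : (i : ℕ) < m := by
        rcases Nat.lt_succ_iff_lt_or_eq.1 hi with h1 | h1
        · exact h1
        · exact absurd (Fin.ext h1) him
      have h1 : slI (⟨m, hm⟩ : Fin n) (fun y => fderiv ℝ h y (ev i)) =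
          fun y => fderiv ℝ (slI ⟨m, hm⟩ h) y (ev i) := by
        funext x
        exact (slI_fderiv him hh (bd_k hm hb) x).symm
      rw [h1]
      exact ih (Nat.le_of_succ_le hm) _ (slI_smooth _ hh (bd_k hm hb)) (slI_bd hm hb) i hi'

theorem slM_add {p q : Fin n → ℝ} : ∀ (m : ℕ), m ≤ n → ∀ f g : Eu n → ℝ, ContDiff ℝ ∞ f →
    ContDiff ℝ ∞ g → Bd m p q f → Bd m p q g →
    slM m (fun y => f y + g y) = fun x => slM m f x + slM m g x := by
  intro m
  induction m with
  | zero => exact fun _ f g _ _ _ _ => rfl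
  | succ m ih =>
    intro hm f g hf hg bf bg
    rw [slM_succ hm, slM_succ hm, slM_succ hm]
    have h1 : slI (⟨m, hm⟩ : Fin n) (fun y => f y + g y) =
        fun y => slI ⟨m, hm⟩ f y + slI ⟨m, hm⟩ g y := by
      funext x
      unfold slI
      exact integral_add (intC _ hf.continuous (bd_k hm bf) x)
        (intC _ hg.continuous (bd_k hm bg) x)
    rw [h1]
    exact ih (Nat.le_of_succ_le hm) _ _ (slI_smooth _ hf (bd_k hm bf))
      (slI_smooth _ hg (bd_k hm bg)) (slI_bd hm bf) (slI_bd hm bg)

theorem bd_sum {α : Type} {m : ℕ} {p q : Fin n → ℝ} (s : Finset α) (f : α → Eu n → ℝ)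
    (hb : ∀ a ∈ s, Bd m p q (f a)) : Bd m p q (fun y => ∑ a ∈ s, f a y) := by
  intro x hx i hi
  obtain ⟨a, ha, h1⟩ := Finset.exists_ne_zero_of_sum_ne_zero hx
  exact hb a ha x h1 i hi

theorem slM_sum {α : Type} {p q : Fin n → ℝ} {m : ℕ} (hm : m ≤ n) (f : α → Eu n → ℝ)
    (s : Finset α) (hs : ∀ a ∈ s, ContDiff ℝ ∞ (f a)) (hb : ∀ a ∈ s, Bd m p q (f a)) :
    slM m (fun y => ∑ a ∈ s, f a y) = fun x => ∑ a ∈ s, slM m (f a) x := by
  classical
  induction s using Finset.induction_on with
  | empty => simpa using slM_zero m hm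
  | insert a s ha ih =>
    have h1 : (fun y => ∑ b ∈ insert a s, f b y) = fun y => f a y + ∑ b ∈ s, f b y := by
      funext y
      exact Finset.sum_insert ha
    have hs' : ∀ b ∈ s, ContDiff ℝ ∞ (f b) := fun b hb' => hs b (Finset.mem_insert_of_mem hb')
    have hb' : ∀ b ∈ s, Bd m p q (f b) := fun b hb' => hb b (Finset.mem_insert_of_mem hb')
    rw [h1, slM_add m hm _ _ (hs a (Finset.mem_insert_self a s))
      (ContDiff.sum fun b hbs => hs' b hbs) (hb a (Finset.mem_insert_self a s))
      (bd_sum s f hb'), ih hs' hb']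
    funext x
    show slM m (f a) x + ∑ b ∈ s, slM m (f b) x = ∑ b ∈ insert a s, slM m (f b) x
    exact (Finset.sum_insert (f := fun b => slM m (f b) x) ha).symm

theorem slM_mul : ∀ (m : ℕ), m ≤ n → ∀ (i : Fin n), m ≤ (i : ℕ) → ∀ (θ : ℝ → ℝ) (h : Eu n → ℝ),
    slM m (fun y => θ (y i) * h y) = fun x => θ (x i) * slM m h x := by
  intro m
  induction m with
  | zero => exact fun _ i _ θ h => rfl
  | succ m ih =>
    intro hm i hi θ h
    rw [slM_succ hm, slM_succ hm]
    have h1 : slI (⟨m, hm⟩ : Fin n) (fun y => θ (y i) * h y) =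
        fun y => θ (y i) * slI ⟨m, hm⟩ h y := by
      funext x
      refine slI_mul ?_ θ h x
      rintro rfl
      exact absurd hi (Nat.not_succ_le_self m)
    rw [h1]
    exact ih (Nat.le_of_succ_le hm) i (Nat.le_of_succ_le hi) θ _

theorem slM_out : ∀ (m : ℕ), m ≤ n → ∀ (j : Fin n), m ≤ (j : ℕ) → ∀ (c : ℝ) (h : Eu n → ℝ),
    (∀ y : Eu n, y j = c → h y = 0) → ∀ x : Eu n, x j = c → slM m h x = 0 := by
  intro m
  induction m with
  | zero => exact fun _ j _ c h h0 x hx => h0 x hx
  | succ m ih =>
    intro hm j hj c h h0 x hx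
    rw [slM_succ hm]
    refine ih (Nat.le_of_succ_le hm) j (Nat.le_of_succ_le hj) c _ ?_ x hx
    intro y hy
    have hjm : j ≠ (⟨m, hm⟩ : Fin n) := by
      rintro rfl
      exact absurd hj (Nat.not_succ_le_self m)
    unfold slI
    have h3 : ∀ t : ℝ, h (y + (t - y ⟨m, hm⟩) • ev ⟨m, hm⟩) = 0 := by
      intro t
      apply h0
      rw [ptN hjm]
      exact hy
    simp [h3]

/-! ### Test functions -/

theorem t0 (U : Set (Eu n)) : TestIn U (fun _ : Eu n => (0 : ℝ)) :=
  ⟨contDiff_const, ∅, isCompact_empty, Set.empty_subset _, fun _ _ => rfl⟩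

/-- A bump function of one variable with integral one. -/
theorem exists_theta {a b : ℝ} (hab : a < b) : ∃ θ : ℝ → ℝ, ContDiff ℝ ∞ θ ∧
    (∃ a' b' : ℝ, a < a' ∧ b' < b ∧ ∀ t, θ t ≠ 0 → a' ≤ t ∧ t ≤ b') ∧ ∫ t, θ t = 1 := by
  let f : ContDiffBump ((a + b) / 2 : ℝ) :=
    { rIn := (b - a) / 8, rOut := (b - a) / 4, rIn_pos := by linarith, rIn_lt_rOut := by linarith }
  refine ⟨f.normed volume, f.contDiff_normed, ⟨(a + b) / 2 - (b - a) / 4,
    (a + b) / 2 + (b - a) / 4, by linarith, by linarith, ?_⟩, f.integral_normed⟩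
  intro t ht
  have h1 : t ∈ Function.support (f.normed volume) := ht
  rw [f.support_normed_eq, Metric.mem_ball, Real.dist_eq, abs_lt] at h1
  have h2 : f.rOut = (b - a) / 4 := rfl
  rw [h2] at h1
  constructor <;> linarith [h1.1, h1.2]

/-- A vector field which is smooth and has compact support in `U`. -/
def VT (U : Set (Eu n)) (u : Eu n → Eu n) : Prop :=
  ContDiff ℝ ∞ u ∧ ∃ K : Set (Eu n), IsCompact K ∧ K ⊆ U ∧ ∀ y ∉ K, u y = 0

theorem vt_comp {U : Set (Eu n)} {u : Eu n → Eu n} (hu : VT U u) (k : Fin n) :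
    TestIn U (fun y => u y k) := by
  obtain ⟨h1, K, hK, hKU, h0⟩ := hu
  refine ⟨(coordS k).comp h1, K, hK, hKU, fun y hy => ?_⟩
  simp [h0 y hy]

theorem vt_sub {U : Set (Eu n)} {u v : Eu n → Eu n} (hu : VT U u) (hv : VT U v) :
    VT U (fun y => u y - v y) := by
  obtain ⟨h1, K, hK, hKU, h0⟩ := hu
  obtain ⟨h1', K', hK', hKU', h0'⟩ := hv
  refine ⟨h1.sub h1', K ∪ K', hK.union hK', Set.union_subset hKU hKU', fun y hy => ?_⟩
  show u y - v y = 0
  rw [h0 y (fun h => hy (Or.inl h)), h0' y (fun h => hy (Or.inr h)), sub_zero]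

theorem vt_sum {α : Type} {U : Set (Eu n)} (s : Finset α) (u : α → Eu n → Eu n)
    (hu : ∀ a ∈ s, VT U (u a)) : VT U (fun y => ∑ a ∈ s, u a y) := by
  classical
  induction s using Finset.induction_on with
  | empty =>
    simp only [Finset.sum_empty]
    exact ⟨contDiff_const, ∅, isCompact_empty, Set.empty_subset _, fun _ _ => rfl⟩
  | insert a s ha ih =>
    obtain ⟨h1, K, hK, hKU, h0⟩ := hu a (Finset.mem_insert_self a s)
    obtain ⟨h1', K', hK', hKU', h0'⟩ := ih fun b hb => hu b (Finset.mem_insert_of_mem hb)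
    have h2 : (fun y => ∑ b ∈ insert a s, u b y) = fun y => u a y + ∑ b ∈ s, u b y := by
      funext y
      exact Finset.sum_insert ha
    rw [h2]
    refine ⟨h1.add h1', K ∪ K', hK.union hK', Set.union_subset hKU hKU', fun y hy => ?_⟩
    have h3 : ∑ b ∈ s, u b y = 0 := h0' y (fun h => hy (Or.inr h))
    show u a y + ∑ b ∈ s, u b y = 0
    rw [h0 y (fun h => hy (Or.inl h)), h3, add_zero]

theorem fd_out {K : Set (Eu n)} (hK : IsCompact K) {g : Eu n → ℝ} (h0 : ∀ y ∉ K, g y = 0)
    {y : Eu n} (hy : y ∉ K) : fderiv ℝ g y = 0 := by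
  have h1 : g =ᶠ[nhds y] fun _ => 0 := by
    filter_upwards [hK.isClosed.isOpen_compl.mem_nhds hy] with z hz
    exact h0 z hz
  rw [h1.fderiv_eq]
  simp

theorem pd_smooth {g : Eu n → ℝ} (hg : ContDiff ℝ ∞ g) (v : Eu n) :
    ContDiff ℝ ∞ (fun y => fderiv ℝ g y v) :=
  (hg.fderiv_right (by simp)).clm_apply contDiff_const

theorem vt_jgrad {U : Set (Eu n)} {g : Eu n → ℝ} (hg : TestIn U g) (a b : Fin n) :
    VT U (jgrad a b g) := by
  obtain ⟨h1, K, hK, hKU, h0⟩ := hg
  refine ⟨?_, K, hK, hKU, fun y hy => ?_⟩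
  · exact ((pd_smooth h1 _).smul contDiff_const).sub ((pd_smooth h1 _).smul contDiff_const)
  · unfold jgrad
    rw [fd_out hK h0 hy]
    simp

theorem divg_jgrad {g : Eu n → ℝ} (hg : ContDiff ℝ ∞ g) (a b : Fin n) (y : Eu n) :
    divg (jgrad a b g) y = 0 := by
  have h2 : ∀ v : Eu n, HasFDerivAt (fun y => fderiv ℝ g y v)
      (fderiv ℝ (fun y => fderiv ℝ g y v) y) y := fun v =>
    ((pd_smooth hg v).differentiable (by simp) y).hasFDerivAt
  have h3 : HasFDerivAt (jgrad a b g)
      ((fderiv ℝ (fun y => fderiv ℝ g y (ev b)) y).smulRight (ev a) -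
        (fderiv ℝ (fun y => fderiv ℝ g y (ev a)) y).smulRight (ev b)) y :=
    ((h2 (ev b)).smul_const (ev a)).sub ((h2 (ev a)).smul_const (ev b))
  have h4 : ∀ v w : Eu n, fderiv ℝ (fun y => fderiv ℝ g y v) y w =
      fderiv ℝ (fderiv ℝ g) y w v := by
    intro v w
    have h5 : DifferentiableAt ℝ (fderiv ℝ g) y :=
      (hg.fderiv_right (m := ∞) (by simp)).differentiable (by simp) y
    rw [fderiv_clm_apply h5 (differentiableAt_const v)]
    simp
  have h6 : IsSymmSndFDerivAt ℝ g y := (hg.contDiffAt).isSymmSndFDerivAt (by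
    rw [minSmoothness_of_isRCLikeNormedField]
    exact WithTop.coe_le_coe.mpr le_top)
  unfold divg
  rw [h3.fderiv]
  have h8 : ∀ j : Fin n, (((fderiv ℝ (fun y => fderiv ℝ g y (ev b)) y).smulRight (ev a) -
        (fderiv ℝ (fun y => fderiv ℝ g y (ev a)) y).smulRight (ev b) : Eu n →L[ℝ] Eu n)
        (ev j) : Eu n) j =
      (if j = a then fderiv ℝ (fderiv ℝ g) y (ev j) (ev b) else 0) -
        (if j = b then fderiv ℝ (fderiv ℝ g) y (ev j) (ev a) else 0) := by
    intro j
    simp only [sub_apply, ContinuousLinearMap.smulRight_apply, h4]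
    show fderiv ℝ (fderiv ℝ g) y (ev j) (ev b) * (ev a : Eu n) j -
      fderiv ℝ (fderiv ℝ g) y (ev j) (ev a) * (ev b : Eu n) j = _
    by_cases h9 : j = a
    · by_cases h10 : j = b
      · subst h9
        subst h10
        simp
      · subst h9
        simp [evS, evN h10, h10]
    · by_cases h10 : j = b
      · subst h10
        simp [evS, evN h9, h9]
      · simp [evN h9, evN h10, h9, h10]
  rw [Finset.sum_congr rfl fun j _ => h8 j, Finset.sum_sub_distrib, Finset.sum_ite_eq',
    Finset.sum_ite_eq']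
  simp only [Finset.mem_univ, if_true]
  rw [h6 (ev a) (ev b), sub_self]

theorem comp_fd {u : Eu n → Eu n} {y : Eu n} (hu : DifferentiableAt ℝ u y) (k : Fin n) (v : Eu n) :
    (fderiv ℝ u y v) k = fderiv ℝ (fun y => u y k) y v := by
  have h1 : HasFDerivAt (fun y => u y k)
      ((EuclideanSpace.proj (𝕜 := ℝ) k).comp (fderiv ℝ u y)) y :=
    (EuclideanSpace.proj (𝕜 := ℝ) k).hasFDerivAt.comp y hu.hasFDerivAt
  rw [h1.fderiv]
  rfl

theorem divg_sub {u v : Eu n → Eu n} {y : Eu n} (hu : DifferentiableAt ℝ u y)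
    (hv : DifferentiableAt ℝ v y) : divg (fun y => u y - v y) y = divg u y - divg v y := by
  unfold divg
  rw [← Finset.sum_sub_distrib]
  refine Finset.sum_congr rfl fun j _ => ?_
  have h1 : fderiv ℝ (fun y => u y - v y) y = fderiv ℝ u y - fderiv ℝ v y := fderiv_sub hu hv
  rw [h1]
  rfl

theorem divg_sum {α : Type} (s : Finset α) {u : α → Eu n → Eu n} {y : Eu n}
    (hu : ∀ a ∈ s, DifferentiableAt ℝ (u a) y) :
    divg (fun y => ∑ a ∈ s, u a y) y = ∑ a ∈ s, divg (u a) y := by
  unfold divg
  rw [Finset.sum_comm]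
  refine Finset.sum_congr rfl fun j _ => ?_
  have h1 : fderiv ℝ (fun y => ∑ a ∈ s, u a y) y = ∑ a ∈ s, fderiv ℝ (u a) y :=
    fderiv_fun_sum hu
  rw [h1]
  simp

theorem jgrad_comp (a b : Fin n) (g : Eu n → ℝ) (y : Eu n) (k : Fin n) :
    (jgrad a b g y : Eu n) k = (if k = a then fderiv ℝ g y (ev b) else 0) -
      (if k = b then fderiv ℝ g y (ev a) else 0) := by
  show fderiv ℝ g y (ev b) * (ev a : Eu n) k - fderiv ℝ g y (ev a) * (ev b : Eu n) k = _
  by_cases h1 : k = a
  · by_cases h2 : k = b
    · subst h1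
      subst h2
      simp
    · subst h1
      simp [evS, evN h2, h2]
  · by_cases h2 : k = b
    · subst h2
      simp [evS, evN h1, h1]
    · simp [evN h1, evN h2, h1, h2]

theorem jgrad_add (a b : Fin n) {f g : Eu n → ℝ} {y : Eu n} (hf : DifferentiableAt ℝ f y)
    (hg : DifferentiableAt ℝ g y) :
    jgrad a b (fun y => f y + g y) y = jgrad a b f y + jgrad a b g y := by
  have h1 : fderiv ℝ (fun y => f y + g y) y = fderiv ℝ f y + fderiv ℝ g y := fderiv_fun_add hf hg
  unfold jgrad
  rw [h1]
  simp only [add_apply, add_smul]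
  abel

theorem jgrad_zero (a b : Fin n) (y : Eu n) : jgrad a b (fun _ : Eu n => (0 : ℝ)) y = 0 := by
  unfold jgrad
  simp

end BoxPA

open BoxPA SlIA

/-- A function whose iterated integral in the first `m` directions vanishes. -/
theorem sl_dec (m : ℕ) (hm : m ≤ n) {h : Eu n → ℝ} (hh : TestIn (obox lo hi) h)
    (h0 : ∀ x, slM m h x = 0) : ∃ g : Fin n → Eu n → ℝ, (∀ k, TestIn (obox lo hi) (g k)) ∧
    (∀ k : Fin n, m ≤ (k : ℕ) → ∀ x, g k x = 0) ∧ ∀ x, h x = ∑ k, fderiv ℝ (g k) x (ev k) := by
  induction m generalizing h with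
  | zero =>
    refine ⟨fun _ _ => 0, fun _ => t0 _, fun _ _ _ => rfl, fun x => ?_⟩
    have h1 : h x = 0 := h0 x
    rw [h1]
    simp
  | succ m ih =>
    by_cases hne : ∃ x, h x ≠ 0
    · obtain ⟨x0, hx0⟩ := hne
      obtain ⟨hsm, K, hK, hKs, hK0⟩ := hh
      have hx0K : x0 ∈ K := by
        by_contra h2
        exact hx0 (hK0 x0 h2)
      have hlh : lo ⟨m, hm⟩ < hi ⟨m, hm⟩ := (hKs hx0K ⟨m, hm⟩).1.trans (hKs hx0K ⟨m, hm⟩).2
      obtain ⟨θ, hθ, hθs, hθ1⟩ := exists_theta hlh
      obtain ⟨hT, g, hg, hgx⟩ := sl_step (lo := lo) (hi := hi) (⟨m, hm⟩ : Fin n) hθ hθs hθ1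
        (h := h) ⟨hsm, K, hK, hKs, hK0⟩
      have h1 : ∀ x, slM m (fun y => θ (y ⟨m, hm⟩) * slI ⟨m, hm⟩ h y) x = 0 := by
        intro x
        rw [slM_mul m (Nat.le_of_succ_le hm) ⟨m, hm⟩ le_rfl θ]
        have h2 := h0 x
        rw [slM_succ hm] at h2
        simp only [h2, mul_zero]
      obtain ⟨g', hg', hg'0, hg'x⟩ := ih (Nat.le_of_succ_le hm) hT h1
      refine ⟨fun k => if k = ⟨m, hm⟩ then g else g' k, ?_, ?_, ?_⟩
      · intro k
        by_cases hk : k = ⟨m, hm⟩
        · simp only [hk, if_true]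
          exact hg
        · simp only [hk, if_false]
          exact hg' k
      · intro k hk x
        have hk' : k ≠ ⟨m, hm⟩ := by
          rintro rfl
          exact absurd hk (Nat.not_succ_le_self m)
        simp only [hk', if_false]
        exact hg'0 k (Nat.le_of_succ_le hk) x
      · intro x
        have h3 : fderiv ℝ (g' ⟨m, hm⟩) x = 0 := by
          have h4 : g' ⟨m, hm⟩ = fun _ => 0 := by
            funext y
            exact hg'0 ⟨m, hm⟩ le_rfl y
          rw [h4]
          simp
        rw [hgx x, hg'x x, ← Finset.add_sum_erase _ _ (Finset.mem_univ (⟨m, hm⟩ : Fin n)),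
          ← Finset.add_sum_erase _ _ (Finset.mem_univ (⟨m, hm⟩ : Fin n)), h3]
        simp only [if_true, zero_apply, zero_add]
        congr 1
        refine Finset.sum_congr rfl fun k hk => ?_
        have hk' : k ≠ ⟨m, hm⟩ := (Finset.mem_erase.1 hk).1
        simp only [hk', if_false]
    · push Not at hne
      refine ⟨fun _ _ => 0, fun _ => t0 _, fun _ _ _ => rfl, fun x => ?_⟩
      rw [hne x]
      simp

theorem box_poinc {u : Eu n → Eu n} (hu : ContDiff ℝ ∞ u) (hs : ∃ K : Set (Eu n), IsCompact K ∧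
    K ⊆ obox lo hi ∧ ∀ y ∉ K, u y = 0) (hd : ∀ y, divg u y = 0) :
    ∃ f : Fin n → Fin n → Eu n → ℝ, (∀ a b, TestIn (obox lo hi) (f a b)) ∧
      ∀ y, u y = ∑ a, ∑ b, jgrad a b (f a b) y := by
  have key : ∀ m : ℕ, m ≤ n → ∀ u : Eu n → Eu n, VT (obox lo hi) u → (∀ y, divg u y = 0) →
      (∀ k : Fin n, m ≤ (k : ℕ) → ∀ y, u y k = 0) →
      ∃ f : Fin n → Fin n → Eu n → ℝ, (∀ a b, TestIn (obox lo hi) (f a b)) ∧
        ∀ y, u y = ∑ a, ∑ b, jgrad a b (f a b) y := by
    intro m
    induction m with
    | zero =>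
      intro _ u _ _ h0
      refine ⟨fun _ _ _ => 0, fun _ _ => t0 _, fun y => ?_⟩
      have h1 : u y = 0 := by
        ext k
        exact h0 k (Nat.zero_le _) y
      rw [h1]
      simp [jgrad_zero]
    | succ m ih =>
      intro hm u hu hd h0
      set j : Fin n := ⟨m, hm⟩ with hj
      by_cases hz : ∀ y, u y = 0
      · refine ⟨fun _ _ _ => 0, fun _ _ => t0 _, fun y => ?_⟩
        rw [hz y]
        simp [jgrad_zero]
      push Not at hz
      obtain ⟨y0, hy0⟩ := hz
      have husm : ContDiff ℝ ∞ u := hu.1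
      obtain ⟨K, hK, hKs, hK0⟩ := hu.2
      have hKne : K.Nonempty := ⟨y0, by
        by_contra h2
        exact hy0 (hK0 y0 h2)⟩
      obtain ⟨p, q, hpq, hbox⟩ := bnd hK hKne hKs
      have hub : ∀ k : Fin n, ∀ M : ℕ, Bd M p q (fun y => u y k) := by
        intro k M x hx i _
        refine hbox x ?_ i
        by_contra h2
        apply hx
        simp [hK0 x h2]
      have hus : ∀ k : Fin n, ContDiff ℝ ∞ (fun y => u y k) := fun k => (coordS k).comp husm
      -- the iterated integral of the component `j` vanishes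
      have hF0 : ∀ x, slM m (fun y => u y j) x = 0 := by
        have hFs : ContDiff ℝ ∞ (slM m (fun y => u y j)) :=
          slM_smooth m (Nat.le_of_succ_le hm) _ (hus j) (hub j m)
        have hFd : ∀ x, fderiv ℝ (slM m (fun y => u y j)) x (ev j) = 0 := by
          intro x
          rw [slM_fd m (Nat.le_of_succ_le hm) _ (hus j) (hub j m) j le_rfl x]
          have h1 : (fun y => fderiv ℝ (fun y => u y j) y (ev j)) =
              fun y => ∑ i ∈ Finset.univ.filter (fun i : Fin n => (i : ℕ) < m),
                fderiv ℝ (fun y => - u y i) y (ev i) := by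
            funext y
            have h2 := hd y
            unfold divg at h2
            have h3 : ∀ i : Fin n, (fderiv ℝ u y (ev i)) i =
                fderiv ℝ (fun y => u y i) y (ev i) := fun i =>
              comp_fd (husm.differentiable (by simp) y) i (ev i)
            simp only [h3] at h2
            rw [← Finset.add_sum_erase _ _ (Finset.mem_univ j)] at h2
            have h4 : ∑ i ∈ Finset.univ.erase j, fderiv ℝ (fun y => u y i) y (ev i) =
                ∑ i ∈ Finset.univ.filter (fun i : Fin n => (i : ℕ) < m),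
                  fderiv ℝ (fun y => u y i) y (ev i) := by
              symm
              apply Finset.sum_subset
              · intro i hi
                rw [Finset.mem_filter] at hi
                refine Finset.mem_erase.2 ⟨?_, Finset.mem_univ _⟩
                rintro rfl
                exact absurd hi.2 (lt_irrefl _)
              · intro i hi hi2
                have hij : i ≠ j := (Finset.mem_erase.1 hi).1
                have him : m + 1 ≤ (i : ℕ) := by
                  rcases Nat.lt_trichotomy (i : ℕ) m with h5 | h5 | h5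
                  · exact absurd ((Finset.mem_filter (p := fun i : Fin n => (i : ℕ) < m)).2
                      ⟨Finset.mem_univ i, h5⟩) hi2
                  · exact absurd (Fin.ext h5) hij
                  · exact h5
                have h6 : (fun y => u y i) = fun _ => 0 := by
                  funext z
                  exact h0 i him z
                rw [h6]
                simp
            rw [h4] at h2
            have h7 : ∀ i : Fin n, fderiv ℝ (fun y => - u y i) y (ev i) =
                - fderiv ℝ (fun y => u y i) y (ev i) := by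
              intro i
              rw [fderiv_fun_neg]
              rfl
            simp only [h7, Finset.sum_neg_distrib]
            linarith
          rw [h1, slM_sum (p := p) (q := q) (Nat.le_of_succ_le hm)
            (fun i y => fderiv ℝ (fun y => - u y i) y (ev i))]
          · apply Finset.sum_eq_zero
            intro i hi
            have h2 := slM_self (p := p) (q := q) m (Nat.le_of_succ_le hm) (fun y => - u y i)
              (hus i).neg (fun x hx => hub i m x (by
                intro h3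
                apply hx
                show - u x i = 0
                have h4 : u x i = 0 := h3
                rw [h4, neg_zero])) i (Finset.mem_filter.1 hi).2
            exact congrFun h2 x
          · exact fun i _ => pd_smooth (hus i).neg _
          · intro i _
            refine bd_fd ?_ _
            intro x hx
            refine hub i m x ?_
            intro h3
            apply hx
            show - u x i = 0
            have h4 : u x i = 0 := h3
            rw [h4, neg_zero]
        intro x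
        have hφ : ∀ s : ℝ, HasDerivAt (fun s : ℝ => slM m (fun y => u y j) (x + s • ev j)) 0 s := by
          intro s
          have h1 : HasDerivAt (fun s : ℝ => (x + s • ev j : Eu n)) (ev j) s := by
            simpa using ((hasDerivAt_id s).smul_const (ev j)).const_add x
          have h2 := ((hFs.differentiable (by simp)) (x + s • ev j)).hasFDerivAt.comp_hasDerivAt s h1
          rw [hFd] at h2
          exact h2
        have hconst := is_const_of_deriv_eq_zero (fun s => (hφ s).differentiableAt)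
          (fun s => (hφ s).deriv) 0 (p j - 1 - x j)
        simp only [zero_smul, add_zero] at hconst
        rw [hconst]
        refine slM_out m (Nat.le_of_succ_le hm) j le_rfl (p j - 1) _ ?_ _ ?_
        · intro y hy
          by_contra h2
          have h3 := (hub j (m + 1) y h2 j (Nat.lt_succ_self m)).1
          rw [hy] at h3
          linarith
        · have h2 : (x + (p j - 1 - x j) • ev j : Eu n) j = x j + (p j - 1 - x j) * 1 := by
            simp [evS]
          rw [h2]
          ring
      obtain ⟨g, hg, hg0, hgx⟩ := sl_dec m (Nat.le_of_succ_le hm) (vt_comp hu j) hF0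
      -- subtract the skew gradients
      have hjv : ∀ k, VT (obox lo hi) (jgrad j k (g k)) := fun k => vt_jgrad (hg k) j k
      have hdk : ∀ k y, DifferentiableAt ℝ (jgrad j k (g k)) y := fun k y =>
        (hjv k).1.differentiable (by simp) y
      have hvt : VT (obox lo hi) (fun y => u y - ∑ k, jgrad j k (g k) y) :=
        vt_sub hu (vt_sum _ _ fun k _ => hjv k)
      have hvd : ∀ y, divg (fun y => u y - ∑ k, jgrad j k (g k) y) y = 0 := by
        intro y
        rw [divg_sub (husm.differentiable (by simp) y)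
          (DifferentiableAt.fun_sum fun k _ => hdk k y), hd y, divg_sum _ fun k _ => hdk k y]
        have h1 : ∀ k ∈ Finset.univ, divg (jgrad j k (g k)) y = 0 := fun k _ =>
          divg_jgrad (hg k).1 j k y
        rw [Finset.sum_eq_zero h1, sub_zero]
      have hgz : ∀ k : Fin n, m ≤ (k : ℕ) → ∀ y, fderiv ℝ (g k) y = 0 := by
        intro k hk y
        have h1 : g k = fun _ => 0 := by
          funext z
          exact hg0 k hk z
        rw [h1]
        simp
      have hv0 : ∀ k : Fin n, m ≤ (k : ℕ) → ∀ y, (u y - ∑ k, jgrad j k (g k) y : Eu n) k = 0 := by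
        intro k hk y
        have h1 : (u y - ∑ k, jgrad j k (g k) y : Eu n) k =
            u y k - ∑ l, (jgrad j l (g l) y : Eu n) k := by
          simp
        rw [h1]
        simp only [jgrad_comp]
        rw [Finset.sum_sub_distrib, Finset.sum_ite_eq]
        simp only [Finset.mem_univ, if_true]
        rw [hgz k hk y]
        simp only [zero_apply, sub_zero]
        by_cases hkj : k = j
        · subst hkj
          simp only [if_true]
          rw [← hgx y, sub_self]
        · simp only [hkj, if_false, Finset.sum_const_zero, sub_zero]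
          refine h0 k ?_ y
          rcases Nat.lt_or_ge m (k : ℕ) with h5 | h5
          · exact h5
          · exact absurd (Fin.ext (le_antisymm h5 hk)) hkj
      obtain ⟨f, hf, hfx⟩ := ih (Nat.le_of_succ_le hm) _ hvt hvd hv0
      refine ⟨fun a b y => f a b y + (if a = j then g b y else 0), ?_, ?_⟩
      · intro a b
        obtain ⟨h1, K1, hK1, hK1s, hK10⟩ := hf a b
        by_cases ha : a = j
        · obtain ⟨h2, K2, hK2, hK2s, hK20⟩ := hg b
          simp only [ha, if_true]
          rw [ha] at h1 hK10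
          refine ⟨h1.add h2, K1 ∪ K2, hK1.union hK2, Set.union_subset hK1s hK2s, fun y hy => ?_⟩
          show f j b y + g b y = 0
          rw [hK10 y (fun h => hy (Or.inl h)), hK20 y (fun h => hy (Or.inr h)), add_zero]
        · simp only [ha, if_false, add_zero]
          exact ⟨h1, K1, hK1, hK1s, hK10⟩
      · intro y
        have h1 : ∀ a b, jgrad a b (fun y => f a b y + (if a = j then g b y else 0)) y =
            jgrad a b (f a b) y + (if a = j then jgrad a b (g b) y else 0) := by
          intro a b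
          by_cases ha : a = j
          · simp only [ha, if_true]
            exact jgrad_add j b ((hf j b).1.differentiable (by simp) y)
              ((hg b).1.differentiable (by simp) y)
          · simp only [ha, if_false, add_zero]
        simp only [h1, Finset.sum_add_distrib]
        rw [← hfx y]
        have h2 : ∑ a, ∑ b, (if a = j then jgrad a b (g b) y else 0) =
            ∑ b, jgrad j b (g b) y := by
          rw [Finset.sum_comm]
          refine Finset.sum_congr rfl fun b _ => ?_
          rw [Finset.sum_ite_eq']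
          simp
        rw [h2]
        abel
  exact key n le_rfl u ⟨hu, hs⟩ hd (fun k hk => absurd k.isLt (not_lt.2 hk))

end

end Pool.Agent.H68.ST
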