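import Pool.Agent.H68.ST.ExRed
import Pool.Agent.H68.ST.BoxP

/-! # ST-D7: exactness of the divergence free fields on the product of two spheres -/

set_option autoImplicit false

namespace Pool.Agent.H68.ST

open MeasureTheory Set Pool.Agent.H68.VD Pool.Agent.H68.GM Pool.Agent.H6.ST
open scoped ENNReal ContDiff

noncomputable section

namespace EXA

variable {n : ℕ}

theorem test_add {U : Set (Eu n)} {f g : Eu n → ℝ} (hf : TestIn U f) (hg : TestIn U g) :
    TestIn U (fun y => f y + g y) := by
  obtain ⟨f1, K, hK, hKU, f0⟩ := hf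
  obtain ⟨g1, L, hL, hLU, g0⟩ := hg
  refine ⟨f1.add g1, K ∪ L, hK.union hL, union_subset hKU hLU, fun y hy => ?_⟩
  show f y + g y = 0
  rw [f0 y (fun h => hy (Or.inl h)), g0 y (fun h => hy (Or.inr h)), add_zero]

theorem jgrad_add {f g : Eu n → ℝ} (hf : ContDiff ℝ ∞ f) (hg : ContDiff ℝ ∞ g) (a b : Fin n)
    (y : Eu n) : jgrad a b (fun z => f z + g z) y = jgrad a b f y + jgrad a b g y := by
  unfold jgrad
  rw [fderiv_fun_add (hf.differentiable (by simp) y) (hg.differentiable (by simp) y)]
  simp only [add_apply, add_smul]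
  abel

theorem push_add {M : Type} [TopologicalSpace M] {ι : Type}
    (ch : ι → OpenPartialHomeomorph M (Eu n)) (i : ι) (u v : Eu n → Eu n) (j : ι) (y : Eu n) :
    push ch i (fun y => u y + v y) j y = push ch i u j y + push ch i v j y := by
  unfold push
  split_ifs with h
  · rw [map_add]
  · simp

end EXA

open EXA

theorem ex_of {S : Type} [TopologicalSpace S] [T2Space S] [CompactSpace S]
    {A B : OpenPartialHomeomorph S (Eu 2)} (hAB : Sph A B) (hV : VolAtlas (pch A B))
    (ht : (pch A B (0, 0)).target = obox (fun _ => 0) (fun _ => 1))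
    {X : Fin 2 × Fin 2 → Eu 4 → Eu 4} (hX : DivFree (pch A B) X) : Exact (pch A B) X := by
  obtain ⟨T, K, hT, hK, hs, hX', h0⟩ := ex_red hAB hV hX
  obtain ⟨u1, u2, u3, u4⟩ := eq_push hV hX' (0, 0) hK hs h0
  obtain ⟨f0, hf0, e0⟩ := box_poinc (lo := fun _ => 0) (hi := fun _ => 1) u1
    ⟨K, hK, by rw [← ht]; exact hs, u2⟩ u3
  rw [← ht] at hf0
  choose f hf ef using fun p => skew_entries (hT p)
  classical
  -- the correction in the big chart
  obtain ⟨g, hg, eg⟩ : ∃ g : Fin 4 → Fin 4 → Eu 4 → ℝ,
      (∀ a b, TestIn (pch A B (0, 0)).target (g a b)) ∧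
      ∀ y, dv (T (0, 0)) y + (X (0, 0) y - ∑ p, push (pch A B) p (dv (T p)) (0, 0) y) =
        ∑ a, ∑ b, jgrad a b (g a b) y := by
    refine ⟨fun a b y => f (0, 0) a b y + f0 a b y, fun a b => test_add (hf _ a b) (hf0 a b),
      fun y => ?_⟩
    rw [ef (0, 0) y, e0 y, ← Finset.sum_add_distrib]
    refine Finset.sum_congr rfl fun a _ => ?_
    rw [← Finset.sum_add_distrib]
    refine Finset.sum_congr rfl fun b _ => ?_
    rw [jgrad_add (hf _ a b).1 (hf0 a b).1]
  refine ⟨fun p => if p = (0, 0) then g else f p, ?_, ?_⟩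
  · intro p a b
    by_cases hp : p = (0, 0)
    · subst hp
      simp only [if_true]
      exact hg a b
    · simp only [if_neg hp]
      exact hf p a b
  · intro j y
    have key : ∀ p, push (pch A B) p
        (fun z => ∑ a, ∑ b, jgrad a b ((if p = (0, 0) then g else f p) a b) z) j y =
        push (pch A B) p (dv (T p)) j y + (if p = (0, 0) then push (pch A B) (0, 0)
          (fun y => X (0, 0) y - ∑ p, push (pch A B) p (dv (T p)) (0, 0) y) j y else 0) := by
      intro p
      by_cases hp : p = (0, 0)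
      · subst hp
        rw [if_pos rfl, if_pos rfl, ← push_add]
        congr 1
        funext z
        exact (eg z).symm
      · rw [if_neg hp, if_neg hp, add_zero]
        congr 1
        funext z
        exact (ef p z).symm
    rw [Finset.sum_congr rfl fun p _ => key p, Finset.sum_add_distrib]
    have h1 : (∑ p : Fin 2 × Fin 2, if p = (0, 0) then push (pch A B) (0, 0)
        (fun y => X (0, 0) y - ∑ p, push (pch A B) p (dv (T p)) (0, 0) y) j y else 0) =
        push (pch A B) (0, 0)
        (fun y => X (0, 0) y - ∑ p, push (pch A B) p (dv (T p)) (0, 0) y) j y := by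
      rw [Finset.sum_ite_eq' Finset.univ ((0 : Fin 2), (0 : Fin 2))]
      simp
    rw [h1, ← u4 j y]
    abel

end

end Pool.Agent.H68.ST
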