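import Pool.Agent.H68.ST.FEs
import Pool.Agent.H68.VD.CostK

/-! # ST-F4: the calculus of flat costs -/

set_option autoImplicit false
set_option maxHeartbeats 400000

namespace Pool.Agent.H68.ST

open MeasureTheory Set Pool.Agent.H68.VD Pool.Agent.H68.GM Pool.Agent.H6.ST
open scoped ENNReal ContDiff

noncomputable section

namespace FKA

open Pool.Agent.H68.VD.CostKA

variable {n : ℕ} {U V : Set (Eu n)} {s : ℝ}

theorem fk_id (hs0 : 0 ≤ s) (hs1 : s < 1) : FCost s U (id : Eu n → Eu n) 0 := by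
  refine ⟨fun _ x => x, fun _ => 0, cf_id, rfl, rfl, continuous_const, fun _ => le_rfl, ?_, ?_⟩
  · intro t _
    have h : vel (fun (_ : ℝ) (x : Eu n) => x) t = fun _ => (0 : Eu n) := by
      funext x
      unfold vel
      exact deriv_const _ _
    rw [h, fe_zero hs0 hs1]
    exact bot_le
  · simp

theorem fk_mono {f : Eu n → Eu n} {a b : ℝ} (h : U ⊆ V) (hab : a ≤ b) (hf : FCost s U f a) :
    FCost s V f b := by
  obtain ⟨φ, l, hφ, h0, h1, hl, hl0, hb, hi⟩ := hf
  exact ⟨φ, l, cf_mono h hφ, h0, h1, hl, hl0, hb, le_trans hi hab⟩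

theorem fk_inv (hs0 : 0 ≤ s) (hs1 : s < 1) (f : Eu n → Eu n) (a : ℝ)
    (h : FCost s U f a) : FCost s U (Function.invFun f) a := by
  obtain ⟨φ, l, hφ, h0, h1, hl, hl0, hb, hi⟩ := h
  have hsm : ContDiff ℝ ∞ (fun t : ℝ => 1 - t) := contDiff_const.sub contDiff_id
  have hconst : CF U (fun (_ : ℝ) => f) := by
    have := cf_re (E' := ℝ) (h := fun _ : ℝ => (1 : ℝ)) hφ contDiff_const
    rw [← h1]
    exact this
  have hinv : CF U (fun (_ : ℝ) => Function.invFun f) := cf_inv hconst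
  have hre : CF U (fun t : ℝ => φ (1 - t)) := cf_re hφ hsm
  have hfb : Function.Bijective f := hconst.bij 0
  refine ⟨fun t x => φ (1 - t) (Function.invFun f x), fun t => l (1 - t),
    cf_comp hre hinv, ?_, ?_,
    hl.comp (continuous_const.sub continuous_id), fun t => hl0 _, ?_, ?_⟩
  · funext x
    simp only [sub_zero]
    rw [h1]
    exact Function.rightInverse_invFun hfb.2 x
  · funext x
    simp only [sub_self]
    rw [h0]
    rfl
  · intro t ht
    have hder : HasDerivAt (fun t : ℝ => 1 - t) (-1) t := by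
      simpa using (hasDerivAt_id t).const_sub 1
    have h2 : vel (fun t x => φ (1 - t) (Function.invFun f x)) t =
        fun x => (-1 : ℝ) • vel φ (1 - t) x := by
      funext x
      have h3 := vel_const hre (hinv.bij 0) t x
      have h4 := vel_re hφ hder.differentiableAt x
      rw [h3, h4, hder.deriv]
    rw [h2, fe_smul hs0 hs1]
    simp only [abs_neg, abs_one, ENNReal.ofReal_one, one_mul]
    exact hb _ ⟨by linarith [ht.2], by linarith [ht.1]⟩
  · have h3 := intervalIntegral.integral_comp_sub_left (a := 0) (b := 1) l 1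
    simp only [sub_self, sub_zero] at h3
    rw [h3]
    exact hi

theorem fk_comp (hs0 : 0 ≤ s) (hs1 : s < 1) (f g : Eu n → Eu n) (a b : ℝ)
    (hf : FCost s U f a) (hg : FCost s U g b) : FCost s U (fun x => f (g x)) (a + b) := by
  obtain ⟨φ, l, hφ, hφ0, hφ1, hl, hl0, hlb, hli⟩ := hf
  obtain ⟨ψ, m, hψ, hψ0, hψ1, hm, hm0, hmb, hmi⟩ := hg
  have hφ' : CF U (fun t => φ (chi2 t)) := cf_re hφ chi2_smooth
  have hψ' : CF U (fun t => ψ (chi1 t)) := cf_re hψ chi1_smooth
  have hvφ : ∀ t x, vel (fun t => φ (chi2 t)) t x = deriv chi2 t • vel φ (chi2 t) x :=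
    fun t x => vel_re hφ (chi2_diff t) x
  have hvψ : ∀ t x, vel (fun t => ψ (chi1 t)) t x = deriv chi1 t • vel ψ (chi1 t) x :=
    fun t x => vel_re hψ (chi1_diff t) x
  have hc1 : Continuous (fun t => deriv chi1 t * m (chi1 t)) :=
    chi1_deriv_cont.mul (hm.comp chi1_diff.continuous)
  have hc2 : Continuous (fun t => deriv chi2 t * l (chi2 t)) :=
    chi2_deriv_cont.mul (hl.comp chi2_diff.continuous)
  refine ⟨fun t x => φ (chi2 t) (ψ (chi1 t) x),
    fun t => deriv chi1 t * m (chi1 t) + deriv chi2 t * l (chi2 t),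
    cf_comp hφ' hψ', ?_, ?_, hc1.add hc2, ?_, ?_,
    ?_⟩
  · funext x
    simp only [chi1_zero, chi2_zero, hφ0, hψ0, id]
  · funext x
    simp only [chi1_one, chi2_one, hφ1, hψ1]
  · intro t
    exact add_nonneg (mul_nonneg (chi1_deriv_nonneg t) (hm0 _))
      (mul_nonneg (chi2_deriv_nonneg t) (hl0 _))
  · intro t _
    have hcomp := vel_comp hφ' hψ' t
    have hn1 : 0 ≤ deriv chi1 t * m (chi1 t) := mul_nonneg (chi1_deriv_nonneg t) (hm0 _)
    have hn2 : 0 ≤ deriv chi2 t * l (chi2 t) := mul_nonneg (chi2_deriv_nonneg t) (hl0 _)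
    have hbij : ∀ y, ∃ x, φ (chi2 t) (ψ (chi1 t) x) = y := by
      intro y
      obtain ⟨z, hz⟩ := (hφ'.bij t).2 y
      obtain ⟨x, hx⟩ := (hψ'.bij t).2 z
      exact ⟨x, by rw [hx, hz]⟩
    rcases le_total t (1 / 2) with ht | ht
    · obtain ⟨e1, e2⟩ := chi2_left ht
      have hid : φ (chi2 t) = id := by rw [e1, hφ0]
      have h2 : vel (fun t x => φ (chi2 t) (ψ (chi1 t) x)) t =
          fun x => deriv chi1 t • vel ψ (chi1 t) x := by
        funext y
        obtain ⟨x, rfl⟩ := hbij y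
        have h3 := hcomp x
        simp only [hvφ, hvψ, e2, zero_smul, zero_add] at h3
        rw [h3, hid, fderiv_id]
        rfl
      rw [h2, fe_smul hs0 hs1, abs_of_nonneg (chi1_deriv_nonneg t)]
      calc ENNReal.ofReal (deriv chi1 t) * FE s (vel ψ (chi1 t))
          ≤ ENNReal.ofReal (deriv chi1 t) * ENNReal.ofReal (m (chi1 t)) := by
            gcongr
            exact hmb _ chi1_mem
        _ = ENNReal.ofReal (deriv chi1 t * m (chi1 t)) := by
            rw [← ENNReal.ofReal_mul (chi1_deriv_nonneg t)]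
        _ ≤ _ := ENNReal.ofReal_le_ofReal (by linarith)
    · obtain ⟨e1, e2⟩ := chi1_right ht
      have h2 : vel (fun t x => φ (chi2 t) (ψ (chi1 t) x)) t =
          fun x => deriv chi2 t • vel φ (chi2 t) x := by
        funext y
        obtain ⟨x, rfl⟩ := hbij y
        have h3 := hcomp x
        simp only [hvφ, hvψ, e2, zero_smul, map_zero, add_zero] at h3
        exact h3
      rw [h2, fe_smul hs0 hs1, abs_of_nonneg (chi2_deriv_nonneg t)]
      calc ENNReal.ofReal (deriv chi2 t) * FE s (vel φ (chi2 t))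
          ≤ ENNReal.ofReal (deriv chi2 t) * ENNReal.ofReal (l (chi2 t)) := by
            gcongr
            exact hlb _ chi2_mem
        _ = ENNReal.ofReal (deriv chi2 t * l (chi2 t)) := by
            rw [← ENNReal.ofReal_mul (chi2_deriv_nonneg t)]
        _ ≤ _ := ENNReal.ofReal_le_ofReal (by linarith)
  · rw [intervalIntegral.integral_add (hc1.intervalIntegrable _ _) (hc2.intervalIntegrable _ _),
      integral_sub1 m hm, integral_sub2 l hl]
    linarith

theorem fk_shift (f : Eu n → Eu n) (a : ℝ) (v : Eu n) (h : FCost s U f a) :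
    FCost s {x | x - v ∈ U} (fun x => f (x - v) + v) a := by
  obtain ⟨φ, l, hφ, h0, h1, hl, hl0, hb, hi⟩ := h
  refine ⟨fun t x => φ t (x - v) + v, l, cf_shift hφ v, ?_, ?_, hl, hl0, ?_, hi⟩
  · funext x
    simp only [h0, id, sub_add_cancel]
  · funext x
    simp only [h1]
  · intro t ht
    have h2 : vel (fun t x => φ t (x - v) + v) t = fun x => vel φ t (x - v) := by
      funext x
      exact vel_shift hφ v t x
    rw [h2, fe_shift (vel φ t) v]
    exact hb t ht

theorem fk_scale (hs0 : 0 ≤ s) (hs1 : s < 1) (f : Eu n → Eu n) (a ρ : ℝ) (hρ : 0 < ρ)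
    (h : FCost s U f a) :
    FCost s {x | ρ⁻¹ • x ∈ U} (fun x => ρ • f (ρ⁻¹ • x)) (ρ ^ ((n : ℝ) + 1 - s) * a) := by
  obtain ⟨φ, l, hφ, h0, h1, hl, hl0, hb, hi⟩ := h
  have hp : 0 ≤ ρ ^ ((n : ℝ) + 1 - s) := Real.rpow_nonneg hρ.le _
  refine ⟨fun t x => ρ • φ t (ρ⁻¹ • x), fun t => ρ ^ ((n : ℝ) + 1 - s) * l t, cf_scale hφ hρ,
    ?_, ?_, continuous_const.mul hl, fun t => mul_nonneg hp (hl0 t), ?_, ?_⟩
  · funext x
    simp only [h0, id]
    rw [smul_smul, mul_inv_cancel₀ hρ.ne', one_smul]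
  · funext x
    simp only [h1]
  · intro t ht
    have h2 : vel (fun t x => ρ • φ t (ρ⁻¹ • x)) t = fun x => ρ • vel φ t (ρ⁻¹ • x) := by
      funext x
      exact vel_scale hφ hρ t x
    rw [h2, fe_scale hs0 hs1 hρ, ENNReal.ofReal_mul hp]
    gcongr
    exact hb t ht
  · rw [intervalIntegral.integral_const_mul]
    exact mul_le_mul_of_nonneg_left hi hp

theorem fk_path (f : Eu n → Eu n) (Φ : ℝ → Eu n → Eu n)
    (hΦ : CPath U f Φ) (C : ℝ) (hC : 0 ≤ C)
    (hb : ∀ t ∈ Set.Icc (0 : ℝ) 1, FE s (vel Φ t) ≤ ENNReal.ofReal C) : FCost s U f C := by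
  refine ⟨Φ, fun _ => C, hΦ.fam, ?_, ?_, continuous_const, fun _ => hC, hb, ?_⟩
  · funext x
    exact hΦ.le0 0 le_rfl x
  · funext x
    exact hΦ.ge1 1 le_rfl x
  · simp

theorem fk_fin (hs0 : 0 ≤ s) (hs1 : s < 1) (f : Eu n → Eu n) (Φ : ℝ → Eu n → Eu n)
    (hΦ : CPath U f Φ) : ∃ C : ℝ, 0 ≤ C ∧ FCost s U f C := by
  obtain ⟨C, hC, hb⟩ := fe_bdd hs0 hs1 hΦ.fam
  exact ⟨C, hC, fk_path f Φ hΦ C hC hb⟩

end FKA

theorem fKit : FKit where
  id := fun _ _ _ hs0 hs1 => FKA.fk_id hs0 hs1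
  mono := fun _ _ _ _ _ _ _ h hab hf => FKA.fk_mono h hab hf
  comp := fun _ _ _ f g a b hs0 hs1 hf hg => FKA.fk_comp hs0 hs1 f g a b hf hg
  inv := fun _ _ _ f a hs0 hs1 hf => FKA.fk_inv hs0 hs1 f a hf
  shift := fun _ _ _ f a v _ _ hf => FKA.fk_shift f a v hf
  scale := fun _ _ _ f a ρ hs0 hs1 hρ hf => FKA.fk_scale hs0 hs1 f a ρ hρ hf
  path := fun _ _ _ f Φ _ _ _ hΦ C hC hb => FKA.fk_path f Φ hΦ C hC hb
  fin := fun _ _ _ f Φ hs0 hs1 _ hΦ => FKA.fk_fin hs0 hs1 f Φ hΦ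

end

end Pool.Agent.H68.ST
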