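import Pool.Agent.H68.ST.ImgDef
import Pool.Agent.H68.GM.WMW
import Pool.Agent.H68.GM.MFamK

/-! # ST-E2: comparison of the norms of a field and of its images -/

set_option autoImplicit false

namespace Pool.Agent.H68.ST

open MeasureTheory Set Pool.Agent.H68.VD Pool.Agent.H68.GM Pool.Agent.H6.ST
open scoped ENNReal ContDiff Topology

noncomputable section

variable {n : ℕ}

/-- Change of variables for a volume preserving injective map. -/
theorem cov_le {V W : Set (Eu n)} {μ : Eu n → Eu n} (hV : MeasurableSet V)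
    (hd : ∀ z ∈ V, DifferentiableAt ℝ μ z) (hdet : ∀ z ∈ V, |(fderiv ℝ μ z).det| = 1)
    (hi : Set.InjOn μ V) (hm : Set.MapsTo μ V W) (g : Eu n → ℝ≥0∞) :
    ∫⁻ z in V, g (μ z) ≤ ∫⁻ y in W, g y := by
  have hd' : ∀ x ∈ V, HasFDerivWithinAt μ (fderiv ℝ μ x) V x := fun x hx =>
    (hd x hx).hasFDerivAt.hasFDerivWithinAt
  have h := lintegral_image_eq_lintegral_abs_det_fderiv_mul volume hV hd' hi g
  have h2 : ∫⁻ x in V, ENNReal.ofReal |(fderiv ℝ μ x).det| * g (μ x) =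
      ∫⁻ y in V, g (μ y) := by
    apply setLIntegral_congr_fun hV
    intro x hx
    dsimp only
    rw [hdet x hx, ENNReal.ofReal_one, one_mul]
  rw [← h2, ← h]
  exact lintegral_mono_set hm.image_subset

namespace ImgA

open Pool.Agent.H68.GM.MFamA

variable {M : Type} [TopologicalSpace M] [Nonempty M] {ι : Type} [Fintype ι]
  {ch : ι → OpenPartialHomeomorph M (Eu n)}

/-- the local form of the estimate -/
def Pr (ch : ι → OpenPartialHomeomorph M (Eu n)) (K : ι → Set (Eu n)) (Φ : ℝ → M → M) (j : ι)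
    (S : Set (ℝ × Eu n)) : Prop :=
  ∃ C : ℝ, 0 ≤ C ∧ ∀ t : ℝ, ∀ X Y, IsFld ch X → IsFld ch Y → Img ch (Φ t) X Y →
    ∫⁻ y in {y | (t, y) ∈ S}, ‖Y j y‖ₑ ≤ ENNReal.ofReal C * L1M K X ∧
    ∫⁻ y in {y | (t, y) ∈ S}, (‖Y j y‖ₑ + ‖fderiv ℝ (Y j) y‖ₑ) ≤ ENNReal.ofReal C * W1M K X

/-- the matrix of the image -/
def GG (ch : ι → OpenPartialHomeomorph M (Eu n)) (Φ : ℝ → M → M) (i j : ι) (q : ℝ × Eu n) :
    Eu n →L[ℝ] Eu n :=
  (fderiv ℝ (lr ch Φ i j) (q.1, lr ch (fun e => Function.invFun (Φ e)) j i q)).comp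
    (ContinuousLinearMap.inr ℝ ℝ (Eu n))

theorem mem_D {Φ : ℝ → M → M} (hΦ : MFam ch Φ) {i j : ι} {q : ℝ × Eu n}
    (hq : q ∈ lD ch (fun e => Function.invFun (Φ e)) j i) :
    (q.1, lr ch (fun e => Function.invFun (Φ e)) j i q) ∈ lD ch Φ i j := by
  refine memComp hq ?_
  rw [Finv hΦ]
  exact (ch j).map_target hq.1

theorem smooth_GG {Φ : ℝ → M → M} (hV : VolAtlas ch) (hΦ : MFam ch Φ) {i j : ι} {q : ℝ × Eu n}
    (hq : q ∈ lD ch (fun e => Function.invFun (Φ e)) j i) : ContDiffAt ℝ ∞ (GG ch Φ i j) q := by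
  have hI := isFamInv hV hΦ
  have h1 := mem_D hΦ hq
  have h2 : ContDiffAt ℝ ∞ (fderiv ℝ (lr ch Φ i j))
      (q.1, lr ch (fun e => Function.invFun (Φ e)) j i q) :=
    (smoothAt hΦ h1).fderiv_right (by simp)
  have h3 : ContDiffAt ℝ ∞ (fun q : ℝ × Eu n =>
      (q.1, lr ch (fun e => Function.invFun (Φ e)) j i q)) q :=
    contDiffAt_fst.prodMk (smoothAt hI hq)
  exact (h2.comp q h3).clm_comp contDiffAt_const

/-- the formula for the image -/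
theorem img_eq {Φ : ℝ → M → M} (hΦ : MFam ch Φ) {i j : ι} {t : ℝ} {y : Eu n}
    (hq : (t, y) ∈ lD ch (fun e => Function.invFun (Φ e)) j i) {X Y : ι → Eu n → Eu n}
    (hXY : Img ch (Φ t) X Y) :
    Y j y = GG ch Φ i j (t, y) (X i (lr ch (fun e => Function.invFun (Φ e)) j i (t, y))) := by
  set z := lr ch (fun e => Function.invFun (Φ e)) j i (t, y) with hz
  have h1 := mem_D hΦ hq
  have h2 := hXY i j z h1.1 h1.2
  have h3 : (ch i).symm z = Function.invFun (Φ t) ((ch j).symm y) := (ch i).left_inv hq.2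
  have h4 : ch j (Φ t ((ch i).symm z)) = y := by
    rw [h3, Finv hΦ]
    exact (ch j).right_inv hq.1
  rw [h4, (fderivX hΦ h1).fderiv] at h2
  exact h2

theorem norm_inr (A : ℝ × Eu n →L[ℝ] Eu n) (v : Eu n) :
    ‖(A.comp (ContinuousLinearMap.inr ℝ ℝ (Eu n))) v‖ ≤ ‖A‖ * ‖v‖ := by
  have h : ‖((0 : ℝ), v)‖ = ‖v‖ := by simp
  calc ‖(A.comp (ContinuousLinearMap.inr ℝ ℝ (Eu n))) v‖ = ‖A ((0 : ℝ), v)‖ := rfl
    _ ≤ ‖A‖ * ‖((0 : ℝ), v)‖ := A.le_opNorm _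
    _ = ‖A‖ * ‖v‖ := by rw [h]

/-- the bound of the derivative of the image -/
theorem fd_img {Φ : ℝ → M → M} (hV : VolAtlas ch) (hΦ : MFam ch Φ) {i j : ι} {t : ℝ} {y : Eu n}
    (hq : (t, y) ∈ lD ch (fun e => Function.invFun (Φ e)) j i) {X Y : ι → Eu n → Eu n}
    (hX : IsFld ch X) (hXY : Img ch (Φ t) X Y) :
    ‖fderiv ℝ (Y j) y‖ ≤ ‖fderiv ℝ (GG ch Φ i j) (t, y)‖ *
        ‖X i (lr ch (fun e => Function.invFun (Φ e)) j i (t, y))‖ +
      ‖GG ch Φ i j (t, y)‖ * ‖fderiv ℝ (lr ch (fun e => Function.invFun (Φ e)) j i) (t, y)‖ *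
        ‖fderiv ℝ (X i) (lr ch (fun e => Function.invFun (Φ e)) j i (t, y))‖ := by
  have hI := isFamInv hV hΦ
  set ν := lr ch (fun e => Function.invFun (Φ e)) j i with hν
  have hinr : HasFDerivAt (fun y : Eu n => (t, y)) (ContinuousLinearMap.inr ℝ ℝ (Eu n)) y :=
    hasFDerivAt_prodMk_right t y
  have hG : HasFDerivAt (fun y => GG ch Φ i j (t, y)) ((fderiv ℝ (GG ch Φ i j) (t, y)).comp
      (ContinuousLinearMap.inr ℝ ℝ (Eu n))) y :=
    (((smooth_GG hV hΦ hq).differentiableAt (by simp)).hasFDerivAt).comp y hinr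
  have hN : HasFDerivAt (fun y => ν (t, y)) ((fderiv ℝ ν (t, y)).comp
      (ContinuousLinearMap.inr ℝ ℝ (Eu n))) y :=
    ((diffAt hI hq).hasFDerivAt).comp y hinr
  have hzt : ν (t, y) ∈ (ch i).target := (mem_D hΦ hq).1
  have hXd : HasFDerivAt (X i) (fderiv ℝ (X i) (ν (t, y))) (ν (t, y)) :=
    (((hX.smooth i).contDiffAt ((ch i).open_target.mem_nhds hzt)).differentiableAt
      (by simp)).hasFDerivAt
  have hXN : HasFDerivAt (fun y => X i (ν (t, y))) ((fderiv ℝ (X i) (ν (t, y))).comp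
      ((fderiv ℝ ν (t, y)).comp (ContinuousLinearMap.inr ℝ ℝ (Eu n)))) y := hXd.comp y hN
  have hY : Y j =ᶠ[𝓝 y] fun y => GG ch Φ i j (t, y) (X i (ν (t, y))) := by
    have h4 : Filter.Tendsto (fun z : Eu n => (t, z)) (𝓝 y) (𝓝 (t, y)) :=
      (continuous_const.prodMk continuous_id).tendsto y
    filter_upwards [h4.eventually (evD hI hq)] with z hz
    exact img_eq hΦ hz hXY
  rw [hY.fderiv_eq, (hG.clm_apply hXN).fderiv]
  refine ContinuousLinearMap.opNorm_le_bound _ (by positivity) fun v => ?_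
  have e1 : ‖(fderiv ℝ (GG ch Φ i j) (t, y)) ((0 : ℝ), v)‖ ≤
      ‖fderiv ℝ (GG ch Φ i j) (t, y)‖ * ‖v‖ := by
    refine (ContinuousLinearMap.le_opNorm _ _).trans (le_of_eq ?_)
    simp
  have e2 : ‖(fderiv ℝ ν (t, y)) ((0 : ℝ), v)‖ ≤ ‖fderiv ℝ ν (t, y)‖ * ‖v‖ := by
    refine (ContinuousLinearMap.le_opNorm _ _).trans (le_of_eq ?_)
    simp
  calc ‖((GG ch Φ i j (t, y)).comp ((fderiv ℝ (X i) (ν (t, y))).comp
        ((fderiv ℝ ν (t, y)).comp (ContinuousLinearMap.inr ℝ ℝ (Eu n)))) +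
        ((fderiv ℝ (GG ch Φ i j) (t, y)).comp (ContinuousLinearMap.inr ℝ ℝ (Eu n))).flip
          (X i (ν (t, y)))) v‖
      = ‖GG ch Φ i j (t, y) (fderiv ℝ (X i) (ν (t, y)) (fderiv ℝ ν (t, y) ((0 : ℝ), v))) +
          (fderiv ℝ (GG ch Φ i j) (t, y) ((0 : ℝ), v)) (X i (ν (t, y)))‖ := rfl
    _ ≤ ‖GG ch Φ i j (t, y)‖ * (‖fderiv ℝ (X i) (ν (t, y))‖ * (‖fderiv ℝ ν (t, y)‖ * ‖v‖)) +
          (‖fderiv ℝ (GG ch Φ i j) (t, y)‖ * ‖v‖) * ‖X i (ν (t, y))‖ := by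
        refine (norm_add_le _ _).trans (add_le_add ?_ ?_)
        · refine (ContinuousLinearMap.le_opNorm _ _).trans ?_
          refine mul_le_mul_of_nonneg_left ?_ (norm_nonneg _)
          refine (ContinuousLinearMap.le_opNorm _ _).trans ?_
          exact mul_le_mul_of_nonneg_left e2 (norm_nonneg _)
        · refine (ContinuousLinearMap.le_opNorm _ _).trans ?_
          exact mul_le_mul_of_nonneg_right e1 (norm_nonneg _)
    _ = _ := by ring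

theorem slice_open {U : Set (ℝ × Eu n)} (hU : IsOpen U) (t : ℝ) : IsOpen {y : Eu n | (t, y) ∈ U} :=
  hU.preimage (continuous_const.prodMk continuous_id)

/-- the estimate near a point -/
theorem loc {K : ι → Set (Eu n)} (hV : VolAtlas ch) (hK : KCov ch K) {Φ : ℝ → M → M}
    (hΦ : MFam ch Φ) (j : ι) (q₀ : ℝ × Eu n) (hq₀ : q₀.2 ∈ (ch j).target) :
    ∃ U ∈ 𝓝 q₀, Pr ch K Φ j U := by
  have hI := isFamInv hV hΦ
  obtain ⟨i, hi1, hi2⟩ := hK.cov (Function.invFun (Φ q₀.1) ((ch j).symm q₀.2))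
  set ν := lr ch (fun e => Function.invFun (Φ e)) j i with hν
  have hq : q₀ ∈ lD ch (fun e => Function.invFun (Φ e)) j i := ⟨hq₀, hi1⟩
  have c1 : ∀ᶠ q in 𝓝 q₀, q ∈ lD ch (fun e => Function.invFun (Φ e)) j i := evD hI hq
  have c2 : ∀ᶠ q in 𝓝 q₀, ν q ∈ interior (K i) :=
    (smoothAt hI hq).continuousAt.eventually (isOpen_interior.mem_nhds hi2)
  have c3 : ∀ᶠ q in 𝓝 q₀, ‖GG ch Φ i j q‖ < ‖GG ch Φ i j q₀‖ + 1 :=
    (smooth_GG hV hΦ hq).continuousAt.norm.eventually (gt_mem_nhds (by linarith))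
  have c4 : ∀ᶠ q in 𝓝 q₀, ‖fderiv ℝ (GG ch Φ i j) q‖ < ‖fderiv ℝ (GG ch Φ i j) q₀‖ + 1 :=
    ((smooth_GG hV hΦ hq).fderiv_right (m := ∞) (by simp)).continuousAt.norm.eventually
      (gt_mem_nhds (by linarith))
  have c5 : ∀ᶠ q in 𝓝 q₀, ‖fderiv ℝ ν q‖ < ‖fderiv ℝ ν q₀‖ + 1 :=
    ((smoothAt hI hq).fderiv_right (m := ∞) (by simp)).continuousAt.norm.eventually
      (gt_mem_nhds (by linarith))
  obtain ⟨U, hU1, hU2, hU3⟩ := mem_nhds_iff.mp (c1.and (c2.and (c3.and (c4.and c5))))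
  set C1 := ‖GG ch Φ i j q₀‖ + 1 with hC1
  set C2 := ‖fderiv ℝ (GG ch Φ i j) q₀‖ + 1 with hC2
  set C3 := ‖fderiv ℝ ν q₀‖ + 1 with hC3
  have p1 : 0 ≤ C1 := by positivity
  have p2 : 0 ≤ C2 := by positivity
  have p3 : 0 ≤ C3 := by positivity
  refine ⟨U, hU2.mem_nhds hU3, C1 + C2 + C1 * C3, by positivity, fun t X Y hX hY hXY => ?_⟩
  have hm : MeasurableSet {y : Eu n | (t, y) ∈ U} := (slice_open hU2 t).measurableSet
  have hcov : ∀ g : Eu n → ℝ≥0∞, ∫⁻ y in {y : Eu n | (t, y) ∈ U}, g (ν (t, y)) ≤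
      ∫⁻ z in K i, g z := by
    intro g
    refine cov_le (μ := fun y => ν (t, y)) hm ?_ ?_ ?_ ?_ g
    · intro y hy
      have h1 := (hU1 hy).1
      exact (fderivX hI h1).differentiableAt
    · intro y hy
      have h1 := (hU1 hy).1
      exact hI.det t j i y h1.1 h1.2
    · intro y hy y' hy' h
      have h1 := (hU1 hy).1
      have h1' := (hU1 hy').1
      have h2 : (ch i).symm (ν (t, y)) = Function.invFun (Φ t) ((ch j).symm y) :=
        (ch i).left_inv h1.2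
      have h2' : (ch i).symm (ν (t, y')) = Function.invFun (Φ t) ((ch j).symm y') :=
        (ch i).left_inv h1'.2
      have h3 : ν (t, y) = ν (t, y') := h
      rw [h3] at h2
      have h4 := (hI.bij t).1 (h2.symm.trans h2')
      exact (ch j).symm.injOn h1.1 h1'.1 h4
    · intro y hy
      exact interior_subset (hU1 hy).2.1
  have b1 : ∀ y ∈ {y : Eu n | (t, y) ∈ U}, ‖Y j y‖ ≤ C1 * ‖X i (ν (t, y))‖ := by
    intro y hy
    obtain ⟨h1, h2, h3, h4, h5⟩ := hU1 hy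
    rw [img_eq hΦ h1 hXY]
    exact (ContinuousLinearMap.le_opNorm _ _).trans
      (mul_le_mul_of_nonneg_right h3.le (norm_nonneg _))
  have b2 : ∀ y ∈ {y : Eu n | (t, y) ∈ U}, ‖fderiv ℝ (Y j) y‖ ≤ C2 * ‖X i (ν (t, y))‖ +
      C1 * C3 * ‖fderiv ℝ (X i) (ν (t, y))‖ := by
    intro y hy
    obtain ⟨h1, h2, h3, h4, h5⟩ := hU1 hy
    refine (fd_img hV hΦ h1 hX hXY).trans ?_
    refine add_le_add (mul_le_mul_of_nonneg_right h4.le (norm_nonneg _)) ?_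
    refine mul_le_mul_of_nonneg_right ?_ (norm_nonneg _)
    exact mul_le_mul h3.le h5.le (norm_nonneg _) p1
  have p4 : 0 ≤ C1 * C3 := mul_nonneg p1 p3
  constructor
  · calc ∫⁻ y in {y : Eu n | (t, y) ∈ U}, ‖Y j y‖ₑ
        ≤ ∫⁻ y in {y : Eu n | (t, y) ∈ U}, ENNReal.ofReal (C1 + C2 + C1 * C3) *
            ‖X i (ν (t, y))‖ₑ := by
          refine setLIntegral_mono' hm fun y hy => ?_
          rw [← ofReal_norm, ← ofReal_norm, ← ENNReal.ofReal_mul (by positivity)]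
          refine ENNReal.ofReal_le_ofReal ((b1 y hy).trans ?_)
          refine mul_le_mul_of_nonneg_right ?_ (norm_nonneg _)
          linarith
      _ ≤ ∫⁻ z in K i, ENNReal.ofReal (C1 + C2 + C1 * C3) * ‖X i z‖ₑ :=
          hcov (fun z => ENNReal.ofReal (C1 + C2 + C1 * C3) * ‖X i z‖ₑ)
      _ = ENNReal.ofReal (C1 + C2 + C1 * C3) * ∫⁻ z in K i, ‖X i z‖ₑ :=
          lintegral_const_mul' _ _ ENNReal.ofReal_ne_top
      _ ≤ ENNReal.ofReal (C1 + C2 + C1 * C3) * L1M K X := by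
          refine mul_le_mul' le_rfl ?_
          exact Finset.single_le_sum (f := fun i => ∫⁻ y in K i, ‖X i y‖ₑ)
            (fun _ _ => zero_le) (Finset.mem_univ i)
  · calc ∫⁻ y in {y : Eu n | (t, y) ∈ U}, (‖Y j y‖ₑ + ‖fderiv ℝ (Y j) y‖ₑ)
        ≤ ∫⁻ y in {y : Eu n | (t, y) ∈ U}, ENNReal.ofReal (C1 + C2 + C1 * C3) *
            (‖X i (ν (t, y))‖ₑ + ‖fderiv ℝ (X i) (ν (t, y))‖ₑ) := by
          refine setLIntegral_mono' hm fun y hy => ?_
          rw [← ofReal_norm, ← ofReal_norm, ← ofReal_norm, ← ofReal_norm,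
            ← ENNReal.ofReal_add (norm_nonneg _) (norm_nonneg _),
            ← ENNReal.ofReal_add (norm_nonneg _) (norm_nonneg _),
            ← ENNReal.ofReal_mul (by positivity)]
          refine ENNReal.ofReal_le_ofReal ((add_le_add (b1 y hy) (b2 y hy)).trans ?_)
          have a0 : 0 ≤ ‖X i (ν (t, y))‖ := norm_nonneg _
          have d0 : 0 ≤ ‖fderiv ℝ (X i) (ν (t, y))‖ := norm_nonneg _
          have m1 := mul_nonneg p1 d0
          have m2 := mul_nonneg p2 d0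
          have m3 := mul_nonneg p4 a0
          nlinarith
      _ ≤ ∫⁻ z in K i, ENNReal.ofReal (C1 + C2 + C1 * C3) *
            (‖X i z‖ₑ + ‖fderiv ℝ (X i) z‖ₑ) :=
          hcov (fun z => ENNReal.ofReal (C1 + C2 + C1 * C3) *
            (‖X i z‖ₑ + ‖fderiv ℝ (X i) z‖ₑ))
      _ = ENNReal.ofReal (C1 + C2 + C1 * C3) *
            ∫⁻ z in K i, (‖X i z‖ₑ + ‖fderiv ℝ (X i) z‖ₑ) :=
          lintegral_const_mul' _ _ ENNReal.ofReal_ne_top
      _ ≤ ENNReal.ofReal (C1 + C2 + C1 * C3) * W1M K X := by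
          refine mul_le_mul' le_rfl ?_
          exact Finset.single_le_sum
            (f := fun i => ∫⁻ y in K i, (‖X i y‖ₑ + ‖fderiv ℝ (X i) y‖ₑ))
            (fun _ _ => zero_le) (Finset.mem_univ i)

end ImgA

/-- The norms of the images of a field under a compact family are bounded. -/
theorem img_le {M : Type} [TopologicalSpace M] [T2Space M] [CompactSpace M] [Nonempty M]
    {ι : Type} [Fintype ι] {ch : ι → OpenPartialHomeomorph M (Eu n)} (hA : VolAtlas ch)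
    {K : ι → Set (Eu n)} (hK : KCov ch K) {Φ : ℝ → M → M} (hΦ : MFam ch Φ) (j : ι)
    {K' : Set (Eu n)} (hK' : IsCompact K') (hs : K' ⊆ (ch j).target) :
    ∃ C : ℝ, 0 ≤ C ∧ ∀ t ∈ Set.Icc (0 : ℝ) 1, ∀ X Y, IsFld ch X → IsFld ch Y →
      Img ch (Φ t) X Y →
      ∫⁻ y in K', ‖Y j y‖ₑ ≤ ENNReal.ofReal C * L1M K X ∧
      ∫⁻ y in K', (‖Y j y‖ₑ + ‖fderiv ℝ (Y j) y‖ₑ) ≤ ENNReal.ofReal C * W1M K X := by
  have hc : IsCompact (Set.Icc (0 : ℝ) 1 ×ˢ K') := isCompact_Icc.prod hK'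
  have hP : ImgA.Pr ch K Φ j (Set.Icc (0 : ℝ) 1 ×ˢ K') := by
    refine hc.induction_on (p := ImgA.Pr ch K Φ j) ?_ ?_ ?_ ?_
    · refine ⟨0, le_rfl, fun t X Y _ _ _ => ?_⟩
      simp
    · rintro S T hST ⟨C, hC, h⟩
      refine ⟨C, hC, fun t X Y hX hY hXY => ?_⟩
      obtain ⟨h1, h2⟩ := h t X Y hX hY hXY
      have hsub : {y : Eu n | (t, y) ∈ S} ⊆ {y | (t, y) ∈ T} := fun y hy => hST hy
      exact ⟨(lintegral_mono_set hsub).trans h1, (lintegral_mono_set hsub).trans h2⟩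
    · rintro S T ⟨C, hC, h⟩ ⟨C', hC', h'⟩
      refine ⟨C + C', by positivity, fun t X Y hX hY hXY => ?_⟩
      obtain ⟨h1, h2⟩ := h t X Y hX hY hXY
      obtain ⟨h1', h2'⟩ := h' t X Y hX hY hXY
      have hun : {y : Eu n | (t, y) ∈ S ∪ T} = {y | (t, y) ∈ S} ∪ {y | (t, y) ∈ T} := rfl
      rw [hun, ENNReal.ofReal_add hC hC', add_mul, add_mul]
      exact ⟨(lintegral_union_le _ _ _).trans (add_le_add h1 h1'),
        (lintegral_union_le _ _ _).trans (add_le_add h2 h2')⟩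
    · rintro q₀ hq₀
      obtain ⟨U, hU, h⟩ := ImgA.loc hA hK hΦ j q₀ (hs hq₀.2)
      exact ⟨U, mem_nhdsWithin_of_mem_nhds hU, h⟩
  obtain ⟨C, hC, h⟩ := hP
  refine ⟨C, hC, fun t ht X Y hX hY hXY => ?_⟩
  have hset : {y : Eu n | (t, y) ∈ Set.Icc (0 : ℝ) 1 ×ˢ K'} = K' := by
    ext y
    change (t ∈ Set.Icc (0 : ℝ) 1 ∧ y ∈ K') ↔ _
    exact ⟨fun h => h.2, fun h => ⟨ht, h⟩⟩
  have h1 := h t X Y hX hY hXY
  rw [hset] at h1
  exact h1

/-- The norms over any compact set are bounded. -/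
theorem cmp_le {M : Type} [TopologicalSpace M] [T2Space M] [CompactSpace M] [Nonempty M]
    {ι : Type} [Fintype ι] {ch : ι → OpenPartialHomeomorph M (Eu n)} (hA : VolAtlas ch)
    {K : ι → Set (Eu n)} (hK : KCov ch K) (j : ι) {K' : Set (Eu n)} (hK' : IsCompact K')
    (hs : K' ⊆ (ch j).target) :
    ∃ C : ℝ, 0 ≤ C ∧ ∀ X, IsFld ch X →
      ∫⁻ y in K', ‖X j y‖ₑ ≤ ENNReal.ofReal C * L1M K X ∧
      ∫⁻ y in K', (‖X j y‖ₑ + ‖fderiv ℝ (X j) y‖ₑ) ≤ ENNReal.ofReal C * W1M K X := by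
  obtain ⟨C, hC, h⟩ := img_le hA hK (MFamA.isFamId (E := ℝ) hA) j hK' hs
  refine ⟨C, hC, fun X hX => h 0 (by simp) X X hX hX ?_⟩
  intro i j y hy hj
  exact hX.compat i j y ⟨hy, hj⟩

end

end Pool.Agent.H68.ST
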