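import Pool.Agent.H68.ST.Interp
import Pool.Agent.H68.ST.Img

/-! # ST-N2: the norm of `W^{s,1}` is bounded by the cost functional -/

set_option autoImplicit false

namespace Pool.Agent.H68.ST

open MeasureTheory Set Pool.Agent.H68.VD Pool.Agent.H68.GM Pool.Agent.H6.ST
open scoped ENNReal ContDiff

noncomputable section

namespace NmAA

variable {n : ℕ}

/-- The derivative of a smooth cutoff function is bounded. -/
lemma cut_fderiv {K' : Set (Eu n)} (hK' : IsCompact K') (χ : Eu n → ℝ) (hχ : ContDiff ℝ ∞ χ)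
    (h0 : ∀ y ∉ K', χ y = 0) : ∃ c : ℝ, 0 ≤ c ∧ ∀ y, ‖fderiv ℝ χ y‖ ≤ c := by
  have hs : HasCompactSupport χ := HasCompactSupport.intro hK' h0
  obtain ⟨C, hC⟩ := (hχ.continuous_fderiv (by simp)).bounded_above_of_compact_support
    (hs.fderiv (𝕜 := ℝ))
  exact ⟨max C 0, le_max_right _ _, fun y => le_trans (hC y) (le_max_left _ _)⟩

/-- Two factors are combined. -/
lemma comb {s B : ℝ} (hs0 : 0 ≤ s) (hs1 : s < 1) (hB : 0 < B) (a b L W : ℝ≥0∞)
    (ha : a ≤ ENNReal.ofReal B * L) (hb : b ≤ ENNReal.ofReal B * W) :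
    a ^ (1 - s) * b ^ s ≤ ENNReal.ofReal B * (L ^ (1 - s) * W ^ s) := by
  have h1 : a ^ (1 - s) ≤ ENNReal.ofReal B ^ (1 - s) * L ^ (1 - s) := by
    rw [← ENNReal.mul_rpow_of_nonneg _ _ (by linarith)]
    exact ENNReal.rpow_le_rpow ha (by linarith)
  have h2 : b ^ s ≤ ENNReal.ofReal B ^ s * W ^ s := by
    rw [← ENNReal.mul_rpow_of_nonneg _ _ hs0]
    exact ENNReal.rpow_le_rpow hb hs0
  have h3 : ENNReal.ofReal B ^ (1 - s) * ENNReal.ofReal B ^ s = ENNReal.ofReal B := by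
    rw [← ENNReal.rpow_add _ _ (by simpa using hB) ENNReal.ofReal_ne_top]
    rw [sub_add_cancel, ENNReal.rpow_one]
  calc a ^ (1 - s) * b ^ s ≤ (ENNReal.ofReal B ^ (1 - s) * L ^ (1 - s)) *
        (ENNReal.ofReal B ^ s * W ^ s) := mul_le_mul' h1 h2
    _ = (ENNReal.ofReal B ^ (1 - s) * ENNReal.ofReal B ^ s) * (L ^ (1 - s) * W ^ s) := by ring
    _ = _ := by rw [h3]

/-- The norms of a field which is multiplied by a cutoff function. -/
lemma cut_le {V K' : Set (Eu n)} (hV : IsOpen V) (hK' : IsCompact K') (hKV : K' ⊆ V)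
    (χ : Eu n → ℝ) (hχ : ContDiff ℝ ∞ χ) (h0 : ∀ y ∉ K', χ y = 0) {c d : ℝ} (hc : 0 ≤ c)
    (hd : 0 ≤ d) (hcb : ∀ y, |χ y| ≤ c) (hdb : ∀ y, ‖fderiv ℝ χ y‖ ≤ d) (X : Eu n → Eu n)
    (hX : ContDiffOn ℝ ∞ X V) :
    ∫⁻ y, ‖χ y • X y‖ₑ ≤ ENNReal.ofReal (c + d) * ∫⁻ y in K', ‖X y‖ₑ ∧
    ∫⁻ y, (‖χ y • X y‖ₑ + ‖fderiv ℝ (fun y => χ y • X y) y‖ₑ) ≤
      ENNReal.ofReal (c + d) * ∫⁻ y in K', (‖X y‖ₑ + ‖fderiv ℝ X y‖ₑ) := by
  have hz : ∀ y ∉ K', fderiv ℝ (fun y => χ y • X y) y = 0 := by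
    intro y hy
    have : (fun y => χ y • X y) =ᶠ[nhds y] fun _ => 0 := by
      filter_upwards [hK'.isClosed.isOpen_compl.mem_nhds hy] with z hz
      simp [h0 z hz]
    rw [this.fderiv_eq]
    simp
  have e1 : ∫⁻ y, ‖χ y • X y‖ₑ = ∫⁻ y in K', ‖χ y • X y‖ₑ := by
    rw [setLIntegral_eq_of_support_subset]
    intro y hy
    by_contra hy'
    apply hy
    simp [h0 y hy']
  have e2 : ∫⁻ y, (‖χ y • X y‖ₑ + ‖fderiv ℝ (fun y => χ y • X y) y‖ₑ) =
      ∫⁻ y in K', (‖χ y • X y‖ₑ + ‖fderiv ℝ (fun y => χ y • X y) y‖ₑ) := by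
    rw [setLIntegral_eq_of_support_subset]
    intro y hy
    by_contra hy'
    apply hy
    dsimp only
    rw [h0 y hy', hz y hy', zero_smul, ← ofReal_norm, ← ofReal_norm, norm_zero, norm_zero]
    simp
  have hm : MeasurableSet K' := hK'.measurableSet
  have b1 : ∀ y, ‖χ y • X y‖ₑ ≤ ENNReal.ofReal c * ‖X y‖ₑ := by
    intro y
    rw [enorm_smul]
    refine mul_le_mul' ?_ le_rfl
    rw [← ofReal_norm]
    exact ENNReal.ofReal_le_ofReal (hcb y)
  have b2 : ∀ y ∈ K', ‖fderiv ℝ (fun y => χ y • X y) y‖ₑ ≤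
      ENNReal.ofReal c * ‖fderiv ℝ X y‖ₑ + ENNReal.ofReal d * ‖X y‖ₑ := by
    intro y hy
    have h1 : DifferentiableAt ℝ χ y := (hχ.differentiable (by simp)) y
    have h2 : DifferentiableAt ℝ X y :=
      (hX.contDiffAt (hV.mem_nhds (hKV hy))).differentiableAt (by simp)
    rw [fderiv_fun_smul h1 h2]
    rw [← ofReal_norm, ← ofReal_norm (X y), ← ofReal_norm (fderiv ℝ X y),
      ← ENNReal.ofReal_mul hd, ← ENNReal.ofReal_mul hc,
      ← ENNReal.ofReal_add (mul_nonneg hc (norm_nonneg _)) (mul_nonneg hd (norm_nonneg _))]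
    refine ENNReal.ofReal_le_ofReal ((norm_add_le _ _).trans (add_le_add ?_ ?_))
    · rw [norm_smul]
      exact mul_le_mul_of_nonneg_right (hcb y) (norm_nonneg _)
    · rw [ContinuousLinearMap.norm_smulRight_apply]
      exact mul_le_mul_of_nonneg_right (hdb y) (norm_nonneg _)
  constructor
  · rw [e1, ← lintegral_const_mul' _ _ ENNReal.ofReal_ne_top]
    refine lintegral_mono fun y => (b1 y).trans ?_
    exact mul_le_mul' (ENNReal.ofReal_le_ofReal (by linarith)) le_rfl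
  · rw [e2, ← lintegral_const_mul' _ _ ENNReal.ofReal_ne_top]
    refine setLIntegral_mono' hm fun y hy => ?_
    refine (add_le_add (b1 y) (b2 y hy)).trans ?_
    rw [ENNReal.ofReal_add hc hd]
    calc ENNReal.ofReal c * ‖X y‖ₑ + (ENNReal.ofReal c * ‖fderiv ℝ X y‖ₑ + ENNReal.ofReal d * ‖X y‖ₑ)
        ≤ ENNReal.ofReal c * ‖X y‖ₑ + (ENNReal.ofReal c * ‖fderiv ℝ X y‖ₑ +
          ENNReal.ofReal d * ‖X y‖ₑ) + ENNReal.ofReal d * ‖fderiv ℝ X y‖ₑ := le_self_add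
      _ = _ := by ring

end NmAA

open NmAA in
theorem nm1 : NM1 := by
  intro n M _ _ _ _ ι _ ch hA K hK χ hχ hn s hs0 hs1
  obtain ⟨C₁, hC₁, hI⟩ := interp hn hs0 hs1
  choose K' hK' hK'j h0 using hχ.supp
  have hsm := hχ.smooth
  choose c hc hcb using fun i => WMWA.cut_bound (hK' i) (χ i) (hsm i) (h0 i)
  choose d hd hdb using fun i => cut_fderiv (hK' i) (χ i) (hsm i) (h0 i)
  choose A hA0 hAb using fun i => cmp_le hA hK i (hK' i) (hK'j i)
  have hB : ∀ i, 0 < (c i + d i) * A i + 1 := fun i => by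
    have := mul_nonneg (add_nonneg (hc i) (hd i)) (hA0 i)
    linarith
  refine ⟨∑ i, C₁ * ((c i + d i) * A i + 1),
    Finset.sum_nonneg fun i _ => mul_nonneg hC₁ (hB i).le, fun X hX => ?_⟩
  unfold w1Man
  rw [ENNReal.ofReal_sum_of_nonneg (fun i _ => mul_nonneg hC₁ (hB i).le), Finset.sum_mul]
  refine Finset.sum_le_sum fun i _ => ?_
  have hsmi : ContDiff ℝ ∞ (fun y => χ i y • X i y) :=
    WMWA.glue (ch i).open_target (hK' i).isClosed (hK'j i) _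
      ((hsm i).contDiffOn.smul (hX.smooth i)) (fun y hy => by simp [h0 i y hy])
  have hcs : HasCompactSupport (fun y => χ i y • X i y) :=
    HasCompactSupport.intro (hK' i) (fun y hy => by simp [h0 i y hy])
  have h1 := hI _ hsmi hcs
  obtain ⟨h2, h3⟩ := cut_le (ch i).open_target (hK' i) (hK'j i) (χ i) (hsm i) (h0 i) (hc i)
    (hd i) (hcb i) (hdb i) (X i) (hX.smooth i)
  obtain ⟨h4, h5⟩ := hAb i X hX
  have hle : ENNReal.ofReal ((c i + d i) * A i) ≤ ENNReal.ofReal ((c i + d i) * A i + 1) :=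
    ENNReal.ofReal_le_ofReal (by linarith)
  have h6 : ∫⁻ y, ‖χ i y • X i y‖ₑ ≤ ENNReal.ofReal ((c i + d i) * A i + 1) * L1M K X := by
    refine h2.trans ((mul_le_mul' le_rfl h4).trans ?_)
    rw [← mul_assoc, ← ENNReal.ofReal_mul (add_nonneg (hc i) (hd i))]
    exact mul_le_mul' hle le_rfl
  have h7 : ∫⁻ y, (‖χ i y • X i y‖ₑ + ‖fderiv ℝ (fun y => χ i y • X i y) y‖ₑ) ≤
      ENNReal.ofReal ((c i + d i) * A i + 1) * W1M K X := by
    refine h3.trans ((mul_le_mul' le_rfl h5).trans ?_)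
    rw [← mul_assoc, ← ENNReal.ofReal_mul (add_nonneg (hc i) (hd i))]
    exact mul_le_mul' hle le_rfl
  have h8 := comb hs0 hs1 (hB i) _ _ _ _ h6 h7
  unfold w1E
  rw [if_pos hs0, ENNReal.ofReal_mul hC₁, mul_assoc]
  exact h1.trans (mul_le_mul' le_rfl h8)

end

end Pool.Agent.H68.ST
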