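import Pool.Agent.H68.ST.W1n
import Pool.Agent.H68.GM.WMW
import Pool.Agent.H68.GM.PushK
import Pool.Agent.H68.GM.Piola

/-! # ST-N4: for negative `s` the norm is a weak norm -/

set_option autoImplicit false

namespace Pool.Agent.H68.ST.NmBA

open MeasureTheory Set Pool.Agent.H68.VD Pool.Agent.H68.GM Pool.Agent.H68.GM.WMWA
open Pool.Agent.H6.ST
open scoped ENNReal ContDiff Topology

noncomputable section

variable {n : ℕ} {M : Type} [TopologicalSpace M] {ι : Type}
  {ch : ι → OpenPartialHomeomorph M (Eu n)}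

lemma l1_push (PK : PushKit) [T2Space M] (hA : VolAtlas ch) (i : ι) (K : Set (Eu n))
    (hK : IsCompact K) (hKi : K ⊆ (ch i).target) (j : ι) (K' : Set (Eu n)) (hK' : IsCompact K')
    (hK'j : K' ⊆ (ch j).target) (χ : Eu n → ℝ) (hχ : ContDiff ℝ ∞ χ) (h0 : ∀ y ∉ K', χ y = 0) :
    ∃ A : ℝ, 0 ≤ A ∧ ∀ u : Eu n → Eu n, (∀ y ∉ K, u y = 0) →
    ∫⁻ y, ‖χ y • push ch i u j y‖ₑ ≤ ENNReal.ofReal A * ∫⁻ y, ‖u y‖ₑ := by
  obtain ⟨C, hC, hb⟩ := fderiv_bound PK hA i K hK hKi j K' hK' hK'j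
  obtain ⟨c, hc, hcb⟩ := cut_bound hK' χ hχ h0
  refine ⟨c * C, mul_nonneg hc hC, fun u hu => ?_⟩
  have hpt : ∀ y, ‖χ y • push ch i u j y‖ₑ ≤ (dom ch j i).indicator
      (fun y => ENNReal.ofReal (c * C) * ‖u (tr ch j i y)‖ₑ) y := by
    intro y
    by_cases hd : y ∈ dom ch j i
    · rw [indicator_of_mem hd]
      rw [← ofReal_norm, ← ofReal_norm, ← ENNReal.ofReal_mul (mul_nonneg hc hC)]
      apply ENNReal.ofReal_le_ofReal
      rw [norm_smul]
      by_cases hy : y ∈ K'
      · by_cases hz : tr ch j i y ∈ K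
        · have h1 := hb y hy hd hz (u (tr ch j i y))
          unfold push
          rw [if_pos hd]
          calc ‖χ y‖ * ‖fderiv ℝ (tr ch i j) (tr ch j i y) (u (tr ch j i y))‖
              ≤ c * (C * ‖u (tr ch j i y)‖) := by
                apply mul_le_mul (hcb y) h1 (norm_nonneg _) hc
            _ = c * C * ‖u (tr ch j i y)‖ := by ring
        · unfold push
          rw [if_pos hd, hu _ hz]
          simp
      · rw [h0 y hy]
        simp only [norm_zero, zero_mul]
        positivity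
    · rw [indicator_of_notMem hd]
      unfold push
      rw [if_neg hd]
      simp
  have hm : MeasurableSet (dom ch j i) := (dom_open ch j i).measurableSet
  calc ∫⁻ y, ‖χ y • push ch i u j y‖ₑ
      ≤ ∫⁻ y, (dom ch j i).indicator
        (fun y => ENNReal.ofReal (c * C) * ‖u (tr ch j i y)‖ₑ) y := lintegral_mono hpt
    _ = ENNReal.ofReal (c * C) * ∫⁻ y in dom ch j i, ‖u (tr ch j i y)‖ₑ := by
        rw [lintegral_indicator hm, lintegral_const_mul']
        exact ENNReal.ofReal_ne_top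
    _ ≤ ENNReal.ofReal (c * C) * ∫⁻ z, ‖u z‖ₑ :=
        mul_le_mul' le_rfl (cov hA i j (fun z => ‖u z‖ₑ))

lemma l1_bound {L : Set (Eu n)} (hL : IsCompact L) : ∃ V : ℝ, 0 ≤ V ∧
    ∀ (u : Eu n → Eu n) (b : ℝ), 0 ≤ b → (∀ y ∉ L, u y = 0) → (∀ y, ‖u y‖ ≤ b) →
    ∫⁻ y, ‖u y‖ₑ ≤ ENNReal.ofReal (V * b) := by
  have hfin : volume L < ⊤ := hL.measure_lt_top
  refine ⟨(volume L).toReal, ENNReal.toReal_nonneg, fun u b hb h0 hu => ?_⟩
  have hpt : ∀ y, ‖u y‖ₑ ≤ L.indicator (fun _ => ENNReal.ofReal b) y := by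
    intro y
    by_cases hy : y ∈ L
    · rw [indicator_of_mem hy]
      rw [← ofReal_norm]
      exact ENNReal.ofReal_le_ofReal (hu y)
    · rw [h0 y hy]
      simp
  calc ∫⁻ y, ‖u y‖ₑ
      ≤ ∫⁻ y, L.indicator (fun _ => ENNReal.ofReal b) y := lintegral_mono hpt
    _ = ENNReal.ofReal b * volume L := by
        rw [lintegral_indicator hL.measurableSet, lintegral_const, Measure.restrict_apply_univ]
    _ = ENNReal.ofReal ((volume L).toReal * b) := by
        rw [ENNReal.ofReal_mul ENNReal.toReal_nonneg, ENNReal.ofReal_toReal hfin.ne, mul_comm]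

section

variable {i j : ι} {K K' : Set (Eu n)} {χ : Eu n → ℝ} {T : Eu n → (Eu n →L[ℝ] Eu n)}

/-- one term of the norm of a pushed divergence -/
lemma weak_term [T2Space M] (Q : Piola) (PK : PushKit) (hA : VolAtlas ch) (hK : IsCompact K)
    (hKi : K ⊆ (ch i).target) (hK' : IsCompact K') (hK'j : K' ⊆ (ch j).target)
    (hχ : ContDiff ℝ ∞ χ) (h0 : ∀ y ∉ K', χ y = 0) (s : ℝ) (hn : 1 ≤ n) (hs : s < 0)
    (B ε : ℝ) (hε : 0 < ε) : ∃ δ : ℝ, 0 < δ ∧ ∀ δ' ≤ δ,
    ∀ T : Eu n → (Eu n →L[ℝ] Eu n), ContDiff ℝ ∞ T → (∀ y ∉ K, T y = 0) →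
    (∀ y a b, inner ℝ (T y a) b = - inner ℝ a (T y b)) → (∀ y, ‖dv T y‖ ≤ B) →
    (∀ y, ‖T y‖ ≤ δ') → w1E s (fun y => χ y • push ch i (dv T) j y) ≤ ENNReal.ofReal ε := by
  obtain ⟨C, hC, hb⟩ := fderiv_bound PK hA i K hK hKi j K' hK' hK'j
  obtain ⟨c, hc, hcb⟩ := cut_bound hK' χ hχ h0
  have hL := ov_compact (ch := ch) i j K K' hK hKi hK' hK'j
  obtain ⟨G, hG⟩ : ∃ G : ℝ, ∀ y, ‖gr χ y‖ ≤ G :=
    (gr_smooth hχ).continuous.bounded_above_of_compact_support
      (HasCompactSupport.intro hK' (gr_zero hK'.isClosed h0))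
  have hG0 : 0 ≤ G := le_trans (norm_nonneg _) (hG 0)
  obtain ⟨V, hV, hlp⟩ := l1_bound hL
  obtain ⟨δ1, hδ1, hw⟩ := w1_weak hn hs hL (c * (C * B) + C ^ 2 * G)
    (ε / 2) (by linarith)
  refine ⟨min 1 (min (δ1 / (c * C ^ 2 + 1)) (ε / 2 / (V * (C ^ 2 * G) + 1))), ?_, ?_⟩
  · refine lt_min one_pos (lt_min ?_ ?_) <;> positivity
  intro δ hδle T hT hT0 hsk hB hδ
  have hδ0 : 0 ≤ δ := le_trans (norm_nonneg _) (hδ 0)
  have hB0 : 0 ≤ B := le_trans (norm_nonneg _) (hB 0)
  have hδa : δ ≤ 1 := le_trans hδle (min_le_left _ _)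
  have hδb : δ * (c * C ^ 2 + 1) ≤ δ1 := by
    rw [← le_div_iff₀ (by positivity)]
    exact le_trans hδle (le_trans (min_le_right _ _) (min_le_left _ _))
  have hδc : δ * (V * (C ^ 2 * G) + 1) ≤ ε / 2 := by
    rw [← le_div_iff₀ (by positivity)]
    exact le_trans hδle (le_trans (min_le_right _ _) (min_le_right _ _))
  set S : Eu n → (Eu n →L[ℝ] Eu n) := fun y => χ y • TZ ch i j T y with hS
  set R : Eu n → Eu n := fun y => TZ ch i j T y (gr χ y) with hR
  have hSs : ContDiff ℝ ∞ S := S_smooth hA hK hKi hK' hK'j hχ h0 hT hT0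
  have hRs : ContDiff ℝ ∞ R := R_smooth hA hK hKi hK' hK'j hχ h0 hT hT0
  have hS0 : ∀ y ∉ ov ch i j K K', S y = 0 := S_out h0 hT0
  have hR0 : ∀ y ∉ ov ch i j K K', R y = 0 := R_out hK' h0 hT0
  have hdec : ∀ y, χ y • push ch i (dv T) j y = dv S y + (-1 : ℝ) • R y :=
    decomp Q hA hK hKi hK' hK'j hχ h0 hT hT0 hsk
  have hRb : ∀ y, ‖R y‖ ≤ C ^ 2 * δ * G := by
    intro y
    by_cases hy : y ∈ ov ch i j K K'
    · have h1 := TZ_bound C hC hb δ hδ y hy
      calc ‖R y‖ ≤ ‖TZ ch i j T y‖ * ‖gr χ y‖ := ContinuousLinearMap.le_opNorm _ _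
        _ ≤ C ^ 2 * δ * G := by
          apply mul_le_mul h1 (hG y) (norm_nonneg _) (by positivity)
    · rw [hR0 y hy, norm_zero]; positivity
  have hSb : ∀ y, ‖S y‖ ≤ δ1 := by
    intro y
    by_cases hy : y ∈ ov ch i j K K'
    · have h1 := TZ_bound C hC hb δ hδ y hy
      have h2 : ‖S y‖ ≤ c * (C ^ 2 * δ) := by
        rw [hS]
        dsimp only
        rw [norm_smul]
        exact mul_le_mul (hcb y) h1 (norm_nonneg _) hc
      nlinarith
    · rw [hS0 y hy, norm_zero]; exact hδ1.le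
  have hdS : ∀ y, ‖dv S y‖ ≤ c * (C * B) + C ^ 2 * G := by
    intro y
    have h1 : dv S y = χ y • push ch i (dv T) j y + R y := by
      rw [hdec y]; simp
    have h2 : ‖χ y • push ch i (dv T) j y‖ ≤ c * (C * B) := by
      rw [norm_smul]
      by_cases hy : y ∈ K'
      · by_cases hd : y ∈ dom ch j i
        · unfold push
          rw [if_pos hd]
          by_cases hz : tr ch j i y ∈ K
          · have h3 := hb y hy hd hz (dv T (tr ch j i y))
            have h4 : C * ‖dv T (tr ch j i y)‖ ≤ C * B := mul_le_mul_of_nonneg_left (hB _) hC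
            exact mul_le_mul (hcb y) (h3.trans h4) (norm_nonneg _) hc
          · rw [dv_zero hK.isClosed hT0 _ hz]
            simp only [map_zero, norm_zero, mul_zero]
            positivity
        · unfold push
          rw [if_neg hd]
          simp only [norm_zero, mul_zero]
          positivity
      · rw [h0 y hy]
        simp only [norm_zero, zero_mul]
        positivity
    rw [h1]
    refine (norm_add_le _ _).trans (add_le_add h2 ((hRb y).trans ?_))
    have h5 : C ^ 2 * δ * G = (C ^ 2 * G) * δ := by ring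
    rw [h5]
    exact mul_le_of_le_one_right (by positivity) hδa
  have hw1 : w1E s (dv S) ≤ ENNReal.ofReal (ε / 2) := hw S hSs hS0 hdS hSb
  have hcS : Continuous (dv S) := by
    have h1 : ContDiff ℝ ∞ (fderiv ℝ S) := hSs.fderiv_right (by simp)
    unfold dv
    apply continuous_finsetSum
    intro k _
    exact (h1.continuous.clm_apply continuous_const).clm_apply continuous_const
  have hcR : Continuous (fun y => (-1 : ℝ) • R y) := hRs.continuous.const_smul (-1 : ℝ)
  have hw2 : w1E s (fun y => (-1 : ℝ) • R y) ≤ ENNReal.ofReal (ε / 2) := by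
    have h1 := w1_lp hs hcR
    refine h1.trans ((hlp (fun y => (-1 : ℝ) • R y) (C ^ 2 * δ * G) (by positivity)
      (fun y hy => by simp only [hR0 y hy, smul_zero]) (fun y => ?_)).trans
      (ENNReal.ofReal_le_ofReal ?_))
    · have := hRb y
      simpa [norm_neg] using this
    · nlinarith
  have hfun : (fun y => χ y • push ch i (dv T) j y) = fun y => dv S y + (-1 : ℝ) • R y :=
    funext hdec
  rw [hfun]
  refine (w1_add hs hcS hcR (HasCompactSupport.intro hL (fun y hy => ?_))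
    (HasCompactSupport.intro hL (fun y hy => ?_))).trans ?_
  · exact dv_zero hL.isClosed hS0 y hy
  · simp only [hR0 y hy, smul_zero]
  · refine (add_le_add hw1 hw2).trans (le_of_eq ?_)
    rw [← ENNReal.ofReal_add (by linarith) (by linarith)]
    congr 1
    ring

end

end

end Pool.Agent.H68.ST.NmBA

namespace Pool.Agent.H68.ST

open MeasureTheory Set Pool.Agent.H68.VD Pool.Agent.H68.GM Pool.Agent.H6.ST
open Pool.Agent.H68.GM.WMWA
open scoped ENNReal ContDiff Topology

noncomputable section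

theorem nm2 : NM2 := by
  intro n M _ _ _ ι _ ch hA χ hχ hn s hs
  choose K' hK' hK'j h0 using hχ.supp
  have hsm := hχ.smooth
  refine ⟨le_rfl, ?_, ?_, ?_, ?_⟩
  · intro c X
    unfold w1Man
    rw [Finset.mul_sum]
    refine Finset.sum_congr rfl fun i _ => ?_
    rw [← w1_smul hs c]
    congr 1
    funext y
    rw [smul_comm]
  · choose c hc hcb using fun i => cut_bound (hK' i) (χ i) (hsm i) (h0 i)
    choose V hV hlp using fun i => NmBA.l1_bound (hK' i)
    refine ⟨K', ∑ i, V i * c i, Finset.sum_nonneg fun i _ => mul_nonneg (hV i) (hc i),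
      fun i => ⟨hK' i, hK'j i⟩, fun X hX b hb hXb => ?_⟩
    unfold w1Man
    rw [Finset.sum_mul, ENNReal.ofReal_sum_of_nonneg
      (fun i _ => mul_nonneg (mul_nonneg (hV i) (hc i)) hb)]
    refine Finset.sum_le_sum fun i _ => ?_
    have hcont : ContDiff ℝ ∞ (fun y => χ i y • X i y) :=
      glue (ch i).open_target (hK' i).isClosed (hK'j i) _
        ((hsm i).contDiffOn.smul (hX.smooth i)) (fun y hy => by simp [h0 i y hy])
    refine (w1_lp hs hcont.continuous).trans ?_
    have h1 := hlp i (fun y => χ i y • X i y) (c i * b) (mul_nonneg (hc i) hb)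
      (fun y hy => by simp [h0 i y hy]) (fun y => by
        by_cases hy : y ∈ K' i
        · rw [norm_smul]
          exact mul_le_mul (hcb i y) (hXb i y hy) (norm_nonneg _) (hc i)
        · rw [h0 i y hy, zero_smul, norm_zero]
          exact mul_nonneg (hc i) hb)
    refine h1.trans (le_of_eq ?_)
    congr 1
    ring
  · intro i K hK hKi
    choose A hA0 hAb using fun j => NmBA.l1_push pushKit hA i K hK hKi j (K' j) (hK' j) (hK'j j)
      (χ j) (hsm j) (h0 j)
    refine ⟨∑ j, A j, Finset.sum_nonneg fun j _ => hA0 j, fun u hu hu0 => ?_⟩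
    simp only [ENNReal.rpow_one, div_one]
    unfold w1Man
    rw [ENNReal.ofReal_sum_of_nonneg (fun j _ => hA0 j), Finset.sum_mul]
    refine Finset.sum_le_sum fun j _ => ?_
    have hcont := push_smooth pushKit hA i K hK hKi j (K' j) (hK' j) (hK'j j) (χ j) (hsm j) (h0 j)
      u hu hu0
    exact (w1_lp hs hcont.continuous).trans (hAb j u hu0)
  · intro i K hK hKi B ε hε
    set N : ℝ := (Fintype.card ι : ℝ) + 1 with hN
    have hN0 : 0 < N := by positivity
    choose δ hδ hδb using fun j => NmBA.weak_term (i := i) (j := j) piola pushKit hA hK hKi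
      (hK' j) (hK'j j) (hsm j) (h0 j) s hn hs B (ε / N) (by positivity)
    obtain ⟨δ0, hδ0, hδ00⟩ : ∃ δ0 : ℝ, (∀ j, δ0 ≤ δ j) ∧ 0 < δ0 := by
      have h1 : ∀ᶠ x : ℝ in 𝓝[>] 0, ∀ j, x ≤ δ j := by
        rw [Filter.eventually_all]
        intro j
        have := (eventually_lt_nhds (hδ j)).filter_mono (nhdsWithin_le_nhds (s := Set.Ioi 0))
        exact this.mono fun x hx => hx.le
      exact (h1.and self_mem_nhdsWithin).exists
    refine ⟨δ0, hδ00, fun T hT hT0 hsk hB hTδ => ?_⟩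
    unfold w1Man
    calc ∑ j, w1E s (fun y => χ j y • push ch i (dv T) j y)
        ≤ ∑ _j : ι, ENNReal.ofReal (ε / N) :=
          Finset.sum_le_sum fun j _ => hδb j δ0 (hδ0 j) T hT hT0 hsk hB hTδ
      _ = ENNReal.ofReal (Fintype.card ι * (ε / N)) := by
          rw [Finset.sum_const, Finset.card_univ, nsmul_eq_mul,
            ENNReal.ofReal_mul (Nat.cast_nonneg _), ENNReal.ofReal_natCast]
      _ ≤ ENNReal.ofReal ε := by
          apply ENNReal.ofReal_le_ofReal
          rw [← mul_div_assoc, div_le_iff₀ hN0, hN]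
          nlinarith

end

end Pool.Agent.H68.ST
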