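import Pool.Agent.H6.ST.St

/-! # ST-P1: partitions of unity -/

set_option autoImplicit false

namespace Pool.Agent.H68.ST

open MeasureTheory Set Pool.Agent.H68.VD Pool.Agent.H68.GM Pool.Agent.H6.ST
open scoped ENNReal ContDiff Topology

noncomputable section

namespace PUA

/-- A function which is smooth on an open set and zero outside of a compact subset is smooth. -/
theorem glue {n : ℕ} {T K : Set (Eu n)} (hT : IsOpen T) (hK : IsCompact K) (hKT : K ⊆ T)
    (u : Eu n → ℝ) (hu : ContDiffOn ℝ ∞ u T) (h0 : ∀ y ∉ K, u y = 0) : ContDiff ℝ ∞ u := by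
  rw [contDiff_iff_contDiffAt]
  intro y
  by_cases hy : y ∈ K
  · exact hu.contDiffAt (hT.mem_nhds (hKT hy))
  · have h1 : u =ᶠ[𝓝 y] fun _ => 0 := by
      filter_upwards [hK.isClosed.isOpen_compl.mem_nhds hy] with z hz
      exact h0 z hz
    exact contDiffAt_const.congr_of_eventuallyEq h1

open Classical in
/-- a function of the chart `j`, extended by zero, is smooth in the chart `i` -/
theorem term {n : ℕ} {M : Type} [TopologicalSpace M] [T2Space M] {ι : Type}
    {ch : ι → OpenPartialHomeomorph M (Eu n)} (hV : VolAtlas ch) (i j : ι) {K : Set (Eu n)}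
    (hK : IsCompact K) (hKT : K ⊆ (ch j).target) (ψ : Eu n → ℝ) (hψ : ContDiff ℝ ∞ ψ)
    (h0 : ∀ y ∉ K, ψ y = 0) :
    ContDiffOn ℝ ∞ (fun y => if (ch i).symm y ∈ (ch j).source then ψ (ch j ((ch i).symm y)) else 0)
      (ch i).target := by
  intro y hy
  apply ContDiffAt.contDiffWithinAt
  by_cases h : (ch i).symm y ∈ (ch j).source
  · have ho : IsOpen (dom ch i j) := (ch i).isOpen_inter_preimage_symm (ch j).open_source
    have hm : dom ch i j ∈ 𝓝 y := ho.mem_nhds ⟨hy, h⟩
    have h1 : ContDiffAt ℝ ∞ (fun y => ψ (tr ch i j y)) y :=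
      hψ.contDiffAt.comp y ((hV.smooth i j).contDiffAt hm)
    refine h1.congr_of_eventuallyEq ?_
    filter_upwards [hm] with z hz
    rw [if_pos hz.2]
    rfl
  · have hC : IsCompact ((ch j).symm '' K) :=
      hK.image_of_continuousOn ((ch j).continuousOn_symm.mono hKT)
    have ho : IsOpen ((ch i).target ∩ (ch i).symm ⁻¹' ((ch j).symm '' K)ᶜ) :=
      (ch i).isOpen_inter_preimage_symm hC.isClosed.isOpen_compl
    have hn : (ch i).symm y ∉ (ch j).symm '' K := by
      rintro ⟨z, hz, hzy⟩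
      apply h
      rw [← hzy]
      exact (ch j).map_target (hKT hz)
    have hm : ((ch i).target ∩ (ch i).symm ⁻¹' ((ch j).symm '' K)ᶜ) ∈ 𝓝 y :=
      ho.mem_nhds ⟨hy, hn⟩
    have h1 : ContDiffAt ℝ ∞ (fun _ : Eu n => (0 : ℝ)) y := contDiffAt_const
    refine h1.congr_of_eventuallyEq ?_
    filter_upwards [hm] with z hz
    split_ifs with hs
    · apply h0
      intro hzK
      exact hz.2 ⟨_, hzK, (ch j).left_inv hs⟩
    · rfl

end PUA

open Classical in
theorem pu : PUthm := by
  intro n M _ _ _ ι _ ch hV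
  have hpt : ∀ x : M, ∃ (i : ι) (r : ℝ), 0 < r ∧ x ∈ (ch i).source ∧
      Metric.closedBall (ch i x) (2 * r) ⊆ (ch i).target := by
    intro x
    obtain ⟨i, hi⟩ := hV.cover x
    obtain ⟨ε, hε, hb⟩ := Metric.isOpen_iff.mp (ch i).open_target (ch i x) ((ch i).map_source hi)
    refine ⟨i, ε / 4, by positivity, hi, ?_⟩
    refine subset_trans ?_ hb
    intro y hy
    rw [Metric.mem_closedBall] at hy
    rw [Metric.mem_ball]
    linarith
  choose ix r hr hsrc hcb using hpt
  let f : ∀ x : M, ContDiffBump (ch (ix x) x) := fun x =>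
    ⟨r x, 2 * r x, hr x, by linarith [hr x]⟩
  obtain ⟨t, ht⟩ := CompactSpace.elim_nhds_subcover
    (fun x : M => (ch (ix x)).source ∩ (ch (ix x)) ⁻¹' Metric.ball (ch (ix x) x) (r x))
    (fun x => ((ch (ix x)).isOpen_inter_preimage Metric.isOpen_ball).mem_nhds
      ⟨hsrc x, Metric.mem_ball_self (hr x)⟩)
  let ψ : ι → Eu n → ℝ := fun i y => ∑ x ∈ t, if ix x = i then f x y else 0
  let K : ι → Set (Eu n) := fun i => ⋃ x ∈ t.filter (fun x => ix x = i),
    Metric.closedBall (ch (ix x) x) (2 * r x)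
  have hKc : ∀ i, IsCompact (K i) := fun i =>
    (t.filter (fun x => ix x = i)).isCompact_biUnion fun x _ => isCompact_closedBall _ _
  have hKt : ∀ i, K i ⊆ (ch i).target := by
    intro i y hy
    simp only [K, Set.mem_iUnion, Finset.mem_filter] at hy
    obtain ⟨x, ⟨_, hx⟩, hy⟩ := hy
    rw [← hx]
    exact hcb x hy
  have hψs : ∀ i, ContDiff ℝ ∞ (ψ i) := by
    intro i
    refine ContDiff.sum fun x _ => ?_
    by_cases h : ix x = i
    · simp only [h, if_true]
      exact (f x).contDiff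
    · simp only [h, if_false]
      exact contDiff_const
  have hψ0 : ∀ i, ∀ y ∉ K i, ψ i y = 0 := by
    intro i y hy
    refine Finset.sum_eq_zero fun x hx => ?_
    split_ifs with h
    · apply (f x).zero_of_le_dist
      by_contra hc
      apply hy
      simp only [K, Set.mem_iUnion, Finset.mem_filter]
      exact ⟨x, ⟨hx, h⟩, Metric.mem_closedBall.mpr (not_le.mp hc).le⟩
    · rfl
  have hψn : ∀ i y, 0 ≤ ψ i y := by
    intro i y
    refine Finset.sum_nonneg fun x _ => ?_
    split_ifs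
    · exact (f x).nonneg
    · exact le_rfl
  let Ψ : M → ℝ := fun x => ∑ j, if x ∈ (ch j).source then ψ j (ch j x) else 0
  have hΨ : ∀ x, 0 < Ψ x := by
    intro x
    have hx : x ∈ ⋃ z ∈ t, ((ch (ix z)).source ∩ (ch (ix z)) ⁻¹' Metric.ball (ch (ix z) z) (r z)) := by
      rw [ht]; trivial
    simp only [Set.mem_iUnion] at hx
    obtain ⟨z, hz, hzs, hzb⟩ := hx
    refine Finset.sum_pos' (fun j _ => ?_) ⟨ix z, Finset.mem_univ _, ?_⟩
    · split_ifs
      · exact hψn _ _
      · exact le_rfl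
    · rw [if_pos hzs]
      refine Finset.sum_pos' (fun w _ => ?_) ⟨z, hz, ?_⟩
      · split_ifs
        · exact (f w).nonneg
        · exact le_rfl
      · rw [if_pos rfl]
        have h1 : f z (ch (ix z) x) = 1 :=
          (f z).one_of_mem_closedBall (Metric.ball_subset_closedBall hzb)
        rw [h1]
        exact one_pos
  have hΨs : ∀ i, ContDiffOn ℝ ∞ (fun y => Ψ ((ch i).symm y)) (ch i).target := by
    intro i
    exact ContDiffOn.sum fun j _ => PUA.term hV i j (hKc j) (hKt j) (ψ j) (hψs j) (hψ0 j)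
  refine ⟨fun i y => ψ i y / Ψ ((ch i).symm y), ?_, ?_, ?_, ?_⟩
  · intro i
    refine PUA.glue (ch i).open_target (hKc i) (hKt i) _ ?_ ?_
    · exact (hψs i).contDiffOn.div (hΨs i) fun y _ => (hΨ _).ne'
    · intro y hy
      simp only [hψ0 i y hy, zero_div]
  · intro i
    refine ⟨K i, hKc i, hKt i, fun y hy => ?_⟩
    simp only [hψ0 i y hy, zero_div]
  · intro i y
    exact div_nonneg (hψn i y) (hΨ _).le
  · intro x
    have h1 : ∀ i, (if x ∈ (ch i).source then ψ i (ch i x) / Ψ ((ch i).symm (ch i x)) else 0) =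
        (if x ∈ (ch i).source then ψ i (ch i x) else 0) / Ψ x := by
      intro i
      split_ifs with h
      · rw [(ch i).left_inv h]
      · rw [zero_div]
    have h2 : ∑ i, (if x ∈ (ch i).source then ψ i (ch i x) / Ψ ((ch i).symm (ch i x)) else 0) =
        Ψ x / Ψ x := by
      rw [Finset.sum_congr rfl fun i _ => h1 i, ← Finset.sum_div]
    rw [h2, div_self (hΨ x).ne']

end

end Pool.Agent.H68.ST
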