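import Pool.Agent.H68.ST.CVel

/-! # ST-F3: the flat cost functional -/

set_option autoImplicit false

namespace Pool.Agent.H68.ST

open MeasureTheory Set Pool.Agent.H68.VD Pool.Agent.H68.GM Pool.Agent.H6.ST
open scoped ENNReal ContDiff

noncomputable section

variable {n : ℕ} {U : Set (Eu n)} {s : ℝ}

namespace FEsA

theorem enorm_rpow_split (hs0 : 0 ≤ s) (hs1 : s < 1) (a I J : ℝ≥0∞) :
    (a * I) ^ (1 - s) * (a * J) ^ s = a * (I ^ (1 - s) * J ^ s) := by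
  rw [ENNReal.mul_rpow_of_nonneg _ _ (by linarith), ENNReal.mul_rpow_of_nonneg _ _ hs0,
    mul_mul_mul_comm, ← ENNReal.rpow_add_of_nonneg _ _ (by linarith) hs0]
  rw [sub_add_cancel, ENNReal.rpow_one]

theorem lintegral_comp_inv_smul {ρ : ℝ} (hρ : 0 < ρ) (F : Eu n → ℝ≥0∞) :
    ∫⁻ x, F (ρ⁻¹ • x) = ENNReal.ofReal (ρ ^ n) * ∫⁻ x, F x := by
  have hne : ρ⁻¹ ≠ 0 := (inv_pos.mpr hρ).ne'
  have h1 := lintegral_map_equiv (μ := (volume : Measure (Eu n))) F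
    (Homeomorph.smulOfNeZero (α := Eu n) ρ⁻¹ hne).toMeasurableEquiv
  have h2 : (∫⁻ a : Eu n, F ((Homeomorph.smulOfNeZero (α := Eu n) ρ⁻¹ hne).toMeasurableEquiv a)) =
      ∫⁻ x : Eu n, F (ρ⁻¹ • x) := rfl
  have h3 : Measure.map (Homeomorph.smulOfNeZero (α := Eu n) ρ⁻¹ hne).toMeasurableEquiv
      (volume : Measure (Eu n)) = ENNReal.ofReal (ρ ^ n) • (volume : Measure (Eu n)) := by
    have h4 := Measure.map_addHaar_smul (volume : Measure (Eu n)) hne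
    rw [finrank_euclideanSpace_fin, inv_pow, inv_inv, abs_of_pos (pow_pos hρ n)] at h4
    exact h4
  rw [h2, h3, lintegral_smul_measure, smul_eq_mul] at h1
  exact h1.symm

end FEsA

theorem fe_zero (hs0 : 0 ≤ s) (hs1 : s < 1) : FE s (fun _ : Eu n => (0 : Eu n)) = 0 := by
  unfold FE
  have h1 : (∫⁻ _ : Eu n, ‖(0 : Eu n)‖ₑ) = 0 := by simp
  rw [h1, ENNReal.zero_rpow_of_pos (by linarith), zero_mul]

theorem fe_smul (hs0 : 0 ≤ s) (hs1 : s < 1) (c : ℝ) (u : Eu n → Eu n) :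
    FE s (fun x => c • u x) = ENNReal.ofReal |c| * FE s u := by
  unfold FE
  have h0 : ‖c‖ₑ = ENNReal.ofReal |c| := by
    rw [← Real.norm_eq_abs, ofReal_norm]
  have hne : ‖c‖ₑ ≠ ⊤ := enorm_ne_top
  have h1 : (∫⁻ x, ‖c • u x‖ₑ) = ‖c‖ₑ * ∫⁻ x, ‖u x‖ₑ := by
    rw [← lintegral_const_mul' _ _ hne]
    simp only [enorm_smul]
  have h2 : (∫⁻ x, ‖fderiv ℝ (fun x => c • u x) x‖ₑ) = ‖c‖ₑ * ∫⁻ x, ‖fderiv ℝ u x‖ₑ := by
    have h3 : fderiv ℝ (fun x => c • u x) = c • fderiv ℝ u := fderiv_const_smul_field c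
    rw [h3, ← lintegral_const_mul' _ _ hne]
    simp only [Pi.smul_apply, enorm_smul]
  rw [h1, h2, FEsA.enorm_rpow_split hs0 hs1, h0]

theorem fe_shift (u : Eu n → Eu n) (v : Eu n) : FE s (fun x => u (x - v)) = FE s u := by
  unfold FE
  have h1 : (∫⁻ x, ‖u (x - v)‖ₑ) = ∫⁻ x, ‖u x‖ₑ :=
    lintegral_sub_right_eq_self (fun x => ‖u x‖ₑ) v
  have h2 : (∫⁻ x, ‖fderiv ℝ (fun x => u (x - v)) x‖ₑ) = ∫⁻ x, ‖fderiv ℝ u x‖ₑ := by
    simp only [fderiv_comp_sub]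
    exact lintegral_sub_right_eq_self (fun x => ‖fderiv ℝ u x‖ₑ) v
  rw [h1, h2]

theorem fe_scale (hs0 : 0 ≤ s) (hs1 : s < 1) {ρ : ℝ} (hρ : 0 < ρ) (u : Eu n → Eu n) :
    FE s (fun x => ρ • u (ρ⁻¹ • x)) = ENNReal.ofReal (ρ ^ ((n : ℝ) + 1 - s)) * FE s u := by
  unfold FE
  have hρe : ‖ρ‖ₑ = ENNReal.ofReal ρ := by
    rw [← ofReal_norm, Real.norm_eq_abs, abs_of_pos hρ]
  have h1 : (∫⁻ x, ‖ρ • u (ρ⁻¹ • x)‖ₑ) =
      ENNReal.ofReal (ρ ^ (n + 1)) * ∫⁻ x, ‖u x‖ₑ := by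
    simp only [enorm_smul]
    rw [lintegral_const_mul' _ _ enorm_ne_top,
      FEsA.lintegral_comp_inv_smul hρ (fun x => ‖u x‖ₑ), hρe, ← mul_assoc,
      ← ENNReal.ofReal_mul hρ.le, pow_succ']
  have h2 : (∫⁻ x, ‖fderiv ℝ (fun x => ρ • u (ρ⁻¹ • x)) x‖ₑ) =
      ENNReal.ofReal (ρ ^ n) * ∫⁻ x, ‖fderiv ℝ u x‖ₑ := by
    have h3 : ∀ x, fderiv ℝ (fun x => ρ • u (ρ⁻¹ • x)) x = fderiv ℝ u (ρ⁻¹ • x) := by
      intro x
      have h4 : fderiv ℝ (fun x => ρ • u (ρ⁻¹ • x)) = ρ • fderiv ℝ (fun x => u (ρ⁻¹ • x)) :=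
        fderiv_const_smul_field ρ
      rw [h4, Pi.smul_apply, fderiv_comp_smul, smul_smul, mul_inv_cancel₀ hρ.ne', one_smul]
    simp only [h3]
    exact FEsA.lintegral_comp_inv_smul hρ (fun x => ‖fderiv ℝ u x‖ₑ)
  rw [h1, h2, ENNReal.mul_rpow_of_nonneg _ _ (by linarith), ENNReal.mul_rpow_of_nonneg _ _ hs0,
    mul_mul_mul_comm]
  congr 1
  rw [ENNReal.ofReal_rpow_of_pos (by positivity), ENNReal.ofReal_rpow_of_pos (by positivity),
    ← ENNReal.ofReal_mul (by positivity)]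
  congr 1
  rw [← Real.rpow_natCast, ← Real.rpow_natCast, ← Real.rpow_mul hρ.le, ← Real.rpow_mul hρ.le,
    ← Real.rpow_add hρ]
  congr 1
  push_cast
  ring

/-- The cost functional of the velocity is bounded on the unit interval. -/
theorem fe_bdd (hs0 : 0 ≤ s) (hs1 : s < 1) {Φ : ℝ → Eu n → Eu n} (hΦ : CF U Φ) :
    ∃ C : ℝ, 0 ≤ C ∧ ∀ t ∈ Set.Icc (0 : ℝ) 1, FE s (vel Φ t) ≤ ENNReal.ofReal C := by
  obtain ⟨K, hK, -, hK0⟩ := vel_supp hΦ
  have hcd := vel_cd hΦ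
  have hcpt : IsCompact (Set.Icc (0 : ℝ) 1 ×ˢ K) := isCompact_Icc.prod hK
  -- bound of the velocity
  obtain ⟨A, hA⟩ := hcpt.exists_bound_of_continuousOn hcd.continuous.continuousOn
  -- bound of the derivative
  have hfd : ∀ t x, fderiv ℝ (vel Φ t) x =
      (fderiv ℝ (fun q : ℝ × Eu n => vel Φ q.1 q.2) (t, x)).comp
        (ContinuousLinearMap.inr ℝ ℝ (Eu n)) := by
    intro t x
    have h1 : HasFDerivAt (fun q : ℝ × Eu n => vel Φ q.1 q.2)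
        (fderiv ℝ (fun q : ℝ × Eu n => vel Φ q.1 q.2) (t, x)) (t, x) :=
      (hcd.differentiable (by simp)).differentiableAt.hasFDerivAt
    have h2 : HasFDerivAt (fun y : Eu n => ((t, y) : ℝ × Eu n))
        (ContinuousLinearMap.inr ℝ ℝ (Eu n)) x := hasFDerivAt_prodMk_right t x
    exact (h1.comp x h2).fderiv
  have hcont : Continuous (fun q : ℝ × Eu n => fderiv ℝ (vel Φ q.1) q.2) := by
    have h1 : (fun q : ℝ × Eu n => fderiv ℝ (vel Φ q.1) q.2) = fun q : ℝ × Eu n =>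
        (fderiv ℝ (fun q : ℝ × Eu n => vel Φ q.1 q.2) q).comp
          (ContinuousLinearMap.inr ℝ ℝ (Eu n)) := by
      funext q
      exact hfd q.1 q.2
    rw [h1]
    exact (hcd.continuous_fderiv (by simp)).clm_comp continuous_const
  obtain ⟨B, hB⟩ := hcpt.exists_bound_of_continuousOn hcont.continuousOn
  have hvol : volume K ≠ ⊤ := hK.measure_lt_top.ne
  set S : ℝ≥0∞ := (ENNReal.ofReal A * volume K) ^ (1 - s) * (ENNReal.ofReal B * volume K) ^ s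
    with hS
  have hSt : S ≠ ⊤ := by
    refine ENNReal.mul_ne_top ?_ ?_
    · exact ENNReal.rpow_ne_top_of_nonneg (by linarith) (ENNReal.mul_ne_top ENNReal.ofReal_ne_top hvol)
    · exact ENNReal.rpow_ne_top_of_nonneg hs0 (ENNReal.mul_ne_top ENNReal.ofReal_ne_top hvol)
  refine ⟨S.toReal, ENNReal.toReal_nonneg, fun t ht => ?_⟩
  rw [ENNReal.ofReal_toReal hSt]
  have hle : ∀ (G : Type) [NormedAddCommGroup G] (f : Eu n → G) (D : ℝ),
      (∀ x ∈ K, ‖f x‖ ≤ D) → (∀ x ∉ K, f x = 0) →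
      ∫⁻ x, ‖f x‖ₑ ≤ ENNReal.ofReal D * volume K := by
    intro G _ f D h1 h2
    calc ∫⁻ x, ‖f x‖ₑ ≤ ∫⁻ x, K.indicator (fun _ => ENNReal.ofReal D) x := by
          refine lintegral_mono fun x => ?_
          by_cases hx : x ∈ K
          · rw [Set.indicator_of_mem hx, ← ofReal_norm]
            exact ENNReal.ofReal_le_ofReal (h1 x hx)
          · rw [Set.indicator_of_notMem hx, h2 x hx, enorm_zero]
      _ = ENNReal.ofReal D * volume K := by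
          rw [lintegral_indicator_const hK.measurableSet]
  unfold FE
  rw [hS]
  refine mul_le_mul' (ENNReal.rpow_le_rpow ?_ (by linarith)) (ENNReal.rpow_le_rpow ?_ hs0)
  · exact hle _ _ A (fun x hx => hA (t, x) ⟨ht, hx⟩) (fun x hx => hK0 t x hx)
  · refine hle _ _ B (fun x hx => hB (t, x) ⟨ht, hx⟩) (fun x hx => ?_)
    have h1 : vel Φ t =ᶠ[nhds x] fun _ => 0 := by
      filter_upwards [hK.isClosed.isOpen_compl.mem_nhds hx] with y hy
      exact hK0 t y hy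
    rw [h1.fderiv_eq]
    simp

end

end Pool.Agent.H68.ST
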