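import Pool.Agent.H68.ST.Poinc
import Pool.Agent.H68.ST.FEs
import Pool.Agent.H68.ST.XK

/-! # ST-T2: transfer of costs to `M` -/

set_option autoImplicit false

namespace Pool.Agent.H68.ST

open MeasureTheory Set Pool.Agent.H68.VD Pool.Agent.H68.GM Pool.Agent.H6.ST
open scoped ENNReal ContDiff

noncomputable section

namespace TMA

theorem nn_pos (L : ℕ) : (0 : ℝ) < (NN L : ℝ) := by
  unfold NN
  positivity

/-- the scaled box lies in the cube with the margin `δ = d / N` -/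
theorem scaled_mem {N d : ℝ} (hN : 0 < N) {lo hi : Fin 4 → ℝ}
    (hbox : ∀ k, d ≤ lo k ∧ hi k ≤ N - d) {x : Eu 4} (hx : (N⁻¹)⁻¹ • x ∈ obox lo hi) (k : Fin 4) :
    lo k / N < x k ∧ x k < hi k / N ∧ d / N ≤ x k ∧ x k ≤ 1 - d / N := by
  have h1 := hx k
  rw [inv_inv, PiLp.smul_apply, smul_eq_mul] at h1
  have h2 := hbox k
  refine ⟨?_, ?_, ?_, ?_⟩
  · rw [div_lt_iff₀ hN]
    linarith [h1.1]
  · rw [lt_div_iff₀ hN]
    linarith [h1.2]
  · rw [div_le_iff₀ hN]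
    linarith [h1.1]
  · have h3 : x k ≤ (N - d) / N := by
      rw [le_div_iff₀ hN]
      linarith [h1.2]
    rwa [sub_div, div_self hN.ne'] at h3

/-- the inequality between the constants -/
theorem const_eq {C0 B δ N s : ℝ} (hC0 : 0 ≤ C0) (hδ : 0 < δ) (hN : 0 < N) :
    (C0 * δ ^ (-(1 / 2) : ℝ)) ^ (1 - s) * (C0 * (1 + |B|) * δ⁻¹) ^ s * (N⁻¹) ^ ((4 : ℝ) + 1 - s) =
      C0 ^ (1 - s) * (C0 * (1 + |B|)) ^ s * δ ^ (-((1 + s) / 2)) * N ^ (-(5 - s)) := by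
  have hB : 0 ≤ 1 + |B| := by positivity
  rw [Real.mul_rpow hC0 (by positivity), Real.mul_rpow (mul_nonneg hC0 hB) (by positivity),
    ← Real.rpow_mul hδ.le, ← Real.rpow_neg_one δ, ← Real.rpow_mul hδ.le,
    ← Real.rpow_neg_one N, ← Real.rpow_mul hN.le]
  have h1 : δ ^ (-((1 + s) / 2)) = δ ^ (-(1 / 2) * (1 - s)) * δ ^ (-1 * s) := by
    rw [← Real.rpow_add hδ]
    congr 1
    ring
  have h2 : (-1 : ℝ) * ((4 : ℝ) + 1 - s) = -(5 - s) := by ring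
  rw [h1, h2]
  ring

/-- the bound of the functional in terms of the two integrals -/
theorem em_bound {ι : Type} [Fintype ι] {K : ι → Set (Eu 4)} {X : ι → Eu 4 → Eu 4} {s : ℝ}
    (hs0 : 0 ≤ s) (hs1 : s < 1) {a c : ℝ} (ha : 0 ≤ a) (hc : 0 ≤ c) {A D : ℝ≥0∞}
    (h1 : L1M K X ≤ ENNReal.ofReal a * A) (h2 : W1M K X ≤ ENNReal.ofReal c * D) :
    EM K s X ≤ ENNReal.ofReal (a ^ (1 - s) * c ^ s) * (A ^ (1 - s) * D ^ s) := by
  unfold EM
  have h3 : 0 ≤ 1 - s := by linarith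
  calc (L1M K X) ^ (1 - s) * (W1M K X) ^ s
      ≤ (ENNReal.ofReal a * A) ^ (1 - s) * (ENNReal.ofReal c * D) ^ s :=
        mul_le_mul' (ENNReal.rpow_le_rpow h1 h3) (ENNReal.rpow_le_rpow h2 hs0)
    _ = ENNReal.ofReal (a ^ (1 - s) * c ^ s) * (A ^ (1 - s) * D ^ s) := by
        rw [ENNReal.mul_rpow_of_nonneg _ _ h3, ENNReal.mul_rpow_of_nonneg _ _ hs0,
          ENNReal.ofReal_mul (Real.rpow_nonneg ha _), ENNReal.ofReal_rpow_of_nonneg ha h3,
          ENNReal.ofReal_rpow_of_nonneg hc hs0]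
        ring

/-- the `L^1` norm of a field in a slab -/
theorem slab {u : Eu 4 → Eu 4} (hu : ContDiff ℝ ∞ u) {a b W : ℝ} (hab : b - a ≤ W)
    (h : ∀ x, u x ≠ 0 → a < x 0 ∧ x 0 < b) :
    ∫⁻ x, ‖u x‖ₑ ≤ ENNReal.ofReal W * ∫⁻ x, ‖fderiv ℝ u x‖ₑ := by
  by_cases hx : ∃ x, u x ≠ 0
  · obtain ⟨x, hx⟩ := hx
    have h1 := h x hx
    refine (poinc 0 hu (by linarith [h1.1, h1.2]) h).trans ?_
    exact mul_le_mul' (ENNReal.ofReal_le_ofReal hab) le_rfl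
  · push Not at hx
    have h2 : ∫⁻ x, ‖u x‖ₑ = 0 := by
      simp only [hx, enorm_zero, lintegral_zero]
    rw [h2]
    exact zero_le

end TMA

theorem tm : TMthm := by
  intro M _ _ _ _ ι _ ch o K hG s hs0 hs1 B
  obtain ⟨C0, hC0, hw⟩ := hG.wgt
  have hB : 0 ≤ 1 + |B| := by positivity
  refine ⟨C0 ^ (1 - s) * (C0 * (1 + |B|)) ^ s, by positivity, ?_⟩
  intro L lo hi d hd hbox hwid F b hF
  obtain ⟨φ, l, hφ, h0, h1, hl, hl0, hcost, hint⟩ := hF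
  have hN : (0 : ℝ) < (NN L : ℝ) := TMA.nn_pos L
  have hNi : (0 : ℝ) < (NN L : ℝ)⁻¹ := inv_pos.2 hN
  have hδ : 0 < d / (NN L : ℝ) := div_pos hd hN
  -- the scaled family
  set ψ : ℝ → Eu 4 → Eu 4 := fun t x => (NN L : ℝ)⁻¹ • φ t (((NN L : ℝ)⁻¹)⁻¹ • x) with hψ
  have hψ1 : CF {x | ((NN L : ℝ)⁻¹)⁻¹ • x ∈ obox lo hi} ψ := cf_scale hφ hNi
  have hψ2 : CF (ch o).target ψ := by
    refine cf_mono (fun x hx k => ?_) hψ1 |> fun h => by
      rw [hG.tgt]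
      exact h
    have h2 := TMA.scaled_mem hN hbox hx k
    exact ⟨lt_of_lt_of_le hδ h2.2.2.1, by linarith [h2.2.2.2]⟩
  have hfam := xKit.fam 4 M ι ch hG.vol o ℝ ψ hψ2
  refine ⟨fun t => extM ch o (ψ t), fun t => C0 ^ (1 - s) * (C0 * (1 + |B|)) ^ s *
    (d / NN L) ^ (-((1 + s) / 2)) * (NN L : ℝ) ^ (-(5 - s)) * l t, hfam, ?_, ?_, ?_, ?_, ?_, ?_⟩
  · funext x
    simp only [hψ, h0, id_eq, inv_inv]
    unfold extM
    by_cases hx : x ∈ (ch o).source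
    · rw [if_pos hx]
      change (ch o).symm ((NN L : ℝ)⁻¹ • (NN L : ℝ) • ch o x) = x
      rw [smul_smul, inv_mul_cancel₀ hN.ne', one_smul, (ch o).left_inv hx]
    · rw [if_neg hx]
  · simp only [hψ, h1, inv_inv]
    rfl
  · exact continuous_const.mul hl
  · intro t
    have h3 := hl0 t
    positivity
  · intro t ht
    have hvel : mvel ch (fun t => extM ch o (ψ t)) t = push ch o (vel ψ t) := by
      funext j y
      exact xKit.vel 4 M ι ch hG.vol o ψ hψ2 t j y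
    rw [hvel]
    have hu : ContDiff ℝ ∞ (vel ψ t) := by
      have h3 := vel_cd hψ2
      have h4 : ContDiff ℝ ∞ (fun x : Eu 4 => ((t, x) : ℝ × Eu 4)) :=
        contDiff_const.prodMk contDiff_id
      have h5 := ContDiff.comp (g := fun q : ℝ × Eu 4 => vel ψ q.1 q.2)
        (f := fun x : Eu 4 => ((t, x) : ℝ × Eu 4)) h3 h4
      exact h5
    obtain ⟨K', _, hK', hK0⟩ := vel_supp hψ1
    have hsup : ∀ x, vel ψ t x ≠ 0 → ∀ k, lo k / NN L < x k ∧ x k < hi k / NN L ∧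
        d / NN L ≤ x k ∧ x k ≤ 1 - d / NN L := by
      intro x hx k
      by_cases hxK : x ∈ K'
      · exact TMA.scaled_mem hN hbox (hK' hxK) k
      · exact absurd (hK0 t x hxK) hx
    have hwt := hw (d / NN L) hδ (vel ψ t) hu (fun x hx k => (hsup x hx k).2.2)
    -- Poincare
    have hP : ∫⁻ x, ‖vel ψ t x‖ₑ ≤ ENNReal.ofReal (|B| * (d / NN L)) *
        ∫⁻ x, ‖fderiv ℝ (vel ψ t) x‖ₑ := by
      refine TMA.slab hu (a := lo 0 / NN L) (b := hi 0 / NN L) ?_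
        (fun x hx => ⟨(hsup x hx 0).1, (hsup x hx 0).2.1⟩)
      rw [← sub_div, ← mul_div_assoc]
      refine div_le_div_of_nonneg_right ?_ hN.le
      exact hwid.trans (mul_le_mul_of_nonneg_right (le_abs_self B) hd.le)
    have hW : W1M K (push ch o (vel ψ t)) ≤ ENNReal.ofReal (C0 * (1 + |B|) * (d / NN L)⁻¹) *
        ∫⁻ x, ‖fderiv ℝ (vel ψ t) x‖ₑ := by
      refine hwt.2.trans ?_
      have h3 : ENNReal.ofReal (C0 * ((d / (NN L : ℝ)) ^ 2)⁻¹) * ∫⁻ x, ‖vel ψ t x‖ₑ ≤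
          ENNReal.ofReal (C0 * |B| * (d / NN L)⁻¹) * ∫⁻ x, ‖fderiv ℝ (vel ψ t) x‖ₑ := by
        refine (mul_le_mul' le_rfl hP).trans (le_of_eq ?_)
        rw [← mul_assoc, ← ENNReal.ofReal_mul (by positivity)]
        congr 2
        field_simp
      refine (add_le_add le_rfl h3).trans (le_of_eq ?_)
      rw [← add_mul, ← ENNReal.ofReal_add (by positivity) (by positivity)]
      congr 2
      ring
    refine (TMA.em_bound hs0 hs1 (by positivity) (by positivity) hwt.1 hW).trans ?_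
    have hFE : (∫⁻ x, ‖vel ψ t x‖ₑ) ^ (1 - s) * (∫⁻ x, ‖fderiv ℝ (vel ψ t) x‖ₑ) ^ s =
        ENNReal.ofReal ((NN L : ℝ)⁻¹ ^ ((4 : ℝ) + 1 - s)) * FE s (vel φ t) := by
      have h3 : vel ψ t = fun x => (NN L : ℝ)⁻¹ • vel φ t (((NN L : ℝ)⁻¹)⁻¹ • x) := by
        funext x
        exact vel_scale hφ hNi t x
      have h4 := fe_scale (n := 4) hs0 hs1 hNi (vel φ t)
      rw [← h3] at h4
      have h5 : ((4 : ℕ) : ℝ) = 4 := by norm_num
      rw [h5] at h4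
      rw [← h4]
      rfl
    rw [hFE, ← mul_assoc, ← ENNReal.ofReal_mul (by positivity)]
    refine (mul_le_mul' le_rfl (hcost t ht)).trans (le_of_eq ?_)
    rw [← ENNReal.ofReal_mul (by positivity), TMA.const_eq hC0 hδ hN]
  · rw [intervalIntegral.integral_const_mul]
    exact mul_le_mul_of_nonneg_left hint (by positivity)

end

end Pool.Agent.H68.ST
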