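import Pool.Agent.H6.ST.St
import Pool.Agent.H68.VD.Fam

/-! # ST-F1: compactly supported families of volume preserving diffeomorphisms of Euclidean space -/

set_option autoImplicit false

namespace Pool.Agent.H68.ST

open MeasureTheory Set Pool.Agent.H68.VD Pool.Agent.H68.GM Pool.Agent.H6.ST
open scoped ENNReal ContDiff

noncomputable section

variable {n : ℕ} {U V : Set (Eu n)} {E E' : Type} [NormedAddCommGroup E] [NormedSpace ℝ E]
  [NormedAddCommGroup E'] [NormedSpace ℝ E']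

namespace CFamA

/-- A compactly supported family is a family in the sense of the flat project. -/
theorem fam {F : E → Eu n → Eu n} (hF : CF U F) :
    IsFam (⊥ : Subgroup (Eu n ≃ᵃ[ℝ] Eu n)) F :=
  ⟨hF.smooth, hF.bij, hF.det, fun e g hg x => by
    rw [Subgroup.mem_bot] at hg
    rw [hg]
    rfl⟩

theorem shiftD {f : Eu n → Eu n} (hf : ContDiff ℝ ∞ f) (v x : Eu n) :
    fderiv ℝ (fun x => f (x - v) + v) x = fderiv ℝ f (x - v) := by
  have h1 : HasFDerivAt (fun x : Eu n => x - v) (ContinuousLinearMap.id ℝ (Eu n)) x :=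
    (hasFDerivAt_id x).sub_const v
  have h2 : HasFDerivAt f (fderiv ℝ f (x - v)) (x - v) :=
    ((hf.differentiable (by simp)) (x - v)).hasFDerivAt
  have h3 := (h2.comp x h1).add_const v
  rw [ContinuousLinearMap.comp_id] at h3
  exact h3.fderiv

theorem scaleD {f : Eu n → Eu n} (hf : ContDiff ℝ ∞ f) {ρ : ℝ} (hρ : 0 < ρ) (x : Eu n) :
    fderiv ℝ (fun x => ρ • f (ρ⁻¹ • x)) x = fderiv ℝ f (ρ⁻¹ • x) := by
  have h1 : HasFDerivAt (fun x : Eu n => ρ⁻¹ • x) (ρ⁻¹ • ContinuousLinearMap.id ℝ (Eu n)) x :=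
    (hasFDerivAt_id x).const_smul ρ⁻¹
  have h2 : HasFDerivAt f (fderiv ℝ f (ρ⁻¹ • x)) (ρ⁻¹ • x) :=
    ((hf.differentiable (by simp)) (ρ⁻¹ • x)).hasFDerivAt
  have h3 := (h2.comp x h1).const_smul ρ
  rw [ContinuousLinearMap.comp_smul, ContinuousLinearMap.comp_id, smul_smul,
    mul_inv_cancel₀ hρ.ne', one_smul] at h3
  exact h3.fderiv

theorem shiftBij {f : Eu n → Eu n} (hf : Function.Bijective f) (v : Eu n) :
    Function.Bijective (fun x => f (x - v) + v) := by
  have h1 : Function.Bijective (fun x : Eu n => x + v) := (Equiv.addRight v).bijective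
  have h2 : Function.Bijective (fun x : Eu n => x - v) := (Equiv.subRight v).bijective
  exact h1.comp (hf.comp h2)

theorem scaleBij {f : Eu n → Eu n} (hf : Function.Bijective f) {ρ : ℝ} (hρ : 0 < ρ) :
    Function.Bijective (fun x => ρ • f (ρ⁻¹ • x)) := by
  have h : ∀ c : ℝ, c ≠ 0 → Function.Bijective (fun x : Eu n => c • x) := by
    intro c hc
    refine ⟨fun a b hab => smul_right_injective _ hc hab, fun y => ⟨c⁻¹ • y, ?_⟩⟩
    simp only [smul_smul, mul_inv_cancel₀ hc, one_smul]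
  exact (h ρ hρ.ne').comp (hf.comp (h ρ⁻¹ (inv_ne_zero hρ.ne')))

/-- The inverse of the shifted map. -/
theorem shiftInv {f : Eu n → Eu n} (hf : Function.Bijective f) (v x : Eu n) :
    Function.invFun (fun x => f (x - v) + v) x = Function.invFun f (x - v) + v := by
  have h1 : (fun x => f (x - v) + v) (Function.invFun f (x - v) + v) = x := by
    simp only [add_sub_cancel_right, Function.rightInverse_invFun hf.2 (x - v), sub_add_cancel]
  have h2 := Function.leftInverse_invFun (shiftBij hf v).1 (Function.invFun f (x - v) + v)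
  exact (congrArg (Function.invFun (fun x => f (x - v) + v)) h1.symm).trans h2

/-- The inverse of the scaled map. -/
theorem scaleInv {f : Eu n → Eu n} (hf : Function.Bijective f) {ρ : ℝ} (hρ : 0 < ρ) (x : Eu n) :
    Function.invFun (fun x => ρ • f (ρ⁻¹ • x)) x = ρ • Function.invFun f (ρ⁻¹ • x) := by
  have h1 : (fun x => ρ • f (ρ⁻¹ • x)) (ρ • Function.invFun f (ρ⁻¹ • x)) = x := by
    simp only [smul_smul, inv_mul_cancel₀ hρ.ne', one_smul,
      Function.rightInverse_invFun hf.2 (ρ⁻¹ • x), mul_inv_cancel₀ hρ.ne']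
  have h2 := Function.leftInverse_invFun (scaleBij hf hρ).1 (ρ • Function.invFun f (ρ⁻¹ • x))
  exact (congrArg (Function.invFun (fun x => ρ • f (ρ⁻¹ • x))) h1.symm).trans h2

end CFamA

theorem cf_mono (h : U ⊆ V) {F : E → Eu n → Eu n} (hF : CF U F) : CF V F := by
  obtain ⟨K, hK, hKU, hKF⟩ := hF.supp
  exact ⟨hF.smooth, hF.bij, hF.det, K, hK, hKU.trans h, hKF⟩

theorem cf_id : CF U (fun (_ : E) (x : Eu n) => x) := by
  have h := FamA.isFamId (P := (⊥ : Subgroup (Eu n ≃ᵃ[ℝ] Eu n))) (E := E)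
  exact ⟨h.smooth, h.bij, h.det, ∅, isCompact_empty, empty_subset _, fun _ _ _ => rfl⟩

theorem cf_comp {F G : E → Eu n → Eu n} (hF : CF U F) (hG : CF U G) :
    CF U (fun e x => F e (G e x)) := by
  have h := FamA.isFamComp (CFamA.fam hF) (CFamA.fam hG)
  obtain ⟨K, hK, hKU, hKF⟩ := hF.supp
  obtain ⟨L, hL, hLU, hLG⟩ := hG.supp
  refine ⟨h.smooth, h.bij, h.det, K ∪ L, hK.union hL, union_subset hKU hLU, fun e x hx => ?_⟩
  rw [hLG e x (fun hh => hx (Or.inr hh)), hKF e x (fun hh => hx (Or.inl hh))]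

theorem cf_inv [CompleteSpace E]
    {F : E → Eu n → Eu n} (hF : CF U F) : CF U (fun e => Function.invFun (F e)) := by
  have h := FamA.isFamInv (CFamA.fam hF)
  obtain ⟨K, hK, hKU, hKF⟩ := hF.supp
  refine ⟨h.smooth, h.bij, h.det, K, hK, hKU, fun e x hx => ?_⟩
  have h2 := Function.leftInverse_invFun (hF.bij e).1 x
  rw [hKF e x hx] at h2
  exact h2

theorem cf_re {F : E → Eu n → Eu n} {h : E' → E} (hF : CF U F) (hh : ContDiff ℝ ∞ h) :
    CF U (fun e => F (h e)) := by
  have h1 := FamA.isFamRe (CFamA.fam hF) hh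
  obtain ⟨K, hK, hKU, hKF⟩ := hF.supp
  exact ⟨h1.smooth, h1.bij, h1.det, K, hK, hKU, fun e x hx => hKF (h e) x hx⟩

theorem cf_shift {F : E → Eu n → Eu n} (hF : CF U F) (v : Eu n) :
    CF {x | x - v ∈ U} (fun e x => F e (x - v) + v) := by
  obtain ⟨K, hK, hKU, hKF⟩ := hF.supp
  refine ⟨?_, fun e => CFamA.shiftBij (hF.bij e) v, fun e x => ?_, (fun x => x + v) '' K,
    hK.image (continuous_id.add continuous_const), ?_, fun e x hx => ?_⟩
  · exact (hF.smooth.comp (contDiff_fst.prodMk (contDiff_snd.sub contDiff_const))).add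
      contDiff_const
  · rw [CFamA.shiftD (FamA.smoothX hF.smooth e) v x, hF.det]
  · rintro _ ⟨y, hy, rfl⟩
    have h1 : (fun x => x + v) y - v = y := add_sub_cancel_right y v
    change ((fun x => x + v) y - v) ∈ U
    rw [h1]
    exact hKU hy
  · have h1 : x - v ∉ K := fun h => hx ⟨x - v, h, sub_add_cancel x v⟩
    rw [hKF e _ h1, sub_add_cancel]

theorem cf_scale {F : E → Eu n → Eu n} (hF : CF U F) {ρ : ℝ} (hρ : 0 < ρ) :
    CF {x | ρ⁻¹ • x ∈ U} (fun e x => ρ • F e (ρ⁻¹ • x)) := by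
  obtain ⟨K, hK, hKU, hKF⟩ := hF.supp
  refine ⟨?_, fun e => CFamA.scaleBij (hF.bij e) hρ, fun e x => ?_, (fun x => ρ • x) '' K,
    hK.image (continuous_const_smul ρ), ?_, fun e x hx => ?_⟩
  · exact (hF.smooth.comp (contDiff_fst.prodMk (contDiff_snd.const_smul ρ⁻¹))).const_smul ρ
  · rw [CFamA.scaleD (FamA.smoothX hF.smooth e) hρ x, hF.det]
  · rintro _ ⟨y, hy, rfl⟩
    have h1 : ρ⁻¹ • (fun x : Eu n => ρ • x) y = y := by
      simp only [smul_smul, inv_mul_cancel₀ hρ.ne', one_smul]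
    change ρ⁻¹ • (fun x : Eu n => ρ • x) y ∈ U
    rw [h1]
    exact hKU hy
  · have h0 : ρ • ρ⁻¹ • x = x := by rw [smul_smul, mul_inv_cancel₀ hρ.ne', one_smul]
    have h1 : ρ⁻¹ • x ∉ K := fun h => hx ⟨ρ⁻¹ • x, h, h0⟩
    rw [hKF e _ h1, h0]

/-- The maps of the family preserve the set `U`. -/
theorem cf_mem {F : E → Eu n → Eu n} (hF : CF U F) (e : E) (x : Eu n) : F e x ∈ U ↔ x ∈ U := by
  obtain ⟨K, hK, hKU, hKF⟩ := hF.supp
  have key : ∀ x, F e x ∉ U → F e x = x := by
    intro x hx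
    have h1 : F e x ∉ K := fun h => hx (hKU h)
    exact (hF.bij e).1 (hKF e (F e x) h1)
  constructor
  · intro h
    by_contra hx
    have h1 : x ∉ K := fun hh => hx (hKU hh)
    rw [hKF e x h1] at h
    exact hx h
  · intro h
    by_contra hx
    rw [key x hx] at hx
    exact hx h

end

end Pool.Agent.H68.ST
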