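import Pool.Agent.H68.ST.CFam

/-! # ST-F2: velocities of compactly supported paths in Euclidean space -/

set_option autoImplicit false

namespace Pool.Agent.H68.ST

open MeasureTheory Set Pool.Agent.H68.VD Pool.Agent.H68.GM Pool.Agent.H6.ST
open scoped ENNReal ContDiff

noncomputable section

variable {n : ℕ} {U : Set (Eu n)} {Φ Ψ : ℝ → Eu n → Eu n}

/-- The velocity is smooth in time and space. -/
theorem vel_cd (hΦ : CF U Φ) : ContDiff ℝ ∞ (fun q : ℝ × Eu n => vel Φ q.1 q.2) :=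
  FamA.velSmooth (CFamA.fam hΦ)

theorem vel_supp (hΦ : CF U Φ) :
    ∃ K : Set (Eu n), IsCompact K ∧ K ⊆ U ∧ ∀ t, ∀ x ∉ K, vel Φ t x = 0 := by
  obtain ⟨K, hK, hKU, hKF⟩ := (cf_inv hΦ).supp
  obtain ⟨L, hL, hLU, hLF⟩ := hΦ.supp
  refine ⟨K ∪ L, hK.union hL, union_subset hKU hLU, fun t x hx => ?_⟩
  have h1 : Function.invFun (Φ t) x = x := hKF t x (fun hh => hx (Or.inl hh))
  have h2 : (fun τ => Φ τ x) = fun _ => x := by
    funext τ
    exact hLF τ x (fun hh => hx (Or.inr hh))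
  unfold vel
  rw [h1, h2, deriv_const]

theorem vel_at (hΦ : CF U Φ) (t : ℝ) (x : Eu n) :
    HasDerivAt (fun τ => Φ τ x) (vel Φ t (Φ t x)) t :=
  FamA.velEq (CFamA.fam hΦ) t x

theorem vel_const (hΦ : CF U Φ) {f : Eu n → Eu n} (hf : Function.Bijective f) (t : ℝ) (x : Eu n) :
    vel (fun t x => Φ t (f x)) t x = vel Φ t x :=
  FamA.velConst f hΦ.bij hf t x

theorem vel_re (hΦ : CF U Φ) {h : ℝ → ℝ} {t : ℝ} (hh : DifferentiableAt ℝ h t) (x : Eu n) :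
    vel (fun t => Φ (h t)) t x = deriv h t • vel Φ (h t) x :=
  FamA.velRe (CFamA.fam hΦ) h t hh x

theorem vel_comp (hΦ : CF U Φ) (hΨ : CF U Ψ) (t : ℝ) (x : Eu n) :
    vel (fun t x => Φ t (Ψ t x)) t (Φ t (Ψ t x)) =
      vel Φ t (Φ t (Ψ t x)) + fderiv ℝ (Φ t) (Ψ t x) (vel Ψ t (Ψ t x)) :=
  FamA.velComp (CFamA.fam hΦ) (CFamA.fam hΨ) t (Ψ t x)

theorem vel_shift (hΦ : CF U Φ) (v : Eu n) (t : ℝ) (x : Eu n) :
    vel (fun t x => Φ t (x - v) + v) t x = vel Φ t (x - v) := by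
  unfold vel
  rw [CFamA.shiftInv (hΦ.bij t) v x]
  simp only [add_sub_cancel_right, deriv_add_const]

theorem vel_scale (hΦ : CF U Φ) {ρ : ℝ} (hρ : 0 < ρ) (t : ℝ) (x : Eu n) :
    vel (fun t x => ρ • Φ t (ρ⁻¹ • x)) t x = ρ • vel Φ t (ρ⁻¹ • x) := by
  unfold vel
  rw [CFamA.scaleInv (hΦ.bij t) hρ x]
  have h0 : ρ⁻¹ • ρ • Function.invFun (Φ t) (ρ⁻¹ • x) = Function.invFun (Φ t) (ρ⁻¹ • x) := by
    rw [smul_smul, inv_mul_cancel₀ hρ.ne', one_smul]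
  simp only [h0]
  have h1 : DifferentiableAt ℝ (fun τ => Φ τ (Function.invFun (Φ t) (ρ⁻¹ • x))) t :=
    (vel_at hΦ t (Function.invFun (Φ t) (ρ⁻¹ • x))).differentiableAt
  exact (h1.hasDerivAt.const_smul ρ).deriv

end

end Pool.Agent.H68.ST
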