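import Pool.Agent.H6.ST.St
import Pool.Agent.H68.GM.MCostK
import Pool.Agent.H68.GM.MFamK

/-! # ST-E1: homogeneity of `EM`, composition, inversion and paths -/

set_option autoImplicit false
set_option linter.unusedVariables false

namespace Pool.Agent.H68.ST

open MeasureTheory Set Pool.Agent.H68.VD Pool.Agent.H68.GM Pool.Agent.H6.ST
open scoped ENNReal ContDiff

noncomputable section

namespace EmSA

open Pool.Agent.H68.VD.CostKA Pool.Agent.H68.GM.MCostKA

variable {n : ℕ} {M : Type} [TopologicalSpace M] [Nonempty M] {ι : Type}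
  {ch : ι → OpenPartialHomeomorph M (Eu n)}

theorem cost_path (F : MFamKit) (hA : VolAtlas ch) (N : (ι → Eu n → Eu n) → ℝ≥0∞) 
    (hN : ∀ (c : ℝ) (X : ι → Eu n → Eu n), N (fun i y => c • X i y) = ENNReal.ofReal |c| * N X) (φ : ℝ → M → M)
    (hφ : MFam ch φ) (h0 : φ 0 = id) (T C : ℝ) (hT : 0 ≤ T) (hC : 0 ≤ C)
    (hb : ∀ t ∈ Set.Icc (0 : ℝ) T, N (mvel ch φ t) ≤ ENNReal.ofReal C) :
    MCost ch N (φ T) (C * T) := by
  have hsm : ContDiff ℝ ∞ (fun t : ℝ => T * t) := contDiff_const.mul contDiff_id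
  refine ⟨fun t => φ (T * t), fun _ => C * T, F.re n M ι ch ℝ ℝ φ (fun t => T * t) hφ hsm, ?_, ?_,
    continuous_const, fun _ => mul_nonneg hC hT, ?_, ?_⟩
  · simp only [mul_zero]
    exact h0
  · simp only [mul_one]
  · intro t ht
    have hder : HasDerivAt (fun t : ℝ => T * t) T t := by
      simpa using (hasDerivAt_id t).const_mul T
    have h1 : mvel ch (fun t => φ (T * t)) t = fun i y => T • mvel ch φ (T * t) i y := by
      funext i y
      have := F.velRe n M ι ch hA φ (fun t => T * t) hφ t hder.differentiableAt i y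
      rw [this, hder.deriv]
    rw [h1, hN, abs_of_nonneg hT]
    have h2 : N (mvel ch φ (T * t)) ≤ ENNReal.ofReal C := by
      apply hb
      constructor
      · exact mul_nonneg hT ht.1
      · calc T * t ≤ T * 1 := mul_le_mul_of_nonneg_left ht.2 hT
          _ = T := mul_one T
    calc ENNReal.ofReal T * N (mvel ch φ (T * t)) ≤ ENNReal.ofReal T * ENNReal.ofReal C := by
          gcongr
      _ = ENNReal.ofReal (C * T) := by rw [← ENNReal.ofReal_mul hT, mul_comm]
  · simp

theorem cost_inv (F : MFamKit) (hA : VolAtlas ch) (N : (ι → Eu n → Eu n) → ℝ≥0∞) 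
    (hN : ∀ (c : ℝ) (X : ι → Eu n → Eu n), N (fun i y => c • X i y) = ENNReal.ofReal |c| * N X) (f : M → M) (a : ℝ)
    (h : MCost ch N f a) : MCost ch N (Function.invFun f) a := by
  obtain ⟨φ, l, hφ, h0, h1, hl, hl0, hb, hi⟩ := h
  have hsm : ContDiff ℝ ∞ (fun t : ℝ => 1 - t) := contDiff_const.sub contDiff_id
  have hconst : MFam ch (fun (_ : ℝ) => f) := const_fam F hφ h1
  have hinv : MFam ch (fun (_ : ℝ) => Function.invFun f) :=
    F.inv n M ι ch hA ℝ (fun _ => f) hconst
  have hre : MFam ch (fun t => φ (1 - t)) := F.re n M ι ch ℝ ℝ φ (fun t => 1 - t) hφ hsm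
  have hfb : Function.Bijective f := hconst.bij 0
  refine ⟨fun t x => φ (1 - t) (Function.invFun f x), fun t => l (1 - t),
    F.comp n M ι ch hA ℝ (fun t => φ (1 - t)) (fun _ => Function.invFun f) hre hinv, ?_, ?_,
    hl.comp (continuous_const.sub continuous_id), fun t => hl0 _, ?_, ?_⟩
  · funext x
    simp only [sub_zero]
    rw [h1]
    exact Function.rightInverse_invFun hfb.2 x
  · funext x
    simp only [sub_self]
    rw [h0]
    rfl
  · intro t ht
    have hder : HasDerivAt (fun t : ℝ => 1 - t) (-1) t := by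
      simpa using (hasDerivAt_id t).const_sub 1
    have h2 : mvel ch (fun t x => φ (1 - t) (Function.invFun f x)) t =
        fun i y => (-1 : ℝ) • mvel ch φ (1 - t) i y := by
      funext i y
      rw [F.velConst n M ι ch (fun t => φ (1 - t)) (Function.invFun f) (fun t => hφ.bij _)
        (hinv.bij 0) t i y]
      have := F.velRe n M ι ch hA φ (fun t => 1 - t) hφ t hder.differentiableAt i y
      rw [this, hder.deriv]
    rw [h2, hN]
    simp only [abs_neg, abs_one, ENNReal.ofReal_one, one_mul]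
    exact hb _ ⟨by linarith [ht.2], by linarith [ht.1]⟩
  · have h3 := intervalIntegral.integral_comp_sub_left (a := 0) (b := 1) l 1
    simp only [sub_self, sub_zero] at h3
    rw [h3]
    exact hi

theorem cost_comp (F : MFamKit) (hA : VolAtlas ch) (N : (ι → Eu n → Eu n) → ℝ≥0∞) 
    (hN : ∀ (c : ℝ) (X : ι → Eu n → Eu n), N (fun i y => c • X i y) = ENNReal.ofReal |c| * N X) (f g : M → M) (a b : ℝ)
    (hf : MCost ch N f a) (hg : MCost ch N g b) : MCost ch N (fun x => f (g x)) (a + b) := by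
  obtain ⟨φ, l, hφ, hφ0, hφ1, hl, hl0, hlb, hli⟩ := hf
  obtain ⟨ψ, m, hψ, hψ0, hψ1, hm, hm0, hmb, hmi⟩ := hg
  have hφ' : MFam ch (fun t => φ (chi2 t)) := F.re n M ι ch ℝ ℝ φ chi2 hφ chi2_smooth
  have hψ' : MFam ch (fun t => ψ (chi1 t)) := F.re n M ι ch ℝ ℝ ψ chi1 hψ chi1_smooth
  have hvφ : ∀ t i y, mvel ch (fun t => φ (chi2 t)) t i y =
      deriv chi2 t • mvel ch φ (chi2 t) i y :=
    fun t i y => F.velRe n M ι ch hA φ chi2 hφ t (chi2_diff t) i y
  have hvψ : ∀ t i y, mvel ch (fun t => ψ (chi1 t)) t i y =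
      deriv chi1 t • mvel ch ψ (chi1 t) i y :=
    fun t i y => F.velRe n M ι ch hA ψ chi1 hψ t (chi1_diff t) i y
  have hc1 : Continuous (fun t => deriv chi1 t * m (chi1 t)) :=
    chi1_deriv_cont.mul (hm.comp chi1_diff.continuous)
  have hc2 : Continuous (fun t => deriv chi2 t * l (chi2 t)) :=
    chi2_deriv_cont.mul (hl.comp chi2_diff.continuous)
  refine ⟨fun t x => φ (chi2 t) (ψ (chi1 t) x),
    fun t => deriv chi1 t * m (chi1 t) + deriv chi2 t * l (chi2 t),
    F.comp n M ι ch hA ℝ (fun t => φ (chi2 t)) (fun t => ψ (chi1 t)) hφ' hψ', ?_, ?_,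
    hc1.add hc2, ?_, ?_, ?_⟩
  · funext x
    simp only [chi1_zero, chi2_zero, hφ0, hψ0, id]
  · funext x
    simp only [chi1_one, chi2_one, hφ1, hψ1]
  · intro t
    exact add_nonneg (mul_nonneg (chi1_deriv_nonneg t) (hm0 _))
      (mul_nonneg (chi2_deriv_nonneg t) (hl0 _))
  · intro t _
    have hn1 : 0 ≤ deriv chi1 t * m (chi1 t) := mul_nonneg (chi1_deriv_nonneg t) (hm0 _)
    have hn2 : 0 ≤ deriv chi2 t * l (chi2 t) := mul_nonneg (chi2_deriv_nonneg t) (hl0 _)
    rcases le_total t (1 / 2) with ht | ht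
    · obtain ⟨e1, e2⟩ := chi2_left ht
      have hid : φ (chi2 t) = id := by rw [e1, hφ0]
      have h2 : mvel ch (fun t x => φ (chi2 t) (ψ (chi1 t) x)) t =
          fun i y => deriv chi1 t • mvel ch ψ (chi1 t) i y := by
        funext i y
        have h3 := vel_left F hA (fun t => φ (chi2 t)) (fun t => ψ (chi1 t)) hφ' hψ' t hid
          (fun i y => by rw [hvφ, e2, zero_smul]) i y
        rw [hvψ] at h3
        exact h3
      rw [h2, hN, abs_of_nonneg (chi1_deriv_nonneg t)]
      calc ENNReal.ofReal (deriv chi1 t) * N (mvel ch ψ (chi1 t))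
          ≤ ENNReal.ofReal (deriv chi1 t) * ENNReal.ofReal (m (chi1 t)) := by
            gcongr
            exact hmb _ chi1_mem
        _ = ENNReal.ofReal (deriv chi1 t * m (chi1 t)) := by
            rw [← ENNReal.ofReal_mul (chi1_deriv_nonneg t)]
        _ ≤ _ := ENNReal.ofReal_le_ofReal (by linarith)
    · obtain ⟨e1, e2⟩ := chi1_right ht
      have h2 : mvel ch (fun t x => φ (chi2 t) (ψ (chi1 t) x)) t =
          fun i y => deriv chi2 t • mvel ch φ (chi2 t) i y := by
        funext i y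
        have h3 := vel_right F hA (fun t => φ (chi2 t)) (fun t => ψ (chi1 t)) hφ' hψ' t
          (fun i y => by rw [hvψ, e2, zero_smul]) i y
        rw [hvφ] at h3
        exact h3
      rw [h2, hN, abs_of_nonneg (chi2_deriv_nonneg t)]
      calc ENNReal.ofReal (deriv chi2 t) * N (mvel ch φ (chi2 t))
          ≤ ENNReal.ofReal (deriv chi2 t) * ENNReal.ofReal (l (chi2 t)) := by
            gcongr
            exact hlb _ chi2_mem
        _ = ENNReal.ofReal (deriv chi2 t * l (chi2 t)) := by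
            rw [← ENNReal.ofReal_mul (chi2_deriv_nonneg t)]
        _ ≤ _ := ENNReal.ofReal_le_ofReal (by linarith)
  · rw [intervalIntegral.integral_add (hc1.intervalIntegrable _ _) (hc2.intervalIntegrable _ _),
      integral_sub1 m hm, integral_sub2 l hl]
    linarith

end EmSA

variable {n : ℕ} {ι : Type} [Fintype ι]

theorem em_smul (K : ι → Set (Eu n)) {s : ℝ} (hs0 : 0 ≤ s) (hs1 : s < 1) (c : ℝ)
    (X : ι → Eu n → Eu n) :
    EM K s (fun i y => c • X i y) = ENNReal.ofReal |c| * EM K s X := by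
  have hL : L1M K (fun i y => c • X i y) = ENNReal.ofReal |c| * L1M K X := by
    unfold L1M
    rw [Finset.mul_sum]
    refine Finset.sum_congr rfl fun i _ => ?_
    rw [← lintegral_const_mul' _ _ ENNReal.ofReal_ne_top]
    refine lintegral_congr fun y => ?_
    rw [enorm_smul, Real.enorm_eq_ofReal_abs]
  have hW : W1M K (fun i y => c • X i y) = ENNReal.ofReal |c| * W1M K X := by
    unfold W1M
    rw [Finset.mul_sum]
    refine Finset.sum_congr rfl fun i _ => ?_
    rw [← lintegral_const_mul' _ _ ENNReal.ofReal_ne_top]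
    refine lintegral_congr fun y => ?_
    have h1 : fderiv ℝ (fun y => c • X i y) y = c • fderiv ℝ (X i) y := by
      have h2 := fderiv_const_smul_field (𝕜 := ℝ) (f := X i) c
      exact congrFun h2 y
    rw [h1, enorm_smul, enorm_smul, Real.enorm_eq_ofReal_abs, mul_add]
  have hc : ENNReal.ofReal |c| ^ (1 - s) * ENNReal.ofReal |c| ^ s = ENNReal.ofReal |c| := by
    rcases eq_or_ne c 0 with rfl | h0
    · rw [abs_zero, ENNReal.ofReal_zero, ENNReal.zero_rpow_of_pos (by linarith), zero_mul]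
    · have h1 : ENNReal.ofReal |c| ≠ 0 := by
        rw [Ne, ENNReal.ofReal_eq_zero, not_le]
        exact abs_pos.2 h0
      rw [← ENNReal.rpow_add _ _ h1 ENNReal.ofReal_ne_top, sub_add_cancel, ENNReal.rpow_one]
  unfold EM
  rw [hL, hW, ENNReal.mul_rpow_of_nonneg _ _ (by linarith), ENNReal.mul_rpow_of_nonneg _ _ hs0]
  calc ENNReal.ofReal |c| ^ (1 - s) * L1M K X ^ (1 - s) * (ENNReal.ofReal |c| ^ s * W1M K X ^ s)
      = (ENNReal.ofReal |c| ^ (1 - s) * ENNReal.ofReal |c| ^ s) *
        (L1M K X ^ (1 - s) * W1M K X ^ s) := by ring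
    _ = _ := by rw [hc]

theorem ek_comp (n : ℕ) (M : Type) [TopologicalSpace M] [T2Space M] [CompactSpace M] [Nonempty M]
    (ι : Type) [Fintype ι] (ch : ι → OpenPartialHomeomorph M (Eu n)) (hA : VolAtlas ch)
    (K : ι → Set (Eu n)) (hK : KCov ch K) (s : ℝ) (hs0 : 0 ≤ s) (hs1 : s < 1) (f g : M → M)
    (a b : ℝ) (hf : MCost ch (EM K s) f a) (hg : MCost ch (EM K s) g b) :
    MCost ch (EM K s) (fun x => f (g x)) (a + b) :=
  EmSA.cost_comp mFamKit hA (EM K s) (em_smul K hs0 hs1) f g a b hf hg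

theorem ek_inv (n : ℕ) (M : Type) [TopologicalSpace M] [T2Space M] [CompactSpace M] [Nonempty M]
    (ι : Type) [Fintype ι] (ch : ι → OpenPartialHomeomorph M (Eu n)) (hA : VolAtlas ch)
    (K : ι → Set (Eu n)) (hK : KCov ch K) (s : ℝ) (hs0 : 0 ≤ s) (hs1 : s < 1) (f : M → M)
    (a : ℝ) (hf : MCost ch (EM K s) f a) : MCost ch (EM K s) (Function.invFun f) a :=
  EmSA.cost_inv mFamKit hA (EM K s) (em_smul K hs0 hs1) f a hf

theorem ek_path (n : ℕ) (M : Type) [TopologicalSpace M] [T2Space M] [CompactSpace M] [Nonempty M]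
    (ι : Type) [Fintype ι] (ch : ι → OpenPartialHomeomorph M (Eu n)) (hA : VolAtlas ch)
    (K : ι → Set (Eu n)) (hK : KCov ch K) (s : ℝ) (hs0 : 0 ≤ s) (hs1 : s < 1) (φ : ℝ → M → M)
    (hφ : MFam ch φ) (h0 : φ 0 = id) (T C : ℝ) (hT : 0 ≤ T) (hC : 0 ≤ C)
    (h : ∀ t ∈ Set.Icc (0 : ℝ) T, EM K s (mvel ch φ t) ≤ ENNReal.ofReal C) :
    MCost ch (EM K s) (φ T) (C * T) :=
  EmSA.cost_path mFamKit hA (EM K s) (em_smul K hs0 hs1) φ hφ h0 T C hT hC h

end

end Pool.Agent.H68.ST
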