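import Pool.Agent.H68.ST.Img
import Pool.Agent.H68.ST.EmS

/-! # ST-E3: costs of conjugates -/

set_option autoImplicit false

namespace Pool.Agent.H68.ST

open MeasureTheory Set Pool.Agent.H68.VD Pool.Agent.H68.GM Pool.Agent.H6.ST
open scoped ENNReal ContDiff

noncomputable section

namespace EkCA

variable {n : ℕ} {M : Type} [TopologicalSpace M] {ι : Type}
  {ch : ι → OpenPartialHomeomorph M (Eu n)}

/-- The velocity of a constant path. -/
theorem mvel_const [Nonempty M] (f : M → M) (t : ℝ) (i : ι) (y : Eu n) :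
    mvel ch (fun _ => f) t i y = 0 := by
  unfold mvel
  split_ifs
  · exact deriv_const _ _
  · rfl

/-- The velocity of the conjugated path is the image of the velocity. -/
theorem img_conj [Nonempty M] (hA : VolAtlas ch) {φ : ℝ → M → M} (hφ : MFam ch φ) {g : M → M}
    (hg : MFam ch (fun _ : ℝ => g)) (τ : ℝ) :
    Img ch g (mvel ch φ τ) (mvel ch (fun τ x => g (φ τ (Function.invFun g x))) τ) := by
  intro i j y hy hs
  have F := mFamKit
  have hgb : Function.Bijective g := hg.bij 0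
  have hinv : MFam ch (fun _ : ℝ => Function.invFun g) := F.inv n M ι ch hA ℝ (fun _ => g) hg
  have hc : MFam ch (fun τ x => g (φ τ x)) := F.comp n M ι ch hA ℝ (fun _ => g) φ hg hφ
  obtain ⟨x, hx⟩ := (hφ.bij τ).2 ((ch i).symm y)
  have h1 : φ τ x ∈ (ch i).source := by rw [hx]; exact (ch i).map_target hy
  have h2 : g (φ τ x) ∈ (ch j).source := by rw [hx]; exact hs
  have h3 := F.velComp n M ι ch hA (fun _ => g) φ hg hφ τ x i j h1 h2
  have h4 := F.velConst n M ι ch (fun τ x => g (φ τ x)) (Function.invFun g) (fun t => hc.bij t)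
    (hinv.bij 0) τ j (ch j (g ((ch i).symm y)))
  rw [mvel_const, zero_add] at h3
  simp only [hx] at h3
  rw [(ch i).right_inv hy] at h3
  rw [h4]
  exact h3

/-- The constant in the comparison of the costs. -/
theorem em_le [T2Space M] [CompactSpace M] [Nonempty M] [Fintype ι] (hA : VolAtlas ch)
    {K : ι → Set (Eu n)} (hK : KCov ch K) {s : ℝ} (hs0 : 0 ≤ s) (hs1 : s < 1) {Φ : ℝ → M → M}
    (hΦ : MFam ch Φ) : ∃ C : ℝ, 0 ≤ C ∧ ∀ t ∈ Set.Icc (0 : ℝ) 1, ∀ X Y, IsFld ch X → IsFld ch Y →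
      Img ch (Φ t) X Y → EM K s Y ≤ ENNReal.ofReal C * EM K s X := by
  choose c hc0 hc using fun j : ι => img_le hA hK hΦ j (hK.cpt j) (hK.sub j)
  have hsum : 0 ≤ ∑ j, c j := Finset.sum_nonneg fun j _ => hc0 j
  refine ⟨∑ j, c j + 1, by linarith, fun t ht X Y hX hY hI => ?_⟩
  have hle : ∑ j, ENNReal.ofReal (c j) ≤ ENNReal.ofReal (∑ j, c j + 1) := by
    rw [← ENNReal.ofReal_sum_of_nonneg fun j _ => hc0 j]
    exact ENNReal.ofReal_le_ofReal (by linarith)
  have h1 : L1M K Y ≤ ENNReal.ofReal (∑ j, c j + 1) * L1M K X := by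
    calc L1M K Y ≤ ∑ j, ENNReal.ofReal (c j) * L1M K X :=
          Finset.sum_le_sum fun j _ => (hc j t ht X Y hX hY hI).1
      _ = (∑ j, ENNReal.ofReal (c j)) * L1M K X := by rw [Finset.sum_mul]
      _ ≤ _ := by gcongr
  have h2 : W1M K Y ≤ ENNReal.ofReal (∑ j, c j + 1) * W1M K X := by
    calc W1M K Y ≤ ∑ j, ENNReal.ofReal (c j) * W1M K X :=
          Finset.sum_le_sum fun j _ => (hc j t ht X Y hX hY hI).2
      _ = (∑ j, ENNReal.ofReal (c j)) * W1M K X := by rw [Finset.sum_mul]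
      _ ≤ _ := by gcongr
  have hC0 : ENNReal.ofReal (∑ j, c j + 1) ≠ 0 := by
    rw [Ne, ENNReal.ofReal_eq_zero, not_le]; linarith
  have hs1' : 0 ≤ 1 - s := by linarith
  unfold EM
  calc L1M K Y ^ (1 - s) * W1M K Y ^ s
      ≤ (ENNReal.ofReal (∑ j, c j + 1) * L1M K X) ^ (1 - s) *
        (ENNReal.ofReal (∑ j, c j + 1) * W1M K X) ^ s := by gcongr
    _ = (ENNReal.ofReal (∑ j, c j + 1) ^ (1 - s) * ENNReal.ofReal (∑ j, c j + 1) ^ s) *
        (L1M K X ^ (1 - s) * W1M K X ^ s) := by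
        rw [ENNReal.mul_rpow_of_nonneg _ _ hs1', ENNReal.mul_rpow_of_nonneg _ _ hs0]
        ring
    _ = ENNReal.ofReal (∑ j, c j + 1) * (L1M K X ^ (1 - s) * W1M K X ^ s) := by
        rw [← ENNReal.rpow_add _ _ hC0 ENNReal.ofReal_ne_top, sub_add_cancel, ENNReal.rpow_one]

end EkCA

theorem ek_conj (n : ℕ) (M : Type) [TopologicalSpace M] [T2Space M] [CompactSpace M] [Nonempty M]
    (ι : Type) [Fintype ι] (ch : ι → OpenPartialHomeomorph M (Eu n)) (hA : VolAtlas ch)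
    (K : ι → Set (Eu n)) (hK : KCov ch K) (s : ℝ) (hs0 : 0 ≤ s) (hs1 : s < 1) (Φ : ℝ → M → M)
    (hΦ : MFam ch Φ) : ∃ C : ℝ, 0 ≤ C ∧ ∀ t ∈ Set.Icc (0 : ℝ) 1, ∀ f a,
      MCost ch (EM K s) f a →
      MCost ch (EM K s) (fun x => Φ t (f (Function.invFun (Φ t) x))) (C * a) := by
  obtain ⟨C, hC, hle⟩ := EkCA.em_le hA hK hs0 hs1 hΦ
  refine ⟨C, hC, fun t ht f a h => ?_⟩
  obtain ⟨φ, l, hφ, h0, h1, hl, hl0, hb, hi⟩ := h
  have F := mFamKit
  have hg : MFam ch (fun _ : ℝ => Φ t) :=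
    F.re n M ι ch ℝ ℝ Φ (fun _ => t) hΦ contDiff_const
  have hgb : Function.Bijective (Φ t) := hg.bij 0
  have hinv : MFam ch (fun _ : ℝ => Function.invFun (Φ t)) :=
    F.inv n M ι ch hA ℝ (fun _ => Φ t) hg
  have hc : MFam ch (fun τ x => φ τ (Function.invFun (Φ t) x)) :=
    F.comp n M ι ch hA ℝ φ (fun _ => Function.invFun (Φ t)) hφ hinv
  have hc' : MFam ch (fun τ x => Φ t (φ τ (Function.invFun (Φ t) x))) :=
    F.comp n M ι ch hA ℝ (fun _ => Φ t) _ hg hc
  refine ⟨fun τ x => Φ t (φ τ (Function.invFun (Φ t) x)), fun τ => C * l τ, hc', ?_, ?_,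
    continuous_const.mul hl, fun τ => mul_nonneg hC (hl0 τ), ?_, ?_⟩
  · funext x
    simp only [h0, id]
    exact Function.rightInverse_invFun hgb.2 x
  · funext x
    simp only [h1]
  · intro τ hτ
    calc EM K s (mvel ch (fun τ x => Φ t (φ τ (Function.invFun (Φ t) x))) τ)
        ≤ ENNReal.ofReal C * EM K s (mvel ch φ τ) :=
          hle t ht _ _ (F.velFld n M ι ch hA φ hφ τ) (F.velFld n M ι ch hA _ hc' τ)
            (EkCA.img_conj hA hφ hg τ)
      _ ≤ ENNReal.ofReal C * ENNReal.ofReal (l τ) := by gcongr; exact hb τ hτ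
      _ = ENNReal.ofReal (C * l τ) := by rw [← ENNReal.ofReal_mul hC]
  · rw [intervalIntegral.integral_const_mul]
    exact mul_le_mul_of_nonneg_left hi hC

end

end Pool.Agent.H68.ST
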