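import Pool.Agent.H68.ST.ExStep

/-! # ST-D6: reduction to fields supported in the big chart -/

set_option autoImplicit false

namespace Pool.Agent.H68.ST

open MeasureTheory Set Pool.Agent.H68.VD Pool.Agent.H68.GM Pool.Agent.H6.ST
open scoped ENNReal ContDiff

noncomputable section

namespace ExRedA

/-! ### Fields which vanish at a point of the manifold -/

section Gen

variable {n : ℕ} {M : Type} [TopologicalSpace M] {ι : Type}
  {ch : ι → OpenPartialHomeomorph M (Eu n)}

/-- the field vanishes at the point `x` in all charts -/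
def Zr (ch : ι → OpenPartialHomeomorph M (Eu n)) (X : ι → Eu n → Eu n) (x : M) : Prop :=
  ∀ j, x ∈ (ch j).source → X j (ch j x) = 0

theorem push_zr (i : ι) (u : Eu n → Eu n) {x : M} (h : x ∈ (ch i).source → u (ch i x) = 0) :
    Zr ch (push ch i u) x := by
  intro j hj
  unfold push
  split_ifs with hd
  · have h1 : (ch j).symm (ch j x) = x := (ch j).left_inv hj
    have h2 : x ∈ (ch i).source := by
      have h4 := hd.2
      rwa [h1] at h4
    have h3 : tr ch j i (ch j x) = ch i x := by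
      unfold tr
      rw [h1]
    rw [h3, h h2, map_zero]
  · rfl

theorem zr_sub {X Y : ι → Eu n → Eu n} {x : M} (hX : Zr ch X x) (hY : Zr ch Y x) :
    Zr ch (fun j y => X j y - Y j y) x := by
  intro j hj
  change X j (ch j x) - Y j (ch j x) = 0
  rw [hX j hj, hY j hj, sub_zero]

theorem dv_zero_out {A : Eu n → (Eu n →L[ℝ] Eu n)} {K : Set (Eu n)} (hK : IsClosed K)
    (h : ∀ y ∉ K, A y = 0) {y : Eu n} (hy : y ∉ K) : dv A y = 0 := by
  have h1 : A =ᶠ[nhds y] fun _ => 0 := by
    filter_upwards [hK.isOpen_compl.mem_nhds hy] with z hz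
    exact h z hz
  have h2 : fderiv ℝ A y = 0 := by
    rw [h1.fderiv_eq]
    exact fderiv_const_apply 0
  unfold dv
  rw [h2]
  simp

theorem push_dv_zero (i j : ι) (y : Eu n) :
    push ch i (dv (fun _ : Eu n => (0 : Eu n →L[ℝ] Eu n))) j y = 0 := by
  have h1 : ∀ z : Eu n, dv (fun _ : Eu n => (0 : Eu n →L[ℝ] Eu n)) z = 0 := by
    intro z
    unfold dv
    rw [fderiv_const_apply]
    simp
  unfold push
  split_ifs
  · rw [h1, map_zero]
  · rfl

end Gen

/-- one step -/
theorem step {M : Type} [TopologicalSpace M] [T2Space M] {ι : Type}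
    {ch : ι → OpenPartialHomeomorph M (Eu 4)} (hA : VolAtlas ch) {X : ι → Eu 4 → Eu 4}
    (hX : DivFree ch X) (i : ι) {S : Finset (Fin 4)} (hS : S.card = 2)
    (hst : ∀ x ∈ (ch i).target, ∀ s ∈ Set.Icc (0 : ℝ) 1, rh S s x ∈ (ch i).target)
    {θ : Eu 4 → ℝ} (hθ : ContDiff ℝ ∞ θ) {K : Set (Eu 4)} (hK : IsCompact K)
    (hs : K ⊆ (ch i).target)
    (h0 : ∀ x ∈ (ch i).target, x ∉ K → θ x = 0 ∨ ∀ s ∈ Set.Icc (0 : ℝ) 1, X i (rh S s x) = 0) :
    ∃ T : Eu 4 → (Eu 4 →L[ℝ] Eu 4), SkewIn (ch i).target T ∧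
      DivFree ch (fun j y => X j y - push ch i (dv T) j y) ∧
      (∀ x, (x ∈ (ch i).source → ch i x ∉ K) → Zr ch X x →
        Zr ch (fun j y => X j y - push ch i (dv T) j y) x) ∧
      ∀ x ∈ (ch i).source, (∃ V : Set (Eu 4), IsOpen V ∧ ch i x ∈ V ∧ ∀ y ∈ V, θ y = 1) →
        Zr ch (fun j y => X j y - push ch i (dv T) j y) x := by
  obtain ⟨T, hT1, hT2, hT3, hT4⟩ := ex_step hA hX i hS hst hθ hK hs h0
  refine ⟨T, hT1, hT3, fun x hx hz => zr_sub hz (push_zr i _ fun hxs => ?_), fun x hx hV => ?_⟩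
  · exact dv_zero_out hK.isClosed hT2 (hx hxs)
  · intro j hj
    refine zero_at hA hT3.compat hx hj ?_
    rw [pushKit.self 4 M ι ch i _ _ ((ch i).map_source hx), hT4 _ ((ch i).map_source hx) hV,
      sub_self]

/-! ### The charts of the product -/

section Pch

variable {S : Type} [TopologicalSpace S] {A B : OpenPartialHomeomorph S (Eu 2)}

theorem mem_src (p : Fin 2 × Fin 2) (x : S × S) : x ∈ (pch A B p).source ↔
    x.1 ∈ (if p.1 = 0 then A else B).source ∧ x.2 ∈ (if p.2 = 0 then A else B).source := by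
  unfold pch
  rw [OpenPartialHomeomorph.trans_source]
  exact ⟨fun h => h.1, fun h => ⟨h, mem_univ _⟩⟩

theorem mem_tgt (p : Fin 2 × Fin 2) (y : Eu 4) : y ∈ (pch A B p).target ↔
    (j4.symm y).1 ∈ (if p.1 = 0 then A else B).target ∧
      (j4.symm y).2 ∈ (if p.2 = 0 then A else B).target := by
  unfold pch
  rw [OpenPartialHomeomorph.trans_target]
  exact ⟨fun h => h.2, fun h => ⟨mem_univ _, h⟩⟩

theorem pch_apply (p : Fin 2 × Fin 2) (x : S × S) : pch A B p x =
    j4 ((if p.1 = 0 then A else B) x.1, (if p.2 = 0 then A else B) x.2) := rfl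

theorem mem_img {K1 K2 : Set (Eu 2)} (y : Eu 4) :
    y ∈ j4 '' (K1 ×ˢ K2) ↔ (j4.symm y).1 ∈ K1 ∧ (j4.symm y).2 ∈ K2 := by
  constructor
  · rintro ⟨q, hq, rfl⟩
    rw [j4.symm_apply_apply]
    exact hq
  · intro h
    exact ⟨j4.symm y, h, j4.apply_symm_apply y⟩

theorem pj_apply (T : Finset (Fin 4)) (x : Eu 4) (m : Fin 4) :
    pj T x m = if m ∈ T then x m else 0 := by
  unfold pj ev
  rw [WithLp.ofLp_sum, Finset.sum_apply]
  simp only [PiLp.smul_apply, PiLp.single_apply, smul_eq_mul, mul_ite, mul_one, mul_zero]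
  rw [Finset.sum_ite_eq]

theorem rh_apply (T : Finset (Fin 4)) (s : ℝ) (x : Eu 4) (m : Fin 4) :
    rh T s x m = if m ∈ T then s * x m else x m := by
  unfold rh
  rw [PiLp.add_apply, PiLp.smul_apply, PiLp.sub_apply, pj_apply, smul_eq_mul]
  split_ifs <;> ring

theorem rh01 (s : ℝ) (x : Eu 4) :
    rh {0, 1} s x = j4 (s • (j4.symm x).1, (j4.symm x).2) := by
  ext m
  rw [rh_apply]
  fin_cases m <;> rfl

theorem rh23 (s : ℝ) (x : Eu 4) :
    rh {2, 3} s x = j4 ((j4.symm x).1, s • (j4.symm x).2) := by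
  ext m
  rw [rh_apply]
  fin_cases m <;> rfl

theorem smooth1 {f : Eu 2 → ℝ} (hf : ContDiff ℝ ∞ f) :
    ContDiff ℝ ∞ (fun x : Eu 4 => f (j4.symm x).1) := by
  refine hf.comp ?_
  rw [contDiff_euclidean]
  intro k
  fin_cases k
  · exact (EuclideanSpace.proj (0 : Fin 4) : Eu 4 →L[ℝ] ℝ).contDiff
  · exact (EuclideanSpace.proj (1 : Fin 4) : Eu 4 →L[ℝ] ℝ).contDiff

theorem smooth2 {f : Eu 2 → ℝ} (hf : ContDiff ℝ ∞ f) :
    ContDiff ℝ ∞ (fun x : Eu 4 => f (j4.symm x).2) := by
  refine hf.comp ?_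
  rw [contDiff_euclidean]
  intro k
  fin_cases k
  · exact (EuclideanSpace.proj (2 : Fin 4) : Eu 4 →L[ℝ] ℝ).contDiff
  · exact (EuclideanSpace.proj (3 : Fin 4) : Eu 4 →L[ℝ] ℝ).contDiff

theorem abs_le_norm2 (y : Eu 2) (k : Fin 2) : |y k| ≤ ‖y‖ := by
  have h := EuclideanSpace.norm_sq_eq y
  rw [← Real.norm_eq_abs]
  refine abs_le_of_sq_le_sq' ?_ (norm_nonneg _) |>.2
  rw [h]
  exact Finset.single_le_sum (f := fun i => ‖y i‖ ^ 2) (fun i _ => sq_nonneg _) (Finset.mem_univ k)

/-- the neighbourhoods of the point at infinity -/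
def Dn (B : OpenPartialHomeomorph S (Eu 2)) (ρ : ℝ) : Set S :=
  {x | x ∈ B.source ∧ ‖B x‖ < ρ}

theorem dn_open (ρ : ℝ) : IsOpen (Dn B ρ) := by
  have h1 := B.isOpen_inter_preimage (Metric.isOpen_ball (x := (0 : Eu 2)) (ε := ρ))
  have h2 : Dn B ρ = B.source ∩ B ⁻¹' Metric.ball 0 ρ := by
    ext x
    simp [Dn]
  rw [h2]
  exact h1

theorem dn_mono {ρ ρ' : ℝ} (h : ρ ≤ ρ') {x : S} (hx : x ∈ Dn B ρ) : x ∈ Dn B ρ' :=
  ⟨hx.1, hx.2.trans_le h⟩

variable (hAB : Sph A B)

include hAB

theorem dn_of_not {ρ : ℝ} (hρ : 0 < ρ) {x : S} (hx : x ∉ A.source) : x ∈ Dn B ρ := by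
  have h1 : x ∈ B.source := (hAB.cover x).resolve_left hx
  refine ⟨h1, ?_⟩
  have h2 : B x = 0 := by
    refine hAB.pt (B x) (B.map_source h1) ?_
    rwa [B.left_inv h1]
  rw [h2, norm_zero]
  exact hρ

theorem src_of_not {ρ : ℝ} (hρ : 0 < ρ) {x : S} (hx : x ∉ Dn B ρ) : x ∈ A.source := by
  by_contra h
  exact hx (dn_of_not hAB hρ h)

theorem l_cpt [CompactSpace S] {ρ : ℝ} (hρ : 0 < ρ) : IsCompact (A '' (Dn B ρ)ᶜ) :=
  ((dn_open ρ).isClosed_compl.isCompact).image_of_continuousOn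
    (A.continuousOn.mono fun _ hx => src_of_not hAB hρ hx)

theorem l_sub {ρ : ℝ} (hρ : 0 < ρ) : A '' (Dn B ρ)ᶜ ⊆ A.target := by
  rintro _ ⟨x, hx, rfl⟩
  exact A.map_source (src_of_not hAB hρ hx)

theorem l_mem {ρ : ℝ} (hρ : 0 < ρ) {x : S} (hx : x ∈ A.source) :
    A x ∈ A '' (Dn B ρ)ᶜ ↔ x ∉ Dn B ρ := by
  constructor
  · rintro ⟨x', hx', he⟩
    have h1 := A.injOn (src_of_not hAB hρ hx') hx he
    rw [← h1]
    exact hx'
  · intro h
    exact ⟨x, h, rfl⟩

omit hAB in
theorem l_symm {ρ : ℝ} {z : Eu 2} (hz : z ∈ A.target) (h : z ∉ A '' (Dn B ρ)ᶜ) :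
    A.symm z ∈ Dn B ρ := by
  by_contra hcon
  apply h
  exact ⟨A.symm z, hcon, A.right_inv hz⟩

end Pch

end ExRedA

open ExRedA in
theorem ex_red {S : Type} [TopologicalSpace S] [T2Space S] [CompactSpace S]
    {A B : OpenPartialHomeomorph S (Eu 2)} (hAB : Sph A B) (hV : VolAtlas (pch A B))
    {X : Fin 2 × Fin 2 → Eu 4 → Eu 4} (hX : DivFree (pch A B) X) :
    ∃ (T : Fin 2 × Fin 2 → Eu 4 → (Eu 4 →L[ℝ] Eu 4)) (K : Set (Eu 4)),
      (∀ p, SkewIn (pch A B p).target (T p)) ∧ IsCompact K ∧ K ⊆ (pch A B (0, 0)).target ∧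
      DivFree (pch A B) (fun j y => X j y - ∑ p, push (pch A B) p (dv (T p)) j y) ∧
      ∀ x : S × S, (x ∈ (pch A B (0, 0)).source → pch A B (0, 0) x ∉ K) → ∀ j,
        x ∈ (pch A B j).source →
        X j (pch A B j x) - ∑ p, push (pch A B) p (dv (T p)) j (pch A B j x) = 0 := by
  obtain ⟨r, hr, hBt⟩ := hAB.tgtB
  have h01 : ((1 : Fin 2) = 0) = False := by decide
  -- facts on the target of `B`
  have hball : ∀ ρ : ℝ, ρ < r → Metric.closedBall (0 : Eu 2) ρ ⊆ B.target := by
    intro ρ hρ y hy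
    rw [mem_closedBall_zero_iff] at hy
    rw [hBt]
    intro k
    have h1 := abs_le_norm2 y k
    have h2 := abs_lt.1 (lt_of_le_of_lt (h1.trans hy) hρ)
    exact h2
  have hstar : ∀ y ∈ B.target, ∀ s ∈ Set.Icc (0 : ℝ) 1, s • y ∈ B.target := by
    intro y hy s hs
    rw [hBt] at hy ⊢
    intro k
    have h1 := hy k
    rw [PiLp.smul_apply, smul_eq_mul]
    constructor
    · rcases le_or_gt 0 (y k) with h2 | h2
      · have h3 : 0 ≤ s * y k := mul_nonneg hs.1 h2
        linarith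
      · have h3 : y k ≤ s * y k := by nlinarith [hs.2]
        linarith [h1.1]
    · rcases le_or_gt 0 (y k) with h2 | h2
      · have h3 : s * y k ≤ y k := by nlinarith [hs.2]
        linarith [h1.2]
      · have h3 : s * y k ≤ 0 := mul_nonpos_of_nonneg_of_nonpos hs.1 h2.le
        linarith
  -- bump functions
  let f : ContDiffBump (0 : Eu 2) := ⟨r / 4, r / 2, by positivity, by linarith⟩
  let g : ContDiffBump (0 : Eu 2) := ⟨r / 16, r / 8, by positivity, by linarith⟩
  have hf1 : ∀ y : Eu 2, ‖y‖ < r / 4 → f y = 1 := fun y hy =>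
    f.one_of_mem_closedBall (by rw [mem_closedBall_zero_iff]; exact hy.le)
  have hf0 : ∀ y : Eu 2, y ∉ Metric.closedBall (0 : Eu 2) (r / 2) → f y = 0 := fun y hy =>
    f.zero_of_le_dist (by
      rw [mem_closedBall_zero_iff, not_le] at hy
      rw [dist_zero_right]
      exact hy.le)
  have hg1 : ∀ y : Eu 2, ‖y‖ < r / 16 → g y = 1 := fun y hy =>
    g.one_of_mem_closedBall (by rw [mem_closedBall_zero_iff]; exact hy.le)
  have hg0 : ∀ y : Eu 2, y ∉ Metric.closedBall (0 : Eu 2) (r / 8) → g y = 0 := fun y hy =>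
    g.zero_of_le_dist (by
      rw [mem_closedBall_zero_iff, not_le] at hy
      rw [dist_zero_right]
      exact hy.le)
  have hr4 : (0 : ℝ) < r / 4 := by positivity
  have hr16 : (0 : ℝ) < r / 16 := by positivity
  -- step a
  obtain ⟨Ta, hTa1, hTa2, hTa3, hTa4⟩ := step hV hX (1, 1) (S := {0, 1}) (by decide)
    (by
      intro x hx s hs
      rw [mem_tgt] at hx ⊢
      simp only [h01, if_false] at hx ⊢
      rw [rh01, j4.symm_apply_apply]
      exact ⟨hstar _ hx.1 s hs, hx.2⟩)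
    (θ := fun x => f (j4.symm x).1 * f (j4.symm x).2)
    ((smooth1 f.contDiff).mul (smooth2 f.contDiff))
    (K := j4 '' (Metric.closedBall 0 (r / 2) ×ˢ Metric.closedBall 0 (r / 2)))
    (((isCompact_closedBall _ _).prod (isCompact_closedBall _ _)).image j4.continuous)
    (by
      intro y hy
      rw [mem_img] at hy
      rw [mem_tgt]
      simp only [h01, if_false]
      exact ⟨hball _ (by linarith) hy.1, hball _ (by linarith) hy.2⟩)
    (by
      intro x _ hxK
      left
      rw [mem_img, not_and_or] at hxK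
      rcases hxK with h | h
      · rw [hf0 _ h, zero_mul]
      · rw [hf0 _ h, mul_zero])
  set Xa : Fin 2 × Fin 2 → Eu 4 → Eu 4 :=
    fun j y => X j y - push (pch A B) (1, 1) (dv Ta) j y with hXa
  have hZa : ∀ x : S × S, x.1 ∈ Dn B (r / 4) → x.2 ∈ Dn B (r / 4) → Zr (pch A B) Xa x := by
    intro x h1 h2
    refine hTa4 x ?_ ⟨j4.symm ⁻¹' (Metric.ball 0 (r / 4) ×ˢ Metric.ball 0 (r / 4)), ?_, ?_, ?_⟩
    · rw [mem_src]
      simp only [h01, if_false]
      exact ⟨h1.1, h2.1⟩
    · exact (Metric.isOpen_ball.prod Metric.isOpen_ball).preimage j4.symm.continuous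
    · rw [mem_preimage, pch_apply, j4.symm_apply_apply]
      simp only [h01, if_false]
      exact ⟨mem_ball_zero_iff.2 h1.2, mem_ball_zero_iff.2 h2.2⟩
    · intro y hy
      have h3 := mem_ball_zero_iff.1 hy.1
      have h4 := mem_ball_zero_iff.1 hy.2
      change f (j4.symm y).1 * f (j4.symm y).2 = 1
      rw [hf1 _ h3, hf1 _ h4, one_mul]
  -- step b
  obtain ⟨Tb, hTb1, hTb2, hTb3, hTb4⟩ := step hV hTa2 (1, 0) (S := {0, 1}) (by decide)
    (by
      intro x hx s hs
      rw [mem_tgt] at hx ⊢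
      simp only [h01, if_false, if_true] at hx ⊢
      rw [rh01, j4.symm_apply_apply]
      exact ⟨hstar _ hx.1 s hs, hx.2⟩)
    (θ := fun x => g (j4.symm x).1) (smooth1 g.contDiff)
    (K := j4 '' (Metric.closedBall 0 (r / 8) ×ˢ (A '' (Dn B (r / 4))ᶜ)))
    (((isCompact_closedBall _ _).prod (l_cpt hAB hr4)).image j4.continuous)
    (by
      intro y hy
      rw [mem_img] at hy
      rw [mem_tgt]
      simp only [h01, if_false, if_true]
      exact ⟨hball _ (by linarith) hy.1, l_sub hAB hr4 hy.2⟩)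
    (by
      intro x hx hxK
      by_cases hy : (j4.symm x).1 ∈ Metric.closedBall (0 : Eu 2) (r / 8)
      · right
        rw [mem_img, not_and_or] at hxK
        have hz := hxK.resolve_left (fun h => h hy)
        rw [mem_tgt] at hx
        simp only [h01, if_false, if_true] at hx
        intro s hs
        rw [rh01]
        have hz' := l_symm hx.2 hz
        have hsy := hstar _ hx.1 s hs
        have h3 := hZa (B.symm (s • (j4.symm x).1), A.symm (j4.symm x).2)
          ⟨B.map_target hsy, by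
            change ‖B (B.symm (s • (j4.symm x).1))‖ < r / 4
            rw [B.right_inv hsy, norm_smul, Real.norm_of_nonneg hs.1]
            have h4 := mem_closedBall_zero_iff.1 hy
            have h5 : s * ‖(j4.symm x).1‖ ≤ 1 * (r / 8) :=
              mul_le_mul hs.2 h4 (norm_nonneg _) zero_le_one
            linarith⟩ hz' (1, 0)
          (by
            rw [mem_src]
            simp only [h01, if_false, if_true]
            exact ⟨B.map_target hsy, A.map_target hx.2⟩)
        rw [pch_apply] at h3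
        simp only [h01, if_false, if_true] at h3
        rw [B.right_inv hsy, A.right_inv hx.2] at h3
        exact h3
      · left
        exact hg0 _ hy)
  set Xb : Fin 2 × Fin 2 → Eu 4 → Eu 4 :=
    fun j y => Xa j y - push (pch A B) (1, 0) (dv Tb) j y with hXb
  have hZb : ∀ x : S × S, x.1 ∈ Dn B (r / 16) → Zr (pch A B) Xb x := by
    intro x h1
    by_cases h2 : x.2 ∈ A.source
    · refine hTb4 x ?_ ⟨j4.symm ⁻¹' (Metric.ball 0 (r / 16) ×ˢ univ), ?_, ?_, ?_⟩
      · rw [mem_src]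
        simp only [h01, if_false, if_true]
        exact ⟨h1.1, h2⟩
      · exact (Metric.isOpen_ball.prod isOpen_univ).preimage j4.symm.continuous
      · rw [mem_preimage, pch_apply, j4.symm_apply_apply]
        simp only [h01, if_false, if_true]
        exact ⟨mem_ball_zero_iff.2 h1.2, mem_univ _⟩
      · intro y hy
        exact hg1 _ (mem_ball_zero_iff.1 hy.1)
    · refine hTb3 x (fun hx => ?_) (hZa x (dn_mono (by linarith) h1) (dn_of_not hAB hr4 h2))
      rw [mem_src] at hx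
      simp only [h01, if_false, if_true] at hx
      exact absurd hx.2 h2
  -- step c
  obtain ⟨Tc, hTc1, hTc2, hTc3, hTc4⟩ := step hV hTb2 (0, 1) (S := {2, 3}) (by decide)
    (by
      intro x hx s hs
      rw [mem_tgt] at hx ⊢
      simp only [h01, if_false, if_true] at hx ⊢
      rw [rh23, j4.symm_apply_apply]
      exact ⟨hx.1, hstar _ hx.2 s hs⟩)
    (θ := fun x => f (j4.symm x).2) (smooth2 f.contDiff)
    (K := j4 '' ((A '' (Dn B (r / 16))ᶜ) ×ˢ Metric.closedBall 0 (r / 2)))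
    (((l_cpt hAB hr16).prod (isCompact_closedBall _ _)).image j4.continuous)
    (by
      intro y hy
      rw [mem_img] at hy
      rw [mem_tgt]
      simp only [h01, if_false, if_true]
      exact ⟨l_sub hAB hr16 hy.1, hball _ (by linarith) hy.2⟩)
    (by
      intro x hx hxK
      by_cases hz : (j4.symm x).2 ∈ Metric.closedBall (0 : Eu 2) (r / 2)
      · right
        rw [mem_img, not_and_or] at hxK
        have hy := hxK.resolve_right (fun h => h hz)
        rw [mem_tgt] at hx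
        simp only [h01, if_false, if_true] at hx
        intro s hs
        rw [rh23]
        have hy' := l_symm hx.1 hy
        have hsz := hstar _ hx.2 s hs
        have h3 := hZb (A.symm (j4.symm x).1, B.symm (s • (j4.symm x).2)) hy' (0, 1)
          (by
            rw [mem_src]
            simp only [h01, if_false, if_true]
            exact ⟨A.map_target hx.1, B.map_target hsz⟩)
        rw [pch_apply] at h3
        simp only [h01, if_false, if_true] at h3
        rw [B.right_inv hsz, A.right_inv hx.1] at h3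
        exact h3
      · left
        exact hf0 _ hz)
  set Xc : Fin 2 × Fin 2 → Eu 4 → Eu 4 :=
    fun j y => Xb j y - push (pch A B) (0, 1) (dv Tc) j y with hXc
  have hZc2 : ∀ x : S × S, x.2 ∈ Dn B (r / 4) → Zr (pch A B) Xc x := by
    intro x h2
    by_cases h1 : x.1 ∈ A.source
    · refine hTc4 x ?_ ⟨j4.symm ⁻¹' (univ ×ˢ Metric.ball 0 (r / 4)), ?_, ?_, ?_⟩
      · rw [mem_src]
        simp only [h01, if_false, if_true]
        exact ⟨h1, h2.1⟩
      · exact (isOpen_univ.prod Metric.isOpen_ball).preimage j4.symm.continuous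
      · rw [mem_preimage, pch_apply, j4.symm_apply_apply]
        simp only [h01, if_false, if_true]
        exact ⟨mem_univ _, mem_ball_zero_iff.2 h2.2⟩
      · intro y hy
        exact hf1 _ (mem_ball_zero_iff.1 hy.2)
    · refine hTc3 x (fun hx => ?_) (hZb x (dn_of_not hAB hr16 h1))
      rw [mem_src] at hx
      simp only [h01, if_false, if_true] at hx
      exact absurd hx.1 h1
  have hZc1 : ∀ x : S × S, x.1 ∈ Dn B (r / 16) → Zr (pch A B) Xc x := by
    intro x h1
    refine hTc3 x (fun hx hK => ?_) (hZb x h1)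
    rw [mem_src] at hx
    simp only [h01, if_false, if_true] at hx
    rw [pch_apply, mem_img, j4.symm_apply_apply] at hK
    simp only [h01, if_false, if_true] at hK
    exact (l_mem hAB hr16 hx.1).1 hK.1 h1
  -- the sum
  set T : Fin 2 × Fin 2 → Eu 4 → (Eu 4 →L[ℝ] Eu 4) := fun p =>
    if p = (1, 1) then Ta else if p = (1, 0) then Tb else if p = (0, 1) then Tc else fun _ => 0
    with hT
  have hT11 : T (1, 1) = Ta := rfl
  have hT10 : T (1, 0) = Tb := rfl
  have hT01 : T (0, 1) = Tc := rfl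
  have hT00 : T (0, 0) = fun _ => 0 := rfl
  have hsum : ∀ j y, X j y - ∑ p, push (pch A B) p (dv (T p)) j y = Xc j y := by
    intro j y
    rw [Fintype.sum_prod_type]
    simp only [Fin.sum_univ_two]
    rw [hT11, hT10, hT01, hT00, push_dv_zero]
    have h1 : Xc j y = X j y - push (pch A B) (1, 1) (dv Ta) j y -
        push (pch A B) (1, 0) (dv Tb) j y - push (pch A B) (0, 1) (dv Tc) j y := rfl
    rw [h1]
    abel
  refine ⟨T, j4 '' ((A '' (Dn B (r / 16))ᶜ) ×ˢ (A '' (Dn B (r / 4))ᶜ)), ?_, ?_, ?_, ?_, ?_⟩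
  · rintro ⟨a, b⟩
    fin_cases a <;> fin_cases b
    · refine ⟨contDiff_const, ⟨∅, isCompact_empty, empty_subset _, fun _ _ => rfl⟩, ?_⟩
      intro y a b
      change inner ℝ ((0 : Eu 4 →L[ℝ] Eu 4) a) b = - inner ℝ a ((0 : Eu 4 →L[ℝ] Eu 4) b)
      simp
    · exact hTc1
    · exact hTb1
    · exact hTa1
  · exact ((l_cpt hAB hr16).prod (l_cpt hAB hr4)).image j4.continuous
  · intro y hy
    rw [mem_img] at hy
    rw [mem_tgt]
    simp only [if_true]
    exact ⟨l_sub hAB hr16 hy.1, l_sub hAB hr4 hy.2⟩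
  · have h1 : (fun j y => X j y - ∑ p, push (pch A B) p (dv (T p)) j y) = Xc := by
      funext j y
      exact hsum j y
    rw [h1]
    exact hTc2
  · intro x hx j hj
    rw [hsum]
    by_cases h1 : x.1 ∈ Dn B (r / 16)
    · exact hZc1 x h1 j hj
    by_cases h2 : x.2 ∈ Dn B (r / 4)
    · exact hZc2 x h2 j hj
    exfalso
    have h3 := src_of_not hAB hr16 h1
    have h4 := src_of_not hAB hr4 h2
    refine hx ?_ ?_
    · rw [mem_src]
      simp only [if_true]
      exact ⟨h3, h4⟩
    · rw [pch_apply, mem_img, j4.symm_apply_apply]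
      simp only [if_true]
      exact ⟨(l_mem hAB hr16 h3).2 h1, (l_mem hAB hr4 h4).2 h2⟩

end

end Pool.Agent.H68.ST
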