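import Pool.Agent.H6.ST.St
import Pool.Agent.H68.GM.PushK
import Pool.Agent.H68.GM.Piola
import Pool.Agent.H68.GM.Tr

/-! # ST-D4: divergence free fields supported in a chart, antisymmetric potentials -/

set_option autoImplicit false

namespace Pool.Agent.H68.ST

open MeasureTheory Set Pool.Agent.H68.VD Pool.Agent.H68.GM Pool.Agent.H6.ST
open scoped ENNReal ContDiff

noncomputable section

variable {n : ℕ} {M : Type} [TopologicalSpace M] [T2Space M] {ι : Type}
  {ch : ι → OpenPartialHomeomorph M (Eu n)}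

namespace PushDA

/-- The trace. -/
theorem tr_ev {n : ℕ} (f : Eu n →L[ℝ] Eu n) :
    ∑ j, (f (ev j)) j = LinearMap.trace ℝ (Eu n) (f : Eu n →ₗ[ℝ] Eu n) := by
  classical
  set b := (EuclideanSpace.basisFun (Fin n) ℝ).toBasis with hb
  have hbe : ∀ i, b i = ev i := by
    intro i
    simp [hb, ev]
  rw [LinearMap.trace_eq_matrix_trace ℝ b, Matrix.trace]
  refine Finset.sum_congr rfl fun j _ => ?_
  rw [Matrix.diag_apply, LinearMap.toMatrix_apply, hbe]
  simp [hb]

/-- The divergence of the push-forward of a field under a volume preserving map. -/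
theorem div_push {n : ℕ} {U V : Set (Eu n)} (hU : IsOpen U) (hV : IsOpen V) {κ μ : Eu n → Eu n}
    (hκ : ContDiffOn ℝ ∞ κ U) (hμ : ContDiffOn ℝ ∞ μ V) (hVU : ∀ y ∈ V, μ y ∈ U)
    (hκμ : ∀ y ∈ V, κ (μ y) = y) (hdet : ∀ x ∈ U, |(fderiv ℝ κ x).det| = 1)
    {u : Eu n → Eu n} (hu : ContDiff ℝ ∞ u) {y : Eu n} (hy : y ∈ V) :
    divg (fun z => fderiv ℝ κ (μ z) (u (μ z))) y = divg u (μ y) := by
  set x := μ y with hx
  have hxU : x ∈ U := hVU y hy
  have hUx : U ∈ nhds x := hU.mem_nhds hxU
  have hκx : ContDiffAt ℝ ∞ κ x := (hκ x hxU).contDiffAt hUx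
  have hμy : ContDiffAt ℝ ∞ μ y := (hμ y hy).contDiffAt (hV.mem_nhds hy)
  set B := fderiv ℝ κ x with hB
  set N := fderiv ℝ μ y with hN
  set D := fderiv ℝ (fderiv ℝ κ) x with hD
  have hκd : HasFDerivAt κ B x := (hκx.differentiableAt (by simp)).hasFDerivAt
  have hμd : HasFDerivAt μ N y := (hμy.differentiableAt (by simp)).hasFDerivAt
  have hDd : HasFDerivAt (fderiv ℝ κ) D x :=
    ((hκx.fderiv_right (m := 1) (by exact WithTop.coe_le_coe.mpr le_top)).differentiableAt
      one_ne_zero).hasFDerivAt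
  have hud : HasFDerivAt u (fderiv ℝ u x) x := (hu.differentiable (by simp) x).hasFDerivAt
  -- inverses
  have hBN : B ∘L N = ContinuousLinearMap.id ℝ (Eu n) := by
    have h1 : HasFDerivAt (fun z => κ (μ z)) (B ∘L N) y := hκd.comp y hμd
    have h2 : HasFDerivAt (fun z : Eu n => z) (ContinuousLinearMap.id ℝ (Eu n)) y :=
      hasFDerivAt_id y
    refine h1.unique (h2.congr_of_eventuallyEq ?_)
    filter_upwards [hV.mem_nhds hy] with z hz
    exact hκμ z hz
  have hBN' : ∀ v, B (N v) = v := fun v => by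
    have := congrArg (fun L : Eu n →L[ℝ] Eu n => L v) hBN
    simpa using this
  have hNB : (N : Eu n →ₗ[ℝ] Eu n) * (B : Eu n →ₗ[ℝ] Eu n) = 1 := by
    have h1 : (B : Eu n →ₗ[ℝ] Eu n) ∘ₗ (N : Eu n →ₗ[ℝ] Eu n) = LinearMap.id := by
      ext1 v
      exact hBN' v
    exact mul_eq_one_comm.mp h1
  -- symmetry
  have hsymm : ∀ u v, D u v = D v u := by
    have : IsSymmSndFDerivAt ℝ κ x := by
      apply hκx.isSymmSndFDerivAt
      rw [minSmoothness_of_isRCLikeNormedField]
      exact WithTop.coe_le_coe.mpr le_top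
    intro u v
    exact this.eq u v
  -- trace
  have htr : ∀ a, ∑ j, (D a (N (ev j))) j = 0 := by
    intro a
    refine PiolaA.sum_diag' (fun τ => (fderiv ℝ κ (x + τ • a)) ∘L N) (D a ∘L N) 0 ?_ ?_ ?_
    · intro i
      have h1 : HasDerivAt (fun τ : ℝ => x + τ • a) a 0 := by
        simpa using ((hasDerivAt_id (0 : ℝ)).smul_const a).const_add x
      have h2 : HasFDerivAt (fderiv ℝ κ) D (x + (0 : ℝ) • a) := by
        rw [zero_smul, add_zero]; exact hDd
      have h3 := h2.comp_hasDerivAt (0 : ℝ) h1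
      have h4 := h3.clm_apply (hasDerivAt_const (0 : ℝ) (N (ev i)))
      simpa using h4
    · simp only [zero_smul, add_zero]
      exact hBN
    · have hc : Filter.Tendsto (fun τ : ℝ => x + τ • a) (nhds 0) (nhds x) := by
        have : Continuous (fun τ : ℝ => x + τ • a) := by fun_prop
        simpa using this.tendsto 0
      have hdc : ContinuousAt (fun z => (fderiv ℝ κ z).det) x :=
        (ContinuousLinearMap.continuous_det.continuousAt).comp hDd.continuousAt
      have hev : ∀ᶠ z in nhds x, (fderiv ℝ κ z).det = B.det := by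
        have h5 : ∀ᶠ z in nhds x, |(fderiv ℝ κ z).det - B.det| < 1 := by
          have := hdc.tendsto.eventually (Metric.ball_mem_nhds _ one_pos)
          simpa [Metric.mem_ball, Real.dist_eq, hB] using this
        filter_upwards [h5, hUx] with z hz hzU
        have e1 := hdet z hzU
        have e2 := hdet x hxU
        rw [← hB] at e2
        rcases abs_eq (zero_le_one' ℝ) |>.mp e1 with h | h <;>
          rcases abs_eq (zero_le_one' ℝ) |>.mp e2 with h' | h' <;>
          rw [h, h'] at hz <;> rw [h, h'] <;> norm_num at hz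
      filter_upwards [hc.eventually hev] with τ hτ
      have e3 : ((fderiv ℝ κ (x + τ • a)) ∘L N).det = (fderiv ℝ κ (x + τ • a)).det * N.det :=
        LinearMap.det_comp _ _
      have e4 : (B ∘L N).det = B.det * N.det := LinearMap.det_comp _ _
      have e5 : (ContinuousLinearMap.id ℝ (Eu n)).det = 1 := LinearMap.det_id
      rw [e3, hτ, ← e4, hBN, e5]
  -- the derivative
  have hc : HasFDerivAt (fun z => fderiv ℝ κ (μ z)) (D ∘L N) y := hDd.comp y hμd
  have hd : HasFDerivAt (fun z => u (μ z)) (fderiv ℝ u x ∘L N) y := hud.comp y hμd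
  have hS := hc.clm_apply hd
  unfold divg
  rw [hS.fderiv]
  have hterm : ∀ j, (((fderiv ℝ κ x).comp (fderiv ℝ u x ∘L N) +
      (D ∘L N).flip (u x)) (ev j)) = B (fderiv ℝ u x (N (ev j))) + D (u x) (N (ev j)) := by
    intro j
    simp only [_root_.add_apply, ContinuousLinearMap.comp_apply, ContinuousLinearMap.flip_apply]
    rw [hsymm]
  have h6 : ∀ j, ((((fderiv ℝ κ x).comp (fderiv ℝ u x ∘L N) +
      (D ∘L N).flip (u x)) (ev j)) : Eu n) j =
      (B (fderiv ℝ u x (N (ev j)))) j + (D (u x) (N (ev j))) j := by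
    intro j
    rw [hterm]
    rfl
  refine (Finset.sum_congr rfl fun j _ => h6 j).trans ?_
  rw [Finset.sum_add_distrib, htr (u x), add_zero]
  have h7 := tr_ev (B ∘L (fderiv ℝ u x ∘L N))
  have h8 := tr_ev (fderiv ℝ u x)
  have h9 : LinearMap.trace ℝ (Eu n) ((B ∘L (fderiv ℝ u x ∘L N) : Eu n →L[ℝ] Eu n) :
      Eu n →ₗ[ℝ] Eu n) = LinearMap.trace ℝ (Eu n) ((fderiv ℝ u x : Eu n →L[ℝ] Eu n) :
      Eu n →ₗ[ℝ] Eu n) := by
    have h10 : ((B ∘L (fderiv ℝ u x ∘L N) : Eu n →L[ℝ] Eu n) : Eu n →ₗ[ℝ] Eu n) =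
        (B : Eu n →ₗ[ℝ] Eu n) * (((fderiv ℝ u x : Eu n →L[ℝ] Eu n) : Eu n →ₗ[ℝ] Eu n) *
          (N : Eu n →ₗ[ℝ] Eu n)) := rfl
    rw [h10, LinearMap.trace_mul_comm, mul_assoc, hNB, mul_one]
  calc ∑ j, (B (fderiv ℝ u x (N (ev j)))) j
      = LinearMap.trace ℝ (Eu n) ((B ∘L (fderiv ℝ u x ∘L N) : Eu n →L[ℝ] Eu n) :
        Eu n →ₗ[ℝ] Eu n) := h7
    _ = _ := h9
    _ = _ := h8.symm

/-- A field which is zero near a point has divergence zero there. -/
theorem divg_zero {n : ℕ} {u : Eu n → Eu n} {y : Eu n} (h : u =ᶠ[nhds y] fun _ => 0) :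
    divg u y = 0 := by
  unfold divg
  rw [h.fderiv_eq]
  simp

theorem divg_congr {n : ℕ} {u v : Eu n → Eu n} {y : Eu n} (h : u =ᶠ[nhds y] v) :
    divg u y = divg v y := by
  unfold divg
  rw [h.fderiv_eq]

end PushDA

open PushDA

theorem push_free (hA : VolAtlas ch) (i : ι) {K : Set (Eu n)} (hK : IsCompact K)
    (hs : K ⊆ (ch i).target) {u : Eu n → Eu n} (hu : ContDiff ℝ ∞ u) (h0 : ∀ y ∉ K, u y = 0)
    (hd : ∀ y, divg u y = 0) : DivFree ch (push ch i u) := by
  have hfld := PushKA.fld hA i K hK hs u hu h0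
  refine ⟨hfld.smooth, hfld.out, hfld.compat, fun j y hy => ?_⟩
  by_cases hdom : y ∈ dom ch j i
  · have h1 : push ch i u j =ᶠ[nhds y]
        fun z => fderiv ℝ (tr ch i j) (tr ch j i z) (u (tr ch j i z)) := by
      filter_upwards [(PushKA.isOpen_dom ch j i).mem_nhds hdom] with z hz
      exact PushKA.push_eq ch u hz
    rw [divg_congr h1, div_push (PushKA.isOpen_dom ch i j) (PushKA.isOpen_dom ch j i)
      (hA.smooth i j) (hA.smooth j i) (fun z hz => PushKA.tr_mem ch hz) (fun z hz => ?_)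
      (fun z hz => hA.det i j z hz) hu hdom]
    · exact hd _
    · rw [PushKA.tr_tr ch j hz]
      exact PushKA.tr_self ch hz.1
  · have hC := PushKA.isClosed_img ch i hK hs
    have hz : (ch j).symm y ∉ (ch i).symm '' K := by
      rintro ⟨w, hw, he⟩
      apply hdom
      refine ⟨hy, ?_⟩
      rw [← he]
      exact (ch i).map_target (hs hw)
    have hopen : IsOpen ((ch j).target ∩ (ch j).symm ⁻¹' ((ch i).symm '' K)ᶜ) :=
      (ch j).symm.isOpen_inter_preimage hC.isOpen_compl
    refine divg_zero ?_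
    filter_upwards [hopen.mem_nhds ⟨hy, hz⟩] with y' hy'
    exact PushKA.push_zero ch h0 (fun _ => hy'.2)

theorem free_sub {X Y : ι → Eu n → Eu n} (hX : DivFree ch X) (hY : DivFree ch Y) :
    DivFree ch (fun j y => X j y - Y j y) := by
  refine ⟨fun i => (hX.smooth i).sub (hY.smooth i), fun i y hy => ?_, fun i j y hy => ?_,
    fun i y hy => ?_⟩
  · rw [hX.out i y hy, hY.out i y hy, sub_zero]
  · rw [hX.compat i j y hy, hY.compat i j y hy, map_sub]
  · have h1 : DifferentiableAt ℝ (X i) y :=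
      ((hX.smooth i).contDiffAt ((ch i).open_target.mem_nhds hy)).differentiableAt (by simp)
    have h2 : DifferentiableAt ℝ (Y i) y :=
      ((hY.smooth i).contDiffAt ((ch i).open_target.mem_nhds hy)).differentiableAt (by simp)
    have h3 : fderiv ℝ (fun y => X i y - Y i y) y = fderiv ℝ (X i) y - fderiv ℝ (Y i) y :=
      fderiv_sub h1 h2
    have h4 := hX.div i y hy
    have h5 := hY.div i y hy
    unfold divg at h4 h5 ⊢
    rw [h3]
    have h6 : ∀ j, ((fderiv ℝ (X i) y - fderiv ℝ (Y i) y) (ev j)) j =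
        (fderiv ℝ (X i) y (ev j)) j - (fderiv ℝ (Y i) y (ev j)) j := fun j => rfl
    rw [Finset.sum_congr rfl fun j _ => h6 j, Finset.sum_sub_distrib, h4, h5, sub_zero]

/-- The divergence of an antisymmetric matrix field is divergence free. -/
theorem dv_free {A : Eu n → (Eu n →L[ℝ] Eu n)} (hA : ContDiff ℝ ∞ A)
    (hs : ∀ y a b, inner ℝ (A y a) b = - inner ℝ a (A y b)) (y : Eu n) : divg (dv A) y = 0 := by
  have hA1 : ContDiff ℝ ∞ (fderiv ℝ A) := hA.fderiv_right (by simp)
  have hd0 : Differentiable ℝ A := hA.differentiable (by simp)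
  have hd1 : Differentiable ℝ (fderiv ℝ A) := hA1.differentiable (by simp)
  set D := fderiv ℝ (fderiv ℝ A) y with hD
  -- the derivative of the divergence
  have hflip : ∀ w, HasFDerivAt (fun z => fderiv ℝ A z w) (D.flip w) y := by
    intro w
    have h2 := (hd1 y).hasFDerivAt.clm_apply (hasFDerivAt_const w y)
    simpa using h2
  have h1 : ∀ j, HasFDerivAt (fun z => (fderiv ℝ A z (ev j)) (ev j))
      ((D.flip (ev j)).flip (ev j)) y := by
    intro j
    have h2 := (hflip (ev j)).clm_apply (hasFDerivAt_const (ev j : Eu n) y)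
    simpa using h2
  have h2 : fderiv ℝ (dv A) y = ∑ j, ((D.flip (ev j)).flip (ev j)) := by
    have h3 := HasFDerivAt.fun_sum (u := Finset.univ) fun j _ => h1 j
    exact h3.fderiv
  -- symmetry
  have hsymm : ∀ u v, D u v = D v u := by
    have : IsSymmSndFDerivAt ℝ A y := by
      apply hA.contDiffAt.isSymmSndFDerivAt
      rw [minSmoothness_of_isRCLikeNormedField]
      exact WithTop.coe_le_coe.mpr le_top
    intro u v
    exact this.eq u v
  -- the second derivatives are antisymmetric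
  have hskew : ∀ u v a b : Eu n, (inner ℝ (D u v a) b : ℝ) = - inner ℝ a (D u v b) := by
    intro u v a b
    set L : (Eu n →L[ℝ] Eu n) →L[ℝ] ℝ :=
      ((innerSL ℝ b).comp (ContinuousLinearMap.apply ℝ (Eu n) a)) +
        ((innerSL ℝ a).comp (ContinuousLinearMap.apply ℝ (Eu n) b)) with hL
    have hLa : ∀ S : Eu n →L[ℝ] Eu n, L S = inner ℝ b (S a) + inner ℝ a (S b) := fun S => rfl
    have hL0 : (fun z => L (A z)) = fun _ => (0 : ℝ) := by
      funext z
      rw [hLa, real_inner_comm, hs]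
      ring
    have h3 : ∀ z, ∀ w, L (fderiv ℝ A z w) = 0 := by
      intro z w
      have h4 : HasFDerivAt (fun z => L (A z)) (L.comp (fderiv ℝ A z)) z :=
        L.hasFDerivAt.comp z (hd0 z).hasFDerivAt
      rw [hL0] at h4
      have h5 := h4.unique (hasFDerivAt_const (0 : ℝ) z)
      exact congrArg (fun T : Eu n →L[ℝ] ℝ => T w) h5
    have h6 : L (D u v) = 0 := by
      have h7 : HasFDerivAt (fun z => L (fderiv ℝ A z v)) (L.comp (D.flip v)) y :=
        L.hasFDerivAt.comp y (hflip v)
      have h8 : (fun z => L (fderiv ℝ A z v)) = fun _ => (0 : ℝ) := funext fun z => h3 z v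
      rw [h8] at h7
      have h9 := h7.unique (hasFDerivAt_const (0 : ℝ) y)
      exact congrArg (fun T : Eu n →L[ℝ] ℝ => T u) h9
    rw [hLa, real_inner_comm] at h6
    linarith
  -- the sum
  have h4 : divg (dv A) y = ∑ l, ∑ j, (inner ℝ (ev l) (D (ev l) (ev j) (ev j)) : ℝ) := by
    unfold divg
    rw [h2]
    refine Finset.sum_congr rfl fun l _ => ?_
    rw [← PiolaA.inner_ev, _root_.sum_apply, inner_sum]
    rfl
  have h5 : ∑ l, ∑ j, (inner ℝ (ev l) (D (ev l) (ev j) (ev j)) : ℝ) =
      - ∑ l, ∑ j, (inner ℝ (ev l) (D (ev l) (ev j) (ev j)) : ℝ) := by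
    conv_lhs => rw [Finset.sum_comm]
    rw [← Finset.sum_neg_distrib]
    refine Finset.sum_congr rfl fun j _ => ?_
    rw [← Finset.sum_neg_distrib]
    refine Finset.sum_congr rfl fun l _ => ?_
    have h6 := hskew (ev l : Eu n) (ev j) (ev j) (ev l)
    rw [real_inner_comm, h6, hsymm (ev l : Eu n) (ev j)]
  rw [h4]
  linarith

/-- The entries of an antisymmetric matrix field. -/
theorem skew_entries {U : Set (Eu n)} {A : Eu n → (Eu n →L[ℝ] Eu n)} (hA : SkewIn U A) :
    ∃ f : Fin n → Fin n → Eu n → ℝ, (∀ a b, TestIn U (f a b)) ∧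
      ∀ y, dv A y = ∑ a, ∑ b, jgrad a b (f a b) y := by
  classical
  obtain ⟨K, hK, hKU, hK0⟩ := hA.supp
  set f : Fin n → Fin n → Eu n → ℝ := fun a b y => (1 / 2) * inner ℝ (ev a) (A y (ev b)) with hf
  have hfs : ∀ a b, ContDiff ℝ ∞ (f a b) := fun a b =>
    contDiff_const.mul (contDiff_const.inner ℝ (hA.smooth.clm_apply contDiff_const))
  refine ⟨f, fun a b => ⟨hfs a b, K, hK, hKU, fun y hy => ?_⟩, fun y => ?_⟩
  · show (1 / 2) * inner ℝ (ev a) (A y (ev b)) = (0 : ℝ)
    rw [hK0 y hy]
    simp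
  · have hAeq : A = fun y => ∑ a, ∑ b, f a b y • (rotJ b a : Eu n →L[ℝ] Eu n) := by
      funext y
      ext1 v
      have h1 : (∑ a, ∑ b, f a b y • (rotJ b a : Eu n →L[ℝ] Eu n)) v =
          ∑ a, ∑ b, f a b y • (v b • ev a - v a • ev b) := by
        simp only [_root_.sum_apply]
        rfl
      rw [h1]
      simp only [smul_sub, Finset.sum_sub_distrib]
      have h2 : ∑ a, ∑ b, f a b y • (v b • (ev a : Eu n)) = (1 / 2 : ℝ) • A y v := by
        have h3 : ∀ a, ∑ b, f a b y • (v b • (ev a : Eu n)) =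
            (1 / 2 : ℝ) • ((inner ℝ (ev a) (A y v) : ℝ) • ev a) := by
          intro a
          have h4 : (inner ℝ (ev a) (A y v) : ℝ) =
              ∑ b, v b * inner ℝ (ev a) (A y (ev b)) := by
            conv_lhs => rw [← PiolaA.sum_ev v]
            rw [map_sum, inner_sum]
            refine Finset.sum_congr rfl fun b _ => ?_
            rw [map_smul, inner_smul_right, PiolaA.inner_ev]
          rw [h4, Finset.sum_smul, Finset.smul_sum]
          refine Finset.sum_congr rfl fun b _ => ?_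
          rw [smul_smul, smul_smul]
          congr 1
          show (1 / 2) * inner ℝ (ev a) (A y (ev b)) * v b = _
          ring
        rw [Finset.sum_congr rfl fun a _ => h3 a, ← Finset.smul_sum, PiolaA.sum_ev]
      have h5 : ∑ a, ∑ b, f a b y • (v a • (ev b : Eu n)) = -((1 / 2 : ℝ) • A y v) := by
        rw [Finset.sum_comm]
        rw [← h2, ← Finset.sum_neg_distrib]
        refine Finset.sum_congr rfl fun b _ => ?_
        rw [← Finset.sum_neg_distrib]
        refine Finset.sum_congr rfl fun a _ => ?_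
        have h6 : f a b y = - f b a y := by
          show (1 / 2) * inner ℝ (ev a) (A y (ev b)) = -((1 / 2) * inner ℝ (ev b) (A y (ev a)))
          rw [real_inner_comm, hA.skew]
          ring
        rw [h6, neg_smul]
      rw [h2, h5]
      have h7 : (1 / 2 : ℝ) • A y v - -((1 / 2 : ℝ) • A y v) = A y v := by
        rw [sub_neg_eq_add, ← add_smul]
        norm_num
      exact h7.symm
    have hdiff : ∀ a b, DifferentiableAt ℝ
        (fun y => f a b y • (rotJ b a : Eu n →L[ℝ] Eu n)) y := fun a b =>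
      (((hfs a b).smul contDiff_const).differentiable (by simp)) y
    have h1 : fderiv ℝ (fun y => ∑ a, ∑ b, f a b y • (rotJ b a : Eu n →L[ℝ] Eu n)) y =
        ∑ a, ∑ b, fderiv ℝ (fun y => f a b y • (rotJ b a : Eu n →L[ℝ] Eu n)) y := by
      rw [fderiv_fun_sum fun a _ => DifferentiableAt.fun_sum fun b _ => hdiff a b]
      refine Finset.sum_congr rfl fun a _ => ?_
      rw [fderiv_fun_sum fun b _ => hdiff a b]
    conv_lhs => rw [hAeq]
    unfold dv
    rw [h1]
    simp only [_root_.sum_apply]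
    rw [Finset.sum_comm]
    refine Finset.sum_congr rfl fun a _ => ?_
    rw [Finset.sum_comm]
    refine Finset.sum_congr rfl fun b _ => ?_
    exact TrB.dv_smul a b (f a b) (hfs a b) y

/-- A field which vanishes at a point in one chart vanishes at this point in all charts. -/
theorem zero_at (hA : VolAtlas ch) {X : ι → Eu n → Eu n} (hX : Compat ch X) {x : M} {i j : ι}
    (hi : x ∈ (ch i).source) (hj : x ∈ (ch j).source) (h : X i (ch i x) = 0) :
    X j (ch j x) = 0 := by
  have hdom : ch i x ∈ dom ch i j := by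
    refine ⟨(ch i).map_source hi, ?_⟩
    rw [(ch i).left_inv hi]
    exact hj
  have h1 := hX i j (ch i x) hdom
  have h2 : tr ch i j (ch i x) = ch j x := by
    show ch j ((ch i).symm (ch i x)) = ch j x
    rw [(ch i).left_inv hi]
  rw [h2, h, map_zero] at h1
  exact h1

/-- A divergence free field with support in a chart. -/
theorem eq_push (hA : VolAtlas ch) {X : ι → Eu n → Eu n} (hX : DivFree ch X) (i : ι)
    {K : Set (Eu n)} (hK : IsCompact K) (hs : K ⊆ (ch i).target)
    (h0 : ∀ x : M, (x ∈ (ch i).source → ch i x ∉ K) → ∀ j, x ∈ (ch j).source → X j (ch j x) = 0) :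
    ContDiff ℝ ∞ (X i) ∧ (∀ y ∉ K, X i y = 0) ∧ (∀ y, divg (X i) y = 0) ∧
      ∀ j y, X j y = push ch i (X i) j y := by
  have hK0 : ∀ y ∉ K, X i y = 0 := by
    intro y hy
    by_cases ht : y ∈ (ch i).target
    · have h1 := h0 ((ch i).symm y) (fun _ => by rw [(ch i).right_inv ht]; exact hy) i
        ((ch i).map_target ht)
      rw [(ch i).right_inv ht] at h1
      exact h1
    · exact hX.out i y ht
  have hloc : ∀ y ∉ (ch i).target, X i =ᶠ[nhds y] fun _ => 0 := by
    intro y hy
    filter_upwards [hK.isClosed.isOpen_compl.mem_nhds fun h => hy (hs h)] with z hz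
    exact hK0 z hz
  refine ⟨?_, hK0, fun y => ?_, fun j y => ?_⟩
  · rw [contDiff_iff_contDiffAt]
    intro y
    by_cases ht : y ∈ (ch i).target
    · exact (hX.smooth i).contDiffAt ((ch i).open_target.mem_nhds ht)
    · exact contDiffAt_const.congr_of_eventuallyEq (hloc y ht)
  · by_cases ht : y ∈ (ch i).target
    · exact hX.div i y ht
    · exact divg_zero (hloc y ht)
  · by_cases hdom : y ∈ dom ch j i
    · rw [PushKA.push_eq ch (X i) hdom]
      have h1 := hX.compat i j (tr ch j i y) (PushKA.tr_mem ch hdom)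
      have h2 : tr ch i j (tr ch j i y) = y := by
        rw [PushKA.tr_tr ch j hdom]
        exact PushKA.tr_self ch hdom.1
      rw [h2] at h1
      exact h1
    · unfold push
      rw [if_neg hdom]
      by_cases ht : y ∈ (ch j).target
      · have h1 := h0 ((ch j).symm y) (fun h => absurd ⟨ht, h⟩ hdom) j ((ch j).map_target ht)
        rw [(ch j).right_inv ht] at h1
        exact h1
      · exact hX.out j y ht

end

end Pool.Agent.H68.ST
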