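import Pool.Agent.H68.ST.RadP
import Pool.Agent.H68.ST.PushD

/-! # ST-D5: one step of the reduction -/

set_option autoImplicit false

namespace Pool.Agent.H68.ST

open MeasureTheory Set Pool.Agent.H68.VD Pool.Agent.H68.GM Pool.Agent.H6.ST
open scoped ENNReal ContDiff

noncomputable section

namespace ExStepA

theorem dv_congr {A B : Eu 4 → (Eu 4 →L[ℝ] Eu 4)} {x : Eu 4} (h : A =ᶠ[nhds x] B) :
    dv A x = dv B x := by
  unfold dv
  rw [h.fderiv_eq]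

theorem dv_smooth {A : Eu 4 → (Eu 4 →L[ℝ] Eu 4)} (hA : ContDiff ℝ ∞ A) :
    ContDiff ℝ ∞ (dv A) := by
  have h1 : ContDiff ℝ ∞ (fderiv ℝ A) := hA.fderiv_right (by simp)
  have h2 : ContDiff ℝ ∞ (fun x => ∑ j : Fin 4, (fderiv ℝ A x (ev j)) (ev j)) :=
    ContDiff.sum fun j _ => (h1.clm_apply contDiff_const).clm_apply contDiff_const
  exact h2

open Classical in
/-- the potential cut off by `θ` -/
def pot (U : Set (Eu 4)) (θ : Eu 4 → ℝ) (R : Eu 4 → (Eu 4 →L[ℝ] Eu 4)) (y : Eu 4) :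
    Eu 4 →L[ℝ] Eu 4 := if y ∈ U then θ y • R y else 0

theorem pot_in {U : Set (Eu 4)} {θ : Eu 4 → ℝ} {R : Eu 4 → (Eu 4 →L[ℝ] Eu 4)} {y : Eu 4}
    (hy : y ∈ U) : pot U θ R y = θ y • R y := if_pos hy

theorem pot_out {U : Set (Eu 4)} {θ : Eu 4 → ℝ} {R : Eu 4 → (Eu 4 →L[ℝ] Eu 4)} {y : Eu 4}
    (hy : y ∉ U) : pot U θ R y = 0 := if_neg hy

theorem pot_zero {U K : Set (Eu 4)} {θ : Eu 4 → ℝ} {R : Eu 4 → (Eu 4 →L[ℝ] Eu 4)}
    (h0 : ∀ x ∈ U, x ∉ K → θ x = 0 ∨ R x = 0) : ∀ y ∉ K, pot U θ R y = 0 := by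
  intro y hy
  by_cases hU : y ∈ U
  · rw [pot_in hU]
    rcases h0 y hU hy with h | h
    · rw [h]
      exact zero_smul ℝ (R y)
    · rw [h]
      exact smul_zero (A := Eu 4 →L[ℝ] Eu 4) (θ y)
  · exact pot_out hU

theorem pot_smooth {U K : Set (Eu 4)} (hU : IsOpen U) (hK : IsCompact K) (hs : K ⊆ U)
    {θ : Eu 4 → ℝ} {R : Eu 4 → (Eu 4 →L[ℝ] Eu 4)} (hθ : ContDiff ℝ ∞ θ) (hR : ContDiffOn ℝ ∞ R U)
    (h0 : ∀ x ∈ U, x ∉ K → θ x = 0 ∨ R x = 0) : ContDiff ℝ ∞ (pot U θ R) := by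
  rw [contDiff_iff_contDiffAt]
  intro y
  by_cases hy : y ∈ U
  · have h1 : ContDiffAt ℝ ∞ (fun z => θ z • R z) y :=
      hθ.contDiffAt.smul (hR.contDiffAt (hU.mem_nhds hy))
    refine h1.congr_of_eventuallyEq ?_
    filter_upwards [hU.mem_nhds hy] with z hz using pot_in hz
  · have hyK : y ∉ K := fun h => hy (hs h)
    have h1 : ContDiffAt ℝ ∞ (fun _ : Eu 4 => (0 : Eu 4 →L[ℝ] Eu 4)) y := contDiffAt_const
    refine h1.congr_of_eventuallyEq ?_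
    filter_upwards [hK.isClosed.isOpen_compl.mem_nhds hyK] with z hz using pot_zero h0 z hz

end ExStepA

variable {M : Type} [TopologicalSpace M] [T2Space M] {ι : Type}
  {ch : ι → OpenPartialHomeomorph M (Eu 4)}

open ExStepA in
theorem ex_step (hA : VolAtlas ch) {X : ι → Eu 4 → Eu 4} (hX : DivFree ch X) (i : ι)
    {S : Finset (Fin 4)} (hS : S.card = 2)
    (hst : ∀ x ∈ (ch i).target, ∀ s ∈ Set.Icc (0 : ℝ) 1, rh S s x ∈ (ch i).target)
    {θ : Eu 4 → ℝ} (hθ : ContDiff ℝ ∞ θ) {K : Set (Eu 4)} (hK : IsCompact K)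
    (hs : K ⊆ (ch i).target)
    (h0 : ∀ x ∈ (ch i).target, x ∉ K → θ x = 0 ∨ ∀ s ∈ Set.Icc (0 : ℝ) 1, X i (rh S s x) = 0) :
    ∃ A : Eu 4 → (Eu 4 →L[ℝ] Eu 4), SkewIn (ch i).target A ∧ (∀ y ∉ K, A y = 0) ∧
      DivFree ch (fun j y => X j y - push ch i (dv A) j y) ∧
      ∀ x ∈ (ch i).target, (∃ V : Set (Eu 4), IsOpen V ∧ x ∈ V ∧ ∀ y ∈ V, θ y = 1) →
        dv A x = X i x := by
  have hU : IsOpen (ch i).target := (ch i).open_target
  have hXs := hX.smooth i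
  have h0' : ∀ x ∈ (ch i).target, x ∉ K → θ x = 0 ∨ rpot S (X i) x = 0 := fun x hx hxK =>
    (h0 x hx hxK).imp id (fun h => rpot_zero x h)
  have hsm : ContDiff ℝ ∞ (pot (ch i).target θ (rpot S (X i))) :=
    pot_smooth hU hK hs hθ (rpot_smooth hU hst hXs) h0'
  have hz : ∀ y ∉ K, pot (ch i).target θ (rpot S (X i)) y = 0 := pot_zero h0'
  have hsk : ∀ y a b, inner ℝ (pot (ch i).target θ (rpot S (X i)) y a) b =
      - inner ℝ a (pot (ch i).target θ (rpot S (X i)) y b) := by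
    intro y a b
    by_cases hy : y ∈ (ch i).target
    · rw [pot_in hy]
      show inner ℝ (θ y • (rpot S (X i) y a)) b = - inner ℝ a (θ y • (rpot S (X i) y b))
      rw [real_inner_smul_left, real_inner_smul_right, rpot_skew hU hst hXs y hy a b]
      ring
    · rw [pot_out hy]
      simp
  have hdz : ∀ y ∉ K, dv (pot (ch i).target θ (rpot S (X i))) y = 0 := by
    intro y hy
    have h1 : pot (ch i).target θ (rpot S (X i)) =ᶠ[nhds y] fun _ => 0 := by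
      filter_upwards [hK.isClosed.isOpen_compl.mem_nhds hy] with z hz' using hz z hz'
    rw [dv_congr h1]
    unfold dv
    simp
  refine ⟨pot (ch i).target θ (rpot S (X i)), ⟨hsm, ⟨K, hK, hs, hz⟩, hsk⟩, hz, ?_, ?_⟩
  · exact free_sub hX (push_free hA i hK hs (dv_smooth hsm) hdz (dv_free hsm hsk))
  · rintro x hx ⟨V, hV, hxV, hθV⟩
    have h1 : pot (ch i).target θ (rpot S (X i)) =ᶠ[nhds x] rpot S (X i) := by
      filter_upwards [hU.mem_nhds hx, hV.mem_nhds hxV] with z hz1 hz2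
      rw [pot_in hz1, hθV z hz2, one_smul]
    rw [dv_congr h1]
    exact rpot_dv hS hU hst hXs (hX.div i) x hx

end

end Pool.Agent.H68.ST
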