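import Pool.Agent.H68.ST.NDef
import Pool.Agent.H68.ST.Img

/-! # ST-N6: integrals along the flow -/

set_option autoImplicit false
set_option linter.unusedVariables false

namespace Pool.Agent.H68.ST

open MeasureTheory Set Pool.Agent.H68.VD Pool.Agent.H68.GM Pool.Agent.H6.ST
open scoped ENNReal ContDiff

noncomputable section

variable {n : ℕ} {M : Type} [TopologicalSpace M] {ι : Type} [Fintype ι]
  {ch : ι → OpenPartialHomeomorph M (Eu n)} {φ : ℝ → M → M}

namespace FlowIA

open Pool.Agent.H68.GM.MFamA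

omit [Fintype ι]

open Classical in
/-- the map in the charts, made measurable -/
def Pm (ch : ι → OpenPartialHomeomorph M (Eu n)) (φ : ℝ → M → M) (i j : ι) (q : ℝ × Eu n) : Eu n :=
  (lD ch φ i j).piecewise (lr ch φ i j) (fun _ => 0) q

theorem Pm_meas (h : MFam ch φ) (i j : ι) : Measurable (Pm ch φ i j) := by
  classical
  have h1 : ContinuousOn (lr ch φ i j) (lD ch φ i j) := (h.smooth i j).continuousOn
  have h2 := ContinuousOn.measurable_piecewise h1
    (continuousOn_const (c := (0 : Eu n)) (s := (lD ch φ i j)ᶜ)) (openD h.cont i j).measurableSet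
  have h3 : Pm ch φ i j = (lD ch φ i j).piecewise (lr ch φ i j) (fun _ => 0) := by
    funext q
    unfold Pm
    simp only [Set.piecewise]
  rw [h3]
  exact h2

/-- the term of the chart `j` -/
def Hj (ch : ι → OpenPartialHomeomorph M (Eu n)) (φ : ℝ → M → M) (G : ℝ → ι → Eu n → ℝ≥0∞)
    (i j : ι) (q : ℝ × Eu n) : ℝ≥0∞ :=
  (lD ch φ i j).indicator (fun q => G q.1 j (Pm ch φ i j q)) q

theorem Hj_meas (h : MFam ch φ) {G : ℝ → ι → Eu n → ℝ≥0∞}
    (hG : ∀ j, Measurable (fun q : ℝ × Eu n => G q.1 j q.2)) (i j : ι) :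
    Measurable (Hj ch φ G i j) := by
  have h1 : Measurable (fun q : ℝ × Eu n => (q.1, Pm ch φ i j q)) :=
    measurable_fst.prodMk (Pm_meas h i j)
  exact ((hG j).comp h1).indicator (openD h.cont i j).measurableSet

theorem Hj_eq (G : ℝ → ι → Eu n → ℝ≥0∞) (i j : ι) {t : ℝ} {y : Eu n} (hy : y ∈ (ch i).target) :
    (open Classical in if φ t ((ch i).symm y) ∈ (ch j).source then
      G t j (ch j (φ t ((ch i).symm y))) else 0) = Hj ch φ G i j (t, y) := by
  classical
  unfold Hj
  by_cases h1 : φ t ((ch i).symm y) ∈ (ch j).source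
  · have h2 : (t, y) ∈ lD ch φ i j := ⟨hy, h1⟩
    rw [if_pos h1, Set.indicator_of_mem h2]
    unfold Pm
    rw [Set.piecewise_eq_of_mem _ _ _ h2]
    rfl
  · have h2 : (t, y) ∉ lD ch φ i j := fun h3 => h1 h3.2
    rw [if_neg h1, Set.indicator_of_notMem h2]

theorem Hj_le (h : MFam ch φ) (G : ℝ → ι → Eu n → ℝ≥0∞) (i j : ι) (t : ℝ) :
    ∫⁻ y in (ch i).target, Hj ch φ G i j (t, y) ≤ ∫⁻ z in (ch j).target, G t j z := by
  classical
  set V : Set (Eu n) := {y | (t, y) ∈ lD ch φ i j} with hVd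
  have hVo : IsOpen V := (openD h.cont i j).preimage (continuous_const.prodMk continuous_id)
  have h1 : (fun y => Hj ch φ G i j (t, y)) =
      V.indicator (fun y => G t j (ch j (φ t ((ch i).symm y)))) := by
    funext y
    by_cases hy : y ∈ V
    · have h2 : (t, y) ∈ lD ch φ i j := hy
      rw [Set.indicator_of_mem hy]
      unfold Hj
      rw [Set.indicator_of_mem h2]
      unfold Pm
      rw [Set.piecewise_eq_of_mem _ _ _ h2]
      rfl
    · have h2 : (t, y) ∉ lD ch φ i j := hy
      rw [Set.indicator_of_notMem hy]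
      unfold Hj
      rw [Set.indicator_of_notMem h2]
  calc ∫⁻ y in (ch i).target, Hj ch φ G i j (t, y)
      = ∫⁻ y in (ch i).target, V.indicator (fun y => G t j (ch j (φ t ((ch i).symm y)))) y := by
        rw [← h1]
    _ ≤ ∫⁻ y, V.indicator (fun y => G t j (ch j (φ t ((ch i).symm y)))) y :=
        setLIntegral_le_lintegral _ _
    _ = ∫⁻ y in V, G t j (ch j (φ t ((ch i).symm y))) := lintegral_indicator hVo.measurableSet _
    _ ≤ ∫⁻ z in (ch j).target, G t j z := by
        refine cov_le (μ := fun y => ch j (φ t ((ch i).symm y))) hVo.measurableSet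
          (fun z hz => (diffX h hz).differentiableAt) (fun z hz => h.det t i j z hz.1 hz.2)
          ?_ (fun z hz => (ch j).map_source hz.2) (G t j)
        intro a ha b hb hab
        have h3 := (ch j).injOn ha.2 hb.2 hab
        have h4 := (h.bij t).1 h3
        exact (ch i).symm.injOn (by simpa using ha.1) (by simpa using hb.1) h4

end FlowIA

theorem flow_int (hA : VolAtlas ch) (h : MFam ch φ) (i : ι) {G : ℝ → ι → Eu n → ℝ≥0∞}
    (hG : ∀ j, Measurable (fun q : ℝ × Eu n => G q.1 j q.2)) :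
    ∫⁻ y in (ch i).target, ∫⁻ t in Set.Icc (0 : ℝ) 1, evM ch (G t) (φ t ((ch i).symm y)) ≤
      ∫⁻ t in Set.Icc (0 : ℝ) 1, ∑ j, ∫⁻ z in (ch j).target, G t j z := by
  have h1 : ∫⁻ y in (ch i).target, ∫⁻ t in Set.Icc (0 : ℝ) 1,
        evM ch (G t) (φ t ((ch i).symm y)) =
      ∫⁻ y in (ch i).target, ∫⁻ t in Set.Icc (0 : ℝ) 1, ∑ j, FlowIA.Hj ch φ G i j (t, y) := by
    refine setLIntegral_congr_fun (ch i).open_target.measurableSet fun y hy => ?_
    refine lintegral_congr fun t => ?_
    unfold evM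
    exact Finset.sum_congr rfl fun j _ => FlowIA.Hj_eq G i j hy
  have hm : Measurable (fun q : ℝ × Eu n => ∑ j, FlowIA.Hj ch φ G i j q) :=
    Finset.measurable_fun_sum _ fun j _ => FlowIA.Hj_meas h hG i j
  rw [h1, lintegral_lintegral_swap
    (f := fun (y : Eu n) (t : ℝ) => ∑ j, FlowIA.Hj ch φ G i j (t, y))
    (hm.comp measurable_swap).aemeasurable]
  refine lintegral_mono fun t => ?_
  simp only
  have h2 : ∀ j ∈ (Finset.univ : Finset ι), Measurable (fun y => FlowIA.Hj ch φ G i j (t, y)) :=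
    fun j _ => (FlowIA.Hj_meas h hG i j).comp measurable_prodMk_left
  rw [lintegral_finsetSum _ h2]
  exact Finset.sum_le_sum fun j _ => FlowIA.Hj_le h G i j t

end

end Pool.Agent.H68.ST
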