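import Pool.Agent.H6.ST.St

/-! # The image of a field under a map of `M` -/

set_option autoImplicit false

namespace Pool.Agent.H68.ST

open MeasureTheory Set Pool.Agent.H68.VD Pool.Agent.H68.GM Pool.Agent.H6.ST
open scoped ENNReal ContDiff

variable {n : ℕ} {M : Type} [TopologicalSpace M] {ι : Type}

/-- `Y` is the image of the field `X` under the map `f` of `M`. -/
def Img (ch : ι → OpenPartialHomeomorph M (Eu n)) (f : M → M) (X Y : ι → Eu n → Eu n) : Prop :=
  ∀ i j, ∀ y ∈ (ch i).target, f ((ch i).symm y) ∈ (ch j).source →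
    Y j (ch j (f ((ch i).symm y))) = fderiv ℝ (fun y => ch j (f ((ch i).symm y))) y (X i y)

end Pool.Agent.H68.ST
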