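import Pool.Agent.H6.ST.St

/-! # ST-N1: interpolation: the norm of `W^{s,1}`, `0 ≤ s < 1` -/

set_option autoImplicit false

namespace Pool.Agent.H68.ST

open MeasureTheory Set Pool.Agent.H68.VD Pool.Agent.H68.GM Pool.Agent.H6.ST
open scoped ENNReal ContDiff

noncomputable section

variable {n : ℕ}

/-- The difference quotient is bounded by the `L^1` norm. -/
private theorem in_D1 {v : Eu n → Eu n} (hv : Continuous v) (h : Eu n) :
    ∫⁻ x, ‖v (x + h) - v x‖ₑ ≤ 2 * ∫⁻ x, ‖v x‖ₑ := by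
  calc ∫⁻ x, ‖v (x + h) - v x‖ₑ ≤ ∫⁻ x, (‖v (x + h)‖ₑ + ‖v x‖ₑ) :=
        lintegral_mono fun x => enorm_sub_le
    _ = (∫⁻ x, ‖v (x + h)‖ₑ) + ∫⁻ x, ‖v x‖ₑ := lintegral_add_right _ hv.enorm.measurable
    _ = 2 * ∫⁻ x, ‖v x‖ₑ := by
      rw [lintegral_add_right_eq_self (fun x => ‖v x‖ₑ) h, two_mul]

/-- The difference quotient is bounded by the `L^1` norm of the derivative. -/
private theorem in_D2 {v : Eu n → Eu n} (hv : ContDiff ℝ ∞ v) (h : Eu n) :
    ∫⁻ x, ‖v (x + h) - v x‖ₑ ≤ ‖h‖ₑ * ∫⁻ x, ‖fderiv ℝ v x‖ₑ := by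
  have hd : Differentiable ℝ v := hv.differentiable (by simp)
  have hc : Continuous (fderiv ℝ v) := hv.continuous_fderiv (by simp)
  have h1 : ∀ x, ‖v (x + h) - v x‖ₑ ≤
      ∫⁻ t in Set.Ioc (0 : ℝ) 1, ‖fderiv ℝ v (x + t • h)‖ₑ * ‖h‖ₑ := by
    intro x
    have h2 : ∀ t : ℝ, HasDerivAt (fun t : ℝ => v (x + t • h)) (fderiv ℝ v (x + t • h) h) t := by
      intro t
      have h3 : HasDerivAt (fun t : ℝ => x + t • h) h t := by
        simpa using ((hasDerivAt_id t).smul_const h).const_add x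
      exact (hd (x + t • h)).hasFDerivAt.comp_hasDerivAt t h3
    have hcont : Continuous (fun t : ℝ => fderiv ℝ v (x + t • h) h) :=
      (hc.comp (continuous_const.add (continuous_id.smul continuous_const))).clm_apply
        continuous_const
    have h4 := intervalIntegral.integral_eq_sub_of_hasDerivAt (a := 0) (b := 1) (fun t _ => h2 t)
      (hcont.intervalIntegrable 0 1)
    simp only [one_smul, zero_smul, add_zero] at h4
    rw [← h4, intervalIntegral.integral_of_le zero_le_one]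
    refine (enorm_integral_le_lintegral_enorm _).trans (lintegral_mono fun t => ?_)
    exact ContinuousLinearMap.le_opENorm _ _
  refine (lintegral_mono h1).trans ?_
  rw [lintegral_lintegral_swap]
  · have h5 : ∀ t : ℝ, ∫⁻ x, ‖fderiv ℝ v (x + t • h)‖ₑ * ‖h‖ₑ =
        (∫⁻ x, ‖fderiv ℝ v x‖ₑ) * ‖h‖ₑ := by
      intro t
      rw [lintegral_mul_const _ (by fun_prop),
        lintegral_add_right_eq_self (fun x => ‖fderiv ℝ v x‖ₑ) (t • h)]
    simp only [h5]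
    rw [setLIntegral_const]
    simp [mul_comm]
  · refine Measurable.aemeasurable ?_
    refine Continuous.measurable ?_
    have h6 : Continuous (fun q : Eu n × ℝ => fderiv ℝ v (q.1 + q.2 • h)) :=
      hc.comp (continuous_fst.add (continuous_snd.smul continuous_const))
    exact ENNReal.continuous_mul_const (by simp) |>.comp h6.enorm

/-- The radial integral. -/
private theorem in_J (hn : 1 ≤ n) {s : ℝ} (hs0 : 0 < s) (hs1 : s < 1) :
    Integrable (fun x : Eu n => min 2 ‖x‖ * ‖x‖ ^ (-((n : ℝ) + s))) := by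
  have : Nonempty (Fin n) := ⟨⟨0, hn⟩⟩
  have : Nontrivial (Eu n) := inferInstance
  rw [integrable_fun_norm_addHaar volume (f := fun t : ℝ => min 2 t * t ^ (-((n : ℝ) + s)))]
  rw [finrank_euclideanSpace_fin]
  have hU : Set.Ioi (0 : ℝ) = Set.Ioc 0 1 ∪ Set.Ioi 1 := by
    rw [Set.Ioc_union_Ioi_eq_Ioi zero_le_one]
  rw [hU, integrableOn_union]
  have key : ∀ t : ℝ, 0 < t → t ^ (n - 1) • (min 2 t * t ^ (-((n : ℝ) + s))) =
      min 2 t * t ^ (-1 - s) := by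
    intro t ht
    have h1 : t ^ (n - 1) = t ^ ((n : ℝ) - 1) := by
      rw [← Real.rpow_natCast, Nat.cast_sub hn, Nat.cast_one]
    rw [smul_eq_mul, h1, mul_left_comm, ← Real.rpow_add ht]
    congr 2
    ring
  constructor
  · have h1 : IntegrableOn (fun t : ℝ => t ^ (-s)) (Set.Ioc 0 1) := by
      rw [← intervalIntegrable_iff_integrableOn_Ioc_of_le zero_le_one]
      exact intervalIntegral.intervalIntegrable_rpow' (by linarith)
    refine h1.congr_fun ?_ measurableSet_Ioc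
    intro t ht
    beta_reduce
    rw [key t ht.1, min_eq_right (by linarith [ht.2])]
    rw [show (-s) = 1 + (-1 - s) by ring, Real.rpow_add ht.1, Real.rpow_one]
  · have h1 : IntegrableOn (fun t : ℝ => 2 * t ^ (-1 - s)) (Set.Ioi 1) :=
      (integrableOn_Ioi_rpow_of_lt (by linarith) zero_lt_one).const_mul 2
    refine Integrable.mono' h1 ?_ ?_
    · refine Measurable.aestronglyMeasurable ?_
      fun_prop
    · refine (ae_restrict_iff' measurableSet_Ioi).2 (Filter.Eventually.of_forall fun t ht => ?_)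
      have ht0 : (0 : ℝ) < t := lt_trans zero_lt_one ht
      rw [key t ht0, Real.norm_eq_abs, abs_of_nonneg (by positivity)]
      exact mul_le_mul_of_nonneg_right (min_le_left _ _) (by positivity)

/-- The seminorm. -/
private theorem in_gag (hn : 1 ≤ n) {s : ℝ} (hs0 : 0 < s) (hs1 : s < 1) {v : Eu n → Eu n}
    (hv : ContDiff ℝ ∞ v) (hc : HasCompactSupport v) :
    gagE 0 s 1 v ≤ ENNReal.ofReal (∫ x : Eu n, min 2 ‖x‖ * ‖x‖ ^ (-((n : ℝ) + s))) *
      ((∫⁻ x, ‖v x‖ₑ) ^ (1 - s) * (∫⁻ x, (‖v x‖ₑ + ‖fderiv ℝ v x‖ₑ)) ^ s) := by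
  have hcd : Continuous (fderiv ℝ v) := hv.continuous_fderiv (by simp)
  have hcv : Continuous v := hv.continuous
  set a := ∫⁻ x, ‖v x‖ₑ with ha
  set b := ∫⁻ x, (‖v x‖ₑ + ‖fderiv ℝ v x‖ₑ) with hb
  have hab : a ≤ b := lintegral_mono fun x => le_self_add
  have hD : ∀ h, ∫⁻ x, ‖v (x + h) - v x‖ₑ ≤ min (2 * a) (‖h‖ₑ * b) := by
    intro h
    refine le_min (in_D1 hcv h) ((in_D2 hv h).trans (mul_le_mul' le_rfl ?_))
    exact lintegral_mono fun x => le_add_self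
  have hg : gagE 0 s 1 v ≤ ∫⁻ h : Eu n, min (2 * a) (‖h‖ₑ * b) / ‖h‖ₑ ^ ((n : ℝ) + s) := by
    calc gagE 0 s 1 v = ∫⁻ x : Eu n, ∫⁻ h in Metric.ball (0 : Eu n) 1,
          ‖v (x + h) - v x‖ₑ / ‖h‖ₑ ^ ((n : ℝ) + s) := by
          unfold gagE
          refine lintegral_congr fun x => lintegral_congr fun h => ?_
          rw [dnorm, norm_iteratedFDeriv_zero, ofReal_norm, ENNReal.rpow_one, mul_one]
      _ = ∫⁻ h in Metric.ball (0 : Eu n) 1, ∫⁻ x : Eu n,
          ‖v (x + h) - v x‖ₑ / ‖h‖ₑ ^ ((n : ℝ) + s) := by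
          refine lintegral_lintegral_swap (Measurable.aemeasurable ?_)
          have h6 : Continuous (fun q : Eu n × Eu n => v (q.1 + q.2) - v q.1) := by fun_prop
          exact (h6.enorm.measurable).div ((continuous_snd.enorm.measurable).pow_const _)
      _ ≤ ∫⁻ h in Metric.ball (0 : Eu n) 1, min (2 * a) (‖h‖ₑ * b) / ‖h‖ₑ ^ ((n : ℝ) + s) := by
          refine lintegral_mono fun h => ?_
          beta_reduce
          simp only [div_eq_mul_inv]
          rw [lintegral_mul_const _ (by fun_prop)]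
          gcongr
          exact hD h
      _ ≤ _ := setLIntegral_le_lintegral _ _
  refine hg.trans ?_
  by_cases ha0 : a = 0
  · rw [ha0]
    simp
  have haT : a ≠ ⊤ := (hcv.integrable_of_hasCompactSupport hc).2.ne
  have hbT : b ≠ ⊤ := by
    rw [hb, lintegral_add_left hcv.enorm.measurable]
    exact ENNReal.add_ne_top.2 ⟨haT, (hcd.integrable_of_hasCompactSupport (hc.fderiv ℝ)).2.ne⟩
  have hb0 : b ≠ 0 := fun h => ha0 (le_antisymm (h ▸ hab) zero_le)
  set α := a.toReal with hα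
  set β := b.toReal with hβ
  have hα0 : 0 < α := ENNReal.toReal_pos ha0 haT
  have hβ0 : 0 < β := ENNReal.toReal_pos hb0 hbT
  have haα : a = ENNReal.ofReal α := (ENNReal.ofReal_toReal haT).symm
  have hbβ : b = ENNReal.ofReal β := (ENNReal.ofReal_toReal hbT).symm
  set ρ := α / β with hρ
  have hρ0 : 0 < ρ := div_pos hα0 hβ0
  set g : Eu n → ℝ := fun x => min 2 ‖x‖ * ‖x‖ ^ (-((n : ℝ) + s)) with hgdef
  have hgi : Integrable g := in_J hn hs0 hs1
  set c : ℝ := α * ρ ^ (-((n : ℝ) + s)) with hcdef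
  have hc0 : 0 < c := mul_pos hα0 (Real.rpow_pos_of_pos hρ0 _)
  have hpt : ∀ h : Eu n, min (2 * a) (‖h‖ₑ * b) / ‖h‖ₑ ^ ((n : ℝ) + s) ≤
      ENNReal.ofReal (c * g (ρ⁻¹ • h)) := by
    intro h
    by_cases hh : h = 0
    · rw [hh]
      simp
    have hh0 : 0 < ‖h‖ := norm_pos_iff.2 hh
    have h1 : c * g (ρ⁻¹ • h) = min (2 * α) (‖h‖ * β) * ‖h‖ ^ (-((n : ℝ) + s)) := by
      have h2 : ‖ρ⁻¹ • h‖ = ρ⁻¹ * ‖h‖ := by
        rw [norm_smul, Real.norm_eq_abs, abs_of_pos (inv_pos.2 hρ0)]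
      have h3 : (ρ⁻¹ * ‖h‖) ^ (-((n : ℝ) + s)) = ρ ^ ((n : ℝ) + s) * ‖h‖ ^ (-((n : ℝ) + s)) := by
        rw [Real.mul_rpow (inv_pos.2 hρ0).le hh0.le, Real.inv_rpow hρ0.le, Real.rpow_neg hρ0.le,
          inv_inv]
      have h4 : α * min 2 (ρ⁻¹ * ‖h‖) = min (2 * α) (‖h‖ * β) := by
        rw [mul_min_of_nonneg _ _ hα0.le]
        congr 1
        · ring
        · rw [hρ]
          field_simp
      have h5 : ρ ^ (-((n : ℝ) + s)) * ρ ^ ((n : ℝ) + s) = 1 := by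
        rw [← Real.rpow_add hρ0, neg_add_cancel, Real.rpow_zero]
      rw [hcdef, hgdef]
      beta_reduce
      rw [h2, h3]
      calc α * ρ ^ (-((n : ℝ) + s)) *
            (min 2 (ρ⁻¹ * ‖h‖) * (ρ ^ ((n : ℝ) + s) * ‖h‖ ^ (-((n : ℝ) + s))))
          = (α * min 2 (ρ⁻¹ * ‖h‖)) * (ρ ^ (-((n : ℝ) + s)) * ρ ^ ((n : ℝ) + s)) *
            ‖h‖ ^ (-((n : ℝ) + s)) := by ring
        _ = _ := by rw [h4, h5, mul_one]
    rw [h1, ENNReal.ofReal_mul (by positivity), ENNReal.ofReal_mono.map_min,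
      ENNReal.ofReal_mul (by norm_num), ENNReal.ofReal_mul hh0.le, ← haα, ← hbβ,
      ← ENNReal.ofReal_rpow_of_pos hh0, ENNReal.rpow_neg, ofReal_norm, div_eq_mul_inv]
    simp
  refine (lintegral_mono hpt).trans ?_
  have hint : Integrable (fun h : Eu n => c * g (ρ⁻¹ • h)) :=
    (hgi.comp_smul (inv_ne_zero hρ0.ne')).const_mul c
  rw [← ofReal_integral_eq_lintegral_ofReal hint (Filter.Eventually.of_forall fun h => by
    have : 0 ≤ g (ρ⁻¹ • h) := by
      rw [hgdef]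
      positivity
    exact mul_nonneg hc0.le this)]
  rw [integral_const_mul, Measure.integral_comp_inv_smul_of_nonneg volume g hρ0.le,
    finrank_euclideanSpace_fin, smul_eq_mul, haα, hbβ, ENNReal.ofReal_rpow_of_pos hα0,
    ENNReal.ofReal_rpow_of_pos hβ0, ← ENNReal.ofReal_mul (by positivity),
    ← ENNReal.ofReal_mul (by positivity)]
  refine le_of_eq ?_
  congr 1
  have h7 : ρ ^ (-((n : ℝ) + s)) * ρ ^ n = α ^ (-s) * β ^ s := by
    rw [← Real.rpow_natCast, ← Real.rpow_add hρ0, show -((n : ℝ) + s) + (n : ℝ) = -s by ring, hρ,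
      Real.div_rpow hα0.le hβ0.le, Real.rpow_neg hβ0.le, div_inv_eq_mul]
  have h8 : α ^ (1 - s) = α * α ^ (-s) := by
    rw [sub_eq_add_neg, Real.rpow_add hα0, Real.rpow_one]
  rw [hcdef, h8]
  calc α * ρ ^ (-((n : ℝ) + s)) * (ρ ^ n * ∫ x, g x)
      = α * (ρ ^ (-((n : ℝ) + s)) * ρ ^ n) * ∫ x, g x := by ring
    _ = _ := by
      rw [h7]
      ring

theorem interp (hn : 1 ≤ n) {s : ℝ} (hs0 : 0 ≤ s) (hs1 : s < 1) : ∃ C : ℝ, 0 ≤ C ∧
    ∀ v : Eu n → Eu n, ContDiff ℝ ∞ v → HasCompactSupport v →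
    slobE s 1 v ≤ ENNReal.ofReal C *
      ((∫⁻ x, ‖v x‖ₑ) ^ (1 - s) * (∫⁻ x, (‖v x‖ₑ + ‖fderiv ℝ v x‖ₑ)) ^ s) := by
  set J : ℝ := ∫ x : Eu n, min 2 ‖x‖ * ‖x‖ ^ (-((n : ℝ) + s)) with hJ
  have hJ0 : 0 ≤ J := integral_nonneg fun x => by positivity
  refine ⟨1 + J, by linarith, ?_⟩
  intro v hv hc
  have hfl : ⌊s⌋₊ = 0 := Nat.floor_eq_zero.2 hs1
  have h1 : (∫⁻ x, ‖v x‖ₑ) ≤
      (∫⁻ x, ‖v x‖ₑ) ^ (1 - s) * (∫⁻ x, (‖v x‖ₑ + ‖fderiv ℝ v x‖ₑ)) ^ s := by
    calc (∫⁻ x, ‖v x‖ₑ) = (∫⁻ x, ‖v x‖ₑ) ^ (1 - s) * (∫⁻ x, ‖v x‖ₑ) ^ s := by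
          rw [← ENNReal.rpow_add_of_nonneg _ _ (by linarith) hs0, sub_add_cancel,
            ENNReal.rpow_one]
      _ ≤ _ := by
          gcongr
          exact le_self_add
  unfold slobE
  rw [hfl, ENNReal.ofReal_add zero_le_one hJ0, ENNReal.ofReal_one, add_mul, one_mul]
  simp only [zero_add, Finset.range_one, Finset.sum_singleton, Nat.cast_zero, sub_zero]
  refine add_le_add ?_ ?_
  · refine le_trans (le_of_eq ?_) h1
    refine lintegral_congr fun x => ?_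
    rw [dnorm, norm_iteratedFDeriv_zero, ofReal_norm, ENNReal.rpow_one]
  · split_ifs with h
    · exact in_gag hn h hs1 hv hc
    · exact zero_le

end

end Pool.Agent.H68.ST
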