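import Pool.Agent.H6.ST.St

/-! # Functions in the charts, evaluated at a point of `M`, and auxiliary definitions -/

set_option autoImplicit false

namespace Pool.Agent.H68.ST

open MeasureTheory Set Pool.Agent.H68.VD Pool.Agent.H68.GM Pool.Agent.H6.ST
open scoped ENNReal ContDiff

noncomputable section

section

variable {n : ℕ} {M : Type} [TopologicalSpace M] {ι : Type}

open Classical in
/-- The sum of the functions `G i` of the charts at the point `x`. -/
def evM [Fintype ι] (ch : ι → OpenPartialHomeomorph M (Eu n)) (G : ι → Eu n → ℝ≥0∞) (x : M) : ℝ≥0∞ :=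
  ∑ i, if x ∈ (ch i).source then G i (ch i x) else 0

/-- The field `X` vanishes on the set `O`. -/
def VOn (ch : ι → OpenPartialHomeomorph M (Eu n)) (X : ι → Eu n → Eu n) (O : Set M) : Prop :=
  ∀ i, ∀ y ∈ (ch i).target, (ch i).symm y ∈ O → X i y = 0

end

/-- The projection onto the coordinates in `S`. -/
def pj (S : Finset (Fin 4)) (x : Eu 4) : Eu 4 := ∑ k ∈ S, x k • ev k

/-- The homotopy which contracts the coordinates in `S`. -/
def rh (S : Finset (Fin 4)) (s : ℝ) (x : Eu 4) : Eu 4 := s • pj S x + (x - pj S x)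

/-- The field `X` along the homotopy: the components in `S` plus `s` times the other ones. -/
def zs (S : Finset (Fin 4)) (X : Eu 4 → Eu 4) (s : ℝ) (x : Eu 4) : Eu 4 :=
  pj S (X (rh S s x)) + s • (X (rh S s x) - pj S (X (rh S s x)))

/-- The radial potential in the coordinates in `S`. -/
def rpot (S : Finset (Fin 4)) (X : Eu 4 → Eu 4) (x : Eu 4) : Eu 4 →L[ℝ] Eu 4 :=
  ∫ s in (0 : ℝ)..1, ((innerSL ℝ (pj S x)).smulRight (zs S X s x) -
    (innerSL ℝ (zs S X s x)).smulRight (pj S x))

/-- The integral in the direction `k`. -/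
def slI {n : ℕ} (k : Fin n) (h : Eu n → ℝ) (x : Eu n) : ℝ := ∫ t : ℝ, h (x + (t - x k) • ev k)

/-- The iterated integral in the first `m` directions. -/
def slM {n : ℕ} : ℕ → (Eu n → ℝ) → (Eu n → ℝ)
  | 0, h => h
  | m + 1, h => if hm : m < n then slM m (slI ⟨m, hm⟩ h) else h

end

end Pool.Agent.H68.ST
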