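import Pool.Agent.H6.ST.St

/-! # ST-T1: the Poincaré inequality in a slab -/

set_option autoImplicit false

namespace Pool.Agent.H68.ST

open MeasureTheory Set Pool.Agent.H68.VD Pool.Agent.H68.GM Pool.Agent.H6.ST
open scoped ENNReal ContDiff

noncomputable section

variable {n : ℕ}

/-- The pointwise bound by an integral of the derivative along a segment which leaves the slab. -/
theorem PoincA.pt (k : Fin n) {u : Eu n → Eu n} (hu : ContDiff ℝ ∞ u) {a b : ℝ} (hab : a ≤ b)
    (h : ∀ x, u x ≠ 0 → a < x k ∧ x k < b) (x : Eu n) :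
    ‖u x‖ₑ ≤ ∫⁻ t in Ioc (0 : ℝ) (b - a), ‖fderiv ℝ u (x + t • EuclideanSpace.single k (1 : ℝ))‖ₑ := by
  rcases eq_or_ne (u x) 0 with h0 | h0
  · rw [h0, enorm_zero]
    exact zero_le
  obtain ⟨e, he⟩ : ∃ e : Eu n, e = EuclideanSpace.single k (1 : ℝ) := ⟨_, rfl⟩
  rw [← he]
  have hek : e k = 1 := by rw [he]; simp
  have hen : ‖e‖ₑ = 1 := by
    rw [← ofReal_norm, he]
    simp
  have h1 : u (x + (b - a) • e) = 0 := by
    by_contra h2
    have h3 := (h _ h2).2
    have h4 := (h x h0).1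
    simp only [PiLp.add_apply, PiLp.smul_apply, smul_eq_mul, hek, mul_one] at h3
    linarith
  have hud : Differentiable ℝ u := hu.differentiable (by simp)
  have hfc : Continuous (fderiv ℝ u) := hu.continuous_fderiv (by simp)
  have h2 : ∀ t : ℝ, HasDerivAt (fun t : ℝ => u (x + t • e)) (fderiv ℝ u (x + t • e) e) t := by
    intro t
    have h3 : HasDerivAt (fun t : ℝ => x + t • e) e t := by
      have h4 := ((hasDerivAt_id t).smul_const e).const_add x
      simpa using h4
    exact (hud (x + t • e)).hasFDerivAt.comp_hasDerivAt t h3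
  have hc : Continuous fun t : ℝ => fderiv ℝ u (x + t • e) e := by
    refine Continuous.clm_apply (hfc.comp ?_) continuous_const
    fun_prop
  have h3 : ∫ t in (0 : ℝ)..(b - a), fderiv ℝ u (x + t • e) e = - u x := by
    rw [intervalIntegral.integral_eq_sub_of_hasDerivAt (fun t _ => h2 t)
      (hc.intervalIntegrable _ _), h1, zero_smul, add_zero, zero_sub]
  have h4 : ‖u x‖ₑ = ‖∫ t in Ioc (0 : ℝ) (b - a), fderiv ℝ u (x + t • e) e‖ₑ := by
    rw [← intervalIntegral.integral_of_le (by linarith), h3, enorm_neg]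
  rw [h4]
  refine (enorm_integral_le_lintegral_enorm _).trans ?_
  refine lintegral_mono fun t => ?_
  refine (ContinuousLinearMap.le_opENorm _ _).trans ?_
  rw [hen, mul_one]

theorem poinc (k : Fin n) {u : Eu n → Eu n} (hu : ContDiff ℝ ∞ u) {a b : ℝ} (hab : a ≤ b)
    (h : ∀ x, u x ≠ 0 → a < x k ∧ x k < b) :
    ∫⁻ x, ‖u x‖ₑ ≤ ENNReal.ofReal (b - a) * ∫⁻ x, ‖fderiv ℝ u x‖ₑ := by
  have hfc : Continuous (fderiv ℝ u) := hu.continuous_fderiv (by simp)
  calc ∫⁻ x, ‖u x‖ₑ
      ≤ ∫⁻ x, ∫⁻ t in Ioc (0 : ℝ) (b - a),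
          ‖fderiv ℝ u (x + t • EuclideanSpace.single k (1 : ℝ))‖ₑ :=
        lintegral_mono fun x => PoincA.pt k hu hab h x
    _ = ∫⁻ t in Ioc (0 : ℝ) (b - a), ∫⁻ x,
          ‖fderiv ℝ u (x + t • EuclideanSpace.single k (1 : ℝ))‖ₑ := by
        refine lintegral_lintegral_swap ?_
        refine Continuous.aemeasurable ?_
        refine Continuous.enorm (hfc.comp ?_)
        fun_prop
    _ = ∫⁻ t in Ioc (0 : ℝ) (b - a), ∫⁻ x, ‖fderiv ℝ u x‖ₑ := by
        refine lintegral_congr fun t => ?_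
        exact lintegral_add_right_eq_self (fun x => ‖fderiv ℝ u x‖ₑ) _
    _ = ENNReal.ofReal (b - a) * ∫⁻ x, ‖fderiv ℝ u x‖ₑ := by
        rw [lintegral_const, Measure.restrict_apply MeasurableSet.univ, univ_inter,
          Real.volume_Ioc, sub_zero, mul_comm]

end

end Pool.Agent.H68.ST
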