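import Pool.Agent.H68.ST.NDef
import Pool.Agent.H68.VD.Stream

/-! # ST-D3: the radial potential in two coordinates -/

set_option autoImplicit false

namespace Pool.Agent.H68.ST

open MeasureTheory Set Pool.Agent.H68.VD Pool.Agent.H68.GM Pool.Agent.H6.ST
open scoped ENNReal ContDiff

noncomputable section

namespace RadPA

theorem pj_apply (S : Finset (Fin 4)) (x : Eu 4) (i : Fin 4) :
    pj S x i = if i ∈ S then x i else 0 := by
  unfold pj
  rw [WithLp.ofLp_sum, Finset.sum_apply]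
  simp [HsA.ev_apply]

/-- The projection as a linear map. -/
def pjL (S : Finset (Fin 4)) : Eu 4 →L[ℝ] Eu 4 :=
  ∑ k ∈ S, (EuclideanSpace.proj k : Eu 4 →L[ℝ] ℝ).smulRight (ev k)

theorem pjL_apply (S : Finset (Fin 4)) (x : Eu 4) : pjL S x = pj S x := by
  simp [pjL, pj]

/-- The homotopy as a linear map. -/
def rhL (S : Finset (Fin 4)) (s : ℝ) : Eu 4 →L[ℝ] Eu 4 :=
  s • pjL S + (ContinuousLinearMap.id ℝ (Eu 4) - pjL S)

theorem rhL_apply (S : Finset (Fin 4)) (s : ℝ) (x : Eu 4) : rhL S s x = rh S s x := by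
  simp [rhL, rh, pjL_apply]

theorem rh_apply (S : Finset (Fin 4)) (s : ℝ) (x : Eu 4) (i : Fin 4) :
    rh S s x i = if i ∈ S then s * x i else x i := by
  simp only [rh, PiLp.add_apply, PiLp.smul_apply, PiLp.sub_apply, pj_apply, smul_eq_mul]
  split_ifs <;> ring

/-- The weights of the field. -/
def lsL (S : Finset (Fin 4)) (s : ℝ) : Eu 4 →L[ℝ] Eu 4 :=
  pjL S + s • (ContinuousLinearMap.id ℝ (Eu 4) - pjL S)

theorem lsL_apply (S : Finset (Fin 4)) (s : ℝ) (v : Eu 4) :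
    lsL S s v = pj S v + s • (v - pj S v) := by
  simp [lsL, pjL_apply]

theorem lsL_coord (S : Finset (Fin 4)) (s : ℝ) (v : Eu 4) (i : Fin 4) :
    lsL S s v i = if i ∈ S then v i else s * v i := by
  simp only [lsL_apply, PiLp.add_apply, PiLp.smul_apply, PiLp.sub_apply, pj_apply, smul_eq_mul]
  split_ifs <;> ring

theorem zs_eq (S : Finset (Fin 4)) (X : Eu 4 → Eu 4) (s : ℝ) (x : Eu 4) :
    zs S X s x = lsL S s (X (rh S s x)) := by
  rw [lsL_apply]
  rfl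

/-- The integrand of the radial potential. -/
def Bi (S : Finset (Fin 4)) (X : Eu 4 → Eu 4) (q : Eu 4 × ℝ) : Eu 4 →L[ℝ] Eu 4 :=
  (innerSL ℝ (pj S q.1)).smulRight (zs S X q.2 q.1) -
    (innerSL ℝ (zs S X q.2 q.1)).smulRight (pj S q.1)

theorem Bi_apply (S : Finset (Fin 4)) (X : Eu 4 → Eu 4) (x : Eu 4) (s : ℝ) (a : Eu 4) :
    Bi S X (x, s) a = inner ℝ (pj S x) a • zs S X s x - inner ℝ (zs S X s x) a • pj S x := rfl

theorem rh_smooth (S : Finset (Fin 4)) : ContDiff ℝ ∞ (fun q : Eu 4 × ℝ => rh S q.2 q.1) := by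
  have h1 : (fun q : Eu 4 × ℝ => rh S q.2 q.1) =
      fun q => q.2 • pjL S q.1 + (q.1 - pjL S q.1) := by
    funext q
    rw [pjL_apply]
    rfl
  rw [h1]
  fun_prop

theorem rh_cont (S : Finset (Fin 4)) : Continuous (fun q : Eu 4 × ℝ => rh S q.2 q.1) :=
  (rh_smooth S).continuous

theorem smul_right_smooth {E : Type} [NormedAddCommGroup E] [NormedSpace ℝ E] {f g : E → Eu 4}
    (hf : ContDiff ℝ ∞ f) (hg : ContDiff ℝ ∞ g) :
    ContDiff ℝ ∞ (fun q => (innerSL ℝ (f q)).smulRight (g q)) := by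
  have h1 : ContDiff ℝ ∞ (fun q => innerSL ℝ (f q)) :=
    (innerSL ℝ : Eu 4 →L[ℝ] Eu 4 →L[ℝ] ℝ).contDiff.comp hf
  exact h1.smulRight hg

theorem Bi_smooth (S : Finset (Fin 4)) {Y : Eu 4 → Eu 4} (hY : ContDiff ℝ ∞ Y) :
    ContDiff ℝ ∞ (Bi S Y) := by
  have h1 : ContDiff ℝ ∞ (fun q : Eu 4 × ℝ => pj S q.1) := by
    have h : (fun q : Eu 4 × ℝ => pj S q.1) = fun q => pjL S q.1 := by
      funext q
      rw [pjL_apply]
    rw [h]
    fun_prop
  have h2 : ContDiff ℝ ∞ (fun q : Eu 4 × ℝ => zs S Y q.2 q.1) := by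
    have h3 : ContDiff ℝ ∞ (fun q : Eu 4 × ℝ => Y (rh S q.2 q.1)) := hY.comp (rh_smooth S)
    have h : (fun q : Eu 4 × ℝ => zs S Y q.2 q.1) = fun q =>
        pjL S (Y (rh S q.2 q.1)) + q.2 • (Y (rh S q.2 q.1) - pjL S (Y (rh S q.2 q.1))) := by
      funext q
      simp only [pjL_apply]
      rfl
    rw [h]
    have h4 : ContDiff ℝ ∞ (fun q : Eu 4 × ℝ => pjL S (Y (rh S q.2 q.1))) :=
      (pjL S).contDiff.comp h3
    exact h4.add (contDiff_snd.smul (h3.sub h4))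
  exact (smul_right_smooth h1 h2).sub (smul_right_smooth h2 h1)

open scoped Manifold in
/-- Smooth fields near a compact set can be replaced by globally smooth ones. -/
theorem extend_smooth {K N : Set (Eu 4)} (hK : IsCompact K) (hN : IsOpen N) (hKN : K ⊆ N)
    {f : Eu 4 → Eu 4} (hf : ContDiffOn ℝ ∞ f N) :
    ∃ (N' : Set (Eu 4)) (F : Eu 4 → Eu 4), IsOpen N' ∧ K ⊆ N' ∧ N' ⊆ N ∧ ContDiff ℝ ∞ F ∧
      ∀ p ∈ N', F p = f p := by
  obtain ⟨T, hT, hKT, hTN⟩ := exists_compact_between hK hN hKN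
  obtain ⟨χ, h1, h0, -⟩ := exists_contMDiffMap_one_nhds_of_subset_interior
    (n := (⊤ : ℕ∞)) (modelWithCornersSelf ℝ (Eu 4)) hK.isClosed hKT
  obtain ⟨N₀, hN₀, hKN₀, hN₀1⟩ := eventually_nhdsSet_iff_exists.mp h1
  have hχ : ContDiff ℝ ∞ χ := χ.contMDiff.contDiff
  refine ⟨N₀ ∩ N, fun p => χ p • f p, hN₀.inter hN, subset_inter hKN₀ hKN, inter_subset_right,
    ?_, fun p hp => ?_⟩
  · refine contDiff_iff_contDiffAt.mpr fun q => ?_
    by_cases hq : q ∈ N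
    · exact hχ.contDiffAt.smul (hf.contDiffAt (hN.mem_nhds hq))
    · have hqT : q ∈ Tᶜ := fun h => hq (hTN h)
      have : (fun p => χ p • f p) =ᶠ[nhds q] fun _ => 0 := by
        filter_upwards [hT.isClosed.isOpen_compl.mem_nhds hqT] with q' hq'
        rw [h0 q' hq', zero_smul]
      exact contDiffAt_const.congr_of_eventuallyEq this
  · change χ p • f p = f p
    rw [hN₀1 p hp.1, one_smul]

/-- Near a point of `U` the field can be replaced by a globally smooth one. -/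
theorem loc {S : Finset (Fin 4)} {U : Set (Eu 4)} {X : Eu 4 → Eu 4} (hU : IsOpen U)
    (hst : ∀ x ∈ U, ∀ s ∈ Set.Icc (0 : ℝ) 1, rh S s x ∈ U) (hX : ContDiffOn ℝ ∞ X U)
    (x₀ : Eu 4) (hx₀ : x₀ ∈ U) : ∃ (N : Set (Eu 4)) (Y : Eu 4 → Eu 4), IsOpen N ∧ N ⊆ U ∧
      ContDiff ℝ ∞ Y ∧ (∀ p ∈ N, Y p = X p) ∧
      (∀ᶠ x in nhds x₀, ∀ s ∈ Set.Icc (0 : ℝ) 1, rh S s x ∈ N) ∧
      rpot S X =ᶠ[nhds x₀] rpot S Y := by
  have hK : IsCompact ((fun s : ℝ => rh S s x₀) '' Set.Icc (0 : ℝ) 1) :=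
    isCompact_Icc.image ((rh_cont S).comp (continuous_const.prodMk continuous_id))
  have hKU : (fun s : ℝ => rh S s x₀) '' Set.Icc (0 : ℝ) 1 ⊆ U := by
    rintro _ ⟨s, hs, rfl⟩
    exact hst x₀ hx₀ s hs
  obtain ⟨N, Y, hN, hKN, hNU, hY, hYX⟩ := extend_smooth hK hU hKU hX
  have hev : ∀ᶠ x in nhds x₀, ∀ s ∈ Set.Icc (0 : ℝ) 1, rh S s x ∈ N := by
    refine isCompact_Icc.eventually_forall_of_forall_eventually fun s hs => ?_
    exact (rh_cont S).continuousAt.eventually (hN.mem_nhds (hKN ⟨s, hs, rfl⟩))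
  refine ⟨N, Y, hN, hNU, hY, hYX, hev, ?_⟩
  filter_upwards [hev] with x hx
  unfold rpot
  refine intervalIntegral.integral_congr fun s hs => ?_
  rw [Set.uIcc_of_le zero_le_one] at hs
  have h1 : zs S X s x = zs S Y s x := by
    rw [zs_eq, zs_eq, hYX _ (hx s hs)]
  simp only [h1]

theorem sum_ev (v : Eu 4) : ∑ j, v j • (ev j : Eu 4) = v := by
  ext i
  rw [WithLp.ofLp_sum, Finset.sum_apply]
  simp [HsA.ev_apply]

theorem inner_ev (v : Eu 4) (j : Fin 4) : inner ℝ v (ev j) = v j := by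
  rw [PiLp.inner_apply]
  simp [HsA.ev_apply]

/-- The trace. -/
def trL : (Eu 4 →L[ℝ] (Eu 4 →L[ℝ] Eu 4)) →L[ℝ] Eu 4 :=
  ∑ j : Fin 4, (ContinuousLinearMap.apply ℝ (Eu 4) (ev j : Eu 4)).comp
    (ContinuousLinearMap.apply ℝ (Eu 4 →L[ℝ] Eu 4) (ev j : Eu 4))

theorem trL_apply (T : Eu 4 →L[ℝ] (Eu 4 →L[ℝ] Eu 4)) : trL T = ∑ j, T (ev j) (ev j) := by
  simp [trL]

theorem lin_int {F : Type} [NormedAddCommGroup F] [NormedSpace ℝ F] [CompleteSpace F]
    (G : Eu 4 × ℝ → F) (hG : ContDiff ℝ ∞ G) (x : Eu 4) (L : (Eu 4 →L[ℝ] F) →L[ℝ] Eu 4) :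
    Continuous (fun s : ℝ => L ((fderiv ℝ G (x, s)).comp (ContinuousLinearMap.inl ℝ (Eu 4) ℝ))) ∧
    L (fderiv ℝ (fun y => ∫ s in (0 : ℝ)..1, G (y, s)) x) =
      ∫ s in (0 : ℝ)..1, L ((fderiv ℝ G (x, s)).comp (ContinuousLinearMap.inl ℝ (Eu 4) ℝ)) := by
  have hc : Continuous (fun s : ℝ => (fderiv ℝ G (x, s)).comp
      (ContinuousLinearMap.inl ℝ (Eu 4) ℝ)) :=
    ((hG.continuous_fderiv (by simp)).comp (continuous_const.prodMk continuous_id)).clm_comp
      continuous_const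
  refine ⟨L.continuous.comp hc, ?_⟩
  rw [(StreamA.param_fderiv G hG x).fderiv]
  have hint : IntervalIntegrable (fun s : ℝ => (fderiv ℝ G (x, s)).comp
      (ContinuousLinearMap.inl ℝ (Eu 4) ℝ)) volume 0 1 := hc.intervalIntegrable _ _
  exact (L.intervalIntegral_comp_comm hint).symm

/-- The derivative of the integrand. -/
theorem Bi_deriv (S : Finset (Fin 4)) {Y : Eu 4 → Eu 4} (hY : ContDiff ℝ ∞ Y) (x : Eu 4) (s : ℝ)
    (j : Fin 4) (h : Eu 4) : fderiv ℝ (Bi S Y) (x, s) (h, 0) (ev j) =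
      pj S x j • lsL S s (fderiv ℝ Y (rh S s x) (rhL S s h)) + pj S h j • zs S Y s x -
      (zs S Y s x j • pj S h + lsL S s (fderiv ℝ Y (rh S s x) (rhL S s h)) j • pj S x) := by
  have hYd : Differentiable ℝ Y := hY.differentiable (by simp)
  have hBd : Differentiable ℝ (Bi S Y) := (Bi_smooth S hY).differentiable (by simp)
  have h1 : HasFDerivAt (fun y : Eu 4 => Bi S Y (y, s) (ev j))
      ((ContinuousLinearMap.apply ℝ (Eu 4) (ev j : Eu 4)).comp
        ((fderiv ℝ (Bi S Y) (x, s)).comp (ContinuousLinearMap.inl ℝ (Eu 4) ℝ))) x := by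
    have h2 : HasFDerivAt (fun y : Eu 4 => (y, s)) (ContinuousLinearMap.inl ℝ (Eu 4) ℝ) x :=
      (hasFDerivAt_id x).prodMk (hasFDerivAt_const s x)
    exact (ContinuousLinearMap.apply ℝ (Eu 4) (ev j : Eu 4)).hasFDerivAt.comp x
      ((hBd (x, s)).hasFDerivAt.comp x h2)
  let prj : Eu 4 →L[ℝ] ℝ := EuclideanSpace.proj j
  have hZ : HasFDerivAt (fun y : Eu 4 => lsL S s (Y (rhL S s y)))
      ((lsL S s).comp ((fderiv ℝ Y (rhL S s x)).comp (rhL S s))) x :=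
    (lsL S s).hasFDerivAt.comp x ((hYd _).hasFDerivAt.comp x (rhL S s).hasFDerivAt)
  have ha : HasFDerivAt (fun y : Eu 4 => prj (pjL S y)) (prj.comp (pjL S)) x :=
    prj.hasFDerivAt.comp x (pjL S).hasFDerivAt
  have hb : HasFDerivAt (fun y : Eu 4 => prj (lsL S s (Y (rhL S s y))))
      (prj.comp ((lsL S s).comp ((fderiv ℝ Y (rhL S s x)).comp (rhL S s)))) x :=
    prj.hasFDerivAt.comp x hZ
  have h3 := (ha.smul hZ).sub (hb.smul (pjL S).hasFDerivAt)
  have h4 : (fun y : Eu 4 => Bi S Y (y, s) (ev j)) = fun y =>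
      prj (pjL S y) • lsL S s (Y (rhL S s y)) - prj (lsL S s (Y (rhL S s y))) • pjL S y := by
    funext y
    rw [Bi_apply, inner_ev, inner_ev, zs_eq, pjL_apply, rhL_apply]
    rfl
  rw [h4] at h1
  have h5 := congrArg (fun T : Eu 4 →L[ℝ] Eu 4 => T h) (h1.unique h3)
  have h6 : fderiv ℝ (Bi S Y) (x, s) (h, 0) (ev j) =
      prj (pjL S x) • lsL S s (fderiv ℝ Y (rhL S s x) (rhL S s h)) +
        prj (pjL S h) • lsL S s (Y (rhL S s x)) -
      (prj (lsL S s (Y (rhL S s x))) • pjL S h +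
        prj (lsL S s (fderiv ℝ Y (rhL S s x) (rhL S s h))) • pjL S x) := h5
  rw [h6, pjL_apply, pjL_apply, rhL_apply S s x, ← zs_eq]
  rfl

theorem tr_Bi (S : Finset (Fin 4)) (hS : S.card = 2) {Y : Eu 4 → Eu 4} (hY : ContDiff ℝ ∞ Y)
    (x : Eu 4) (s : ℝ) (hd : divg Y (rh S s x) = 0) :
    trL ((fderiv ℝ (Bi S Y) (x, s)).comp (ContinuousLinearMap.inl ℝ (Eu 4) ℝ)) =
      (s • pjL S (fderiv ℝ Y (rh S s x) (pj S x)) + (1 : ℝ) • pjL S (Y (rh S s x))) +
      (s ^ 2 • (fderiv ℝ Y (rh S s x) (pj S x) - pjL S (fderiv ℝ Y (rh S s x) (pj S x))) +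
        (2 * s) • (Y (rh S s x) - pjL S (Y (rh S s x)))) := by
  set D := fderiv ℝ Y (rh S s x) with hD
  set Z := zs S Y s x with hZdef
  let Z' : Eu 4 →L[ℝ] Eu 4 := (lsL S s).comp (D.comp (rhL S s))
  rw [trL_apply]
  have h1 : ∀ j : Fin 4, ((fderiv ℝ (Bi S Y) (x, s)).comp (ContinuousLinearMap.inl ℝ (Eu 4) ℝ))
      (ev j) (ev j) = pj S x j • Z' (ev j) + pj S (ev j) j • Z -
        (Z j • pj S (ev j) + Z' (ev j) j • pj S x) := by
    intro j
    exact Bi_deriv S hY x s j (ev j)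
  simp only [h1, Finset.sum_sub_distrib, Finset.sum_add_distrib, ← Finset.sum_smul]
  have e1 : ∑ j : Fin 4, pj S x j • Z' (ev j) = Z' (pj S x) := by
    conv_rhs => rw [← sum_ev (pj S x), map_sum]
    simp only [map_smul]
  have e2 : ∑ j : Fin 4, pj S (ev j) j = 2 := by
    simp only [pj_apply, HsA.ev_apply, if_true]
    rw [Finset.sum_ite_mem, Finset.univ_inter, Finset.sum_const, hS]
    simp
  have e3 : ∑ j : Fin 4, Z j • pj S (ev j) = pj S Z := by
    rw [← pjL_apply S Z]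
    conv_rhs => rw [← sum_ev Z, map_sum]
    simp only [map_smul, pjL_apply]
  have e4 : ∑ j : Fin 4, Z' (ev j) j = 0 := by
    have h2 : ∀ j : Fin 4, Z' (ev j) j = s * (D (ev j)) j := by
      intro j
      show lsL S s (D (rhL S s (ev j))) j = _
      have h3 : rhL S s (ev j) = (if j ∈ S then s else 1) • (ev j : Eu 4) := by
        ext i
        rw [rhL_apply, rh_apply, PiLp.smul_apply, smul_eq_mul, HsA.ev_apply]
        by_cases hij : i = j
        · subst hij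
          simp
        · simp [hij]
      rw [lsL_coord, h3, map_smul, PiLp.smul_apply, smul_eq_mul]
      split_ifs <;> ring
    rw [Finset.sum_congr rfl (fun j _ => h2 j), ← Finset.mul_sum]
    have h4 : ∑ j : Fin 4, (D (ev j)) j = divg Y (rh S s x) := rfl
    rw [h4, hd, mul_zero]
  rw [e1, e2, e3, e4]
  have h5 : Z' (pj S x) = lsL S s (s • D (pj S x)) := by
    show lsL S s (D (rhL S s (pj S x))) = _
    have h6 : rhL S s (pj S x) = s • pj S x := by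
      ext i
      rw [rhL_apply, rh_apply, PiLp.smul_apply, smul_eq_mul, pj_apply]
      split_ifs <;> simp
    rw [h6, map_smul]
  rw [h5, hZdef, zs_eq]
  ext i
  simp only [PiLp.add_apply, PiLp.sub_apply, PiLp.smul_apply, smul_eq_mul, lsL_coord, pjL_apply,
    pj_apply]
  split_ifs <;> ring

end RadPA

variable {S : Finset (Fin 4)} {U : Set (Eu 4)} {X : Eu 4 → Eu 4}

theorem rpot_smooth (hU : IsOpen U) (hst : ∀ x ∈ U, ∀ s ∈ Set.Icc (0 : ℝ) 1, rh S s x ∈ U)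
    (hX : ContDiffOn ℝ ∞ X U) : ContDiffOn ℝ ∞ (rpot S X) U := by
  intro x₀ hx₀
  obtain ⟨N, Y, hN, hNU, hY, hYX, hev, heq⟩ := RadPA.loc hU hst hX x₀ hx₀
  refine ContDiffAt.contDiffWithinAt ?_
  have h1 : ContDiff ℝ ∞ (rpot S Y) := StreamA.param_contDiff _ (RadPA.Bi_smooth S hY)
  exact h1.contDiffAt.congr_of_eventuallyEq heq

theorem rpot_skew (hU : IsOpen U) (hst : ∀ x ∈ U, ∀ s ∈ Set.Icc (0 : ℝ) 1, rh S s x ∈ U)
    (hX : ContDiffOn ℝ ∞ X U) (x : Eu 4) (hx : x ∈ U) (a b : Eu 4) :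
    inner ℝ (rpot S X x a) b = - inner ℝ a (rpot S X x b) := by
  obtain ⟨N, Y, hN, hNU, hY, hYX, hev, heq⟩ := RadPA.loc hU hst hX x hx
  rw [heq.eq_of_nhds]
  have hB := (RadPA.Bi_smooth S hY).continuous
  have hint : IntervalIntegrable (fun s => RadPA.Bi S Y (x, s)) volume 0 1 :=
    (hB.comp (continuous_const.prodMk continuous_id)).intervalIntegrable _ _
  have hr : rpot S Y x = ∫ s in (0 : ℝ)..1, RadPA.Bi S Y (x, s) := rfl
  have h1 : ∀ v w : Eu 4, inner ℝ w (rpot S Y x v) =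
      ∫ s in (0 : ℝ)..1, inner ℝ w (RadPA.Bi S Y (x, s) v) := by
    intro v w
    let L : (Eu 4 →L[ℝ] Eu 4) →L[ℝ] ℝ :=
      (innerSL ℝ w).comp (ContinuousLinearMap.apply ℝ (Eu 4) v)
    have h2 := L.intervalIntegral_comp_comm hint
    rw [hr]
    exact h2.symm
  rw [real_inner_comm, h1 a b, h1 b a, ← intervalIntegral.integral_neg]
  refine intervalIntegral.integral_congr fun s _ => ?_
  show inner ℝ b (RadPA.Bi S Y (x, s) a) = -inner ℝ a (RadPA.Bi S Y (x, s) b)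
  rw [RadPA.Bi_apply, RadPA.Bi_apply, inner_sub_right, inner_sub_right, real_inner_smul_right,
    real_inner_smul_right, real_inner_smul_right, real_inner_smul_right,
    real_inner_comm (zs S Y s x) b, real_inner_comm (zs S Y s x) a, real_inner_comm (pj S x) b,
    real_inner_comm (pj S x) a]
  ring

theorem rpot_dv (hS : S.card = 2) (hU : IsOpen U)
    (hst : ∀ x ∈ U, ∀ s ∈ Set.Icc (0 : ℝ) 1, rh S s x ∈ U)
    (hX : ContDiffOn ℝ ∞ X U) (hd : ∀ x ∈ U, divg X x = 0) (x : Eu 4) (hx : x ∈ U) :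
    dv (rpot S X) x = X x := by
  obtain ⟨N, Y, hN, hNU, hY, hYX, hev, heq⟩ := RadPA.loc hU hst hX x hx
  have hseg : ∀ s ∈ Set.Icc (0 : ℝ) 1, rh S s x ∈ N := hev.self_of_nhds
  have hYd : Differentiable ℝ Y := hY.differentiable (by simp)
  have hBs := RadPA.Bi_smooth S hY
  obtain ⟨hc, hint⟩ := RadPA.lin_int (RadPA.Bi S Y) hBs x RadPA.trL
  have hdv : dv (rpot S X) x = RadPA.trL (fderiv ℝ (rpot S Y) x) := by
    rw [RadPA.trL_apply]
    unfold dv
    rw [heq.fderiv_eq]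
  rw [hdv]
  refine hint.trans ?_
  have hdiv : ∀ s ∈ Set.Icc (0 : ℝ) 1, divg Y (rh S s x) = 0 := by
    intro s hs
    have h1 : Y =ᶠ[nhds (rh S s x)] X := by
      filter_upwards [hN.mem_nhds (hseg s hs)] with p hp
      exact hYX p hp
    unfold divg
    rw [h1.fderiv_eq]
    exact hd _ (hNU (hseg s hs))
  have hder : ∀ s ∈ Set.uIcc (0 : ℝ) 1, HasDerivAt (fun s : ℝ =>
      s • RadPA.pjL S (Y (rh S s x)) + s ^ 2 • (Y (rh S s x) - RadPA.pjL S (Y (rh S s x))))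
      (RadPA.trL ((fderiv ℝ (RadPA.Bi S Y) (x, s)).comp
        (ContinuousLinearMap.inl ℝ (Eu 4) ℝ))) s := by
    intro s hs
    rw [Set.uIcc_of_le zero_le_one] at hs
    rw [RadPA.tr_Bi S hS hY x s (hdiv s hs)]
    have h1 : HasDerivAt (fun s : ℝ => rh S s x) (pj S x) s := by
      have h2 : HasDerivAt (fun s : ℝ => s • pj S x) (pj S x) s := by
        simpa using (hasDerivAt_id s).smul_const (pj S x)
      exact h2.add_const (x - pj S x)
    have h2 : HasDerivAt (fun s : ℝ => Y (rh S s x)) (fderiv ℝ Y (rh S s x) (pj S x)) s :=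
      (hYd _).hasFDerivAt.comp_hasDerivAt s h1
    have h3 : HasDerivAt (fun s : ℝ => RadPA.pjL S (Y (rh S s x)))
        (RadPA.pjL S (fderiv ℝ Y (rh S s x) (pj S x))) s :=
      (RadPA.pjL S).hasFDerivAt.comp_hasDerivAt s h2
    have h4 : HasDerivAt (fun s : ℝ => s ^ 2) (2 * s) s := by
      simpa using hasDerivAt_pow 2 s
    exact ((hasDerivAt_id s).smul h3).add (h4.smul (h2.sub h3))
  have hF := intervalIntegral.integral_eq_sub_of_hasDerivAt hder
    (hc.intervalIntegrable _ _)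
  rw [hF]
  have h1x : rh S 1 x = x := by
    ext i
    rw [RadPA.rh_apply]
    split_ifs <;> simp
  have hxN : Y x = X x := by
    have h2 := hYX _ (hseg 1 ⟨zero_le_one, le_refl _⟩)
    rwa [h1x] at h2
  rw [h1x, hxN]
  simp

theorem rpot_zero (x : Eu 4) (h : ∀ s ∈ Set.Icc (0 : ℝ) 1, X (rh S s x) = 0) :
    rpot S X x = 0 := by
  unfold rpot
  have h1 : Set.EqOn (fun s => ((innerSL ℝ (pj S x)).smulRight (zs S X s x) -
    (innerSL ℝ (zs S X s x)).smulRight (pj S x) : Eu 4 →L[ℝ] Eu 4)) (fun _ => 0)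
      (Set.uIcc 0 1) := by
    intro s hs
    rw [Set.uIcc_of_le zero_le_one] at hs
    have h2 : zs S X s x = 0 := by
      rw [RadPA.zs_eq, h s hs, map_zero]
    simp [h2]
  rw [intervalIntegral.integral_congr h1]
  simp

end

end Pool.Agent.H68.ST
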