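import Pool.Agent.H68.ST.NDef
import Pool.Agent.H68.VD.Stream

/-! # ST-D1: integrals in one direction -/

set_option autoImplicit false

namespace Pool.Agent.H68.ST

open MeasureTheory Set Pool.Agent.H68.VD Pool.Agent.H68.GM Pool.Agent.H6.ST
open scoped ENNReal ContDiff

noncomputable section

variable {n : ℕ} {lo hi : Fin n → ℝ}

namespace SlIA

theorem evS (k : Fin n) : (ev k : Eu n) k = 1 := by
  simp [ev]

theorem evN {i k : Fin n} (h : i ≠ k) : (ev k : Eu n) i = 0 := by
  simp [ev, h]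

theorem ptS (k : Fin n) (x : Eu n) (t : ℝ) : (x + (t - x k) • ev k : Eu n) k = t := by
  simp [evS]

theorem ptN {i k : Fin n} (h : i ≠ k) (x : Eu n) (c : ℝ) : (x + c • ev k : Eu n) i = x i := by
  simp [evN h]

theorem pp (k : Fin n) (x : Eu n) (t s : ℝ) :
    (x + (t - x k) • ev k : Eu n) + (s - (x + (t - x k) • ev k : Eu n) k) • ev k =
      x + (s - x k) • ev k := by
  rw [ptS, add_assoc, ← add_smul]
  congr 2
  ring

theorem slP (k : Fin n) (h : Eu n → ℝ) (x : Eu n) (t : ℝ) :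
    slI k h (x + (t - x k) • ev k) = slI k h x := by
  unfold slI
  simp only [pp]

theorem ptC (k : Fin n) (x : Eu n) : Continuous (fun t : ℝ => (x + (t - x k) • ev k : Eu n)) :=
  continuous_const.add ((continuous_id.sub continuous_const).smul continuous_const)

/-- The reparametrised integrand. -/
def GG (k : Fin n) (h : Eu n → ℝ) (u v : Eu n → ℝ) (q : Eu n × ℝ) : ℝ :=
  v q.1 * h (q.1 + ((u q.1 + q.2 * v q.1) - q.1 k) • ev k)

theorem coordS (k : Fin n) : ContDiff ℝ ∞ (fun x : Eu n => x k) :=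
  (EuclideanSpace.proj (𝕜 := ℝ) k).contDiff

theorem GGs (k : Fin n) {h : Eu n → ℝ} (hh : ContDiff ℝ ∞ h) {u v : Eu n → ℝ}
    (hu : ContDiff ℝ ∞ u) (hv : ContDiff ℝ ∞ v) : ContDiff ℝ ∞ (GG k h u v) := by
  have h1 : ContDiff ℝ ∞ (fun q : Eu n × ℝ => u q.1) := hu.comp contDiff_fst
  have h2 : ContDiff ℝ ∞ (fun q : Eu n × ℝ => v q.1) := hv.comp contDiff_fst
  have h3 : ContDiff ℝ ∞ (fun q : Eu n × ℝ => q.1 k) := (coordS k).comp contDiff_fst
  have h4 : ContDiff ℝ ∞ (fun q : Eu n × ℝ => q.1 + ((u q.1 + q.2 * v q.1) - q.1 k) • ev k) :=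
    contDiff_fst.add (((h1.add (contDiff_snd.mul h2)).sub h3).smul contDiff_const)
  exact h2.mul (hh.comp h4)

/-- The substitution. -/
theorem subst (f : ℝ → ℝ) (u v : ℝ) :
    ∫ s in (0 : ℝ)..1, v * f (u + s * v) = ∫ t in u..(u + v), f t := by
  have h1 := intervalIntegral.smul_integral_comp_add_mul (a := 0) (b := 1) f v u
  rw [intervalIntegral.integral_const_mul]
  simp only [smul_eq_mul, mul_zero, add_zero, mul_one] at h1
  simp only [mul_comm _ v]
  exact h1

theorem iG (k : Fin n) (h : Eu n → ℝ) (u v : Eu n → ℝ) (x : Eu n) :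
    ∫ s in (0 : ℝ)..1, GG k h u v (x, s) =
      ∫ t in (u x)..(u x + v x), h (x + (t - x k) • ev k) :=
  subst (fun t => h (x + (t - x k) • ev k)) (u x) (v x)

theorem zer {k : Fin n} {h : Eu n → ℝ} {a b : ℝ} (h0 : ∀ x, h x ≠ 0 → a ≤ x k ∧ x k ≤ b)
    (x : Eu n) {t : ℝ} (ht : h (x + (t - x k) • ev k) ≠ 0) : a ≤ t ∧ t ≤ b := by
  have h1 := h0 _ ht
  rwa [ptS] at h1

theorem slG (k : Fin n) {h : Eu n → ℝ} {a b : ℝ} (h0 : ∀ x, h x ≠ 0 → a ≤ x k ∧ x k ≤ b)
    {a' b' : ℝ} (ha : a' < a) (hb : b ≤ b') (x : Eu n) :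
    slI k h x = ∫ t in a'..b', h (x + (t - x k) • ev k) := by
  unfold slI
  symm
  apply intervalIntegral.integral_eq_integral_of_support_subset
  intro t ht
  have h1 := zer h0 x ht
  exact ⟨lt_of_lt_of_le ha h1.1, h1.2.trans hb⟩

theorem slGG (k : Fin n) {h : Eu n → ℝ} {a b : ℝ} (h0 : ∀ x, h x ≠ 0 → a ≤ x k ∧ x k ≤ b) :
    slI k h = fun x => ∫ s in (0 : ℝ)..1, GG k h (fun _ => a - 1) (fun _ => b - (a - 1)) (x, s) := by
  funext x
  rw [iG, slG k h0 (show a - 1 < a by linarith) le_rfl x]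
  congr 1
  ring

theorem intC (k : Fin n) {h : Eu n → ℝ} (hh : Continuous h) {a b : ℝ}
    (h0 : ∀ x, h x ≠ 0 → a ≤ x k ∧ x k ≤ b) (x : Eu n) :
    Integrable (fun t : ℝ => h (x + (t - x k) • ev k)) := by
  refine (hh.comp (ptC k x)).integrable_of_hasCompactSupport ?_
  refine HasCompactSupport.intro (isCompact_Icc (a := a) (b := b)) fun t ht => ?_
  by_contra h1
  exact ht (zer h0 x h1)

theorem lineD (k : Fin n) {h : Eu n → ℝ} (hh : ContDiff ℝ ∞ h) (x : Eu n) (t : ℝ) :
    HasDerivAt (fun t : ℝ => h (x + (t - x k) • ev k))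
      (fderiv ℝ h (x + (t - x k) • ev k) (ev k)) t := by
  have h1 : HasDerivAt (fun t : ℝ => (x + (t - x k) • ev k : Eu n)) (ev k) t := by
    simpa using (((hasDerivAt_id t).sub_const (x k)).smul_const (ev k)).const_add x
  exact ((hh.differentiable (by simp)) _).hasFDerivAt.comp_hasDerivAt t h1

theorem fdZ (k : Fin n) {h : Eu n → ℝ} {a b : ℝ} (h0 : ∀ x, h x ≠ 0 → a ≤ x k ∧ x k ≤ b)
    (v : Eu n) (x : Eu n) (hx : fderiv ℝ h x v ≠ 0) : a ≤ x k ∧ x k ≤ b := by
  by_contra h1
  apply hx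
  have h2 : IsOpen {y : Eu n | ¬(a ≤ y k ∧ y k ≤ b)} := by
    have hc : Continuous (fun y : Eu n => y k) := (coordS k).continuous
    exact (isClosed_Icc.preimage hc).isOpen_compl
  have h3 : h =ᶠ[nhds x] fun _ => 0 := by
    filter_upwards [h2.mem_nhds h1] with y hy
    by_contra h4
    exact hy (h0 y h4)
  rw [h3.fderiv_eq]
  simp

/-- Closed boxes are compact. -/
theorem boxC (p q : Fin n → ℝ) : IsCompact {x : Eu n | ∀ i, p i ≤ x i ∧ x i ≤ q i} := by
  have h1 : IsCompact (Set.Icc p q) := isCompact_Icc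
  have h2 := h1.image (PiLp.continuous_toLp 2 (fun _ : Fin n => ℝ))
  refine h2.of_isClosed_subset ?_ ?_
  · have h3 : {x : Eu n | ∀ i, p i ≤ x i ∧ x i ≤ q i} =
        ⋂ i, {x : Eu n | p i ≤ x i ∧ x i ≤ q i} := by
      ext x
      simp
    rw [h3]
    refine isClosed_iInter fun i => ?_
    exact isClosed_Icc.preimage (coordS i).continuous
  · intro x hx
    exact ⟨WithLp.ofLp x, ⟨fun i => (hx i).1, fun i => (hx i).2⟩, rfl⟩

theorem bnd {K : Set (Eu n)} (hK : IsCompact K) (hne : K.Nonempty) (hs : K ⊆ obox lo hi) :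
    ∃ p q : Fin n → ℝ, (∀ i, lo i < p i ∧ q i < hi i) ∧ ∀ x ∈ K, ∀ i, p i ≤ x i ∧ x i ≤ q i := by
  have h1 : ∀ i, ∃ p q : ℝ, (lo i < p ∧ q < hi i) ∧ ∀ x ∈ K, p ≤ x i ∧ x i ≤ q := by
    intro i
    have hc : ContinuousOn (fun y : Eu n => y i) K := (coordS i).continuous.continuousOn
    obtain ⟨x1, hx1, h1⟩ := hK.exists_isMinOn hne hc
    obtain ⟨x2, hx2, h2⟩ := hK.exists_isMaxOn hne hc
    exact ⟨x1 i, x2 i, ⟨(hs hx1 i).1, (hs hx2 i).2⟩, fun x hx => ⟨h1 hx, h2 hx⟩⟩
  choose p q h2 h3 using h1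
  exact ⟨p, q, h2, fun x hx i => h3 i x hx⟩

theorem subB {p q : Fin n → ℝ} (h : ∀ i, lo i < p i ∧ q i < hi i) :
    {x : Eu n | ∀ i, p i ≤ x i ∧ x i ≤ q i} ⊆ obox lo hi := fun _ hx i =>
  ⟨lt_of_lt_of_le (h i).1 (hx i).1, lt_of_le_of_lt (hx i).2 (h i).2⟩

theorem mkT {p q : Fin n → ℝ} (h : ∀ i, lo i < p i ∧ q i < hi i) {f : Eu n → ℝ}
    (hf : ContDiff ℝ ∞ f) (h0 : ∀ x, f x ≠ 0 → ∀ i, p i ≤ x i ∧ x i ≤ q i) :
    TestIn (obox lo hi) f := by
  refine ⟨hf, _, boxC p q, subB h, fun y hy => ?_⟩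
  by_contra h1
  exact hy (h0 y h1)

end SlIA

open SlIA

theorem slI_smooth (k : Fin n) {h : Eu n → ℝ} (hh : ContDiff ℝ ∞ h) {a b : ℝ}
    (h0 : ∀ x, h x ≠ 0 → a ≤ x k ∧ x k ≤ b) : ContDiff ℝ ∞ (slI k h) := by
  rw [slGG k h0]
  exact StreamA.param_contDiff _ (GGs k hh contDiff_const contDiff_const)

/-- The integral commutes with the other derivatives. -/
theorem slI_fderiv {i k : Fin n} (hik : i ≠ k) {h : Eu n → ℝ} (hh : ContDiff ℝ ∞ h) {a b : ℝ}
    (h0 : ∀ x, h x ≠ 0 → a ≤ x k ∧ x k ≤ b) (x : Eu n) :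
    fderiv ℝ (slI k h) x (ev i) = slI k (fun y => fderiv ℝ h y (ev i)) x := by
  have hG := GGs (u := fun _ => a - 1) (v := fun _ => b - (a - 1)) k hh contDiff_const
    contDiff_const
  rw [slGG k (fdZ k h0 (ev i)), slGG k h0]
  have h1 := (StreamA.param_fderiv _ hG x).fderiv
  rw [h1]
  have hc : Continuous (fun s : ℝ =>
      (fderiv ℝ (GG k h (fun _ => a - 1) (fun _ => b - (a - 1))) (x, s)).comp
        (ContinuousLinearMap.inl ℝ (Eu n) ℝ)) :=
    ((hG.continuous_fderiv (by simp)).comp (continuous_const.prodMk continuous_id)).clm_comp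
      continuous_const
  rw [ContinuousLinearMap.intervalIntegral_apply (hc.intervalIntegrable _ _)]
  refine intervalIntegral.integral_congr fun s _ => ?_
  simp only
  have h3 : HasFDerivAt (fun y : Eu n => (y, s)) (ContinuousLinearMap.inl ℝ (Eu n) ℝ) x :=
    (hasFDerivAt_id x).prodMk (hasFDerivAt_const s x)
  have h4 := HasFDerivAt.comp (f := fun y : Eu n => (y, s)) x
    ((hG.differentiable (by simp)) (x, s)).hasFDerivAt h3
  set c : ℝ := a - 1 + s * (b - (a - 1)) with hcdef
  have h5 : HasDerivAt (fun τ : ℝ => x + τ • ev i) (ev i) 0 := by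
    simpa using ((hasDerivAt_id (0 : ℝ)).smul_const (ev i)).const_add x
  have h4' : HasFDerivAt (GG k h (fun _ => a - 1) (fun _ => b - (a - 1)) ∘ fun y : Eu n => (y, s))
      ((fderiv ℝ (GG k h (fun _ => a - 1) (fun _ => b - (a - 1))) (x, s)).comp
        (ContinuousLinearMap.inl ℝ (Eu n) ℝ)) (x + (0 : ℝ) • ev i) := by
    simpa using h4
  have h6 := h4'.comp_hasDerivAt (0 : ℝ) h5
  have h7 : HasDerivAt (fun τ : ℝ => (b - (a - 1)) * h ((x + (c - x k) • ev k) + τ • ev i))
      ((b - (a - 1)) * fderiv ℝ h (x + (c - x k) • ev k) (ev i)) 0 := by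
    have h8 : HasDerivAt (fun τ : ℝ => (x + (c - x k) • ev k) + τ • ev i) (ev i) 0 := by
      simpa using ((hasDerivAt_id (0 : ℝ)).smul_const (ev i)).const_add (x + (c - x k) • ev k)
    have h9 : HasFDerivAt h (fderiv ℝ h (x + (c - x k) • ev k))
        ((x + (c - x k) • ev k) + (0 : ℝ) • ev i) := by
      simpa using ((hh.differentiable (by simp)) (x + (c - x k) • ev k)).hasFDerivAt
    exact (h9.comp_hasDerivAt (0 : ℝ) h8).const_mul _
  have h10 : (((GG k h (fun _ => a - 1) (fun _ => b - (a - 1))) ∘ fun y : Eu n => (y, s)) ∘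
      fun τ : ℝ => x + τ • ev i) =
      fun τ : ℝ => (b - (a - 1)) * h ((x + (c - x k) • ev k) + τ • ev i) := by
    funext τ
    simp only [Function.comp, GG]
    rw [ptN hik.symm, ← hcdef]
    congr 2
    abel
  rw [h10] at h6
  exact h6.unique h7

theorem slI_self (k : Fin n) {h : Eu n → ℝ} (hh : ContDiff ℝ ∞ h) {a b : ℝ}
    (h0 : ∀ x, h x ≠ 0 → a ≤ x k ∧ x k ≤ b) (x : Eu n) :
    slI k (fun y => fderiv ℝ h y (ev k)) x = 0 := by
  rw [slG k (fdZ k h0 (ev k)) (show a - 1 < a by linarith) (show b ≤ b + 1 by linarith) x]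
  have hc : Continuous (fun t : ℝ => fderiv ℝ h (x + (t - x k) • ev k) (ev k)) :=
    ((hh.continuous_fderiv (by simp)).comp (ptC k x)).clm_apply continuous_const
  rw [intervalIntegral.integral_eq_sub_of_hasDerivAt (fun t _ => lineD k hh x t)
    (hc.intervalIntegrable _ _)]
  have h1 : h (x + (b + 1 - x k) • ev k) = 0 := by
    by_contra h2
    have := (zer h0 x h2).2
    linarith
  have h2 : h (x + (a - 1 - x k) • ev k) = 0 := by
    by_contra h2
    have := (zer h0 x h2).1
    linarith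
  rw [h1, h2, sub_zero]

/-- Functions of the other coordinates can be taken out of the integral. -/
theorem slI_mul {i k : Fin n} (hik : i ≠ k) (θ : ℝ → ℝ) (h : Eu n → ℝ) (x : Eu n) :
    slI k (fun y => θ (y i) * h y) x = θ (x i) * slI k h x := by
  unfold slI
  simp only [ptN hik]
  exact integral_const_mul _ _

/-- One step of the decomposition: `h' ` is the product of a function of the coordinate `k` and the
integral of `h` in the direction `k`. -/
theorem sl_step (k : Fin n) {θ : ℝ → ℝ} (hθ : ContDiff ℝ ∞ θ)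
    (hs : ∃ a b : ℝ, lo k < a ∧ b < hi k ∧ ∀ t, θ t ≠ 0 → a ≤ t ∧ t ≤ b) (h1 : ∫ t, θ t = 1)
    {h : Eu n → ℝ} (hh : TestIn (obox lo hi) h) :
    TestIn (obox lo hi) (fun x => θ (x k) * slI k h x) ∧ ∃ g : Eu n → ℝ, TestIn (obox lo hi) g ∧
      ∀ x, h x = fderiv ℝ g x (ev k) + θ (x k) * slI k h x := by
  obtain ⟨a, b, hla, hbh, hab⟩ := hs
  obtain ⟨hsm, K, hK, hKs, hK0⟩ := hh
  rcases K.eq_empty_or_nonempty with hE | hne
  · have hz : h = fun _ => 0 := by
      funext x
      exact hK0 x (by rw [hE]; exact Set.notMem_empty x)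
    have hz2 : ∀ x, slI k h x = 0 := by
      intro x
      rw [hz]
      simp [slI]
    have hz3 : TestIn (obox lo hi) (fun _ : Eu n => (0 : ℝ)) :=
      ⟨contDiff_const, ∅, isCompact_empty, Set.empty_subset _, fun _ _ => rfl⟩
    refine ⟨?_, fun _ => 0, hz3, fun x => ?_⟩
    · simp only [hz2, mul_zero]
      exact hz3
    · rw [hz2, hz]
      simp
  obtain ⟨p0, q0, hpq0, hb0⟩ := bnd hK hne hKs
  set p : Fin n → ℝ := fun i => if i = k then min (p0 k) a else p0 i with hp
  set q : Fin n → ℝ := fun i => if i = k then max (q0 k) b else q0 i with hq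
  have hpk : p k = min (p0 k) a := by simp [hp]
  have hqk : q k = max (q0 k) b := by simp [hq]
  have hpq : ∀ i, lo i < p i ∧ q i < hi i := by
    intro i
    by_cases hi' : i = k
    · subst hi'
      rw [hpk, hqk]
      exact ⟨lt_min (hpq0 i).1 hla, max_lt (hpq0 i).2 hbh⟩
    · simp only [hp, hq, hi', if_false]
      exact hpq0 i
  have hbox : ∀ x, h x ≠ 0 → ∀ i, p i ≤ x i ∧ x i ≤ q i := by
    intro x hx i
    have hxK : x ∈ K := by
      by_contra h2
      exact hx (hK0 x h2)
    have h2 := hb0 x hxK i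
    by_cases hi' : i = k
    · subst hi'
      rw [hpk, hqk]
      exact ⟨(min_le_left _ _).trans h2.1, h2.2.trans (le_max_left _ _)⟩
    · simp only [hp, hq, hi', if_false]
      exact h2
  have hθb : ∀ t, θ t ≠ 0 → p k ≤ t ∧ t ≤ q k := by
    intro t ht
    have h2 := hab t ht
    rw [hpk, hqk]
    exact ⟨(min_le_right _ _).trans h2.1, h2.2.trans (le_max_right _ _)⟩
  have hslk : ∀ x, h x ≠ 0 → p k ≤ x k ∧ x k ≤ q k := fun x hx => hbox x hx k
  have hsls := slI_smooth k hsm hslk
  have hslb : ∀ x, slI k h x ≠ 0 → ∀ i, i ≠ k → p i ≤ x i ∧ x i ≤ q i := by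
    intro x hx i hik
    by_contra h2
    apply hx
    unfold slI
    have h3 : ∀ t : ℝ, h (x + (t - x k) • ev k) = 0 := by
      intro t
      by_contra h3
      have h4 := hbox _ h3 i
      rw [ptN hik] at h4
      exact h2 h4
    simp [h3]
  have hθs : ContDiff ℝ ∞ (fun x : Eu n => θ (x k) * slI k h x) :=
    (hθ.comp (coordS k)).mul hsls
  have hθbx : ∀ x : Eu n, θ (x k) * slI k h x ≠ 0 → ∀ i, p i ≤ x i ∧ x i ≤ q i := by
    intro x hx i
    by_cases hik : i = k
    · subst hik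
      exact hθb _ (left_ne_zero_of_mul hx)
    · exact hslb x (right_ne_zero_of_mul hx) i hik
  set φ : Eu n → ℝ := fun x => h x - θ (x k) * slI k h x with hφ
  have hφs : ContDiff ℝ ∞ φ := hsm.sub hθs
  have hφb : ∀ x, φ x ≠ 0 → ∀ i, p i ≤ x i ∧ x i ≤ q i := by
    intro x hx
    by_cases h2 : h x = 0
    · refine hθbx x fun h3 => hx ?_
      simp only [hφ]
      rw [h2, h3, sub_zero]
    · exact hbox x h2
  set g : Eu n → ℝ := fun x => ∫ t in (p k - 1)..(x k), φ (x + (t - x k) • ev k) with hg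
  have hgs : ContDiff ℝ ∞ g := by
    have h2 : g = fun x => ∫ s in (0 : ℝ)..1,
        GG k φ (fun _ => p k - 1) (fun x => x k - (p k - 1)) (x, s) := by
      funext x
      rw [iG]
      simp only [hg]
      congr 1
      ring
    rw [h2]
    exact StreamA.param_contDiff _ (GGs k hφs contDiff_const ((coordS k).sub contDiff_const))
  have hgb : ∀ x, g x ≠ 0 → ∀ i, p i ≤ x i ∧ x i ≤ q i := by
    intro x hx i
    by_contra h2
    apply hx
    by_cases hik : i = k
    · subst hik
      rcases lt_or_ge (x i) (p i) with h3 | h3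
      · simp only [hg]
        rw [intervalIntegral.integral_congr_ae (g := fun _ => (0 : ℝ))]
        · simp
        · refine Filter.Eventually.of_forall fun t ht => ?_
          by_contra h4
          have h5 := (zer (h := φ) (fun x hx => hφb x hx i) x h4).1
          rcases Set.mem_uIoc.1 ht with h6 | h6
          · linarith [h6.2]
          · linarith [h6.2]
      · have h4 : q i < x i := by
          by_contra h4
          exact h2 ⟨h3, not_lt.1 h4⟩
        simp only [hg]
        rw [intervalIntegral.integral_eq_integral_of_support_subset]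
        · have h5 : ∀ t : ℝ, φ (x + (t - x i) • ev i) =
              h (x + (t - x i) • ev i) - θ t * slI i h x := by
            intro t
            simp only [hφ]
            rw [ptS, slP]
          simp only [h5]
          have hθi : Integrable θ := by
            refine hθ.continuous.integrable_of_hasCompactSupport ?_
            refine HasCompactSupport.intro (isCompact_Icc (a := p i) (b := q i)) fun t ht => ?_
            by_contra h6
            exact ht (hθb t h6)
          rw [integral_sub (intC i hsm.continuous hslk x) (hθi.mul_const _), integral_mul_const, h1,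
            one_mul]
          exact sub_self _
        · intro t ht
          have h5 := zer (h := φ) (fun x hx => hφb x hx i) x ht
          exact ⟨by linarith [h5.1], h5.2.trans h4.le⟩
    · have h3 : ∀ t : ℝ, φ (x + (t - x k) • ev k) = 0 := by
        intro t
        by_contra h3
        have h4 := hφb _ h3 i
        rw [ptN hik] at h4
        exact h2 h4
      simp only [hg, h3]
      simp
  refine ⟨mkT hpq hθs hθbx, g, mkT hpq hgs hgb, fun x => ?_⟩
  have h2 : HasDerivAt (fun τ : ℝ => g (x + (τ - x k) • ev k)) (fderiv ℝ g x (ev k)) (x k) := by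
    have h3 := lineD k hgs x (x k)
    simpa using h3
  have h3 : HasDerivAt (fun τ : ℝ => g (x + (τ - x k) • ev k)) (φ x) (x k) := by
    have h4 : (fun τ : ℝ => g (x + (τ - x k) • ev k)) =
        fun τ : ℝ => ∫ t in (p k - 1)..τ, φ (x + (t - x k) • ev k) := by
      funext τ
      simp only [hg, ptS]
      refine intervalIntegral.integral_congr fun t _ => ?_
      rw [add_assoc, ← add_smul]
      congr 3
      ring
    rw [h4]
    have hc : Continuous (fun t : ℝ => φ (x + (t - x k) • ev k)) := hφs.continuous.comp (ptC k x)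
    have h5 := intervalIntegral.integral_hasDerivAt_right (hc.intervalIntegrable (p k - 1) (x k))
      hc.stronglyMeasurable.stronglyMeasurableAtFilter hc.continuousAt
    simpa using h5
  have h4 := h2.unique h3
  rw [h4]
  simp only [hφ]
  ring

end

end Pool.Agent.H68.ST
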