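import Pool.Agent.H6.ST.St
import Pool.Agent.H68.GM.WR

/-! # ST-N3: the dual norms of `W^{-s,∞}` -/

set_option autoImplicit false

namespace Pool.Agent.H68.ST

open MeasureTheory Set Pool.Agent.H68.VD Pool.Agent.H68.GM Pool.Agent.H6.ST
open scoped ENNReal ContDiff

noncomputable section

variable {n : ℕ} {s : ℝ}

namespace W1nA

open scoped Pointwise

/-- the class of test fields -/
def Tst (r : ℝ) (v : Eu n → Eu n) : Prop :=
  ContDiff ℝ ∞ v ∧ HasCompactSupport v ∧ supE r v ≤ 1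

lemma w1_neg (hs : s < 0) (u : Eu n → Eu n) :
    w1E s u = ⨆ (v : Eu n → Eu n) (_ : Tst (-s) v),
      ENNReal.ofReal |∫ x, (inner ℝ (u x) (v x) : ℝ)| := by
  simp only [w1E, if_neg (not_le.2 hs)]
  rfl

lemma sup_term (r : ℝ) (v : Eu n → Eu n) (k : ℕ) (hk : k ≤ ⌊r⌋₊) (x : Eu n) :
    dnorm k v x ≤ supE r v := by
  refine le_trans ?_ le_self_add
  refine (le_iSup (fun x => dnorm k v x) x).trans ?_
  exact Finset.single_le_sum (f := fun k => ⨆ x, dnorm k v x)
    (fun _ _ => zero_le) (Finset.mem_range.2 (Nat.lt_succ_of_le hk))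

lemma dn0 (v : Eu n → Eu n) (x : Eu n) : dnorm 0 v x = ‖v x‖ₑ := by
  rw [dnorm, norm_iteratedFDeriv_zero, ofReal_norm]

lemma bd {r : ℝ} {v : Eu n → Eu n} (hv : supE r v ≤ 1) (x : Eu n) : ‖v x‖ₑ ≤ 1 := by
  rw [← dn0]
  exact (sup_term r v 0 (Nat.zero_le _) x).trans hv

lemma hold {r : ℝ} (hr : 0 < r) {v : Eu n → Eu n} (hv1 : ContDiff ℝ ∞ v) (hv : supE r v ≤ 1)
    (x h : Eu n) (hh : ‖h‖ < 1) : ‖v (x + h) - v x‖ ≤ ‖h‖ ^ (min r 1) := by
  rcases Nat.eq_zero_or_pos ⌊r⌋₊ with hm | hm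
  · have hr1 : r < 1 := by
      by_contra hc
      have : 1 ≤ ⌊r⌋₊ := Nat.le_floor (by simpa using not_lt.1 hc)
      omega
    rw [min_eq_left hr1.le]
    by_cases h0 : h = 0
    · subst h0
      simp only [add_zero, sub_self, norm_zero]
      positivity
    · have hH : 0 < ‖h‖ := norm_pos_iff.mpr h0
      have h2 : (⨆ (x : Eu n) (h : Eu n) (_ : h ∈ Metric.ball (0 : Eu n) 1),
          dnorm ⌊r⌋₊ (fun y => v (y + h) - v y) x / ‖h‖ₑ ^ (r - ⌊r⌋₊)) ≤ 1 := by
        refine le_trans ?_ hv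
        unfold supE
        have h3 : ((⌊r⌋₊ : ℕ) : ℝ) < r := by rw [hm]; simpa using hr
        rw [if_pos h3]
        exact le_add_self
      have h3 : dnorm ⌊r⌋₊ (fun y => v (y + h) - v y) x / ‖h‖ₑ ^ (r - ⌊r⌋₊) ≤ 1 := by
        refine le_trans ?_ h2
        refine le_trans ?_ (le_iSup _ x)
        refine le_trans ?_ (le_iSup _ h)
        exact le_iSup (fun (_ : h ∈ Metric.ball (0 : Eu n) 1) =>
          dnorm ⌊r⌋₊ (fun y => v (y + h) - v y) x / ‖h‖ₑ ^ (r - ⌊r⌋₊)) (by simpa using hh)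
      rw [hm] at h3
      rw [dn0] at h3
      simp only [Nat.cast_zero, sub_zero] at h3
      rw [← ofReal_norm, ← ofReal_norm, ENNReal.ofReal_rpow_of_pos hH,
        ← ENNReal.ofReal_div_of_pos (by positivity), ← ENNReal.ofReal_one,
        ENNReal.ofReal_le_ofReal_iff zero_le_one, div_le_one (by positivity)] at h3
      exact h3
  · have hr1 : 1 ≤ r := by
      by_contra hc
      have : ⌊r⌋₊ = 0 := Nat.floor_eq_zero.2 (not_le.1 hc)
      omega
    rw [min_eq_right hr1, Real.rpow_one]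
    have h1 : ∀ y, ‖fderiv ℝ v y‖ ≤ 1 := by
      intro y
      have h2 := (sup_term r v 1 hm y).trans hv
      rw [dnorm, norm_iteratedFDeriv_one, ← ENNReal.ofReal_one,
        ENNReal.ofReal_le_ofReal_iff zero_le_one] at h2
      exact h2
    have h2 := convex_univ.norm_image_sub_le_of_norm_fderiv_le (𝕜 := ℝ) (f := v) (C := 1)
      (x := x) (y := x + h) (fun y _ => (hv1.differentiable (by simp)).differentiableAt)
      (fun y _ => h1 y) (mem_univ _) (mem_univ _)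
    simpa using h2

/-- a mollifier with a small support -/
lemma bump (n : ℕ) (t : ℝ) (ht : 0 < t) :
    ∃ ρ : Eu n → ℝ, ContDiff ℝ ∞ ρ ∧ HasCompactSupport ρ ∧ (∀ h, 0 ≤ ρ h) ∧
      (∀ h, t ≤ ‖h‖ → ρ h = 0) ∧ ∫ h, ρ h = 1 := by
  let f : ContDiffBump (0 : Eu n) := ⟨t / 2, t, by positivity, by linarith⟩
  refine ⟨f.normed volume, f.contDiff_normed (n := ⊤), f.hasCompactSupport_normed,
    fun h => f.nonneg_normed h, ?_, f.integral_normed⟩
  intro h hh
  have h1 : h ∉ Function.support (f.normed (volume : Measure (Eu n))) := by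
    rw [f.support_normed_eq]
    simpa [f] using hh
  simpa using h1

/-- the main estimate -/
lemma main_est (K : Set (Eu n)) (hK : IsCompact K)
    (T : Eu n → (Eu n →L[ℝ] Eu n)) (hT : ContDiff ℝ ∞ T) (h0 : ∀ y ∉ K, T y = 0) (B δ : ℝ)
    (hδ0 : 0 ≤ δ) (hB' : ∀ x, ‖dv T x‖ ≤ B) (hδ : ∀ x, ‖T x‖ ≤ δ) (v : Eu n → Eu n)
    (hv : ContDiff ℝ ∞ v) (hvcs : HasCompactSupport v) (hv3 : ∀ x, ‖v x‖ₑ ≤ 1)
    (ρ : Eu n → ℝ) (hρ : ContDiff ℝ ∞ ρ) (hc : HasCompactSupport ρ)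
    (hρ0 : ∀ h, 1 ≤ ‖h‖ → ρ h = 0) (hint : ∫ h, ρ h = 1) :
    ‖∫ x, (inner ℝ (dv T x) (v x) : ℝ)‖ₑ ≤
      ENNReal.ofReal B * (∫⁻ x in K, ∫⁻ h, ‖ρ h‖ₑ * ‖v (x + h) - v x‖ₑ) +
      ENNReal.ofReal (δ * ∑ j : Fin n, ∫ h, ‖fderiv ℝ ρ h (ev j)‖) *
        volume (K + Metric.closedBall (0 : Eu n) 1) := by
  set C : ℝ := ∑ j : Fin n, ∫ h, ‖fderiv ℝ ρ h (ev j)‖ with hC
  have hC0 : 0 ≤ C := Finset.sum_nonneg fun j _ => integral_nonneg fun h => norm_nonneg _
  have hu := WspA.dv_cont T hT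
  have hdz := WRA.dv_zero K hK T h0
  have huc : HasCompactSupport (dv T) := HasCompactSupport.intro hK hdz
  have hvc : Continuous v := hv.continuous
  have hρc := hρ.continuous
  have hmove := WRA.moveR ρ hρc hc (dv T) v hu huc hvc hvcs
  have hvi : ∀ x, Integrable (fun h => ρ h • v (x + h)) := by
    intro x
    apply Continuous.integrable_of_hasCompactSupport
    · exact hρc.smul (hvc.comp (continuous_const.add continuous_id))
    · exact hc.smul_right
  have e1 : ∀ x, (inner ℝ (dv T x) (∫ h, ρ h • v (x + h)) : ℝ) =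
      ∫ h, ρ h * (inner ℝ (dv T x) (v (x + h)) : ℝ) := by
    intro x
    rw [← integral_inner (hvi x)]
    congr 1
    ext1 h
    rw [inner_smul_right]
  have hI1 : Integrable (Function.uncurry fun (x h : Eu n) =>
      ρ h * (inner ℝ (dv T x) (v (x + h)) : ℝ)) ((volume : Measure (Eu n)).prod volume) := by
    apply Continuous.integrable_of_hasCompactSupport
    · exact (hρc.comp continuous_snd).mul
        ((hu.comp continuous_fst).inner (hvc.comp (continuous_fst.add continuous_snd)))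
    · refine HasCompactSupport.intro (huc.prod hc) fun z hz => ?_
      obtain ⟨x, h⟩ := z
      simp only [Set.mem_prod, not_and_or] at hz
      simp only [Function.uncurry_apply_pair]
      rcases hz with hz | hz
      · rw [image_eq_zero_of_notMem_tsupport hz, inner_zero_left, mul_zero]
      · rw [image_eq_zero_of_notMem_tsupport hz, zero_mul]
  have hI2 : Integrable (fun x => (inner ℝ (dv T x) (∫ h, ρ h • v (x + h)) : ℝ)) := by
    have := hI1.integral_prod_left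
    refine this.congr (Filter.Eventually.of_forall fun x => ?_)
    simp only [Function.uncurry_apply_pair]
    exact (e1 x).symm
  have hI3 : Integrable (fun x => (inner ℝ (dv T x) (v x) : ℝ)) :=
    WRA.inner_integrable _ _ hu hvc huc
  have hsplit : ∫ x, (inner ℝ (dv T x) (v x) : ℝ) =
      (∫ x, (inner ℝ (dv T x) (v x - ∫ h, ρ h • v (x + h)) : ℝ)) +
      ∫ x, (inner ℝ (∫ h, ρ h • dv T (x - h)) (v x) : ℝ) := by
    rw [← hmove]
    have h1 : ∀ x, (inner ℝ (dv T x) (v x - ∫ h, ρ h • v (x + h)) : ℝ) =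
        (inner ℝ (dv T x) (v x) : ℝ) - (inner ℝ (dv T x) (∫ h, ρ h • v (x + h)) : ℝ) := by
      intro x; rw [inner_sub_right]
    simp_rw [h1]
    rw [integral_sub hI3 hI2]
    ring
  have hdiff : ∀ x, ‖v x - ∫ h, ρ h • v (x + h)‖ₑ ≤ ∫⁻ h, ‖ρ h‖ₑ * ‖v (x + h) - v x‖ₑ := by
    intro x
    have h1 : v x - ∫ h, ρ h • v (x + h) = -∫ h, ρ h • (v (x + h) - v x) := by
      have h2 : ∫ h, ρ h • (v (x + h) - v x) = (∫ h, ρ h • v (x + h)) - ∫ h, ρ h • v x := by
        rw [← integral_sub (hvi x) ((hρc.integrable_of_hasCompactSupport hc).smul_const _)]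
        congr 1
        ext1 h
        rw [smul_sub]
      rw [h2, integral_smul_const, hint, one_smul]
      abel
    rw [h1, enorm_neg]
    refine (enorm_integral_le_lintegral_enorm _).trans (lintegral_mono fun h => ?_)
    rw [enorm_smul]
  have hA : ‖∫ x, (inner ℝ (dv T x) (v x - ∫ h, ρ h • v (x + h)) : ℝ)‖ₑ ≤
      ENNReal.ofReal B * (∫⁻ x in K, ∫⁻ h, ‖ρ h‖ₑ * ‖v (x + h) - v x‖ₑ) := by
    refine (enorm_integral_le_lintegral_enorm _).trans ?_
    rw [← lintegral_const_mul' _ _ ENNReal.ofReal_ne_top, ← lintegral_indicator hK.measurableSet]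
    refine lintegral_mono fun x => ?_
    by_cases hx : x ∈ K
    · rw [Set.indicator_of_mem hx]
      calc ‖(inner ℝ (dv T x) (v x - ∫ h, ρ h • v (x + h)) : ℝ)‖ₑ
          ≤ ‖dv T x‖ₑ * ‖v x - ∫ h, ρ h • v (x + h)‖ₑ := by
            rw [← ofReal_norm, ← ofReal_norm, ← ofReal_norm, ← ENNReal.ofReal_mul (norm_nonneg _)]
            exact ENNReal.ofReal_le_ofReal (norm_inner_le_norm _ _)
        _ ≤ _ := by
            gcongr
            · rw [← ofReal_norm]; exact ENNReal.ofReal_le_ofReal (hB' x)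
            · exact hdiff x
    · rw [Set.indicator_of_notMem hx, hdz x hx, inner_zero_left]
      simp
  set K1 : Set (Eu n) := K + Metric.closedBall (0 : Eu n) 1 with hK1
  have hK1c : IsCompact K1 := hK.add (isCompact_closedBall _ _)
  have hW0 : ∀ x ∉ K1, ∫ h, ρ h • dv T (x - h) = 0 := by
    intro x hx
    have : ∀ h, ρ h • dv T (x - h) = 0 := by
      intro h
      by_cases h1 : 1 ≤ ‖h‖
      · rw [hρ0 h h1, zero_smul]
      · rw [hdz (x - h) (fun hmem => hx ?_), smul_zero]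
        exact Set.mem_add.2 ⟨x - h, hmem, h, by simpa using (not_le.1 h1).le, sub_add_cancel _ _⟩
    simp_rw [this]
    simp
  have hBd : ‖∫ x, (inner ℝ (∫ h, ρ h • dv T (x - h)) (v x) : ℝ)‖ₑ ≤
      ENNReal.ofReal (δ * C) * volume K1 := by
    refine (enorm_integral_le_lintegral_enorm _).trans ?_
    calc ∫⁻ x, ‖(inner ℝ (∫ h, ρ h • dv T (x - h)) (v x) : ℝ)‖ₑ
        ≤ ∫⁻ x in K1, ENNReal.ofReal (δ * C) * ‖v x‖ₑ := by
          rw [← lintegral_indicator hK1c.measurableSet]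
          refine lintegral_mono fun x => ?_
          by_cases hx : x ∈ K1
          · rw [Set.indicator_of_mem hx, ← ofReal_norm, ← ofReal_norm,
              ← ENNReal.ofReal_mul (by positivity)]
            refine ENNReal.ofReal_le_ofReal ((norm_inner_le_norm _ _).trans ?_)
            gcongr
            exact WspA.conv_dv ρ hρ hc T hT δ hδ x
          · rw [Set.indicator_of_notMem hx, hW0 x hx, inner_zero_left]
            simp
      _ = ENNReal.ofReal (δ * C) * ∫⁻ x in K1, ‖v x‖ₑ :=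
          lintegral_const_mul' _ _ ENNReal.ofReal_ne_top
      _ ≤ _ := by
          gcongr
          refine (lintegral_mono hv3).trans ?_
          rw [setLIntegral_const, one_mul]
  rw [hsplit]
  exact (enorm_add_le _ _).trans (add_le_add hA hBd)


lemma small {α t : ℝ} (hα : 0 < α) (ht : 0 < t) (ht1 : t ≤ 1) (K : Set (Eu n))
    (v : Eu n → Eu n) (hv : ∀ x h, ‖h‖ < 1 → ‖v (x + h) - v x‖ ≤ ‖h‖ ^ α)
    (ρ : Eu n → ℝ) (hρc : Continuous ρ) (hc : HasCompactSupport ρ) (hρnn : ∀ h, 0 ≤ ρ h)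
    (hρ0 : ∀ h, t ≤ ‖h‖ → ρ h = 0) (hint : ∫ h, ρ h = 1) :
    ∫⁻ x in K, ∫⁻ h, ‖ρ h‖ₑ * ‖v (x + h) - v x‖ₑ ≤ ENNReal.ofReal (t ^ α) * volume K := by
  have h1 : ∫⁻ h, ‖ρ h‖ₑ = 1 := by
    have h2 : ∫⁻ h, ‖ρ h‖ₑ = ∫⁻ h, ENNReal.ofReal (ρ h) :=
      lintegral_congr fun h => Real.enorm_of_nonneg (hρnn h)
    rw [h2, ← ofReal_integral_eq_lintegral_ofReal (hρc.integrable_of_hasCompactSupport hc)
      (Filter.Eventually.of_forall hρnn), hint, ENNReal.ofReal_one]
  have h3 : ∀ x, ∫⁻ h, ‖ρ h‖ₑ * ‖v (x + h) - v x‖ₑ ≤ ENNReal.ofReal (t ^ α) := by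
    intro x
    calc ∫⁻ h, ‖ρ h‖ₑ * ‖v (x + h) - v x‖ₑ
        ≤ ∫⁻ h, ‖ρ h‖ₑ * ENNReal.ofReal (t ^ α) := by
          refine lintegral_mono fun h => ?_
          by_cases hh : t ≤ ‖h‖
          · rw [hρ0 h hh]; simp
          · have hh' := not_le.1 hh
            gcongr
            rw [← ofReal_norm]
            refine ENNReal.ofReal_le_ofReal ((hv x h (hh'.trans_le ht1)).trans ?_)
            exact Real.rpow_le_rpow (norm_nonneg _) hh'.le hα.le
      _ = (∫⁻ h, ‖ρ h‖ₑ) * ENNReal.ofReal (t ^ α) :=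
          lintegral_mul_const' _ _ ENNReal.ofReal_ne_top
      _ = _ := by rw [h1, one_mul]
  refine (lintegral_mono h3).trans ?_
  rw [setLIntegral_const]

end W1nA

theorem w1_lp (hs : s < 0) {u : Eu n → Eu n} (hu : Continuous u) : w1E s u ≤ ∫⁻ x, ‖u x‖ₑ := by
  rw [W1nA.w1_neg hs]
  refine iSup₂_le fun v hv => ?_
  refine (WRA.inner_le u v).trans (lintegral_mono fun x => ?_)
  calc ‖u x‖ₑ * ‖v x‖ₑ ≤ ‖u x‖ₑ * 1 := by gcongr; exact W1nA.bd hv.2.2 x
    _ = ‖u x‖ₑ := mul_one _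

theorem w1_add (hs : s < 0) {u v : Eu n → Eu n} (hu : Continuous u) (hv : Continuous v)
    (cu : HasCompactSupport u) (cv : HasCompactSupport v) :
    w1E s (fun x => u x + v x) ≤ w1E s u + w1E s v := by
  rw [W1nA.w1_neg hs]
  refine iSup₂_le fun w hw => ?_
  have hwc : Continuous w := hw.1.continuous
  have h1 : ∫ x, (inner ℝ (u x + v x) (w x) : ℝ) =
      (∫ x, (inner ℝ (u x) (w x) : ℝ)) + ∫ x, (inner ℝ (v x) (w x) : ℝ) := by
    rw [← integral_add (WRA.inner_integrable u w hu hwc cu) (WRA.inner_integrable v w hv hwc cv)]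
    congr 1
    ext1 x
    rw [inner_add_left]
  rw [h1]
  refine (ENNReal.ofReal_le_ofReal (abs_add_le _ _)).trans ?_
  rw [ENNReal.ofReal_add (abs_nonneg _) (abs_nonneg _)]
  refine add_le_add ?_ ?_
  · rw [W1nA.w1_neg hs]
    exact le_iSup₂ (f := fun (v : Eu n → Eu n) (_ : W1nA.Tst (-s) v) =>
      ENNReal.ofReal |∫ x, (inner ℝ (u x) (v x) : ℝ)|) w hw
  · rw [W1nA.w1_neg hs]
    exact le_iSup₂ (f := fun (w : Eu n → Eu n) (_ : W1nA.Tst (-s) w) =>
      ENNReal.ofReal |∫ x, (inner ℝ (v x) (w x) : ℝ)|) w hw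

theorem w1_smul (hs : s < 0) (c : ℝ) (u : Eu n → Eu n) :
    w1E s (fun x => c • u x) = ENNReal.ofReal |c| * w1E s u := by
  rw [W1nA.w1_neg hs, W1nA.w1_neg hs]
  simp only [ENNReal.mul_iSup]
  refine iSup_congr fun v => iSup_congr fun _ => ?_
  rw [← ENNReal.ofReal_mul (abs_nonneg c), ← abs_mul, ← integral_const_mul]
  simp_rw [real_inner_smul_left]

open scoped Pointwise in
theorem w1_weak (hn : 1 ≤ n) (hs : s < 0) {K : Set (Eu n)} (hK : IsCompact K) (B ε : ℝ)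
    (hε : 0 < ε) : ∃ δ : ℝ, 0 < δ ∧ ∀ T : Eu n → (Eu n →L[ℝ] Eu n), ContDiff ℝ ∞ T →
    (∀ y ∉ K, T y = 0) → (∀ y, ‖dv T y‖ ≤ B) → (∀ y, ‖T y‖ ≤ δ) →
    w1E s (dv T) ≤ ENNReal.ofReal ε := by
  set r : ℝ := -s with hr
  have hr0 : 0 < r := by rw [hr]; linarith
  set α : ℝ := min r 1 with hα
  have hα0 : 0 < α := lt_min hr0 one_pos
  set V : ℝ := (volume : Measure (Eu n)).real K with hV
  have hV0 : 0 ≤ V := measureReal_nonneg
  have hVe : (volume : Measure (Eu n)) K = ENNReal.ofReal V := by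
    rw [hV, measureReal_def, ENNReal.ofReal_toReal hK.measure_lt_top.ne]
  set K1 : Set (Eu n) := K + Metric.closedBall (0 : Eu n) 1 with hK1
  have hK1c : IsCompact K1 := hK.add (isCompact_closedBall _ _)
  set V1 : ℝ := (volume : Measure (Eu n)).real K1 with hV1
  have hV10 : 0 ≤ V1 := measureReal_nonneg
  have hV1e : (volume : Measure (Eu n)) K1 = ENNReal.ofReal V1 := by
    rw [hV1, measureReal_def, ENNReal.ofReal_toReal hK1c.measure_lt_top.ne]
  set B' : ℝ := max B 1 with hB'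
  have hB'pos : 0 < B' := lt_of_lt_of_le one_pos (le_max_right _ _)
  set t : ℝ := min 1 ((ε / (2 * B' * (V + 1))) ^ (1 / α)) with ht
  have ht0 : 0 < t := lt_min one_pos (by positivity)
  have ht1 : t ≤ 1 := min_le_left _ _
  have htα : t ^ α ≤ ε / (2 * B' * (V + 1)) := by
    have h1 : t ^ α ≤ ((ε / (2 * B' * (V + 1))) ^ (1 / α)) ^ α :=
      Real.rpow_le_rpow ht0.le (min_le_right _ _) hα0.le
    rwa [← Real.rpow_mul (by positivity), one_div_mul_cancel hα0.ne', Real.rpow_one] at h1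
  obtain ⟨ρ, hρ, hc, hρnn, hρ0, hint⟩ := W1nA.bump n t ht0
  set C : ℝ := ∑ j : Fin n, ∫ h, ‖fderiv ℝ ρ h (ev j)‖ with hC
  have hC0 : 0 ≤ C := Finset.sum_nonneg fun j _ => integral_nonneg fun h => norm_nonneg _
  refine ⟨ε / (2 * (C + 1) * (V1 + 1)), by positivity, fun T hT h0 hTB hTδ => ?_⟩
  rw [W1nA.w1_neg hs]
  refine iSup₂_le fun v hv => ?_
  obtain ⟨hv1, hv2, hv3⟩ := hv
  rw [← Real.norm_eq_abs, ofReal_norm]
  have h1 := W1nA.main_est K hK T hT h0 B' (ε / (2 * (C + 1) * (V1 + 1))) (by positivity)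
    (fun x => (hTB x).trans (le_max_left _ _)) hTδ v hv1 hv2 (W1nA.bd hv3) ρ hρ hc
    (fun h hh => hρ0 h (ht1.trans hh)) hint
  have h2 := W1nA.small hα0 ht0 ht1 K v (fun x h hh => W1nA.hold hr0 hv1 hv3 x h hh) ρ
    hρ.continuous hc hρnn hρ0 hint
  refine h1.trans (le_trans (add_le_add (mul_le_mul_right h2 _) le_rfl) ?_)
  rw [hVe, hV1e, ← ENNReal.ofReal_mul (by positivity), ← ENNReal.ofReal_mul (by positivity),
    ← ENNReal.ofReal_mul (by positivity), ← ENNReal.ofReal_add (by positivity) (by positivity)]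
  apply ENNReal.ofReal_le_ofReal
  have e2 : B' * (t ^ α * V) ≤ ε / 2 := by
    calc B' * (t ^ α * V) ≤ B' * (ε / (2 * B' * (V + 1)) * V) := by gcongr
      _ = ε / 2 * (V / (V + 1)) := by field_simp
      _ ≤ ε / 2 * 1 := by
          gcongr
          rw [div_le_one (by positivity)]; linarith
      _ = ε / 2 := mul_one _
  have e3 : ε / (2 * (C + 1) * (V1 + 1)) * C * V1 ≤ ε / 2 := by
    calc ε / (2 * (C + 1) * (V1 + 1)) * C * V1 = ε / 2 * ((C / (C + 1)) * (V1 / (V1 + 1))) := by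
          field_simp
      _ ≤ ε / 2 * (1 * 1) := by
          gcongr
          · rw [div_le_one (by positivity)]; linarith
          · rw [div_le_one (by positivity)]; linarith
      _ = ε / 2 := by ring
  linarith

end

end Pool.Agent.H68.ST
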